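import Pool.Agent.Lib_helper68.GL2.BR1

/-!
# Block B2 (INC): incomplete sums of inverses
-/

namespace Pool.Agent.GL2

open Complex

/-- the sum over all additive characters -/
theorem b2_orth {p : ℕ} [Fact p.Prime] (x y : ZMod p) :
    ∑ t : ZMod p, (ZMod.stdAddChar (N := p) (t * (x - y)) : ℂ) = if x = y then (p : ℂ) else 0 := by
  have h := AddChar.sum_mulShift (R := ZMod p) (R' := ℂ) (x - y) (ZMod.isPrimitive_stdAddChar p)
  rw [h]
  simp only [ZMod.card, sub_eq_zero]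
  split_ifs <;> simp

/-- the distance of a non-trivial root of unity to one -/
theorem b2_sub_one {p : ℕ} [Fact p.Prime] (n : ℕ) (hn : 0 < n) (hnp : n < p) :
    0 < ‖(ZMod.stdAddChar (N := p) (-(n : ZMod p)) : ℂ) - 1‖ ∧
    ‖(ZMod.stdAddChar (N := p) (-(n : ZMod p)) : ℂ) - 1‖⁻¹ ≤
      p / 4 * (1 / n + 1 / (p - n : ℕ) : ℝ) := by
  have hp : (0 : ℝ) < p := by exact_mod_cast (Fact.out : p.Prime).pos
  have hn' : (0 : ℝ) < n := by exact_mod_cast hn
  have hm : (0 : ℝ) < (p - n : ℕ) := by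
    have : 0 < p - n := by omega
    exact_mod_cast this
  have hpn : ((p - n : ℕ) : ℝ) = p - n := by
    rw [Nat.cast_sub hnp.le]
  have h1 : ‖(ZMod.stdAddChar (N := p) (-(n : ZMod p)) : ℂ) - 1‖ =
      2 * |Real.sin (Real.pi * n / p)| := by
    have h2 : (-(n : ZMod p)) = ((-(n : ℤ) : ℤ) : ZMod p) := by push_cast; rfl
    rw [h2, ZMod.stdAddChar_coe]
    have h3 : (2 * Real.pi * I * ((-(n : ℤ) : ℤ) : ℂ) / (p : ℂ)) =
        I * ((-(2 * Real.pi * n / p) : ℝ) : ℂ) := by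
      push_cast
      ring
    rw [h3, norm_exp_I_mul_ofReal_sub_one]
    have h4 : (-(2 * Real.pi * n / p)) / 2 = -(Real.pi * n / p) := by ring
    rw [h4, Real.sin_neg, norm_mul, norm_neg, Real.norm_eq_abs, Real.norm_eq_abs, abs_two]
  have key : 0 < ‖(ZMod.stdAddChar (N := p) (-(n : ZMod p)) : ℂ) - 1‖ ∧
      (4 * n / p ≤ ‖(ZMod.stdAddChar (N := p) (-(n : ZMod p)) : ℂ) - 1‖ ∨
       4 * ((p - n : ℕ) : ℝ) / p ≤ ‖(ZMod.stdAddChar (N := p) (-(n : ZMod p)) : ℂ) - 1‖) := by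
    rw [h1]
    rcases le_total (2 * n) p with h | h
    · have h' : 2 * (n : ℝ) ≤ p := by exact_mod_cast h
      have h5 := Real.mul_le_sin (x := Real.pi * n / p) (by positivity) (by
        rw [div_le_div_iff₀ hp two_pos]
        nlinarith [Real.pi_pos])
      have h6 : 2 / Real.pi * (Real.pi * n / p) = 2 * n / p := by
        field_simp
      rw [h6] at h5
      have h7 : (0 : ℝ) < 2 * n / p := by positivity
      rw [abs_of_pos (h7.trans_le h5)]
      refine ⟨by linarith, Or.inl ?_⟩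
      have : 4 * (n : ℝ) / p = 2 * (2 * n / p) := by ring
      linarith
    · have h' : (p : ℝ) ≤ 2 * n := by exact_mod_cast h
      have h5 := Real.mul_le_sin (x := Real.pi * (p - n : ℕ) / p) (by positivity) (by
        rw [div_le_div_iff₀ hp two_pos, hpn]
        nlinarith [Real.pi_pos])
      have h6 : 2 / Real.pi * (Real.pi * (p - n : ℕ) / p) = 2 * (p - n : ℕ) / p := by
        field_simp
      rw [h6] at h5
      have h8 : Real.sin (Real.pi * (p - n : ℕ) / p) = Real.sin (Real.pi * n / p) := by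
        rw [hpn, ← Real.sin_pi_sub]
        congr 1
        field_simp
        ring
      rw [h8] at h5
      have h7 : (0 : ℝ) < 2 * (p - n : ℕ) / p := by positivity
      rw [abs_of_pos (h7.trans_le h5)]
      refine ⟨by linarith, Or.inr ?_⟩
      have : 4 * ((p - n : ℕ) : ℝ) / p = 2 * (2 * (p - n : ℕ) / p) := by ring
      linarith
  refine ⟨key.1, ?_⟩
  rcases key.2 with h | h
  · refine (inv_anti₀ (by positivity) h).trans ?_
    have : (4 * (n : ℝ) / p)⁻¹ = p / 4 * (1 / n) := by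
      field_simp
    rw [this]
    refine mul_le_mul_of_nonneg_left ?_ (by positivity)
    have : (0 : ℝ) < 1 / (p - n : ℕ) := by positivity
    linarith
  · refine (inv_anti₀ (by positivity) h).trans ?_
    have : (4 * ((p - n : ℕ) : ℝ) / p)⁻¹ = p / 4 * (1 / (p - n : ℕ)) := by
      field_simp
    rw [this]
    refine mul_le_mul_of_nonneg_left ?_ (by positivity)
    have : (0 : ℝ) < 1 / n := by positivity
    linarith

theorem b2_geom {p : ℕ} [Fact p.Prime] (b : ZMod p) (n : ℕ) (hn : 0 < n) (hnp : n < p) (J : ℕ) :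
    ‖∑ j ∈ Finset.range J, (ZMod.stdAddChar (N := p) ((n : ZMod p) * -(b + (j : ZMod p))) : ℂ)‖ ≤
      p / 2 * (1 / n + 1 / (p - n : ℕ) : ℝ) := by
  obtain ⟨h0, h1⟩ := b2_sub_one (p := p) n hn hnp
  set w : ℂ := (ZMod.stdAddChar (N := p) (-(n : ZMod p)) : ℂ) with hw
  have hw1 : w ≠ 1 := by
    intro h
    rw [h, sub_self, norm_zero] at h0
    exact lt_irrefl _ h0
  have h2 : ∑ j ∈ Finset.range J, (ZMod.stdAddChar (N := p) ((n : ZMod p) * -(b + (j : ZMod p))) : ℂ) =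
      (ZMod.stdAddChar (N := p) (-(n : ZMod p) * b) : ℂ) * ∑ j ∈ Finset.range J, w ^ j := by
    rw [Finset.mul_sum]
    refine Finset.sum_congr rfl fun j _ => ?_
    rw [hw, ← AddChar.map_nsmul_eq_pow, ← AddChar.map_add_eq_mul]
    congr 1
    rw [nsmul_eq_mul]
    ring
  have hnw : ‖w‖ = 1 := by
    rw [hw]
    exact AddChar.norm_apply _ _
  have h3 : ‖(ZMod.stdAddChar (N := p) (-(n : ZMod p) * b) : ℂ)‖ = 1 := AddChar.norm_apply _ _
  rw [h2, norm_mul, h3, one_mul, geom_sum_eq hw1, norm_div, div_eq_mul_inv]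
  have h4 : ‖w ^ J - 1‖ ≤ 2 := by
    refine (norm_sub_le _ _).trans ?_
    rw [norm_pow, hnw, one_pow, norm_one]
    norm_num
  calc ‖w ^ J - 1‖ * ‖w - 1‖⁻¹ ≤ 2 * (p / 4 * (1 / n + 1 / (p - n : ℕ) : ℝ)) :=
        mul_le_mul h4 h1 (by positivity) (by norm_num)
    _ = _ := by ring

theorem b2_sum_zmod {p : ℕ} [Fact p.Prime] (f : ZMod p → ℝ) :
    ∑ t : ZMod p, f t = f 0 + ∑ n ∈ Finset.Ico 1 p, f (n : ZMod p) := by
  have hp := (Fact.out : p.Prime).pos
  have h1 : ∑ t : ZMod p, f t = ∑ n ∈ Finset.range p, f (n : ZMod p) := by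
    refine Finset.sum_nbij' (fun t => t.val) (fun n => (n : ZMod p)) ?_ ?_ ?_ ?_ ?_
    · intro t _
      exact Finset.mem_range.2 (ZMod.val_lt t)
    · intro n _
      exact Finset.mem_univ _
    · intro t _
      exact ZMod.natCast_zmod_val t
    · intro n hn
      exact ZMod.val_natCast_of_lt (Finset.mem_range.1 hn)
    · intro t _
      rw [ZMod.natCast_zmod_val]
  rw [h1, Finset.range_eq_Ico, Finset.sum_eq_sum_Ico_succ_bot hp]
  simp

theorem b2_harm (p : ℕ) (hp : 1 ≤ p) :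
    ∑ n ∈ Finset.Ico 1 p, (1 / n + 1 / (p - n : ℕ) : ℝ) ≤ 2 * (1 + Real.log p) := by
  have h1 : ∑ n ∈ Finset.Ico 1 p, (1 / ((p - n : ℕ) : ℝ)) = ∑ n ∈ Finset.Ico 1 p, (1 / (n : ℝ)) := by
    have h := Finset.sum_Ico_reflect (fun n : ℕ => (1 / (n : ℝ))) 1 (m := p) (n := p) (by omega)
    rw [h]
    congr 2
    omega
  rw [Finset.sum_add_distrib, h1]
  have h2 : ∑ n ∈ Finset.Ico 1 p, (1 / (n : ℝ)) ≤ 1 + Real.log p := by
    refine le_trans ?_ (harmonic_le_one_add_log p)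
    rw [harmonic_eq_sum_Icc]
    push_cast
    refine (Finset.sum_le_sum_of_subset_of_nonneg (t := Finset.Icc 1 p) ?_ ?_).trans (le_of_eq ?_)
    · intro n hn
      rw [Finset.mem_Ico] at hn
      rw [Finset.mem_Icc]
      omega
    · intro i _ _
      positivity
    · refine Finset.sum_congr rfl fun i _ => ?_
      rw [one_div]
  linarith

theorem b2_main {p : ℕ} [Fact p.Prime] (α b : ZMod p) (J : ℕ) (hJ : J ≤ p) (M : ℝ) (hM : 0 ≤ M)
    (hK : ∀ t : ZMod p, ‖∑ x ∈ (Finset.univ.filter (fun x : ZMod p => x ≠ 0)),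
      (ZMod.stdAddChar (N := p) (α * x⁻¹ + t * x) : ℂ)‖ ≤ M) :
    ‖∑ j ∈ (Finset.range J).filter (fun j : ℕ => b + (j : ZMod p) ≠ 0),
      (ZMod.stdAddChar (N := p) (α * (b + (j : ZMod p))⁻¹) : ℂ)‖ ≤ M * (3 + Real.log p) := by
  have hp : (0 : ℝ) < p := by exact_mod_cast (Fact.out : p.Prime).pos
  have hpC : (p : ℂ) ≠ 0 := by exact_mod_cast hp.ne'
  -- completion
  have hcomp : (p : ℂ) * ∑ j ∈ (Finset.range J).filter (fun j : ℕ => b + (j : ZMod p) ≠ 0),
      (ZMod.stdAddChar (N := p) (α * (b + (j : ZMod p))⁻¹) : ℂ) =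
      ∑ t : ZMod p, (∑ j ∈ Finset.range J,
        (ZMod.stdAddChar (N := p) (t * -(b + (j : ZMod p))) : ℂ)) *
        ∑ x ∈ (Finset.univ.filter (fun x : ZMod p => x ≠ 0)),
          (ZMod.stdAddChar (N := p) (α * x⁻¹ + t * x) : ℂ) := by
    have h1 : ∀ t : ZMod p, (∑ j ∈ Finset.range J,
        (ZMod.stdAddChar (N := p) (t * -(b + (j : ZMod p))) : ℂ)) *
        ∑ x ∈ (Finset.univ.filter (fun x : ZMod p => x ≠ 0)),
          (ZMod.stdAddChar (N := p) (α * x⁻¹ + t * x) : ℂ) =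
        ∑ j ∈ Finset.range J, ∑ x ∈ (Finset.univ.filter (fun x : ZMod p => x ≠ 0)),
          (ZMod.stdAddChar (N := p) (α * x⁻¹) : ℂ) *
            (ZMod.stdAddChar (N := p) (t * (x - (b + (j : ZMod p)))) : ℂ) := by
      intro t
      rw [Finset.sum_mul_sum]
      refine Finset.sum_congr rfl fun j _ => Finset.sum_congr rfl fun x _ => ?_
      rw [← AddChar.map_add_eq_mul, ← AddChar.map_add_eq_mul]
      congr 1
      ring
    simp_rw [h1]
    rw [Finset.sum_comm, Finset.mul_sum, Finset.sum_filter]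
    refine Finset.sum_congr rfl fun j _ => ?_
    rw [Finset.sum_comm]
    simp_rw [← Finset.mul_sum, b2_orth]
    simp only [mul_ite, mul_zero]
    rw [Finset.sum_ite_eq' (Finset.univ.filter (fun x : ZMod p => x ≠ 0)) (b + (j : ZMod p))]
    simp only [Finset.mem_filter, Finset.mem_univ, true_and]
    split_ifs
    · ring
    · rfl
  have hc0 : ∀ t : ZMod p, ‖∑ j ∈ Finset.range J,
      (ZMod.stdAddChar (N := p) (t * -(b + (j : ZMod p))) : ℂ)‖ ≤ J := by
    intro t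
    refine (norm_sum_le _ _).trans ?_
    simp
  have hmain : (p : ℝ) * ‖∑ j ∈ (Finset.range J).filter (fun j : ℕ => b + (j : ZMod p) ≠ 0),
      (ZMod.stdAddChar (N := p) (α * (b + (j : ZMod p))⁻¹) : ℂ)‖ ≤
      (∑ t : ZMod p, ‖∑ j ∈ Finset.range J,
        (ZMod.stdAddChar (N := p) (t * -(b + (j : ZMod p))) : ℂ)‖) * M := by
    have : (p : ℝ) = ‖(p : ℂ)‖ := by simp
    rw [this, ← norm_mul, hcomp, Finset.sum_mul]
    refine (norm_sum_le _ _).trans (Finset.sum_le_sum fun t _ => ?_)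
    rw [norm_mul]
    exact mul_le_mul_of_nonneg_left (hK t) (norm_nonneg _)
  have hsum : ∑ t : ZMod p, ‖∑ j ∈ Finset.range J,
        (ZMod.stdAddChar (N := p) (t * -(b + (j : ZMod p))) : ℂ)‖ ≤ p * (3 + Real.log p) := by
    rw [b2_sum_zmod]
    have h2 : ∑ n ∈ Finset.Ico 1 p, ‖∑ j ∈ Finset.range J,
        (ZMod.stdAddChar (N := p) ((n : ZMod p) * -(b + (j : ZMod p))) : ℂ)‖ ≤
        p / 2 * (2 * (1 + Real.log p)) := by
      refine le_trans (Finset.sum_le_sum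
        (g := fun n : ℕ => (p : ℝ) / 2 * (1 / n + 1 / (p - n : ℕ) : ℝ)) fun n hn => ?_) ?_
      · rw [Finset.mem_Ico] at hn
        exact b2_geom b n hn.1 hn.2 J
      · rw [← Finset.mul_sum]
        exact mul_le_mul_of_nonneg_left (b2_harm p (Fact.out : p.Prime).one_le) (by positivity)
    have h3 := hc0 0
    have h4 : (J : ℝ) ≤ p := by exact_mod_cast hJ
    nlinarith
  have h5 := hmain.trans (mul_le_mul_of_nonneg_right hsum hM)
  have h6 : (p : ℝ) * (‖∑ j ∈ (Finset.range J).filter (fun j : ℕ => b + (j : ZMod p) ≠ 0),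
      (ZMod.stdAddChar (N := p) (α * (b + (j : ZMod p))⁻¹) : ℂ)‖) ≤ p * (M * (3 + Real.log p)) := by
    linarith
  exact le_of_mul_le_mul_left h6 hp

/-- block B2 (INC): incomplete sums of inverses -/
theorem incomplete_pr {p : ℕ} [Fact p.Prime] (α b : ZMod p) (hα : α ≠ 0) (J : ℕ) (hJ : J ≤ p) :
    ‖∑ j ∈ (Finset.range J).filter (fun j : ℕ => b + (j : ZMod p) ≠ 0),
      (ZMod.stdAddChar (N := p) (α * (b + (j : ZMod p))⁻¹) : ℂ)‖ ≤
      2 * (p : ℝ) ^ (3 / 4 : ℝ) * (3 + Real.log p) :=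
  b2_main α b J hJ _ (by positivity) fun t => kloosterman α t hα

end Pool.Agent.GL2
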