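import Pool.Agent.Lib_helper68.GL2.DefsB

/-! block B1 (KLS): Kloosterman's bound by the fourth moment. -/

namespace Pool.Agent.GL2

open Complex Finset

section B1

variable {p : ℕ} [Fact p.Prime]

/-- nonzero residues -/
noncomputable def b1_S (p : ℕ) [Fact p.Prime] : Finset (ZMod p) :=
  Finset.univ.filter (fun x : ZMod p => x ≠ 0)

lemma b1_mem {x : ZMod p} : x ∈ b1_S p ↔ x ≠ 0 := by simp [b1_S]

lemma b1_card : (b1_S p).card = p - 1 := by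
  have h : b1_S p = Finset.univ.erase (0 : ZMod p) := by
    ext x; simp [b1_S]
  rw [h, Finset.card_erase_of_mem (Finset.mem_univ _), Finset.card_univ, ZMod.card]

/-- Kloosterman sum -/
noncomputable def b1_K (a b : ZMod p) : ℂ :=
  ∑ x ∈ b1_S p, (ZMod.stdAddChar (N := p) (a * x⁻¹ + b * x) : ℂ)

lemma b1_scale (a b s : ZMod p) (hs : s ≠ 0) : b1_K (a * s⁻¹) (b * s) = b1_K a b := by
  unfold b1_K
  refine Finset.sum_nbij' (fun y => s * y) (fun y => s⁻¹ * y) ?_ ?_ ?_ ?_ ?_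
  · intro y hy; rw [b1_mem] at *; exact mul_ne_zero hs hy
  · intro y hy; rw [b1_mem] at *; exact mul_ne_zero (inv_ne_zero hs) hy
  · intro y hy; rw [← mul_assoc, inv_mul_cancel₀ hs, one_mul]
  · intro y hy; rw [← mul_assoc, mul_inv_cancel₀ hs, one_mul]
  · intro y hy
    congr 1
    rw [mul_inv]; ring

lemma b1_sq (a b : ZMod p) : (b1_K a b) ^ 2 = ∑ q ∈ b1_S p ×ˢ b1_S p,
    (ZMod.stdAddChar (N := p) (a * (q.1⁻¹ + q.2⁻¹) + b * (q.1 + q.2)) : ℂ) := by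
  rw [pow_two, b1_K, Finset.sum_mul_sum, Finset.sum_product]
  refine Finset.sum_congr rfl fun x _ => Finset.sum_congr rfl fun y _ => ?_
  rw [← AddChar.map_add_eq_mul]
  congr 1; ring

lemma b1_four (a b : ZMod p) : ((‖b1_K a b‖ ^ 4 : ℝ) : ℂ) =
    ∑ q ∈ b1_S p ×ˢ b1_S p, ∑ q' ∈ b1_S p ×ˢ b1_S p,
    (ZMod.stdAddChar (N := p) (a * ((q.1⁻¹ + q.2⁻¹) - (q'.1⁻¹ + q'.2⁻¹))) : ℂ) *
      (ZMod.stdAddChar (N := p) (b * ((q.1 + q.2) - (q'.1 + q'.2))) : ℂ) := by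
  have h1 : ((‖b1_K a b‖ ^ 4 : ℝ) : ℂ) = (b1_K a b) ^ 2 * (starRingEnd ℂ) ((b1_K a b) ^ 2) := by
    rw [Complex.mul_conj, Complex.normSq_eq_norm_sq, norm_pow]
    push_cast; ring
  rw [h1, b1_sq, map_sum, Finset.sum_mul_sum]
  refine Finset.sum_congr rfl fun q _ => Finset.sum_congr rfl fun q' _ => ?_
  rw [← AddChar.map_neg_eq_conj, ← AddChar.map_add_eq_mul, ← AddChar.map_add_eq_mul]
  congr 1; ring

lemma b1_sum_char (c : ZMod p) :
    ∑ a : ZMod p, (ZMod.stdAddChar (N := p) (a * c) : ℂ) = if c = 0 then (p : ℂ) else 0 := by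
  have h := AddChar.sum_mulShift (ψ := ZMod.stdAddChar (N := p)) c (ZMod.isPrimitive_stdAddChar p)
  rw [h, ZMod.card]
  split_ifs <;> simp

open Classical in
lemma b1_moment : ((∑ a : ZMod p, ∑ b : ZMod p, ‖b1_K a b‖ ^ 4 : ℝ) : ℂ) =
    ∑ q ∈ b1_S p ×ˢ b1_S p, ∑ q' ∈ b1_S p ×ˢ b1_S p,
      (if (q.1⁻¹ + q.2⁻¹) - (q'.1⁻¹ + q'.2⁻¹) = 0 then (p : ℂ) else 0) *
      (if (q.1 + q.2) - (q'.1 + q'.2) = 0 then (p : ℂ) else 0) := by
  push_cast
  have : ∀ a b : ZMod p, ((‖b1_K a b‖ : ℂ) ^ 4) = ∑ q ∈ b1_S p ×ˢ b1_S p, ∑ q' ∈ b1_S p ×ˢ b1_S p,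
    (ZMod.stdAddChar (N := p) (a * ((q.1⁻¹ + q.2⁻¹) - (q'.1⁻¹ + q'.2⁻¹))) : ℂ) *
      (ZMod.stdAddChar (N := p) (b * ((q.1 + q.2) - (q'.1 + q'.2))) : ℂ) := by
    intro a b
    rw [← b1_four]; push_cast; rfl
  simp_rw [this]
  have h2 : ∀ a : ZMod p, (∑ b : ZMod p, ∑ q ∈ b1_S p ×ˢ b1_S p, ∑ q' ∈ b1_S p ×ˢ b1_S p,
    (ZMod.stdAddChar (N := p) (a * ((q.1⁻¹ + q.2⁻¹) - (q'.1⁻¹ + q'.2⁻¹))) : ℂ) *
      (ZMod.stdAddChar (N := p) (b * ((q.1 + q.2) - (q'.1 + q'.2))) : ℂ)) =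
      ∑ q ∈ b1_S p ×ˢ b1_S p, ∑ q' ∈ b1_S p ×ˢ b1_S p,
      (ZMod.stdAddChar (N := p) (a * ((q.1⁻¹ + q.2⁻¹) - (q'.1⁻¹ + q'.2⁻¹))) : ℂ) *
      (if (q.1 + q.2) - (q'.1 + q'.2) = 0 then (p : ℂ) else 0) := by
    intro a
    rw [Finset.sum_comm]
    refine Finset.sum_congr rfl fun q _ => ?_
    rw [Finset.sum_comm]
    refine Finset.sum_congr rfl fun q' _ => ?_
    rw [← Finset.mul_sum, b1_sum_char]
  simp_rw [h2]
  rw [Finset.sum_comm]
  refine Finset.sum_congr rfl fun q _ => ?_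
  rw [Finset.sum_comm]
  refine Finset.sum_congr rfl fun q' _ => ?_
  rw [← Finset.sum_mul, b1_sum_char]

open Classical in
lemma b1_moment_real : (∑ a : ZMod p, ∑ b : ZMod p, ‖b1_K a b‖ ^ 4 : ℝ) =
    ∑ q ∈ b1_S p ×ˢ b1_S p, (p : ℝ) ^ 2 * (((b1_S p ×ˢ b1_S p).filter
      (fun q' : ZMod p × ZMod p => (q.1⁻¹ + q.2⁻¹) - (q'.1⁻¹ + q'.2⁻¹) = 0 ∧
        (q.1 + q.2) - (q'.1 + q'.2) = 0)).card : ℝ) := by
  have h := b1_moment (p := p)
  have h3 : (∑ q ∈ b1_S p ×ˢ b1_S p, ∑ q' ∈ b1_S p ×ˢ b1_S p,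
      (if (q.1⁻¹ + q.2⁻¹) - (q'.1⁻¹ + q'.2⁻¹) = 0 then (p : ℂ) else 0) *
      (if (q.1 + q.2) - (q'.1 + q'.2) = 0 then (p : ℂ) else 0)) =
      ((∑ q ∈ b1_S p ×ˢ b1_S p, (p : ℝ) ^ 2 * (((b1_S p ×ˢ b1_S p).filter
      (fun q' : ZMod p × ZMod p => (q.1⁻¹ + q.2⁻¹) - (q'.1⁻¹ + q'.2⁻¹) = 0 ∧
        (q.1 + q.2) - (q'.1 + q'.2) = 0)).card : ℝ) : ℝ) : ℂ) := by
    push_cast
    refine Finset.sum_congr rfl fun q _ => ?_
    rw [Finset.card_filter]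
    push_cast
    rw [Finset.mul_sum]
    refine Finset.sum_congr rfl fun q' _ => ?_
    by_cases h1 : (q.1⁻¹ + q.2⁻¹) - (q'.1⁻¹ + q'.2⁻¹) = 0 <;>
      by_cases h2 : (q.1 + q.2) - (q'.1 + q'.2) = 0 <;> simp [h1, h2, pow_two]
  rw [h3] at h
  exact_mod_cast h

open Classical in
lemma b1_fiber (q : ZMod p × ZMod p) (hq : q ∈ b1_S p ×ˢ b1_S p) :
    ((b1_S p ×ˢ b1_S p).filter
      (fun q' : ZMod p × ZMod p => (q.1⁻¹ + q.2⁻¹) - (q'.1⁻¹ + q'.2⁻¹) = 0 ∧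
        (q.1 + q.2) - (q'.1 + q'.2) = 0)).card ≤ 2 + (if q.2 = - q.1 then p - 1 else 0) := by
  obtain ⟨x, y⟩ := q
  rw [Finset.mem_product, b1_mem, b1_mem] at hq
  obtain ⟨hx, hy⟩ := hq
  simp only at hx hy ⊢
  by_cases hs : y = -x
  · rw [if_pos hs]
    have : ((b1_S p ×ˢ b1_S p).filter
      (fun q' : ZMod p × ZMod p => (x⁻¹ + y⁻¹) - (q'.1⁻¹ + q'.2⁻¹) = 0 ∧
        (x + y) - (q'.1 + q'.2) = 0)) ⊆ (b1_S p).image (fun z => (z, -z)) := by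
      intro q' hq'
      rw [Finset.mem_filter, Finset.mem_product, b1_mem] at hq'
      obtain ⟨⟨hz, _⟩, _, h2⟩ := hq'
      rw [Finset.mem_image]
      refine ⟨q'.1, b1_mem.2 hz, ?_⟩
      have : q'.2 = - q'.1 := by
        rw [hs] at h2
        have : x + -x = 0 := add_neg_cancel x
        rw [this, zero_sub, neg_eq_zero] at h2
        exact (eq_neg_of_add_eq_zero_right h2)
      rw [← this]
    calc _ ≤ _ := Finset.card_le_card this
      _ ≤ (b1_S p).card := Finset.card_image_le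
      _ = p - 1 := b1_card
      _ ≤ _ := by omega
  · rw [if_neg hs, add_zero]
    have : ((b1_S p ×ˢ b1_S p).filter
      (fun q' : ZMod p × ZMod p => (x⁻¹ + y⁻¹) - (q'.1⁻¹ + q'.2⁻¹) = 0 ∧
        (x + y) - (q'.1 + q'.2) = 0)) ⊆ {(x, y), (y, x)} := by
      intro q' hq'
      obtain ⟨z, w⟩ := q'
      rw [Finset.mem_filter, Finset.mem_product, b1_mem, b1_mem] at hq'
      obtain ⟨⟨hz, hw⟩, h1, h2⟩ := hq'
      simp only at hz hw h1 h2
      have hsum : z + w = x + y := by linear_combination -h2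
      have hxy : x + y ≠ 0 := by
        intro h; exact hs (eq_neg_of_add_eq_zero_right h)
      have e1 : (x + y) * (z * w) = (z + w) * (x * y) := by
        have h1' : x⁻¹ + y⁻¹ = z⁻¹ + w⁻¹ := sub_eq_zero.1 h1
        field_simp at h1'
        linear_combination h1'
      rw [hsum] at e1
      have e2 : z * w = x * y := mul_left_cancel₀ hxy e1
      have e3 : (z - x) * (z - y) = 0 := by
        have : w = x + y - z := by linear_combination hsum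
        rw [this] at e2
        linear_combination -e2
      rw [Finset.mem_insert, Finset.mem_singleton]
      rcases mul_eq_zero.1 e3 with h | h
      · left
        have hz' : z = x := sub_eq_zero.1 h
        subst hz'
        have : w = y := by linear_combination hsum
        rw [this]
      · right
        have hz' : z = y := sub_eq_zero.1 h
        subst hz'
        have : w = x := by linear_combination hsum
        rw [this]
    calc _ ≤ _ := Finset.card_le_card this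
      _ ≤ 2 := Finset.card_le_two

lemma b1_moment_le : (∑ a : ZMod p, ∑ b : ZMod p, ‖b1_K a b‖ ^ 4 : ℝ) ≤
    3 * (p : ℝ) ^ 2 * ((p : ℝ) - 1) ^ 2 := by
  classical
  have hp1 : 1 ≤ p := (Fact.out : p.Prime).one_lt.le
  rw [b1_moment_real]
  have hN : ∑ q ∈ b1_S p ×ˢ b1_S p, (2 + (if q.2 = - q.1 then p - 1 else 0) : ℕ) ≤
      3 * ((p - 1) * (p - 1)) := by
    rw [Finset.sum_add_distrib, Finset.sum_const, Finset.card_product, b1_card, smul_eq_mul]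
    have : ∑ q ∈ b1_S p ×ˢ b1_S p, (if q.2 = - q.1 then p - 1 else 0 : ℕ) ≤ (p - 1) * (p - 1) := by
      rw [Finset.sum_product]
      calc ∑ x ∈ b1_S p, ∑ y ∈ b1_S p, (if y = - x then p - 1 else 0 : ℕ)
          ≤ ∑ x ∈ b1_S p, (p - 1) := by
            refine Finset.sum_le_sum fun x _ => ?_
            rw [Finset.sum_ite_eq']
            split_ifs <;> omega
        _ = (p - 1) * (p - 1) := by rw [Finset.sum_const, b1_card, smul_eq_mul]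
    nlinarith
  calc _ ≤ ∑ q ∈ b1_S p ×ˢ b1_S p, (p : ℝ) ^ 2 *
        ((2 + (if q.2 = - q.1 then p - 1 else 0) : ℕ) : ℝ) := by
        refine Finset.sum_le_sum fun q hq => ?_
        refine mul_le_mul_of_nonneg_left ?_ (by positivity)
        exact_mod_cast b1_fiber q hq
    _ = (p : ℝ) ^ 2 * ((∑ q ∈ b1_S p ×ˢ b1_S p, (2 + (if q.2 = - q.1 then p - 1 else 0) : ℕ) : ℕ) : ℝ) := by
        rw [Nat.cast_sum, Finset.mul_sum]
    _ ≤ (p : ℝ) ^ 2 * ((3 * ((p - 1) * (p - 1)) : ℕ) : ℝ) := by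
        refine mul_le_mul_of_nonneg_left ?_ (by positivity)
        exact_mod_cast hN
    _ = 3 * (p : ℝ) ^ 2 * ((p : ℝ) - 1) ^ 2 := by
        push_cast [Nat.cast_sub hp1]
        ring

lemma b1_lower (α t : ZMod p) (hα : α ≠ 0) (ht : t ≠ 0) :
    ((p : ℝ) - 1) * ‖b1_K α t‖ ^ 4 ≤ ∑ a : ZMod p, ∑ b : ZMod p, ‖b1_K a b‖ ^ 4 := by
  classical
  have hp1 : 1 ≤ p := (Fact.out : p.Prime).one_lt.le
  have h1 : ((p : ℝ) - 1) * ‖b1_K α t‖ ^ 4 = ∑ s ∈ b1_S p, ‖b1_K (α * s⁻¹) (t * s)‖ ^ 4 := by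
    have : ∀ s ∈ b1_S p, ‖b1_K (α * s⁻¹) (t * s)‖ ^ 4 = ‖b1_K α t‖ ^ 4 := by
      intro s hs
      rw [b1_scale α t s (b1_mem.1 hs)]
    rw [Finset.sum_congr rfl this, Finset.sum_const, b1_card, nsmul_eq_mul, Nat.cast_sub hp1,
      Nat.cast_one]
  rw [h1]
  have h2 : ∑ a : ZMod p, ∑ b : ZMod p, ‖b1_K a b‖ ^ 4 =
      ∑ q : ZMod p × ZMod p, ‖b1_K q.1 q.2‖ ^ 4 := by
    rw [← Finset.univ_product_univ, Finset.sum_product]
  rw [h2]
  have h3 : ∑ s ∈ b1_S p, ‖b1_K (α * s⁻¹) (t * s)‖ ^ 4 =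
      ∑ q ∈ (b1_S p).image (fun s => (α * s⁻¹, t * s)), ‖b1_K q.1 q.2‖ ^ 4 := by
    rw [Finset.sum_image]
    intro s _ s' _ h
    simp only [Prod.mk.injEq] at h
    exact mul_left_cancel₀ ht h.2
  rw [h3]
  exact Finset.sum_le_sum_of_subset_of_nonneg (Finset.subset_univ _) (fun _ _ _ => by positivity)

lemma b1_zero (α : ZMod p) (hα : α ≠ 0) : b1_K α 0 = -1 := by
  have h1 : b1_K α 0 = ∑ x ∈ b1_S p, (ZMod.stdAddChar (N := p) (x * α) : ℂ) := by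
    unfold b1_K
    refine Finset.sum_nbij' (fun y => y⁻¹) (fun y => y⁻¹) ?_ ?_ ?_ ?_ ?_
    · intro y hy; rw [b1_mem] at *; exact inv_ne_zero hy
    · intro y hy; rw [b1_mem] at *; exact inv_ne_zero hy
    · intro y hy; rw [inv_inv]
    · intro y hy; rw [inv_inv]
    · intro y hy; congr 1; ring
  have h2 := b1_sum_char (p := p) α
  rw [if_neg hα] at h2
  have h3 : b1_S p = Finset.univ.erase (0 : ZMod p) := by
    ext x; simp [b1_S]
  rw [h1, h3, Finset.sum_erase_eq_sub (Finset.mem_univ _), h2, zero_mul, AddChar.map_zero_eq_one]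
  ring

/-- block B1 (KLS): Kloosterman's bound -/
theorem kloosterman_pr {p : ℕ} [Fact p.Prime] (α t : ZMod p) (hα : α ≠ 0) :
    ‖∑ x ∈ (Finset.univ.filter (fun x : ZMod p => x ≠ 0)),
      (ZMod.stdAddChar (N := p) (α * x⁻¹ + t * x) : ℂ)‖ ≤ 2 * (p : ℝ) ^ (3 / 4 : ℝ) := by
  change ‖b1_K α t‖ ≤ _
  have hp1 : (1 : ℝ) < p := by exact_mod_cast (Fact.out : p.Prime).one_lt
  by_cases ht : t = 0
  · rw [ht, b1_zero α hα, norm_neg, norm_one]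
    have : (1 : ℝ) ≤ (p : ℝ) ^ (3 / 4 : ℝ) := Real.one_le_rpow hp1.le (by norm_num)
    linarith
  · have h1 := b1_lower α t hα ht
    have h2 := b1_moment_le (p := p)
    have h3 : ‖b1_K α t‖ ^ 4 ≤ 3 * (p : ℝ) ^ 2 * ((p : ℝ) - 1) := by
      have h4 : ((p : ℝ) - 1) * ‖b1_K α t‖ ^ 4 ≤ ((p : ℝ) - 1) * (3 * (p : ℝ) ^ 2 * ((p : ℝ) - 1)) := by
        calc _ ≤ _ := h1.trans h2
          _ = _ := by ring
      exact le_of_mul_le_mul_left h4 (by linarith)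
    have h5 : ‖b1_K α t‖ ^ 4 ≤ (2 * (p : ℝ) ^ (3 / 4 : ℝ)) ^ 4 := by
      have h6 : ((p : ℝ) ^ (3 / 4 : ℝ)) ^ 4 = (p : ℝ) ^ 3 := by
        rw [← Real.rpow_natCast, ← Real.rpow_mul (by linarith)]
        norm_num
      rw [mul_pow, h6]
      nlinarith [pow_pos (show (0 : ℝ) < p by linarith) 2, pow_pos (show (0 : ℝ) < p by linarith) 3]
    exact le_of_pow_le_pow_left₀ (by norm_num) (by positivity) h5

end B1

end Pool.Agent.GL2
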