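import Pool.Agent.Lib_helper68.GL2.R1

/-! Block HP: strict trivial bound for the Hecke eigenvalues (helper98). -/

namespace Pool.Agent.GL2

open Complex MeasureTheory Filter Topology
open scoped MatrixGroups

theorem HP_norm_term (a : ℕ → ℝ) (n : ℕ) (z : ℂ) :
    ‖(a n : ℂ) * cexp (2 * Real.pi * I * n * z)‖ = |a n| * Real.exp (-(2 * Real.pi * z.im) * n) := by
  rw [norm_mul, Complex.norm_exp, Complex.norm_real, Real.norm_eq_abs]
  congr 2
  simp [Complex.mul_re, Complex.mul_im]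
  ring

theorem HP_summable {k : ℕ} {a : ℕ → ℝ} (H : HData k a) {z : ℂ} (hz : 0 < z.im) :
    Summable (fun n : ℕ => (a n : ℂ) * cexp (2 * Real.pi * I * n * z)) := by
  apply Summable.of_norm
  simp_rw [HP_norm_term]
  exact summable_a H (by positivity)

/-- the Hecke relation on coefficients -/
theorem HP_hecke_coeff {k : ℕ} {a : ℕ → ℝ} (H : HData k a) {p : ℕ} (hp : p.Prime) (n : ℕ) :
    a (p * n) = a p * a n - (if p ∣ n then (p : ℝ) ^ (k - 1) * a (n / p) else 0) := by
  rcases Nat.eq_zero_or_pos n with rfl | hn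
  · simp [H.zero]
  obtain ⟨r, m, hm, rfl⟩ := Nat.exists_eq_pow_mul_and_not_dvd hn.ne' p hp.ne_one
  have hcop : ∀ s, (p ^ s).Coprime m := fun s => Nat.Coprime.pow_left s
    ((Nat.Prime.coprime_iff_not_dvd hp).mpr hm)
  rcases r with _ | r
  · rw [pow_zero, one_mul, if_neg hm, sub_zero]
    have := H.mul (p ^ 1) m (hcop 1)
    rwa [pow_one] at this
  · have h1 : p * (p ^ (r + 1) * m) = p ^ (r + 2) * m := by ring
    have h2 : p ∣ p ^ (r + 1) * m := Dvd.dvd.mul_right (dvd_pow_self p (by omega)) m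
    have h3 : p ^ (r + 1) * m / p = p ^ r * m := by
      rw [pow_succ, mul_assoc, mul_comm (p ^ r), mul_assoc, Nat.mul_div_cancel_left _ hp.pos,
        mul_comm]
    rw [if_pos h2, h3, h1, H.mul _ _ (hcop _), H.mul _ _ (hcop _), H.mul _ _ (hcop _),
      H.hecke p r hp]
    ring

/-- sum of the additive characters -/
theorem HP_sum_char {p : ℕ} (hp : 0 < p) (n : ℕ) (z : ℂ) :
    ∑ b ∈ Finset.range p, cexp (2 * Real.pi * I * n * ((z + b) / p)) =
      if p ∣ n then (p : ℂ) * cexp (2 * Real.pi * I * (n / p : ℕ) * z) else 0 := by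
  have hp0 : (p : ℂ) ≠ 0 := by exact_mod_cast hp.ne'
  have h1 : ∀ b : ℕ, cexp (2 * Real.pi * I * n * ((z + b) / p)) =
      cexp (2 * Real.pi * I * n * z / p) * (cexp (2 * Real.pi * I * (n / p))) ^ b := by
    intro b
    rw [← Complex.exp_nat_mul, ← Complex.exp_add]
    congr 1
    field_simp
  simp_rw [h1]
  rw [← Finset.mul_sum]
  split_ifs with hd
  · obtain ⟨m, rfl⟩ := hd
    rw [Nat.mul_div_cancel_left _ hp]
    have h2 : cexp (2 * Real.pi * I * ((p * m : ℕ) / p)) = 1 := by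
      have : (2 * Real.pi * I * ((p * m : ℕ) / p) : ℂ) = m * (2 * Real.pi * I) := by
        push_cast
        field_simp
      rw [this]
      exact_mod_cast Complex.exp_nat_mul_two_pi_mul_I m
    rw [h2]
    simp only [one_pow, Finset.sum_const, Finset.card_range, nsmul_eq_mul, mul_one]
    rw [mul_comm]
    congr 2
    push_cast
    field_simp
  · have h2 : cexp (2 * Real.pi * I * ((n : ℂ) / p)) ≠ 1 := by
      intro h
      rw [Complex.exp_eq_one_iff] at h
      obtain ⟨m, hm⟩ := h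
      have h3 : (n : ℂ) / p = m := by
        have h4 : (2 * Real.pi * I : ℂ) ≠ 0 := Complex.two_pi_I_ne_zero
        have h5 : (2 * Real.pi * I : ℂ) * (n / p) = (2 * Real.pi * I) * m := by
          rw [hm]; ring
        exact mul_left_cancel₀ h4 h5
      rw [div_eq_iff hp0] at h3
      have h4 : (n : ℤ) = m * p := by exact_mod_cast h3
      apply hd
      have : (p : ℤ) ∣ n := ⟨m, by rw [h4]; ring⟩
      exact_mod_cast this
    rw [geom_sum_eq h2]
    have h3 : (cexp (2 * Real.pi * I * ((n : ℂ) / p))) ^ p = 1 := by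
      rw [← Complex.exp_nat_mul]
      have : ((p : ℕ) : ℂ) * (2 * Real.pi * I * ((n : ℂ) / p)) = n * (2 * Real.pi * I) := by
        field_simp
      rw [this]
      exact_mod_cast Complex.exp_nat_mul_two_pi_mul_I n
    rw [h3]
    simp

/-- the Hecke relation -/
theorem HP_hecke {k : ℕ} {a : ℕ → ℝ} (H : HData k a) {p : ℕ} (hp : p.Prime) {z : ℂ}
    (hz : 0 < z.im) :
    (a p : ℂ) * qs a z = (p : ℂ) ^ (k - 1) * qs a (p * z) +
      (1 / (p : ℂ)) * ∑ b ∈ Finset.range p, qs a ((z + b) / p) := by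
  have hp0 : (p : ℂ) ≠ 0 := by exact_mod_cast hp.ne_zero
  have hpR : (0 : ℝ) < p := by exact_mod_cast hp.pos
  have him1 : 0 < (p * z : ℂ).im := by
    simp [Complex.mul_im]
    positivity
  have him2 : ∀ b : ℕ, 0 < ((z + b) / p : ℂ).im := by
    intro b
    have : ((z + b) / p : ℂ).im = z.im / p := by
      rw [Complex.div_natCast_im]
      simp
    rw [this]
    positivity
  -- second term
  have h1 : (1 / (p : ℂ)) * ∑ b ∈ Finset.range p, qs a ((z + b) / p) =
      ∑' m : ℕ, (a (p * m) : ℂ) * cexp (2 * Real.pi * I * m * z) := by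
    have h2 : ∑ b ∈ Finset.range p, qs a ((z + b) / p) =
        ∑' n : ℕ, (a n : ℂ) * (if p ∣ n then (p : ℂ) * cexp (2 * Real.pi * I * (n / p : ℕ) * z) else 0) := by
      unfold qs
      rw [← Summable.tsum_finsetSum (fun b _ => HP_summable H (him2 b))]
      congr 1
      ext n
      rw [← HP_sum_char hp.pos n z, Finset.mul_sum]
    rw [h2, ← tsum_mul_left]
    have hinj : Function.Injective (fun m : ℕ => p * m) := fun x y h =>
      Nat.eq_of_mul_eq_mul_left hp.pos h
    have h3 : Function.support (fun n : ℕ => 1 / (p : ℂ) * ((a n : ℂ) *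
        (if p ∣ n then (p : ℂ) * cexp (2 * Real.pi * I * (n / p : ℕ) * z) else 0))) ⊆
        Set.range (fun m : ℕ => p * m) := by
      intro n hn
      by_cases hd : p ∣ n
      · obtain ⟨m, rfl⟩ := hd
        exact ⟨m, rfl⟩
      · exfalso
        apply hn
        simp [hd]
    rw [← hinj.tsum_eq h3]
    congr 1
    ext m
    simp only [dvd_mul_right, if_true]
    rw [Nat.mul_div_cancel_left _ hp.pos]
    field_simp
  have h2 : qs a (p * z) = ∑' m : ℕ, (if p ∣ m then (a (m / p) : ℂ) else 0) *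
      cexp (2 * Real.pi * I * m * z) := by
    unfold qs
    have hinj : Function.Injective (fun m : ℕ => p * m) := fun x y h =>
      Nat.eq_of_mul_eq_mul_left hp.pos h
    have h3 : Function.support (fun m : ℕ => (if p ∣ m then (a (m / p) : ℂ) else 0) *
      cexp (2 * Real.pi * I * m * z)) ⊆ Set.range (fun m : ℕ => p * m) := by
      intro n hn
      by_cases hd : p ∣ n
      · obtain ⟨m, rfl⟩ := hd
        exact ⟨m, rfl⟩
      · exfalso
        apply hn
        simp [hd]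
    rw [← hinj.tsum_eq h3]
    congr 1
    ext m
    simp only [dvd_mul_right, if_true]
    rw [Nat.mul_div_cancel_left _ hp.pos]
    congr 2
    push_cast
    ring
  have hs2 : Summable (fun m : ℕ => (if p ∣ m then (a (m / p) : ℂ) else 0) *
      cexp (2 * Real.pi * I * m * z)) := by
    have hinj : Function.Injective (fun m : ℕ => p * m) := fun x y h =>
      Nat.eq_of_mul_eq_mul_left hp.pos h
    rw [← hinj.summable_iff]
    · have := HP_summable H him1
      convert this using 1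
      ext m
      simp only [Function.comp, dvd_mul_right, if_true]
      rw [Nat.mul_div_cancel_left _ hp.pos]
      congr 2
      push_cast
      ring
    · intro m hm
      rw [if_neg, zero_mul]
      rintro ⟨n, rfl⟩
      exact hm ⟨n, rfl⟩
  rw [h1, h2]
  have h4 : ∀ m : ℕ, (a (p * m) : ℂ) * cexp (2 * Real.pi * I * m * z) =
      (a p : ℂ) * ((a m : ℂ) * cexp (2 * Real.pi * I * m * z)) -
        (p : ℂ) ^ (k - 1) * ((if p ∣ m then (a (m / p) : ℂ) else 0) *
          cexp (2 * Real.pi * I * m * z)) := by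
    intro m
    rw [HP_hecke_coeff H hp m]
    split_ifs <;> push_cast <;> ring
  simp_rw [h4]
  rw [Summable.tsum_sub ((HP_summable H hz).mul_left _) (hs2.mul_left _), tsum_mul_left,
    tsum_mul_left]
  unfold qs
  ring

/-- the invariant function `|f| y^{k/2}` -/
noncomputable def HP_fi (k : ℕ) (a : ℕ → ℝ) (z : ℂ) : ℝ := ‖qs a z‖ * z.im ^ ((k : ℝ) / 2)

theorem HP_fi_smul {k : ℕ} {a : ℕ → ℝ} (H : HData k a) (g : SL(2, ℤ)) (w : UpperHalfPlane) :
    HP_fi k a ((g • w : UpperHalfPlane) : ℂ) = HP_fi k a (w : ℂ) := by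
  have hdet : (g 0 0 : ℤ) * g 1 1 - g 0 1 * g 1 0 = 1 := by
    have := g.det_coe
    rwa [Matrix.det_fin_two] at this
  have h1 := H.slash (g 0 0) (g 0 1) (g 1 0) (g 1 1) hdet (w : ℂ) w.im_pos
  have hc : ((g • w : UpperHalfPlane) : ℂ) =
      ((g 0 0 : ℤ) * (w : ℂ) + (g 0 1 : ℤ)) / ((g 1 0 : ℤ) * (w : ℂ) + (g 1 1 : ℤ)) := by
    rw [UpperHalfPlane.coe_specialLinearGroup_apply]
    simp
  have hd0 : ((g 1 0 : ℤ) * (w : ℂ) + (g 1 1 : ℤ)) ≠ 0 := by
    have := UpperHalfPlane.denom_ne_zero (g : GL (Fin 2) ℝ) w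
    rwa [ModularGroup.denom_apply] at this
  have him : ((g • w : UpperHalfPlane) : ℂ).im =
    w.im / ‖((g 1 0 : ℤ) * (w : ℂ) + (g 1 1 : ℤ))‖ ^ 2 := by
    rw [UpperHalfPlane.coe_im, ModularGroup.im_smul_eq_div_normSq, Complex.normSq_eq_norm_sq,
      ModularGroup.denom_apply]
  have h3 : 0 < ‖((g 1 0 : ℤ) * (w : ℂ) + (g 1 1 : ℤ))‖ := norm_pos_iff.mpr hd0
  unfold HP_fi
  rw [him, hc, h1, norm_mul, norm_pow, Real.div_rpow w.im_pos.le (by positivity)]
  have h5 : (‖((g 1 0 : ℤ) * (w : ℂ) + (g 1 1 : ℤ))‖ ^ 2) ^ ((k : ℝ) / 2) =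
      ‖((g 1 0 : ℤ) * (w : ℂ) + (g 1 1 : ℤ))‖ ^ k := by
    rw [← Real.rpow_natCast _ 2, ← Real.rpow_mul h3.le, ← Real.rpow_natCast _ k]
    congr 1
    push_cast
    ring
  rw [h5]
  have h4 : (w : ℂ).im = w.im := rfl
  rw [h4]
  field_simp

theorem HP_ineq {k : ℕ} {a : ℕ → ℝ} (H : HData k a) {p : ℕ} (hp : p.Prime) {z : ℂ}
    (hz : 0 < z.im) :
    |a p| * HP_fi k a z ≤ (p : ℝ) ^ ((k : ℝ) / 2 - 1) * (HP_fi k a (p * z) +
      ∑ b ∈ Finset.range p, HP_fi k a ((z + b) / p)) := by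
  have hpR : (0 : ℝ) < p := by exact_mod_cast hp.pos
  have h1 := congrArg norm (HP_hecke H hp hz)
  rw [norm_mul, Complex.norm_real, Real.norm_eq_abs] at h1
  have h2 : |a p| * ‖qs a z‖ ≤ (p : ℝ) ^ (k - 1) * ‖qs a (p * z)‖ +
      (1 / (p : ℝ)) * ∑ b ∈ Finset.range p, ‖qs a ((z + b) / p)‖ := by
    rw [h1]
    refine (norm_add_le _ _).trans ?_
    rw [norm_mul, norm_mul, norm_pow, Complex.norm_natCast, norm_div, norm_one,
      Complex.norm_natCast]
    gcongr
    exact norm_sum_le _ _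
  have him1 : (p * z : ℂ).im = p * z.im := by
    simp [Complex.mul_im]
  have him2 : ∀ b : ℕ, ((z + b) / p : ℂ).im = z.im / p := by
    intro b
    rw [Complex.div_natCast_im]
    simp
  unfold HP_fi
  rw [him1, Real.mul_rpow hpR.le hz.le]
  simp_rw [him2]
  rw [Real.div_rpow hz.le hpR.le]
  have hk := H.kpos
  have e1 : (p : ℝ) ^ ((k : ℝ) / 2 - 1) * (p : ℝ) ^ ((k : ℝ) / 2) = (p : ℝ) ^ (k - 1) := by
    rw [← Real.rpow_add hpR, ← Real.rpow_natCast]
    congr 1
    push_cast [Nat.cast_sub hk]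
    ring
  have e2 : (p : ℝ) ^ ((k : ℝ) / 2 - 1) / (p : ℝ) ^ ((k : ℝ) / 2) = 1 / p := by
    rw [← Real.rpow_sub hpR, one_div, ← Real.rpow_neg_one]
    congr 1
    ring
  have hY : 0 ≤ z.im ^ ((k : ℝ) / 2) := by positivity
  calc |a p| * (‖qs a z‖ * z.im ^ ((k : ℝ) / 2)) = (|a p| * ‖qs a z‖) * z.im ^ ((k : ℝ) / 2) := by ring
    _ ≤ ((p : ℝ) ^ (k - 1) * ‖qs a (p * z)‖ +
      (1 / (p : ℝ)) * ∑ b ∈ Finset.range p, ‖qs a ((z + b) / p)‖) * z.im ^ ((k : ℝ) / 2) :=
        mul_le_mul_of_nonneg_right h2 hY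
    _ = _ := by
        rw [← e1, ← e2, ← Finset.sum_mul]
        field_simp

theorem HP_exists_ne {k : ℕ} {a : ℕ → ℝ} (H : HData k a) : ∃ z : ℂ, 0 < z.im ∧ qs a z ≠ 0 := by
  by_contra hcon
  push Not at hcon
  have hs := summable_a H (y := 2 * Real.pi) (by positivity)
  set b : ℕ → ℂ := fun n => (a n : ℂ) * (Real.exp (-(2 * Real.pi) * n) : ℝ) with hb
  have hbn : ∀ n, ‖b n‖ = |a n| * Real.exp (-(2 * Real.pi) * n) := by
    intro n
    rw [hb]
    simp only
    rw [norm_mul, Complex.norm_real, Complex.norm_real, Real.norm_eq_abs, Real.norm_eq_abs,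
      abs_of_pos (Real.exp_pos _)]
  have hsb : Summable (fun n => ‖b n‖) := by simp_rw [hbn]; exact hs
  have hpar := parseval b hsb
  have hHH : ∀ θ : ℝ, HH b θ = qs a (θ + I) := by
    intro θ
    unfold HH qs
    congr 1
    ext n
    rw [hb]
    simp only
    rw [mul_assoc, Complex.ofReal_exp, ← Complex.exp_add]
    congr 2
    push_cast
    linear_combination (-2 * Real.pi * n : ℂ) * Complex.I_sq
  have h0 : ∀ θ : ℝ, HH b θ = 0 := by
    intro θ
    rw [hHH]
    exact hcon _ (by simp)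
  simp_rw [h0] at hpar
  simp only [norm_zero, ne_eq, OfNat.ofNat_ne_zero, not_false_eq_true, zero_pow,
    intervalIntegral.integral_zero] at hpar
  have hs2 : Summable (fun n => ‖b n‖ ^ 2) := by
    apply Summable.of_nonneg_of_le (fun n => sq_nonneg _) (fun n => ?_)
      (hsb.mul_left (∑' n : ℕ, ‖b n‖))
    rw [sq]
    exact mul_le_mul_of_nonneg_right (hsb.le_tsum n (fun j _ => norm_nonneg _)) (norm_nonneg _)
  have h1 : ‖b 1‖ ^ 2 ≤ 0 := by
    rw [← hpar]
    exact hs2.le_tsum 1 (fun j _ => sq_nonneg _)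
  have h2 : 0 < ‖b 1‖ := by
    rw [hbn, H.one, abs_one, one_mul]
    exact Real.exp_pos _
  nlinarith

/-- block HP: strict trivial bound for the Hecke eigenvalue, by the maximum principle -/
theorem abs_ap_lt_pr {k : ℕ} {a : ℕ → ℝ} (H : HData k a) {p : ℕ} (hp : p.Prime) :
    |a p| < (p : ℝ) ^ ((k : ℝ) / 2) + (p : ℝ) ^ ((k : ℝ) / 2 - 1) := by
  by_contra hcon
  push Not at hcon
  have hpR : (0 : ℝ) < p := by exact_mod_cast hp.pos
  have hp2 : (2 : ℝ) ≤ p := by exact_mod_cast hp.two_le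
  set S : Set ℝ := HP_fi k a '' {z : ℂ | 0 < z.im} with hS
  obtain ⟨C, hC⟩ := H.bound
  have hbdd : BddAbove S := by
    refine ⟨C, ?_⟩
    rintro _ ⟨z, hz, rfl⟩
    have hz' : 0 < z.im := hz
    have h1 := mul_le_mul_of_nonneg_right (hC z hz') (by positivity : 0 ≤ z.im ^ ((k : ℝ) / 2))
    have h2 : C * z.im ^ (-(k : ℝ) / 2) * z.im ^ ((k : ℝ) / 2) = C := by
      rw [mul_assoc, ← Real.rpow_add hz']
      have : -(k : ℝ) / 2 + (k : ℝ) / 2 = 0 := by ring
      rw [this, Real.rpow_zero, mul_one]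
    rw [h2] at h1
    exact h1
  have hne : S.Nonempty := ⟨_, ⟨I, by simp, rfl⟩⟩
  set M := sSup S with hM
  have hle : ∀ z : ℂ, 0 < z.im → HP_fi k a z ≤ M := fun z hz => le_csSup hbdd ⟨z, hz, rfl⟩
  have hMpos : 0 < M := by
    obtain ⟨z, hz, hq⟩ := HP_exists_ne H
    refine lt_of_lt_of_le ?_ (hle z hz)
    unfold HP_fi
    have := norm_pos_iff.mpr hq
    positivity
  -- the averaging inequality
  have havg : ∀ z : ℂ, 0 < z.im → M - HP_fi k a (p * z) ≤ (p + 1) * (M - HP_fi k a z) := by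
    intro z hz
    have h1 := HP_ineq H hp hz
    have h2 : 0 ≤ HP_fi k a z := by unfold HP_fi; positivity
    have h3 : (p : ℝ) ^ ((k : ℝ) / 2) + (p : ℝ) ^ ((k : ℝ) / 2 - 1) =
        (p : ℝ) ^ ((k : ℝ) / 2 - 1) * (p + 1) := by
      have : (p : ℝ) ^ ((k : ℝ) / 2) = (p : ℝ) ^ ((k : ℝ) / 2 - 1) * p := by
        conv_rhs => rw [← Real.rpow_one (p : ℝ)]
        rw [Real.rpow_one, ← Real.rpow_add_one hpR.ne']
        congr 1
        ring
      rw [this]
      ring
    rw [h3] at hcon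
    have h4 := (mul_le_mul_of_nonneg_right hcon h2).trans h1
    have h5 : 0 < (p : ℝ) ^ ((k : ℝ) / 2 - 1) := by positivity
    rw [mul_assoc] at h4
    have h6 := le_of_mul_le_mul_left h4 h5
    have h7 : ∑ b ∈ Finset.range p, HP_fi k a ((z + b) / p) ≤ p * M := by
      have h8 : ∀ b ∈ Finset.range p, HP_fi k a ((z + b) / p) ≤ M := by
        intro b _
        apply hle
        have : ((z + b) / p : ℂ).im = z.im / p := by
          rw [Complex.div_natCast_im]
          simp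
        rw [this]
        positivity
      have := Finset.sum_le_sum h8
      simpa using this
    linarith
  have hiter : ∀ j : ℕ, ∀ z : ℂ, 0 < z.im →
      M - HP_fi k a ((p : ℂ) ^ j * z) ≤ (p + 1) ^ j * (M - HP_fi k a z) := by
    intro j
    induction j with
    | zero => intro z _; simp
    | succ j ih =>
      intro z hz
      have h1 : 0 < ((p : ℂ) ^ j * z).im := by
        have : ((p : ℂ) ^ j * z).im = (p : ℝ) ^ j * z.im := by
          have : ((p : ℂ) ^ j) = (((p : ℝ) ^ j : ℝ) : ℂ) := by push_cast; rfl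
          rw [this, Complex.im_ofReal_mul] 
        rw [this]
        positivity
      have h2 := havg _ h1
      have h3 := ih z hz
      have h4 : (p : ℂ) ^ (j + 1) * z = p * ((p : ℂ) ^ j * z) := by ring
      rw [h4]
      have h5 : ((p : ℝ) + 1) * (M - HP_fi k a ((p : ℂ) ^ j * z)) ≤
          (p + 1) * ((p + 1) ^ j * (M - HP_fi k a z)) := by
        gcongr
      calc _ ≤ _ := h2
        _ ≤ _ := h5
        _ = _ := by ring
  -- decay
  obtain ⟨C', hC'⟩ := qs_decay H
  have hdec : ∃ Y : ℝ, 1 ≤ Y ∧ ∀ z : ℂ, Y ≤ z.im → HP_fi k a z < M / 2 := by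
    have ht := (tendsto_rpow_mul_exp_neg_mul_atTop_nhds_zero ((k : ℝ) / 2) (2 * Real.pi)
      (by positivity)).const_mul C'
    rw [mul_zero] at ht
    have he := ht.eventually (gt_mem_nhds (half_pos hMpos))
    obtain ⟨Y, hY⟩ := (he.and (eventually_ge_atTop 1)).exists_forall_of_atTop
    refine ⟨max Y 1, le_max_right _ _, fun z hz => ?_⟩
    have h1 : Y ≤ z.im := (le_max_left _ _).trans hz
    have h2 : 1 ≤ z.im := (le_max_right _ _).trans hz
    have h3 := (hY z.im h1).1
    refine lt_of_le_of_lt ?_ h3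
    unfold HP_fi
    have h4 := mul_le_mul_of_nonneg_right (hC' z h2) (by positivity : 0 ≤ z.im ^ ((k : ℝ) / 2))
    refine h4.trans (le_of_eq ?_)
    rw [show -(2 * Real.pi) * z.im = -2 * Real.pi * z.im by ring]
    ring
  obtain ⟨Y, hY1, hY⟩ := hdec
  obtain ⟨j, hj⟩ := pow_unbounded_of_one_lt (2 * Y) (by linarith : (1 : ℝ) < p)
  have hδ : M - M / (2 * (p + 1) ^ j) < M := by
    have : 0 < M / (2 * ((p : ℝ) + 1) ^ j) := by positivity
    linarith
  obtain ⟨_, ⟨z, hz, rfl⟩, hzM⟩ := exists_lt_of_lt_csSup hne hδ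
  have hz' : 0 < z.im := hz
  obtain ⟨γ, hγ⟩ := ModularGroup.exists_one_half_le_im_smul (⟨z, hz'⟩ : UpperHalfPlane)
  set w : UpperHalfPlane := γ • (⟨z, hz'⟩ : UpperHalfPlane) with hw
  have h1 : HP_fi k a (w : ℂ) = HP_fi k a z := HP_fi_smul H γ _
  have h2 := hiter j (w : ℂ) w.im_pos
  have him : ((p : ℂ) ^ j * (w : ℂ)).im = (p : ℝ) ^ j * w.im := by
    have : ((p : ℂ) ^ j) = (((p : ℝ) ^ j : ℝ) : ℂ) := by push_cast; rfl
    rw [this, Complex.im_ofReal_mul]
    rfl
  have h3 : Y ≤ ((p : ℂ) ^ j * (w : ℂ)).im := by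
    rw [him]
    nlinarith
  have h4 := hY _ h3
  rw [h1] at h2
  have h5 : M - HP_fi k a z < M / (2 * (p + 1) ^ j) := by linarith
  have h6 : ((p : ℝ) + 1) ^ j * (M - HP_fi k a z) < M / 2 := by
    have h7 : (0 : ℝ) < (p + 1) ^ j := by positivity
    calc ((p : ℝ) + 1) ^ j * (M - HP_fi k a z) < (p + 1) ^ j * (M / (2 * (p + 1) ^ j)) :=
          mul_lt_mul_of_pos_left h5 h7
      _ = M / 2 := by field_simp
  linarith

/-- block HP -/
theorem Ep_ne_zero_pr {k : ℕ} {a : ℕ → ℝ} (H : HData k a) {p : ℕ} (hp : p.Prime) {w : ℂ}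
    (hw : ‖w‖ = 1) : Ep k a p w ≠ 0 := by
  intro h
  unfold Ep at h
  have hpR : (0 : ℝ) < p := by exact_mod_cast hp.pos
  have hp2 : (2 : ℝ) ≤ p := by exact_mod_cast hp.two_le
  set μ : ℝ := a p * (p : ℝ) ^ (-(k : ℝ) / 2) with hμ
  have hlt : |μ| < 1 + 1 / p := by
    rw [hμ, abs_mul, abs_of_pos (by positivity : (0 : ℝ) < (p : ℝ) ^ (-(k : ℝ) / 2))]
    have h1 := abs_ap_lt_pr H hp
    have h2 := mul_lt_mul_of_pos_right h1 (by positivity : (0 : ℝ) < (p : ℝ) ^ (-(k : ℝ) / 2))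
    refine lt_of_lt_of_eq h2 ?_
    rw [add_mul, ← Real.rpow_add hpR, ← Real.rpow_add hpR]
    have e1 : (k : ℝ) / 2 + -(k : ℝ) / 2 = 0 := by ring
    have e2 : (k : ℝ) / 2 - 1 + -(k : ℝ) / 2 = -1 := by ring
    rw [e1, e2, Real.rpow_zero, Real.rpow_neg_one, one_div]
  have hnorm : w.re ^ 2 + w.im ^ 2 = 1 := by
    have := Complex.normSq_eq_norm_sq w
    rw [Complex.normSq_apply, hw] at this
    linarith
  have hre := congrArg Complex.re h
  have him := congrArg Complex.im h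
  have hdiv : ∀ x : ℂ, (x / (p : ℂ)).re = x.re / p ∧ (x / (p : ℂ)).im = x.im / p := by
    intro x
    exact ⟨Complex.div_natCast_re x p, Complex.div_natCast_im x p⟩
  simp only [Complex.add_re, Complex.sub_re, Complex.one_re, Complex.mul_re, Complex.ofReal_re,
    Complex.ofReal_im, (hdiv _).1, sq, Complex.zero_re, zero_mul, sub_zero] at hre
  simp only [Complex.add_im, Complex.sub_im, Complex.one_im, Complex.mul_im, Complex.ofReal_re,
    Complex.ofReal_im, (hdiv _).2, sq, Complex.zero_im, zero_mul, add_zero] at him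
  -- him : 0 - μ * w.im + (w.re * w.im + w.im * w.re) / p = 0
  -- hre : 1 - μ * w.re + (w.re^2 - w.im^2)/p = 0
  have him0 : w.im = 0 := by
    by_contra hne
    have h1 : μ = 2 * w.re / p := by
      have : w.im * (μ - 2 * w.re / p) = 0 := by
        field_simp
        field_simp at him
        linarith
      have := (mul_eq_zero.mp this).resolve_left hne
      linarith
    rw [h1] at hre
    have h2 : 1 - (w.re ^ 2 + w.im ^ 2) / p = 0 := by
      field_simp at hre ⊢
      linarith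
    rw [hnorm] at h2
    field_simp at h2
    linarith
  rw [him0] at hnorm hre
  have hre1 : w.re = 1 ∨ w.re = -1 := by
    have : (w.re - 1) * (w.re + 1) = 0 := by linarith
    rcases mul_eq_zero.mp this with h | h
    · left; linarith
    · right; linarith
  have habs := abs_lt.mp hlt
  rcases hre1 with h1 | h1
  · rw [h1] at hre
    have : μ = 1 + 1 / p := by
      field_simp at hre ⊢
      linarith
    linarith [habs.2]
  · rw [h1] at hre
    have : μ = -(1 + 1 / p) := by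
      field_simp at hre ⊢
      linarith
    linarith [habs.1]

end Pool.Agent.GL2
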