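import Pool.Agent.Lib_helper68.GL2.R1

/-! Block RSA: unfolding (helper98). -/

namespace Pool.Agent.GL2

open Complex MeasureTheory Filter Topology UpperHalfPlane ModularGroup
open scoped MatrixGroups Modular ENNReal

instance RSA_countable : Countable SL(2, ℤ) := by
  have : Countable (Matrix (Fin 2) (Fin 2) ℤ) := inferInstanceAs (Countable (Fin 2 → Fin 2 → ℤ))
  exact inferInstanceAs (Countable {A : Matrix (Fin 2) (Fin 2) ℤ // A.det = 1})

/-- each element of `SL₂(ℤ)` preserves the invariant measure -/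
theorem RSA_mp (g : SL(2, ℤ)) : MeasurePreserving (fun z : ℍ => g • z) volume volume := by
  have := measurePreserving_smul (Matrix.SpecialLinearGroup.mapGL ℝ g) (volume : Measure ℍ)
  exact this

theorem RSA_null_frontier : volume (𝒟 \ 𝒟ᵒ) = 0 := by
  rw [volume_eq_lintegral]
  apply MeasureTheory.setLIntegral_measure_zero
  have hsub : ((↑) '' (𝒟 \ 𝒟ᵒ) : Set ℂ) ⊆ {z : ℂ | z.re = 1 / 2} ∪ {z : ℂ | z.re = -(1 / 2)} ∪
      Metric.sphere (0 : ℂ) 1 := by
    rintro _ ⟨w, ⟨h1, h2⟩, rfl⟩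
    obtain ⟨h3, h4⟩ := h1
    by_cases h5 : 1 < normSq (w : ℂ)
    · left
      have h6 : ¬ |w.re| < 1 / 2 := fun h => h2 ⟨h5, h⟩
      have h7 : |w.re| = 1 / 2 := le_antisymm h4 (not_lt.mp h6)
      rcases (abs_eq (by norm_num : (0 : ℝ) ≤ 1 / 2)).mp h7 with h | h
      · left; exact h
      · right; exact h
    · right
      have h6 : normSq (w : ℂ) = 1 := le_antisymm (not_lt.mp h5) h3
      rw [mem_sphere_zero_iff_norm]
      rw [Complex.normSq_eq_norm_sq] at h6
      have h7 : (0 : ℝ) ≤ ‖(w : ℂ)‖ := norm_nonneg _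
      nlinarith
  refine measure_mono_null hsub ?_
  have hline : ∀ c : ℝ, volume {z : ℂ | z.re = c} = 0 := by
    intro c
    have h := (convex_halfSpace_re_le c).addHaar_frontier (volume : Measure ℂ)
    rwa [Complex.frontier_setOfPred_re_le] at h
  rw [measure_union_null_iff, measure_union_null_iff]
  exact ⟨⟨hline _, hline _⟩, Measure.addHaar_sphere _ _ _⟩

theorem RSA_count_ae : ∀ᵐ w : ℍ, ∑' g : SL(2, ℤ), (𝒟ᵒ.indicator (fun _ => (1 : ℝ≥0∞)) (g • w)) = 2 := by
  have hnull : ∀ᵐ w : ℍ, ∀ g : SL(2, ℤ), g • w ∉ 𝒟 \ 𝒟ᵒ := by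
    rw [ae_all_iff]
    intro g
    have h := (RSA_mp g).quasiMeasurePreserving.preimage_null RSA_null_frontier
    rw [ae_iff]
    convert h using 2
    ext w
    simp only [Set.mem_ofPred_eq, not_not, Set.mem_preimage]
  filter_upwards [hnull] with w hw
  obtain ⟨g, hg⟩ := exists_smul_mem_fd w
  have hg' : g • w ∈ 𝒟ᵒ := by
    by_contra h
    exact hw g ⟨hg, h⟩
  have hne : g ≠ -g := by
    intro h
    have h1 : (g : Matrix (Fin 2) (Fin 2) ℤ) = -(g : Matrix (Fin 2) (Fin 2) ℤ) := by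
      have := congrArg (fun x : SL(2, ℤ) => (x : Matrix (Fin 2) (Fin 2) ℤ)) h
      simpa using this
    have h2 : ∀ i j, (g : Matrix (Fin 2) (Fin 2) ℤ) i j = 0 := by
      intro i j
      have := congrFun (congrFun h1 i) j
      simp only [Matrix.neg_apply] at this
      omega
    have h3 := g.det_coe
    rw [Matrix.det_fin_two, h2 0 0, h2 0 1] at h3
    simp at h3
  have hmem : ∀ g' : SL(2, ℤ), g' • w ∈ 𝒟ᵒ → g' = g ∨ g' = -g := by
    intro g' h
    have h1 : (g' * g⁻¹) • (g • w) ∈ 𝒟ᵒ := by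
      rw [← mul_smul]
      simpa using h
    rcases eq_one_or_neg_one_of_mem_fdo_mem_fdo hg' h1 with h2 | h2
    · left
      exact mul_inv_eq_one.mp h2
    · right
      have : g' = (g' * g⁻¹) * g := by simp
      rw [this, h2]
      simp
  rw [tsum_eq_sum (s := {g, -g})]
  · rw [Finset.sum_pair hne]
    have h2 : (-g) • w ∈ 𝒟ᵒ := by rw [SL_neg_smul]; exact hg'
    rw [Set.indicator_of_mem hg', Set.indicator_of_mem h2]
    norm_num
  · intro g' hg''
    apply Set.indicator_of_notMem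
    intro h
    apply hg''
    simpa using hmem g' h

/-- unfolding -/
theorem RSA_unfold (G : ℍ → ℝ≥0∞) (hG : Measurable G) :
    ∫⁻ z in 𝒟ᵒ, ∑' g : SL(2, ℤ), G (g • z) = 2 * ∫⁻ w : ℍ, G w := by
  have hmo : MeasurableSet (𝒟ᵒ : Set ℍ) := isOpen_fdo.measurableSet
  have hms : ∀ g : SL(2, ℤ), Measurable (fun z : ℍ => g • z) := fun g => (RSA_mp g).measurable
  have hstep : ∀ g : SL(2, ℤ), ∫⁻ z in 𝒟ᵒ, G (g • z) =
      ∫⁻ w : ℍ, G w * 𝒟ᵒ.indicator (fun _ => (1 : ℝ≥0∞)) (g⁻¹ • w) := by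
    intro g
    have h1 : ∫⁻ w : ℍ, G w * 𝒟ᵒ.indicator (fun _ => (1 : ℝ≥0∞)) (g⁻¹ • w) =
        ∫⁻ z : ℍ, G (g • z) * 𝒟ᵒ.indicator (fun _ => (1 : ℝ≥0∞)) (g⁻¹ • (g • z)) := by
      rw [← (RSA_mp g).lintegral_comp (f := fun w => G w * 𝒟ᵒ.indicator (fun _ => (1 : ℝ≥0∞)) (g⁻¹ • w))]
      exact hG.mul ((measurable_const.indicator hmo).comp (hms g⁻¹))
    rw [h1, ← lintegral_indicator hmo]
    congr 1
    ext z
    rw [inv_smul_smul]
    by_cases hz : z ∈ 𝒟ᵒ
    · rw [Set.indicator_of_mem hz, Set.indicator_of_mem hz, mul_one]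
    · rw [Set.indicator_of_notMem hz, Set.indicator_of_notMem hz, mul_zero]
  rw [lintegral_tsum (f := fun (g : SL(2, ℤ)) (z : ℍ) => G (g • z))
    (fun g => (hG.comp (hms g)).aemeasurable)]
  simp_rw [hstep]
  rw [← lintegral_tsum]
  · rw [← lintegral_const_mul _ hG]
    apply lintegral_congr_ae
    filter_upwards [RSA_count_ae] with w hw
    rw [ENNReal.tsum_mul_left, mul_comm]
    congr 1
    rw [← hw]
    exact (Equiv.inv SL(2, ℤ)).tsum_eq (fun g => 𝒟ᵒ.indicator (fun _ => (1 : ℝ≥0∞)) (g • w))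
  · intro g
    exact (hG.mul ((measurable_const.indicator hmo).comp (hms g⁻¹))).aemeasurable

theorem RSA_norm_term (a : ℕ → ℝ) (n : ℕ) (z : ℂ) :
    ‖(a n : ℂ) * cexp (2 * Real.pi * Complex.I * n * z)‖ = |a n| * Real.exp (-(2 * Real.pi * z.im) * n) := by
  rw [norm_mul, Complex.norm_exp, Complex.norm_real, Real.norm_eq_abs]
  congr 2
  simp [Complex.mul_re, Complex.mul_im]
  ring

theorem RSA_qs_contOn {k : ℕ} {a : ℕ → ℝ} (H : HData k a) {c : ℝ} (hc : 0 < c) :
    ContinuousOn (qs a) {z : ℂ | c ≤ z.im} := by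
  unfold qs
  apply continuousOn_tsum (u := fun n : ℕ => |a n| * Real.exp (-(2 * Real.pi * c) * n))
  · intro n
    fun_prop
  · exact summable_a H (by positivity)
  · intro n z hz
    rw [RSA_norm_term]
    apply mul_le_mul_of_nonneg_left _ (abs_nonneg _)
    apply Real.exp_le_exp.mpr
    have h1 : (0 : ℝ) ≤ n := Nat.cast_nonneg n
    have h2 : c ≤ z.im := hz
    have h3 : 2 * Real.pi * c ≤ 2 * Real.pi * z.im :=
      mul_le_mul_of_nonneg_left h2 (by positivity)
    nlinarith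

theorem RSA_qs_cont {k : ℕ} {a : ℕ → ℝ} (H : HData k a) :
    ContinuousOn (qs a) {z : ℂ | 0 < z.im} := by
  intro z hz
  apply ContinuousAt.continuousWithinAt
  have hz' : 0 < z.im := hz
  apply (RSA_qs_contOn H (half_pos hz')).continuousAt
  have h1 : {w : ℂ | z.im / 2 < w.im} ∈ 𝓝 z := by
    apply (isOpen_lt continuous_const Complex.continuous_im).mem_nhds
    simp only [Set.mem_ofPred_eq]
    linarith
  filter_upwards [h1] with w hw
  exact le_of_lt hw

theorem RSA_ph_cont {k : ℕ} {a : ℕ → ℝ} (H : HData k a) :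
    ContinuousOn (ph k a) {z : ℂ | 0 < z.im} := by
  unfold ph
  have h1 := RSA_qs_cont H
  fun_prop

theorem RSA_ph_nonneg {k : ℕ} {a : ℕ → ℝ} {z : ℂ} (hz : 0 ≤ z.im) : 0 ≤ ph k a z := by
  unfold ph
  positivity

theorem RSA_coe_smul (g : SL(2, ℤ)) (w : ℍ) : ((g • w : ℍ) : ℂ) =
    ((g 0 0 : ℤ) * (w : ℂ) + (g 0 1 : ℤ)) / ((g 1 0 : ℤ) * (w : ℂ) + (g 1 1 : ℤ)) := by
  rw [coe_specialLinearGroup_apply]
  simp

theorem RSA_im_smul (g : SL(2, ℤ)) (w : ℍ) : (g • w : ℍ).im =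
    w.im / ‖((g 1 0 : ℤ) * (w : ℂ) + (g 1 1 : ℤ))‖ ^ 2 := by
  rw [ModularGroup.im_smul_eq_div_normSq, Complex.normSq_eq_norm_sq, denom_apply]

theorem RSA_denom_ne (g : SL(2, ℤ)) (w : ℍ) : ((g 1 0 : ℤ) * (w : ℂ) + (g 1 1 : ℤ)) ≠ 0 := by
  have := UpperHalfPlane.denom_ne_zero (g : GL (Fin 2) ℝ) w
  rwa [denom_apply] at this

theorem RSA_ph_smul {k : ℕ} {a : ℕ → ℝ} (H : HData k a) (g : SL(2, ℤ)) (w : ℍ) :
    ph k a ((g • w : ℍ) : ℂ) = ph k a (w : ℂ) := by
  have hdet : (g 0 0 : ℤ) * g 1 1 - g 0 1 * g 1 0 = 1 := by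
    have := g.det_coe
    rwa [Matrix.det_fin_two] at this
  have h1 := H.slash (g 0 0) (g 0 1) (g 1 0) (g 1 1) hdet (w : ℂ) w.im_pos
  have h2 : ((g • w : ℍ) : ℂ).im = (g • w : ℍ).im := rfl
  unfold ph
  rw [h2, RSA_im_smul, RSA_coe_smul, h1, norm_mul, norm_pow]
  have h3 : ‖((g 1 0 : ℤ) * (w : ℂ) + (g 1 1 : ℤ))‖ ≠ 0 := norm_ne_zero_iff.mpr (RSA_denom_ne g w)
  have h4 : (w : ℂ).im = w.im := rfl
  rw [h4, div_pow, mul_pow, ← pow_mul, ← pow_mul, mul_comm 2 k]
  field_simp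

/-- the strip in `ℍ` -/
def RSA_strip (ε : ℝ) : Set ℍ := {w : ℍ | (0 ≤ w.re ∧ w.re < 1) ∧ ε ≤ w.im ∧ w.im < 2 * ε}

theorem RSA_NN_finite (z : ℍ) {ε : ℝ} (hε : 0 < ε) :
    Finite {v : ℤ × ℤ // IsCoprime v.1 v.2 ∧ ε ≤ (z : ℂ).im / ‖v.1 * (z : ℂ) + v.2‖ ^ 2 ∧
    (z : ℂ).im / ‖v.1 * (z : ℂ) + v.2‖ ^ 2 < 2 * ε} := by
  have h1 := tendsto_normSq_coprime_pair z
  have h2 : ∀ᶠ p in cofinite, (z : ℂ).im / ε < normSq (((p : Fin 2 → ℤ) 0 : ℂ) * z + p 1) :=
    h1.eventually (eventually_gt_atTop _)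
  rw [Filter.eventually_cofinite] at h2
  have h3 : Set.Finite {v : ℤ × ℤ | IsCoprime v.1 v.2 ∧ ε ≤ (z : ℂ).im / ‖v.1 * (z : ℂ) + v.2‖ ^ 2 ∧
    (z : ℂ).im / ‖v.1 * (z : ℂ) + v.2‖ ^ 2 < 2 * ε} := by
    have h4 : Function.Injective (fun v : ℤ × ℤ => (![v.1, v.2] : Fin 2 → ℤ)) := by
      intro v w h
      have e0 := congrFun h 0
      have e1 := congrFun h 1
      simp at e0 e1
      exact Prod.ext e0 e1
    apply Set.Finite.subset (h2.preimage (f := fun v : ℤ × ℤ => (![v.1, v.2] : Fin 2 → ℤ))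
      h4.injOn)
    rintro v ⟨_, hv, _⟩
    simp only [Set.mem_preimage, Set.mem_ofPred_eq, not_lt]
    simp only [Matrix.cons_val_zero, Matrix.cons_val_one]
    rw [Complex.normSq_eq_norm_sq, le_div_iff₀ hε]
    by_cases h0 : ‖v.1 * (z : ℂ) + v.2‖ ^ 2 = 0
    · rw [h0, zero_mul]
      exact z.im_pos.le
    · have h5 : 0 < ‖v.1 * (z : ℂ) + v.2‖ ^ 2 := lt_of_le_of_ne (by positivity) (Ne.symm h0)
      rw [le_div_iff₀ h5] at hv
      linarith
  exact h3

theorem RSA_T_row (n : ℤ) (g : SL(2, ℤ)) :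
    (ModularGroup.T ^ n * g) 1 0 = g 1 0 ∧ (ModularGroup.T ^ n * g) 1 1 = g 1 1 := by
  have h : ((ModularGroup.T ^ n * g : SL(2, ℤ)) : Matrix (Fin 2) (Fin 2) ℤ) 1 = g 1 := by
    rw [ModularGroup.T_pow_mul_apply_one]
  exact ⟨congrFun h 0, congrFun h 1⟩

theorem RSA_equiv (z : ℍ) (ε : ℝ) :
    Nonempty ({g : SL(2, ℤ) // g • z ∈ RSA_strip ε} ≃
      {v : ℤ × ℤ // IsCoprime v.1 v.2 ∧ ε ≤ (z : ℂ).im / ‖v.1 * (z : ℂ) + v.2‖ ^ 2 ∧
    (z : ℂ).im / ‖v.1 * (z : ℂ) + v.2‖ ^ 2 < 2 * ε}) := by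
  refine ⟨Equiv.ofBijective (fun g => ⟨(g.1 1 0, g.1 1 1), ?_, ?_, ?_⟩) ⟨?_, ?_⟩⟩
  · exact bottom_row_coprime g.1
  · have h := g.2.2.1
    rw [RSA_im_smul] at h
    exact h
  · have h := g.2.2.2
    rw [RSA_im_smul] at h
    exact h
  · rintro ⟨g, hg⟩ ⟨g', hg'⟩ h
    simp only [Subtype.mk.injEq, Prod.mk.injEq] at h
    obtain ⟨hc, hd⟩ := h
    have h10 : (g' * g⁻¹) 1 0 = 0 := by
      rw [Matrix.SpecialLinearGroup.coe_mul, Matrix.mul_apply, Fin.sum_univ_two,
        Matrix.SpecialLinearGroup.SL2_inv_expl]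
      simp [← hc, ← hd]
      ring
    have h11 : (g' * g⁻¹) 1 1 = 1 := by
      have hdet := g.det_coe
      rw [Matrix.det_fin_two] at hdet
      rw [Matrix.SpecialLinearGroup.coe_mul, Matrix.mul_apply, Fin.sum_univ_two,
        Matrix.SpecialLinearGroup.SL2_inv_expl]
      simp [← hc, ← hd]
      linarith
    have h00 : (g' * g⁻¹) 0 0 = 1 := by
      have hdet := (g' * g⁻¹).det_coe
      rw [Matrix.det_fin_two, h10, h11] at hdet
      linarith
    have hT : g' * g⁻¹ = ModularGroup.T ^ ((g' * g⁻¹) 0 1) := by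
      ext i j
      fin_cases i <;> fin_cases j
      · simpa [coe_T_zpow] using h00
      · simp [coe_T_zpow]
      · simpa [coe_T_zpow] using h10
      · simpa [coe_T_zpow] using h11
    set n := (g' * g⁻¹) 0 1 with hn
    have h0 : g' = ModularGroup.T ^ n * g := by
      rw [← hT]; simp
    have h1 : g' • z = ModularGroup.T ^ n • (g • z) := by
      rw [← mul_smul, ← h0]
    have h2 : (g' • z).re = (g • z).re + n := by
      rw [h1, re_T_zpow_smul]
    have h3 := hg.1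
    have h4 := hg'.1
    rw [h2] at h4
    have h5 : n = 0 := by
      have h6 : (n : ℝ) < 1 := by linarith [h3.1, h4.2]
      have h7 : (-1 : ℝ) < n := by linarith [h3.2, h4.1]
      have h8 : n < 1 := by exact_mod_cast h6
      have h9 : -1 < n := by exact_mod_cast h7
      omega
    rw [h5] at h0
    simp at h0
    exact Subtype.ext h0.symm
  · rintro ⟨v, hv1, hv2, hv3⟩
    obtain ⟨g, _, hg⟩ := bottom_row_surj (R := ℤ) (a := ![v.1, v.2]) (by simpa using hv1)
    have hg0 : g 1 0 = v.1 := by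
      have := congrFun hg 0
      simpa using this
    have hg1 : g 1 1 = v.2 := by
      have := congrFun hg 1
      simpa using this
    set n : ℤ := -⌊(g • z).re⌋ with hn
    have hrow := RSA_T_row n g
    refine ⟨⟨ModularGroup.T ^ n * g, ?_⟩, ?_⟩
    · refine ⟨?_, ?_, ?_⟩
      · rw [mul_smul, re_T_zpow_smul, hn]
        push_cast
        constructor
        · linarith [Int.floor_le (g • z).re]
        · linarith [Int.lt_floor_add_one (g • z).re]
      · rw [mul_smul, im_T_zpow_smul, RSA_im_smul, hg0, hg1]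
        exact hv2
      · rw [mul_smul, im_T_zpow_smul, RSA_im_smul, hg0, hg1]
        exact hv3
    · apply Subtype.ext
      exact Prod.ext (hrow.1.trans hg0) (hrow.2.trans hg1)

theorem RSA_sum {k : ℕ} {a : ℕ → ℝ} (H : HData k a) {ε : ℝ} (hε : 0 < ε) (z : ℍ) :
    ∑' g : SL(2, ℤ), (RSA_strip ε).indicator (fun w : ℍ => ENNReal.ofReal (ph k a w)) (g • z) =
      ENNReal.ofReal (ph k a z) * NN z ε := by
  have h1 : ∀ g : SL(2, ℤ), (RSA_strip ε).indicator (fun w : ℍ => ENNReal.ofReal (ph k a w)) (g • z) =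
      {g : SL(2, ℤ) | g • z ∈ RSA_strip ε}.indicator (fun _ => ENNReal.ofReal (ph k a z)) g := by
    intro g
    by_cases hg : g • z ∈ RSA_strip ε
    · rw [Set.indicator_of_mem hg, Set.indicator_of_mem (by exact hg), RSA_ph_smul H]
    · rw [Set.indicator_of_notMem hg, Set.indicator_of_notMem (by exact hg)]
  simp_rw [h1]
  rw [← tsum_subtype {g : SL(2, ℤ) | g • z ∈ RSA_strip ε} (fun _ => ENNReal.ofReal (ph k a z)),
    ENNReal.tsum_const, mul_comm]
  congr 1
  obtain ⟨e⟩ := RSA_equiv z ε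
  have hfin := RSA_NN_finite z hε
  have h2 : ENat.card {g : SL(2, ℤ) // g • z ∈ RSA_strip ε} = (NN z ε : ℕ∞) := by
    rw [ENat.card_congr e]
    unfold NN
    exact ENat.card_eq_coe_natCard _
  have h3 : ENat.card {g : SL(2, ℤ) | g • z ∈ RSA_strip ε} =
      ENat.card {g : SL(2, ℤ) // g • z ∈ RSA_strip ε} := rfl
  rw [h3, h2]
  rfl

theorem RSA_lint (F : ℂ → ℝ≥0∞) :
    ∫⁻ w : ℍ, F w = ∫⁻ z in {z : ℂ | 0 < z.im}, F z * ENNReal.ofReal (1 / z.im ^ 2) := by
  have hrange : Set.range UpperHalfPlane.coe = {z : ℂ | 0 < z.im} := by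
    ext z
    constructor
    · rintro ⟨w, rfl⟩
      exact w.im_pos
    · intro hz
      exact ⟨⟨z, hz⟩, rfl⟩
  rw [volume_def]
  rw [lintegral_withDensity_eq_lintegral_mul_non_measurable]
  · have h1 := measurableEmbedding_coe.lintegral_map (μ := volume.comap UpperHalfPlane.coe)
      (f := fun z : ℂ => F z * ENNReal.ofReal (1 / z.im ^ 2))
    rw [measurableEmbedding_coe.map_comap, hrange] at h1
    rw [h1]
    apply lintegral_congr
    intro w
    rw [Pi.mul_apply, mul_comm]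
    congr 1
    rw [ENNReal.coe_nnreal_eq]
    congr 1
    push_cast
    rw [div_pow, one_pow]
    rfl
  · have h2 : Continuous (fun z : ℍ => (1 / NNReal.mk z.im z.im_pos.le : NNReal) ^ 2) := by
      refine .pow (.div₀ continuous_const ?_ ?_) _
      · exact continuous_im.subtype_mk _
      · exact fun x ↦ NNReal.ne_iff.mp x.im_ne_zero
    exact h2.measurable.coe_nnreal_ennreal
  · exact Eventually.of_forall (fun z => ENNReal.coe_lt_top)

theorem RSA_lint_fd (F : ℂ → ℝ≥0∞) :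
    ∫⁻ w in 𝒟ᵒ, F (w : ℍ) = ∫⁻ z in FD, F z * ENNReal.ofReal (1 / z.im ^ 2) := by
  have hmo : MeasurableSet (𝒟ᵒ : Set ℍ) := isOpen_fdo.measurableSet
  have hFD : MeasurableSet FD := by
    have : FD = (↑) '' 𝒟ᵒ := by rw [coe_fdo]; rfl
    rw [this]
    exact measurableEmbedding_coe.measurableSet_image.mpr hmo
  rw [← lintegral_indicator hmo]
  have h1 : ∀ w : ℍ, (𝒟ᵒ : Set ℍ).indicator (fun w : ℍ => F w) w = FD.indicator F (w : ℂ) := by
    intro w
    have h2 : (w : ℂ) ∈ FD ↔ w ∈ 𝒟ᵒ := by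
      have : FD = (↑) '' 𝒟ᵒ := by rw [coe_fdo]; rfl
      rw [this]
      constructor
      · rintro ⟨v, hv, hvw⟩
        rwa [← UpperHalfPlane.ext hvw]
      · intro h
        exact ⟨w, h, rfl⟩
    by_cases hw : w ∈ 𝒟ᵒ
    · rw [Set.indicator_of_mem hw, Set.indicator_of_mem (h2.mpr hw)]
    · rw [Set.indicator_of_notMem hw, Set.indicator_of_notMem (fun h => hw (h2.mp h))]
  rw [lintegral_congr h1, RSA_lint, ← lintegral_indicator hFD, ← lintegral_indicator]
  · apply lintegral_congr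
    intro z
    by_cases hz : z ∈ FD
    · have hz' : z ∈ {z : ℂ | 0 < z.im} := hz.1
      rw [Set.indicator_of_mem hz', Set.indicator_of_mem hz, Set.indicator_of_mem hz]
    · rw [Set.indicator_of_notMem hz]
      by_cases hz' : z ∈ {z : ℂ | 0 < z.im}
      · rw [Set.indicator_of_mem hz', Set.indicator_of_notMem hz, zero_mul]
      · rw [Set.indicator_of_notMem hz']
  · exact (isOpen_lt continuous_const Complex.continuous_im).measurableSet

theorem RSA_Dm {k : ℕ} {a : ℕ → ℝ} (H : HData k a) {y : ℝ} (hy : 0 < y) :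
    Dm k a 1 y = ∫ x in (0 : ℝ)..1, ph k a (⟨x, y⟩ : ℂ) := by
  have hs := summable_a H (y := 2 * Real.pi * y) (by positivity)
  set b : ℕ → ℂ := fun n => (a n : ℂ) * (Real.exp (-(2 * Real.pi * y) * n) : ℝ) with hb
  have hbn : ∀ n, ‖b n‖ = |a n| * Real.exp (-(2 * Real.pi * y) * n) := by
    intro n
    rw [hb]
    simp only
    rw [norm_mul, Complex.norm_real, Complex.norm_real, Real.norm_eq_abs, Real.norm_eq_abs,
      abs_of_pos (Real.exp_pos _)]
  have hpar := parseval b (by simp_rw [hbn]; exact hs)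
  have hHH : ∀ θ : ℝ, HH b θ = qs a (⟨θ, y⟩ : ℂ) := by
    intro θ
    unfold HH qs
    congr 1
    ext n
    rw [hb]
    simp only
    rw [mul_assoc, Complex.ofReal_exp, ← Complex.exp_add]
    congr 2
    have h1 : (⟨θ, y⟩ : ℂ) = (θ : ℂ) + y * Complex.I := by
      apply Complex.ext <;> simp
    rw [h1]
    push_cast
    linear_combination (-2 * Real.pi * n * y : ℂ) * Complex.I_sq
  unfold Dm
  have h2 : ∀ n : ℕ, (am a 1 n) ^ 2 * Real.exp (-4 * Real.pi * n * y) = ‖b n‖ ^ 2 := by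
    intro n
    rw [hbn, mul_pow, sq_abs, ← Real.exp_nat_mul]
    unfold am
    rw [if_pos (Nat.coprime_one_right n)]
    congr 2
    push_cast
    ring
  simp_rw [h2]
  rw [hpar, ← intervalIntegral.integral_const_mul]
  apply intervalIntegral.integral_congr
  intro θ _
  simp only
  rw [hHH]
  unfold ph
  ring

theorem RSA_Dm_cont {k : ℕ} {a : ℕ → ℝ} (H : HData k a) :
    ContinuousOn (Dm k a 1) (Set.Ioi 0) := by
  have hc : ∀ c : ℝ, 0 < c → ContinuousOn (Dm k a 1) (Set.Ici c) := by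
    intro c hc
    unfold Dm
    apply ContinuousOn.mul (by fun_prop)
    have hs := summable_a H (y := 2 * Real.pi * c) (by positivity)
    have hs2 : Summable (fun n : ℕ => (|a n| * Real.exp (-(2 * Real.pi * c) * n)) ^ 2) := by
      have hnn : ∀ n : ℕ, 0 ≤ |a n| * Real.exp (-(2 * Real.pi * c) * n) :=
        fun n => mul_nonneg (abs_nonneg _) (Real.exp_pos _).le
      apply Summable.of_nonneg_of_le (fun n => sq_nonneg _) (fun n => ?_)
        (hs.mul_left (∑' n : ℕ, |a n| * Real.exp (-(2 * Real.pi * c) * n)))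
      rw [sq]
      exact mul_le_mul_of_nonneg_right (hs.le_tsum n (fun j _ => hnn j)) (hnn n)
    apply continuousOn_tsum (u := fun n : ℕ => (|a n| * Real.exp (-(2 * Real.pi * c) * n)) ^ 2)
    · intro n
      fun_prop
    · exact hs2
    · intro n y hy
      have hy' : c ≤ y := hy
      rw [norm_mul, Real.norm_eq_abs, Real.norm_eq_abs, abs_of_nonneg (sq_nonneg _),
        abs_of_pos (Real.exp_pos _), mul_pow, sq_abs, ← Real.exp_nat_mul]
      unfold am
      rw [if_pos (Nat.coprime_one_right n)]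
      apply mul_le_mul_of_nonneg_left _ (sq_nonneg _)
      apply Real.exp_le_exp.mpr
      push_cast
      have h1 : (0 : ℝ) ≤ n := Nat.cast_nonneg n
      have h3 : 4 * Real.pi * n * c ≤ 4 * Real.pi * n * y :=
        mul_le_mul_of_nonneg_left hy' (by positivity)
      linarith
  intro y hy
  apply ContinuousAt.continuousWithinAt
  have hy' : 0 < y := hy
  exact (hc (y / 2) (half_pos hy')).continuousAt (Ici_mem_nhds (by linarith))

/-- the strip in `ℂ` -/
def RSA_str (ε : ℝ) : Set ℂ := {z : ℂ | (0 ≤ z.re ∧ z.re < 1) ∧ ε ≤ z.im ∧ z.im < 2 * ε}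

theorem RSA_str_int {k : ℕ} {a : ℕ → ℝ} (H : HData k a) {ε : ℝ} (hε : 0 < ε) :
    ∫⁻ w : ℍ, (RSA_strip ε).indicator (fun w : ℍ => ENNReal.ofReal (ph k a w)) w =
      ENNReal.ofReal (∫ y in ε..(2 * ε), Dm k a 1 y / y ^ 2) := by
  have h1 : ∀ w : ℍ, (RSA_strip ε).indicator (fun w : ℍ => ENNReal.ofReal (ph k a w)) w =
      (RSA_str ε).indicator (fun z : ℂ => ENNReal.ofReal (ph k a z)) (w : ℂ) := by
    intro w
    by_cases hw : w ∈ RSA_strip ε
    · rw [Set.indicator_of_mem hw, Set.indicator_of_mem (by exact hw)]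
    · rw [Set.indicator_of_notMem hw, Set.indicator_of_notMem (by exact hw)]
  rw [lintegral_congr h1, RSA_lint, ← lintegral_indicator
    (isOpen_lt continuous_const Complex.continuous_im).measurableSet]
  set f : ℝ × ℝ → ℝ≥0∞ := (Set.Ico (0 : ℝ) 1 ×ˢ Set.Ico ε (2 * ε)).indicator
    (fun p : ℝ × ℝ => ENNReal.ofReal (ph k a (⟨p.1, p.2⟩ : ℂ) / p.2 ^ 2)) with hf
  have h2 : ∫⁻ z : ℂ, {z : ℂ | 0 < z.im}.indicator (fun z =>
      (RSA_str ε).indicator (fun z : ℂ => ENNReal.ofReal (ph k a z)) z *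
        ENNReal.ofReal (1 / z.im ^ 2)) z = ∫⁻ p : ℝ × ℝ, f p := by
    rw [(Complex.volume_preserving_equiv_real_prod.symm).lintegral_map_equiv]
    apply lintegral_congr
    rintro ⟨x, y⟩
    have e : Complex.measurableEquivRealProd.symm (x, y) = (⟨x, y⟩ : ℂ) := rfl
    rw [e, hf]
    by_cases hp : ((0 ≤ x ∧ x < 1) ∧ ε ≤ y ∧ y < 2 * ε)
    · have hy : 0 < y := by linarith [hp.2.1]
      rw [Set.indicator_of_mem (by exact hy), Set.indicator_of_mem (by exact hp),
        Set.indicator_of_mem (by exact hp)]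
      simp only
      rw [← ENNReal.ofReal_mul (RSA_ph_nonneg hy.le)]
      congr 1
      ring
    · rw [Set.indicator_of_notMem (s := Set.Ico (0 : ℝ) 1 ×ˢ Set.Ico ε (2 * ε)) (by exact hp)]
      by_cases hy : 0 < y
      · rw [Set.indicator_of_mem (by exact hy), Set.indicator_of_notMem (by exact hp), zero_mul]
      · rw [Set.indicator_of_notMem (by exact hy)]
  rw [h2, Measure.volume_eq_prod]
  have hcont : ContinuousOn (fun p : ℝ × ℝ => ph k a (⟨p.1, p.2⟩ : ℂ)) {p : ℝ × ℝ | 0 < p.2} := by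
    have h3 : Continuous (fun p : ℝ × ℝ => (⟨p.1, p.2⟩ : ℂ)) :=
      Complex.equivRealProdCLM.symm.continuous
    exact (RSA_ph_cont H).comp h3.continuousOn (fun p hp => hp)
  have hmeas : MeasurableSet (Set.Ico (0 : ℝ) 1 ×ˢ Set.Ico ε (2 * ε)) :=
    measurableSet_Ico.prod measurableSet_Ico
  have hfm : AEMeasurable f (volume.prod volume) := by
    rw [hf, aemeasurable_indicator_iff hmeas]
    apply AEMeasurable.ennreal_ofReal
    apply ContinuousOn.aemeasurable _ hmeas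
    apply ContinuousOn.div
    · exact hcont.mono (fun p hp => lt_of_lt_of_le hε hp.2.1)
    · fun_prop
    · intro p hp
      have : 0 < p.2 := lt_of_lt_of_le hε hp.2.1
      positivity
  rw [lintegral_prod_symm _ hfm]
  have h4 : ∀ y : ℝ, ∫⁻ x : ℝ, f (x, y) = (Set.Ico ε (2 * ε)).indicator
      (fun y => ENNReal.ofReal (Dm k a 1 y / y ^ 2)) y := by
    intro y
    by_cases hy : y ∈ Set.Ico ε (2 * ε)
    · have hy0 : 0 < y := lt_of_lt_of_le hε hy.1
      rw [Set.indicator_of_mem hy]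
      have h5 : ∀ x : ℝ, f (x, y) = (Set.Ico (0 : ℝ) 1).indicator
          (fun x => ENNReal.ofReal (ph k a (⟨x, y⟩ : ℂ) / y ^ 2)) x := by
        intro x
        by_cases hx : x ∈ Set.Ico (0 : ℝ) 1
        · rw [hf, Set.indicator_of_mem (by exact ⟨hx, hy⟩), Set.indicator_of_mem hx]
        · rw [hf, Set.indicator_of_notMem (by exact fun h => hx h.1), Set.indicator_of_notMem hx]
      rw [lintegral_congr h5, lintegral_indicator measurableSet_Ico,
        ← ofReal_integral_eq_lintegral_ofReal]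
      · congr 1
        rw [RSA_Dm H hy0, integral_div, intervalIntegral.integral_of_le zero_le_one,
          integral_Ico_eq_integral_Ioc]
      · have h6 : ContinuousOn (fun x : ℝ => ph k a (⟨x, y⟩ : ℂ) / y ^ 2) (Set.Icc 0 1) := by
          apply ContinuousOn.div_const
          exact hcont.comp (f := fun x : ℝ => (x, y)) (by fun_prop) (fun x _ => hy0)
        exact (h6.integrableOn_Icc).mono_set Set.Ico_subset_Icc_self
      · apply Eventually.of_forall
        intro x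
        exact div_nonneg (RSA_ph_nonneg hy0.le) (sq_nonneg y)
    · rw [Set.indicator_of_notMem hy]
      have h5 : ∀ x : ℝ, f (x, y) = 0 := by
        intro x
        rw [hf, Set.indicator_of_notMem (by exact fun h => hy h.2)]
      rw [lintegral_congr h5, lintegral_zero]
  rw [lintegral_congr h4, lintegral_indicator measurableSet_Ico,
    ← ofReal_integral_eq_lintegral_ofReal]
  · congr 1
    rw [intervalIntegral.integral_of_le (by linarith), integral_Ico_eq_integral_Ioc]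
  · have h6 : ContinuousOn (fun y : ℝ => Dm k a 1 y / y ^ 2) (Set.Icc ε (2 * ε)) := by
      apply ContinuousOn.div
      · exact (RSA_Dm_cont H).mono (fun y hy => lt_of_lt_of_le hε hy.1)
      · fun_prop
      · intro y hy
        have : 0 < y := lt_of_lt_of_le hε hy.1
        positivity
    exact (h6.integrableOn_Icc).mono_set Set.Ico_subset_Icc_self
  · rw [EventuallyLE, ae_restrict_iff' measurableSet_Ico]
    apply Eventually.of_forall
    intro y hy
    have hy0 : 0 < y := lt_of_lt_of_le hε hy.1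
    show 0 ≤ Dm k a 1 y / y ^ 2
    unfold Dm
    apply div_nonneg (mul_nonneg (by positivity) (tsum_nonneg (fun n => by positivity)))
      (sq_nonneg y)

/-- block RSA: unfolding -/
theorem unfold_pr {k : ℕ} {a : ℕ → ℝ} (H : HData k a) {ε : ℝ} (hε : 0 < ε) :
    ENNReal.ofReal (∫ t in (1 : ℝ)..2, Dm k a 1 (ε * t) / t ^ 2) =
      ∫⁻ z in FD, ENNReal.ofReal (ph k a z / z.im ^ 2 * (ε * NN z ε / 2)) := by
  have hcoe : Measurable (fun w : ℍ => ENNReal.ofReal (ph k a w)) := by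
    apply Measurable.ennreal_ofReal
    apply Continuous.measurable
    have := (RSA_ph_cont H).comp_continuous UpperHalfPlane.continuous_coe (fun w => w.im_pos)
    exact this
  have hstrip : MeasurableSet (RSA_strip ε) := by
    unfold RSA_strip
    have h1 : Measurable (fun w : ℍ => w.re) := UpperHalfPlane.continuous_re.measurable
    have h2 : Measurable (fun w : ℍ => w.im) := UpperHalfPlane.continuous_im.measurable
    exact ((measurableSet_le measurable_const h1).inter (measurableSet_lt h1 measurable_const)).inter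
      ((measurableSet_le measurable_const h2).inter (measurableSet_lt h2 measurable_const))
  have h3 := RSA_unfold _ (hcoe.indicator hstrip)
  simp_rw [RSA_sum H hε] at h3
  rw [RSA_str_int H hε, RSA_lint_fd (fun z => ENNReal.ofReal (ph k a z) * NN z ε)] at h3
  have h4 : ∫ t in (1 : ℝ)..2, Dm k a 1 (ε * t) / t ^ 2 =
      ε * ∫ y in ε..(2 * ε), Dm k a 1 y / y ^ 2 := by
    have h5 := intervalIntegral.integral_comp_mul_left (a := 1) (b := 2)
      (fun y => Dm k a 1 y / y ^ 2 * ε ^ 2) hε.ne'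
    have h6 : ∀ t : ℝ, Dm k a 1 (ε * t) / (ε * t) ^ 2 * ε ^ 2 = Dm k a 1 (ε * t) / t ^ 2 := by
      intro t
      rw [mul_pow]
      field_simp
    simp_rw [h6] at h5
    rw [h5, smul_eq_mul, mul_one, mul_comm ε 2, intervalIntegral.integral_mul_const]
    field_simp
  rw [h4, ENNReal.ofReal_mul hε.le]
  have h7 : ENNReal.ofReal (∫ y in ε..(2 * ε), Dm k a 1 y / y ^ 2) =
      2⁻¹ * ∫⁻ z in FD, ENNReal.ofReal (ph k a z) * NN z ε * ENNReal.ofReal (1 / z.im ^ 2) := by
    rw [h3, ← mul_assoc, ENNReal.inv_mul_cancel (by norm_num) (by norm_num), one_mul]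
  rw [h7, ← lintegral_const_mul' _ _ (by norm_num), ← lintegral_const_mul' _ _ ENNReal.ofReal_ne_top]
  have hFD : MeasurableSet FD := by
    have : FD = (↑) '' 𝒟ᵒ := by rw [coe_fdo]; rfl
    rw [this]
    exact measurableEmbedding_coe.measurableSet_image.mpr isOpen_fdo.measurableSet
  apply setLIntegral_congr_fun hFD
  intro z hz
  have hz0 : 0 < z.im := hz.1
  simp only
  have e2 : (2⁻¹ : ℝ≥0∞) = ENNReal.ofReal (1 / 2) := by
    rw [one_div, ENNReal.ofReal_inv_of_pos (by norm_num)]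
    norm_num
  have eN : ((NN z ε : ℕ) : ℝ≥0∞) = ENNReal.ofReal (NN z ε : ℝ) := by
    rw [ENNReal.ofReal_natCast]
  rw [e2, eN, ← ENNReal.ofReal_mul (RSA_ph_nonneg hz0.le), ← ENNReal.ofReal_mul
    (mul_nonneg (RSA_ph_nonneg hz0.le) (Nat.cast_nonneg _)), ← ENNReal.ofReal_mul (by norm_num),
    ← ENNReal.ofReal_mul hε.le]
  congr 1
  ring

end Pool.Agent.GL2
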