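import Pool.Agent.Lib_helper68.GL2.PEEL
import Pool.Agent.Lib_helper68.GL2.RSA
import Pool.Agent.Lib_helper68.GL2.HP

namespace Pool.Agent.GL2

alias am_peel := am_peel_pr
alias qs_am_bound := qs_am_bound_pr
alias unfold := unfold_pr
alias abs_ap_lt := abs_ap_lt_pr
alias Ep_ne_zero := Ep_ne_zero_pr

end Pool.Agent.GL2
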