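import Pool.Agent.Lib_helper68.GL2.BR6
import Pool.Agent.Lib_helper68.GL2.R2

/-! Block B7: the twisted horocycle integral (helper98). -/

namespace Pool.Agent.GL2

open Complex MeasureTheory Filter Topology UpperHalfPlane ModularGroup
open scoped MatrixGroups Modular ENNReal

theorem b7_me (g : SL(2, ℤ)) : MeasurableEmbedding (fun z : ℍ => g • z) := by
  have hm : ∀ g : SL(2, ℤ), Measurable (fun z : ℍ => g • z) := fun g => (RSA_mp g).measurable
  exact (MeasurableEquiv.mk (MulAction.toPerm g : Equiv.Perm ℍ) (hm g) (hm g⁻¹)).measurableEmbedding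

theorem b7_count_ae : ∀ᵐ w : ℍ, ∑' g : SL(2, ℤ),
    (((𝒟ᵒ.indicator (fun _ => (1 : ℝ)) (g • w) : ℝ)) : ℂ) = 2 := by
  filter_upwards [RSA_count_ae] with w hw
  rw [← Complex.ofReal_tsum]
  have h1 : ∀ g : SL(2, ℤ), 𝒟ᵒ.indicator (fun _ => (1 : ℝ)) (g • w) =
      (𝒟ᵒ.indicator (fun _ => (1 : ℝ≥0∞)) (g • w)).toReal := by
    intro g
    by_cases h : g • w ∈ 𝒟ᵒ
    · rw [Set.indicator_of_mem h, Set.indicator_of_mem h]; simp
    · rw [Set.indicator_of_notMem h, Set.indicator_of_notMem h]; simp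
  simp_rw [h1]
  rw [← ENNReal.tsum_toReal_eq, hw]
  · simp
  · intro g
    by_cases h : g • w ∈ 𝒟ᵒ
    · rw [Set.indicator_of_mem h]; simp
    · rw [Set.indicator_of_notMem h]; simp

/-- complex unfolding -/
theorem b7_unfold (G : ℍ → ℂ) (hG : StronglyMeasurable G) (hGi : Integrable G) :
    ∫ z in 𝒟ᵒ, ∑' g : SL(2, ℤ), G (g • z) = 2 * ∫ w : ℍ, G w := by
  have hmo : MeasurableSet (𝒟ᵒ : Set ℍ) := isOpen_fdo.measurableSet
  have hms : ∀ g : SL(2, ℤ), Measurable (fun z : ℍ => g • z) := fun g => (RSA_mp g).measurable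
  have hfin : ∑' g : SL(2, ℤ), ∫⁻ z in 𝒟ᵒ, ‖G (g • z)‖ₑ ≠ ∞ := by
    have h1 := RSA_unfold (fun w => ‖G w‖ₑ) hG.measurable.enorm
    rw [lintegral_tsum (f := fun (g : SL(2, ℤ)) (z : ℍ) => ‖G (g • z)‖ₑ)
      (fun g => (hG.measurable.enorm.comp (hms g)).aemeasurable)] at h1
    rw [h1]
    exact ENNReal.mul_ne_top (by norm_num) hGi.2.ne
  rw [integral_tsum (f := fun (g : SL(2, ℤ)) (z : ℍ) => G (g • z))
    (fun g => (hG.comp_measurable (hms g)).aestronglyMeasurable) hfin]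
  have hstep : ∀ g : SL(2, ℤ), ∫ z in 𝒟ᵒ, G (g • z) =
      ∫ w : ℍ, (((𝒟ᵒ.indicator (fun _ => (1 : ℝ)) (g⁻¹ • w) : ℝ)) : ℂ) * G w := by
    intro g
    rw [← (RSA_mp g).integral_comp (b7_me g)
      (fun w : ℍ => (((𝒟ᵒ.indicator (fun _ => (1 : ℝ)) (g⁻¹ • w) : ℝ)) : ℂ) * G w),
      ← integral_indicator hmo]
    congr 1
    ext z
    simp only [inv_smul_smul]
    by_cases hz : z ∈ 𝒟ᵒ
    · rw [Set.indicator_of_mem hz, Set.indicator_of_mem hz]; simp
    · rw [Set.indicator_of_notMem hz, Set.indicator_of_notMem hz]; simp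
  have hstepE : ∀ g : SL(2, ℤ), ∫⁻ z in 𝒟ᵒ, ‖G (g • z)‖ₑ =
      ∫⁻ w : ℍ, ‖(((𝒟ᵒ.indicator (fun _ => (1 : ℝ)) (g⁻¹ • w) : ℝ)) : ℂ) * G w‖ₑ := by
    intro g
    rw [← (RSA_mp g).lintegral_comp_emb (b7_me g)
      (fun w : ℍ => ‖(((𝒟ᵒ.indicator (fun _ => (1 : ℝ)) (g⁻¹ • w) : ℝ)) : ℂ) * G w‖ₑ),
      ← lintegral_indicator hmo]
    congr 1
    ext z
    simp only [inv_smul_smul]
    by_cases hz : z ∈ 𝒟ᵒ
    · rw [Set.indicator_of_mem hz, Set.indicator_of_mem hz]; simp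
    · rw [Set.indicator_of_notMem hz, Set.indicator_of_notMem hz]; simp
  simp_rw [hstep]
  simp_rw [hstepE] at hfin
  have hm : ∀ g : SL(2, ℤ), AEStronglyMeasurable
      (fun w : ℍ => (((𝒟ᵒ.indicator (fun _ => (1 : ℝ)) (g⁻¹ • w) : ℝ)) : ℂ) * G w) volume := by
    intro g
    apply StronglyMeasurable.aestronglyMeasurable
    apply StronglyMeasurable.mul _ hG
    exact (Complex.measurable_ofReal.comp
      ((measurable_const.indicator hmo).comp (hms g⁻¹))).stronglyMeasurable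
  rw [← integral_tsum hm hfin, ← integral_const_mul]
  apply integral_congr_ae
  filter_upwards [b7_count_ae] with w hw
  rw [tsum_mul_right]
  congr 1
  rw [← hw]
  exact (Equiv.inv SL(2, ℤ)).tsum_eq
    (fun g => (((𝒟ᵒ.indicator (fun _ => (1 : ℝ)) (g • w) : ℝ)) : ℂ))

/-- the strip `0 ≤ Re < 1`, `a ≤ Im < b` in `ℍ` -/
def b7_strip (a b : ℝ) : Set ℍ := {w : ℍ | (0 ≤ w.re ∧ w.re < 1) ∧ a ≤ w.im ∧ w.im < b}

/-- a matrix as a quadruple -/
def b7_tup (g : SL(2, ℤ)) : ℤ × ℤ × ℤ × ℤ := (g 0 0, g 0 1, g 1 0, g 1 1)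

theorem b7_tup_inj : Function.Injective b7_tup := by
  intro g g' h
  simp only [b7_tup, Prod.mk.injEq] at h
  obtain ⟨h1, h2, h3, h4⟩ := h
  ext i j
  fin_cases i <;> fin_cases j
  · exact h1
  · exact h2
  · exact h3
  · exact h4

theorem b7_det (g : SL(2, ℤ)) : Det1 (b7_tup g) := by
  have := g.det_coe
  rw [Matrix.det_fin_two] at this
  unfold Det1 b7_tup
  exact this

theorem b7_mob (g : SL(2, ℤ)) (w : ℍ) : mob (b7_tup g) (w : ℂ) = ((g • w : ℍ) : ℂ) := by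
  rw [RSA_coe_smul]
  rfl

theorem b7_row_inj (z : ℍ) (g g' : SL(2, ℤ)) (h3 : 0 ≤ (g • z).re ∧ (g • z).re < 1)
    (h4 : 0 ≤ (g' • z).re ∧ (g' • z).re < 1) (hc : g 1 0 = g' 1 0) (hd : g 1 1 = g' 1 1) :
    g = g' := by
  have h10 : (g' * g⁻¹) 1 0 = 0 := by
    rw [Matrix.SpecialLinearGroup.coe_mul, Matrix.mul_apply, Fin.sum_univ_two,
      Matrix.SpecialLinearGroup.SL2_inv_expl]
    simp [← hc, ← hd]
    ring
  have h11 : (g' * g⁻¹) 1 1 = 1 := by
    have hdet := g.det_coe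
    rw [Matrix.det_fin_two] at hdet
    rw [Matrix.SpecialLinearGroup.coe_mul, Matrix.mul_apply, Fin.sum_univ_two,
      Matrix.SpecialLinearGroup.SL2_inv_expl]
    simp [← hc, ← hd]
    linarith
  have h00 : (g' * g⁻¹) 0 0 = 1 := by
    have hdet := (g' * g⁻¹).det_coe
    rw [Matrix.det_fin_two, h10, h11] at hdet
    linarith
  have hT : g' * g⁻¹ = ModularGroup.T ^ ((g' * g⁻¹) 0 1) := by
    ext i j
    fin_cases i <;> fin_cases j
    · simpa [coe_T_zpow] using h00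
    · simp [coe_T_zpow]
    · simpa [coe_T_zpow] using h10
    · simpa [coe_T_zpow] using h11
  set n := (g' * g⁻¹) 0 1 with hn
  have h0 : g' = ModularGroup.T ^ n * g := by
    rw [← hT]; simp
  have h1 : g' • z = ModularGroup.T ^ n • (g • z) := by
    rw [← mul_smul, ← h0]
  have h2 : (g' • z).re = (g • z).re + n := by
    rw [h1, re_T_zpow_smul]
  rw [h2] at h4
  have h5 : n = 0 := by
    have h6 : (n : ℝ) < 1 := by linarith [h3.1, h4.2]
    have h7 : (-1 : ℝ) < n := by linarith [h3.2, h4.1]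
    have h8 : n < 1 := by exact_mod_cast h6
    have h9 : -1 < n := by exact_mod_cast h7
    omega
  rw [h5] at h0
  simp at h0
  exact h0.symm

theorem b7_row_surj (z : ℍ) (c d : ℤ) (h : IsCoprime c d) :
    ∃ g : SL(2, ℤ), g 1 0 = c ∧ g 1 1 = d ∧ 0 ≤ (g • z).re ∧ (g • z).re < 1 := by
  obtain ⟨g, _, hg⟩ := bottom_row_surj (R := ℤ) (a := ![c, d]) (by simpa using h)
  have hg0 : g 1 0 = c := by
    have := congrFun hg 0
    simpa using this
  have hg1 : g 1 1 = d := by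
    have := congrFun hg 1
    simpa using this
  set n : ℤ := -⌊(g • z).re⌋ with hn
  have hrow := RSA_T_row n g
  refine ⟨ModularGroup.T ^ n * g, hrow.1.trans hg0, hrow.2.trans hg1, ?_⟩
  rw [mul_smul, re_T_zpow_smul, hn]
  push_cast
  constructor
  · linarith [Int.floor_le (g • z).re]
  · linarith [Int.lt_floor_add_one (g • z).re]

theorem b7_finite (z : ℍ) {a b : ℝ} (ha : 0 < a) : {g : SL(2, ℤ) | g • z ∈ b7_strip a b}.Finite := by
  have h1 := tendsto_normSq_coprime_pair z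
  have h2 : ∀ᶠ p in cofinite, (z : ℂ).im / a < normSq (((p : Fin 2 → ℤ) 0 : ℂ) * z + p 1) :=
    h1.eventually (eventually_gt_atTop _)
  rw [Filter.eventually_cofinite] at h2
  have hinj : Set.InjOn (fun g : SL(2, ℤ) => (![g 1 0, g 1 1] : Fin 2 → ℤ))
      {g : SL(2, ℤ) | g • z ∈ b7_strip a b} := by
    intro g hg g' hg' h
    have e0 := congrFun h 0
    have e1 := congrFun h 1
    simp at e0 e1
    exact b7_row_inj z g g' hg.1 hg'.1 e0 e1
  apply Set.Finite.of_finite_image _ hinj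
  apply Set.Finite.subset h2
  rintro _ ⟨g, hg, rfl⟩
  simp only [Set.mem_ofPred_eq, not_lt]
  simp only [Matrix.cons_val_zero, Matrix.cons_val_one]
  have hv := hg.2.1
  rw [RSA_im_smul] at hv
  rw [Complex.normSq_eq_norm_sq, le_div_iff₀ ha]
  have h5 : 0 < ‖((g 1 0 : ℤ) * (z : ℂ) + (g 1 1 : ℤ))‖ ^ 2 := by
    have := norm_pos_iff.mpr (RSA_denom_ne g z)
    positivity
  rw [le_div_iff₀ h5] at hv
  have : (z : ℂ).im = z.im := rfl
  linarith

/-- the finite set of `g` with `g z` in the strip -/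
noncomputable def b7_S (z : ℍ) {a : ℝ} (b : ℝ) (ha : 0 < a) : Finset SL(2, ℤ) :=
  (b7_finite z (b := b) ha).toFinset

theorem b7_mem_S {z : ℍ} {a b : ℝ} (ha : 0 < a) (g : SL(2, ℤ)) :
    g ∈ b7_S z b ha ↔ g • z ∈ b7_strip a b := by
  unfold b7_S
  rw [Set.Finite.mem_toFinset]
  rfl

theorem b7_tsum (z : ℍ) {a b : ℝ} (ha : 0 < a) (f : ℍ → ℂ) :
    ∑' g : SL(2, ℤ), (b7_strip a b).indicator f (g • z) = ∑ g ∈ b7_S z b ha, f (g • z) := by
  rw [tsum_eq_sum (s := b7_S z b ha)]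
  · apply Finset.sum_congr rfl
    intro g hg
    rw [Set.indicator_of_mem ((b7_mem_S ha g).mp hg)]
  · intro g hg
    exact Set.indicator_of_notMem (fun h => hg ((b7_mem_S ha g).mpr h)) _

/-- pointwise bound for the sum over the class of `(u, v)` mod `N` -/
theorem b7_class {φ : ℂ → ℝ} {Cφ : ℝ} (hb : ∀ z : ℂ, 0 < z.im → 0 ≤ φ z ∧ φ z ≤ Cφ) {N : ℕ}
    (hN : 0 < N) (hlev : ∀ g g' : ℤ × ℤ × ℤ × ℤ, Det1 g → Det1 g' →
    (N : ℤ) ∣ g'.2.2.1 - g.2.2.1 → (N : ℤ) ∣ g'.2.2.2 - g.2.2.2 → ∀ z : ℂ, 0 < z.im →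
      φ (mob g z) = φ (mob g' z)) (z : ℍ) {κ₁ κ₂ : ℝ} (h1 : 0 < κ₁) (h2 : κ₁ < κ₂) (c₀ d₀ : ℤ)
    {η : ℝ} (hη : 0 < η) : ∃ L₀ : ℕ, ∀ l : ℕ, L₀ ≤ l → ∀ hl : 0 < κ₁ / l, 
      ‖∑ g ∈ (b7_S z (κ₂ / l) hl).filter (fun g => (N : ℤ) ∣ g 1 0 - c₀ ∧ (N : ℤ) ∣ g 1 1 - d₀),
        ((φ ((g • z : ℍ) : ℂ) : ℝ) : ℂ) * cexp (-(2 * Real.pi * Complex.I) * l * ((g • z).re : ℂ))‖ ≤
      Cφ * (η * l) := by
  obtain ⟨L₀, hL⟩ := ptw z.im_pos hN h1 h2 c₀ d₀ hη
  refine ⟨L₀, fun l hl hl0 => ?_⟩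
  set F := (b7_S z (κ₂ / l) hl0).filter (fun g => (N : ℤ) ∣ g 1 0 - c₀ ∧ (N : ℤ) ∣ g 1 1 - d₀)
    with hF
  have hCφ : 0 ≤ Cφ := (hb Complex.I (by simp)).1.trans (hb Complex.I (by simp)).2
  have hFm : ∀ g, g ∈ F ↔ g • z ∈ b7_strip (κ₁ / l) (κ₂ / l) ∧
      (N : ℤ) ∣ g 1 0 - c₀ ∧ (N : ℤ) ∣ g 1 1 - d₀ := by
    intro g
    rw [hF, Finset.mem_filter, b7_mem_S]
  have hmain := hL l hl (F.image b7_tup) ?_ ?_ ?_
  · rw [Finset.sum_image (fun g _ g' _ h => b7_tup_inj h)] at hmain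
    simp_rw [b7_mob] at hmain
    rcases F.eq_empty_or_nonempty with he | ⟨g₁, hg₁⟩
    · rw [he]
      simp only [Finset.sum_empty, norm_zero]
      positivity
    · have hc : ∀ g ∈ F, φ ((g • z : ℍ) : ℂ) = φ ((g₁ • z : ℍ) : ℂ) := by
        intro g hg
        rw [← b7_mob, ← b7_mob]
        apply hlev _ _ (b7_det g) (b7_det g₁) _ _ _ z.im_pos
        · have e1 := ((hFm g).mp hg).2.1
          have e2 := ((hFm g₁).mp hg₁).2.1
          have : (b7_tup g₁).2.2.1 - (b7_tup g).2.2.1 = (g₁ 1 0 - c₀) - (g 1 0 - c₀) := by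
            simp [b7_tup]
          rw [this]
          exact dvd_sub e2 e1
        · have e1 := ((hFm g).mp hg).2.2
          have e2 := ((hFm g₁).mp hg₁).2.2
          have : (b7_tup g₁).2.2.2 - (b7_tup g).2.2.2 = (g₁ 1 1 - d₀) - (g 1 1 - d₀) := by
            simp [b7_tup]
          rw [this]
          exact dvd_sub e2 e1
      have e3 : ∑ g ∈ F, ((φ ((g • z : ℍ) : ℂ) : ℝ) : ℂ) *
          cexp (-(2 * Real.pi * Complex.I) * l * ((g • z).re : ℂ)) =
          ((φ ((g₁ • z : ℍ) : ℂ) : ℝ) : ℂ) *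
          ∑ g ∈ F, cexp (-(2 * Real.pi * Complex.I) * l * ((g • z).re : ℂ)) := by
        rw [Finset.mul_sum]
        apply Finset.sum_congr rfl
        intro g hg
        rw [hc g hg]
      rw [e3, norm_mul, Complex.norm_real, Real.norm_eq_abs,
        abs_of_nonneg (hb _ (g₁ • z).im_pos).1]
      exact mul_le_mul (hb _ (g₁ • z).im_pos).2 hmain (norm_nonneg _) hCφ
  · intro t ht
    obtain ⟨g, _, rfl⟩ := Finset.mem_image.mp ht
    exact b7_det g
  · intro t ht t' ht' h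
    obtain ⟨g, hg, rfl⟩ := Finset.mem_image.mp ht
    obtain ⟨g', hg', rfl⟩ := Finset.mem_image.mp ht'
    have e1 := ((hFm g).mp hg).1.1
    have e2 := ((hFm g').mp hg').1.1
    simp only [b7_tup, Prod.mk.injEq] at h
    rw [b7_row_inj z g g' e1 e2 h.1 h.2]
  · intro c d
    constructor
    · rintro ⟨t, ht, htcd⟩
      obtain ⟨g, hg, rfl⟩ := Finset.mem_image.mp ht
      simp only [b7_tup, Prod.mk.injEq] at htcd
      obtain ⟨rfl, rfl⟩ := htcd
      have e1 := (hFm g).mp hg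
      have e2 := e1.1.2
      rw [RSA_im_smul] at e2
      exact ⟨e2, bottom_row_coprime g, e1.2.1, e1.2.2⟩
    · rintro ⟨hann, hcop, hc, hd⟩
      obtain ⟨g, rfl, rfl, hre⟩ := b7_row_surj z c d hcop
      refine ⟨b7_tup g, Finset.mem_image.mpr ⟨g, ?_, rfl⟩, rfl⟩
      rw [hFm]
      refine ⟨⟨hre, ?_⟩, hc, hd⟩
      rw [RSA_im_smul]
      exact hann

/-- pointwise limit -/
theorem b7_ptw {φ : ℂ → ℝ} (hφ : InvData φ) (z : ℍ) {κ₁ κ₂ : ℝ} (h1 : 0 < κ₁) (h2 : κ₁ < κ₂)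
    {η : ℝ} (hη : 0 < η) : ∃ L₀ : ℕ, ∀ l : ℕ, L₀ ≤ l → ∀ hl : 0 < κ₁ / l,
      ‖∑ g ∈ b7_S z (κ₂ / l) hl,
        ((φ ((g • z : ℍ) : ℂ) : ℝ) : ℂ) * cexp (-(2 * Real.pi * Complex.I) * l * ((g • z).re : ℂ))‖ ≤
      η * l := by
  obtain ⟨Cφ, hC⟩ := hφ.bdd
  obtain ⟨N, hN, hlev⟩ := hφ.level
  have hb : ∀ z : ℂ, 0 < z.im → 0 ≤ φ z ∧ φ z ≤ Cφ := fun z hz => ⟨hφ.nonneg z hz, hC z hz⟩
  have hCφ : 0 ≤ Cφ := (hb Complex.I (by simp)).1.trans (hb Complex.I (by simp)).2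
  have hη' : 0 < η / ((Cφ + 1) * (N : ℝ) ^ 2) := by
    have : (0 : ℝ) < N := by exact_mod_cast hN
    positivity
  have hcl := fun c₀ d₀ : ℤ => b7_class hb hN hlev z h1 h2 c₀ d₀ hη'
  choose L hL using hcl
  set t : Finset (ℤ × ℤ) := Finset.Ico (0 : ℤ) N ×ˢ Finset.Ico (0 : ℤ) N with ht
  refine ⟨t.sup (fun y => L y.1 y.2), fun l hl hl0 => ?_⟩
  have hNZ : (0 : ℤ) < N := by exact_mod_cast hN
  have hmap : ∀ g ∈ b7_S z (κ₂ / l) hl0, ((g 1 0 % N, g 1 1 % N) : ℤ × ℤ) ∈ t := by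
    intro g _
    rw [ht, Finset.mem_product, Finset.mem_Ico, Finset.mem_Ico]
    exact ⟨⟨Int.emod_nonneg _ hNZ.ne', Int.emod_lt_of_pos _ hNZ⟩,
      ⟨Int.emod_nonneg _ hNZ.ne', Int.emod_lt_of_pos _ hNZ⟩⟩
  rw [← Finset.sum_fiberwise_of_maps_to hmap]
  have hmod : ∀ x y : ℤ, 0 ≤ y → y < N → (x % N = y ↔ (N : ℤ) ∣ x - y) := by
    intro x y hy0 hy1
    constructor
    · rintro rfl
      exact Int.dvd_self_sub_emod
    · intro h
      have h3 : x % N = y % N :=
        (Int.emod_eq_emod_iff_emod_sub_eq_zero).mpr (Int.emod_eq_zero_of_dvd h)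
      rw [h3, Int.emod_eq_of_lt hy0 hy1]
  have hbd : ∀ y ∈ t, ‖∑ g ∈ (b7_S z (κ₂ / l) hl0).filter
      (fun g => ((g 1 0 % N, g 1 1 % N) : ℤ × ℤ) = y),
        ((φ ((g • z : ℍ) : ℂ) : ℝ) : ℂ) * cexp (-(2 * Real.pi * Complex.I) * l * ((g • z).re : ℂ))‖ ≤
      Cφ * (η / ((Cφ + 1) * (N : ℝ) ^ 2) * l) := by
    intro y hy
    have hy' : L y.1 y.2 ≤ l := (Finset.le_sup (f := fun y : ℤ × ℤ => L y.1 y.2) hy).trans hl
    have h3 := hL y.1 y.2 l hy' hl0
    rw [ht, Finset.mem_product, Finset.mem_Ico, Finset.mem_Ico] at hy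
    have h4 : (b7_S z (κ₂ / l) hl0).filter (fun g => ((g 1 0 % N, g 1 1 % N) : ℤ × ℤ) = y) =
        (b7_S z (κ₂ / l) hl0).filter (fun g => (N : ℤ) ∣ g 1 0 - y.1 ∧ (N : ℤ) ∣ g 1 1 - y.2) := by
      apply Finset.filter_congr
      intro g _
      rw [← hmod _ _ hy.1.1 hy.1.2, ← hmod _ _ hy.2.1 hy.2.2]
      exact Prod.ext_iff
    rw [h4]
    exact h3
  refine (norm_sum_le _ _).trans ((Finset.sum_le_sum hbd).trans ?_)
  rw [Finset.sum_const, nsmul_eq_mul, ht, Finset.card_product, Int.card_Ico]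
  simp only [sub_zero, Int.toNat_natCast]
  push_cast
  have hNR : (0 : ℝ) < N := by exact_mod_cast hN
  have h5 : (N : ℝ) * N * (Cφ * (η / ((Cφ + 1) * (N : ℝ) ^ 2) * l)) =
      (Cφ / (Cφ + 1)) * (η * l) := by
    field_simp
  rw [h5]
  have h6 : Cφ / (Cφ + 1) ≤ 1 := by
    rw [div_le_one (by linarith)]
    linarith
  have h7 : 0 ≤ η * (l : ℝ) := by positivity
  nlinarith

/-- counting -/
theorem b7_card {κ₁ κ₂ : ℝ} (h1 : 0 < κ₁) : ∃ (C : ℝ) (L₀ : ℕ), 0 ≤ C ∧ ∀ z : ℍ, z ∈ 𝒟ᵒ →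
    ∀ l : ℕ, L₀ ≤ l → ∀ hl : 0 < κ₁ / l, ((b7_S z (κ₂ / l) hl).card : ℝ) ≤ C * z.im * l := by
  obtain ⟨C, hC⟩ := NN_le
  obtain ⟨J, hJ⟩ := pow_unbounded_of_one_lt (κ₂ / κ₁) (by norm_num : (1 : ℝ) < 2)
  obtain ⟨L₀, hL₀⟩ := exists_nat_ge (2 ^ J * κ₁)
  refine ⟨J * (|C| / κ₁), max L₀ 1, by positivity, fun z hz l hl hl0 => ?_⟩
  have hl1 : (1 : ℝ) ≤ l := by exact_mod_cast (le_max_right _ _).trans hl
  have hlL : (2 : ℝ) ^ J * κ₁ ≤ l := hL₀.trans (by exact_mod_cast (le_max_left _ _).trans hl)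
  have him : 1 / 2 ≤ (z : ℂ).im := by
    have := three_lt_four_mul_im_sq_of_mem_fdo hz
    have h3 : 0 < z.im := z.im_pos
    show 1 / 2 ≤ z.im
    nlinarith
  have hre : |(z : ℂ).re| ≤ 1 := by
    have := hz.2
    show |z.re| ≤ 1
    linarith
  have hJκ : κ₂ / l < 2 ^ J * (κ₁ / l) := by
    rw [div_lt_iff₀ h1] at hJ
    rw [← mul_div_assoc]
    exact div_lt_div_of_pos_right hJ (by linarith)
  have hfin : ∀ j : ℕ, {g : SL(2, ℤ) | g • z ∈ RSA_strip (2 ^ j * (κ₁ / l))}.Finite := by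
    intro j
    have hpos : 0 < 2 ^ j * (κ₁ / l) := by positivity
    exact b7_finite z (b := 2 * (2 ^ j * (κ₁ / l))) hpos
  have hsub : b7_S z (κ₂ / l) hl0 ⊆ (Finset.range J).biUnion (fun j => (hfin j).toFinset) := by
    intro g hg
    rw [b7_mem_S] at hg
    rw [Finset.mem_biUnion]
    -- find the dyadic block
    have hex : ∃ n : ℕ, (g • z).im < 2 ^ (n + 1) * (κ₁ / l) ∧ n < J := by
      have hJ0 : J ≠ 0 := by
        rintro rfl
        have := lt_of_le_of_lt hg.2.1 hg.2.2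
        rw [pow_zero, one_mul] at hJκ
        linarith
      refine ⟨J - 1, ?_, by omega⟩
      rw [Nat.sub_add_cancel (by omega)]
      linarith [hg.2.2]
    classical
    have hn := Nat.find_spec hex
    set n := Nat.find hex with hndef
    refine ⟨n, Finset.mem_range.mpr hn.2, ?_⟩
    rw [Set.Finite.mem_toFinset]
    refine ⟨hg.1, ?_, ?_⟩
    · rcases Nat.eq_zero_or_pos n with h0 | hpos
      · rw [h0, pow_zero, one_mul]
        exact hg.2.1
      · have := Nat.find_min hex (m := n - 1) (by omega)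
        push Not at this
        by_contra hcon
        push Not at hcon
        have h5 := this (by rw [Nat.sub_add_cancel hpos]; exact hcon)
        omega
    · have := hn.1
      rw [pow_succ] at this
      linarith
  have hcard : ∀ j ∈ Finset.range J, (((hfin j).toFinset.card : ℕ) : ℝ) ≤ |C| / κ₁ * z.im * l := by
    intro j hj
    have hjJ : j < J := Finset.mem_range.mp hj
    have hpos : 0 < 2 ^ j * (κ₁ / l) := by positivity
    have hle1 : 2 ^ j * (κ₁ / l) ≤ 1 := by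
      rw [← mul_div_assoc, div_le_one (by linarith)]
      refine le_trans ?_ hlL
      gcongr
      · norm_num
    have h3 := hC z him hre (2 ^ j * (κ₁ / l)) hpos hle1
    obtain ⟨e⟩ := RSA_equiv z (2 ^ j * (κ₁ / l))
    have h4 : (hfin j).toFinset.card = NN z (2 ^ j * (κ₁ / l)) := by
      unfold NN
      rw [← Nat.card_congr e, ← Set.ncard_eq_toFinset_card _ (hfin j)]
      rfl
    rw [h4]
    have h5 : (NN z (2 ^ j * (κ₁ / l)) : ℝ) ≤ C * z.im / (2 ^ j * (κ₁ / l)) := by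
      rw [le_div_iff₀ hpos, mul_comm]
      exact h3
    refine h5.trans ?_
    have h6 : κ₁ / l ≤ 2 ^ j * (κ₁ / l) := by
      have : (1 : ℝ) ≤ 2 ^ j := one_le_pow₀ (by norm_num)
      nlinarith
    calc C * z.im / (2 ^ j * (κ₁ / l)) ≤ |C| * z.im / (2 ^ j * (κ₁ / l)) := by
          have := le_abs_self C
          have := z.im_pos
          gcongr
      _ ≤ |C| * z.im / (κ₁ / l) := by
          have := z.im_pos
          gcongr
      _ = |C| / κ₁ * z.im * l := by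
          field_simp
  calc ((b7_S z (κ₂ / l) hl0).card : ℝ)
      ≤ (((Finset.range J).biUnion (fun j => (hfin j).toFinset)).card : ℝ) := by
        exact_mod_cast Finset.card_le_card hsub
    _ ≤ ((∑ j ∈ Finset.range J, (hfin j).toFinset.card : ℕ) : ℝ) := by
        exact_mod_cast Finset.card_biUnion_le
    _ ≤ ∑ j ∈ Finset.range J, |C| / κ₁ * z.im * l := by
        rw [Nat.cast_sum]
        exact Finset.sum_le_sum hcard
    _ = J * (|C| / κ₁) * z.im * l := by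
        rw [Finset.sum_const, Finset.card_range, nsmul_eq_mul]
        ring

/-- domination -/
theorem b7_dom {φ : ℂ → ℝ} (hφ : InvData φ) {κ₁ κ₂ : ℝ} (h1 : 0 < κ₁) :
    ∃ (K : ℝ) (L₀ : ℕ), ∀ z : ℍ, z ∈ 𝒟ᵒ → ∀ l : ℕ, L₀ ≤ l → ∀ hl : 0 < κ₁ / l,
      ‖∑ g ∈ b7_S z (κ₂ / l) hl,
        ((φ ((g • z : ℍ) : ℂ) : ℝ) : ℂ) * cexp (-(2 * Real.pi * Complex.I) * l * ((g • z).re : ℂ))‖ ≤
      K * l := by
  obtain ⟨C, L₀, hC0, hC⟩ := b7_card (κ₂ := κ₂) h1
  obtain ⟨D, c₀, hc₀, hD⟩ := hφ.decay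
  refine ⟨C * (|D| / c₀), L₀, fun z hz l hl hl0 => ?_⟩
  have him : 1 / 2 ≤ (z : ℂ).im := by
    have := three_lt_four_mul_im_sq_of_mem_fdo hz
    have h3 : 0 < z.im := z.im_pos
    show 1 / 2 ≤ z.im
    nlinarith
  have hterm : ∀ g ∈ b7_S z (κ₂ / l) hl0, ‖((φ ((g • z : ℍ) : ℂ) : ℝ) : ℂ) *
      cexp (-(2 * Real.pi * Complex.I) * l * ((g • z).re : ℂ))‖ ≤ |D| * Real.exp (-c₀ * z.im) := by
    intro g _
    have e1 : ‖cexp (-(2 * Real.pi * Complex.I) * l * ((g • z).re : ℂ))‖ = 1 := by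
      have : -(2 * Real.pi * Complex.I) * l * ((g • z).re : ℂ) =
          ((-(2 * Real.pi) * l * (g • z).re : ℝ) : ℂ) * Complex.I := by
        push_cast
        ring
      rw [this, Complex.norm_exp_ofReal_mul_I]
    rw [norm_mul, e1, mul_one, Complex.norm_real, Real.norm_eq_abs,
      abs_of_nonneg (hφ.nonneg _ (g • z).im_pos), ← b7_mob]
    refine (hD _ (b7_det g) z him).trans ?_
    have e2 : (z : ℂ).im = z.im := rfl
    rw [e2]
    exact mul_le_mul_of_nonneg_right (le_abs_self D) (Real.exp_pos _).le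
  refine (norm_sum_le _ _).trans ((Finset.sum_le_sum hterm).trans ?_)
  rw [Finset.sum_const, nsmul_eq_mul]
  have h3 := hC z hz l hl hl0
  have h4 : z.im * Real.exp (-c₀ * z.im) ≤ 1 / c₀ := by
    have h5 : c₀ * z.im ≤ Real.exp (c₀ * z.im) := by
      have := Real.add_one_le_exp (c₀ * z.im)
      linarith
    have h6 : Real.exp (-c₀ * z.im) * Real.exp (c₀ * z.im) = 1 := by
      rw [← Real.exp_add]
      have : -c₀ * z.im + c₀ * z.im = 0 := by ring
      rw [this, Real.exp_zero]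
    rw [le_div_iff₀ hc₀]
    have h7 : 0 < Real.exp (-c₀ * z.im) := Real.exp_pos _
    nlinarith
  have h8 : 0 ≤ |D| * Real.exp (-c₀ * z.im) := by positivity
  calc ((b7_S z (κ₂ / l) hl0).card : ℝ) * (|D| * Real.exp (-c₀ * z.im))
      ≤ (C * z.im * l) * (|D| * Real.exp (-c₀ * z.im)) := mul_le_mul_of_nonneg_right h3 h8
    _ = (C * |D| * l) * (z.im * Real.exp (-c₀ * z.im)) := by ring
    _ ≤ (C * |D| * l) * (1 / c₀) := by
        apply mul_le_mul_of_nonneg_left h4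
        positivity
    _ = C * (|D| / c₀) * l := by ring

theorem b7_range : Set.range UpperHalfPlane.coe = {z : ℂ | 0 < z.im} := by
  ext z
  constructor
  · rintro ⟨w, rfl⟩
    exact w.im_pos
  · intro hz
    exact ⟨⟨z, hz⟩, rfl⟩

/-- Bochner integral on `ℍ` as an integral on `ℂ` -/
theorem b7_int (F : ℂ → ℂ) :
    ∫ w : ℍ, F w = ∫ z in {z : ℂ | 0 < z.im}, (((1 / z.im ^ 2 : ℝ)) : ℂ) * F z := by
  rw [volume_def]
  have h2 : Continuous (fun z : ℍ => (1 / NNReal.mk z.im z.im_pos.le : NNReal) ^ 2) := by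
    refine .pow (.div₀ continuous_const ?_ ?_) _
    · exact continuous_im.subtype_mk _
    · exact fun x ↦ NNReal.ne_iff.mp x.im_ne_zero
  rw [integral_withDensity_eq_integral_smul h2.measurable]
  have h1 := measurableEmbedding_coe.integral_map (μ := volume.comap UpperHalfPlane.coe)
    (fun z : ℂ => (((1 / z.im ^ 2 : ℝ)) : ℂ) * F z)
  rw [measurableEmbedding_coe.map_comap, b7_range] at h1
  rw [h1]
  apply integral_congr_ae
  apply Eventually.of_forall
  intro w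
  simp only
  rw [NNReal.smul_def, Complex.real_smul]
  congr 2
  push_cast
  rw [div_pow, one_pow]
  rfl

theorem b7_vol_fdo : (volume : Measure ℍ) 𝒟ᵒ < ∞ := by
  have h1 := RSA_lint_fd (fun _ => 1)
  rw [setLIntegral_one] at h1
  rw [h1]
  -- bound by the integral over a strip
  have hsub : FD ⊆ {z : ℂ | z.re ∈ Set.Icc (-1 : ℝ) 1 ∧ z.im ∈ Set.Ioi (1 / 2 : ℝ)} := by
    rintro z ⟨hz1, hz2, hz3⟩
    have h3 := abs_lt.mp hz3
    refine ⟨⟨by linarith [h3.1], by linarith [h3.2]⟩, ?_⟩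
    have h4 : 1 < ‖z‖ ^ 2 := by nlinarith
    rw [← Complex.normSq_eq_norm_sq, Complex.normSq_apply] at h4
    show 1 / 2 < z.im
    nlinarith
  refine lt_of_le_of_lt (lintegral_mono_set hsub) ?_
  have hms : MeasurableSet {z : ℂ | z.re ∈ Set.Icc (-1 : ℝ) 1 ∧ z.im ∈ Set.Ioi (1 / 2 : ℝ)} :=
    (Complex.measurable_re measurableSet_Icc).inter (Complex.measurable_im measurableSet_Ioi)
  rw [← lintegral_indicator hms, (Complex.volume_preserving_equiv_real_prod.symm).lintegral_map_equiv]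
  have h2 : ∀ p : ℝ × ℝ, {z : ℂ | z.re ∈ Set.Icc (-1 : ℝ) 1 ∧ z.im ∈ Set.Ioi (1 / 2 : ℝ)}.indicator
      (fun z : ℂ => 1 * ENNReal.ofReal (1 / z.im ^ 2)) (Complex.measurableEquivRealProd.symm p) =
      (Set.Icc (-1 : ℝ) 1).indicator (fun _ => (1 : ℝ≥0∞)) p.1 *
      (Set.Ioi (1 / 2 : ℝ)).indicator (fun y => ENNReal.ofReal (1 / y ^ 2)) p.2 := by
    rintro ⟨x, y⟩
    have e : Complex.measurableEquivRealProd.symm (x, y) = (⟨x, y⟩ : ℂ) := rfl
    rw [e]
    by_cases hx : x ∈ Set.Icc (-1 : ℝ) 1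
    · by_cases hy : y ∈ Set.Ioi (1 / 2 : ℝ)
      · rw [Set.indicator_of_mem (by exact ⟨hx, hy⟩), Set.indicator_of_mem hx,
          Set.indicator_of_mem hy]
      · rw [Set.indicator_of_notMem (by exact fun h => hy h.2), Set.indicator_of_notMem hy, mul_zero]
    · rw [Set.indicator_of_notMem (by exact fun h => hx h.1), Set.indicator_of_notMem hx, zero_mul]
  rw [lintegral_congr h2, Measure.volume_eq_prod, lintegral_prod_mul
    (measurable_const.indicator measurableSet_Icc).aemeasurable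
    ((by fun_prop : Measurable (fun y : ℝ => ENNReal.ofReal (1 / y ^ 2))).indicator
      measurableSet_Ioi).aemeasurable, lintegral_indicator measurableSet_Icc,
    lintegral_indicator measurableSet_Ioi]
  apply ENNReal.mul_lt_top
  · rw [setLIntegral_one]
    simp
  · have h3 : IntegrableOn (fun y : ℝ => y ^ (-2 : ℝ)) (Set.Ioi (1 / 2)) :=
      integrableOn_Ioi_rpow_of_lt (by norm_num) (by norm_num)
    have h4 : IntegrableOn (fun y : ℝ => 1 / y ^ 2) (Set.Ioi (1 / 2)) := by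
      apply h3.congr_fun _ measurableSet_Ioi
      intro y hy
      have hy0 : (0 : ℝ) < y := lt_trans (by norm_num) hy
      simp only
      rw [Real.rpow_neg hy0.le, one_div]
      norm_cast
    exact h4.lintegral_lt_top

/-- the strip in `ℂ` -/
def b7_str (a b : ℝ) : Set ℂ := {z : ℂ | (0 ≤ z.re ∧ z.re < 1) ∧ a ≤ z.im ∧ z.im < b}

theorem b7_str_meas (a b : ℝ) : MeasurableSet (b7_str a b) := by
  unfold b7_str
  exact ((measurableSet_le measurable_const Complex.measurable_re).inter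
    (measurableSet_lt Complex.measurable_re measurable_const)).inter
      ((measurableSet_le measurable_const Complex.measurable_im).inter
        (measurableSet_lt Complex.measurable_im measurable_const))

theorem b7_strip_meas (a b : ℝ) : MeasurableSet (b7_strip a b) :=
  UpperHalfPlane.measurable_coe (b7_str_meas a b)

theorem b7_sm {f : ℂ → ℂ} (hf : ContinuousOn f {z : ℂ | 0 < z.im}) (a b : ℝ) :
    StronglyMeasurable ((b7_strip a b).indicator (fun w : ℍ => f w)) := by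
  apply StronglyMeasurable.indicator _ (b7_strip_meas a b)
  have := hf.comp_continuous UpperHalfPlane.continuous_coe (fun w => w.im_pos)
  exact this.stronglyMeasurable

theorem b7_integrable {f : ℂ → ℂ} (hf : ContinuousOn f {z : ℂ | 0 < z.im}) {C : ℝ}
    (hC : ∀ z : ℂ, 0 < z.im → ‖f z‖ ≤ C) {a b : ℝ} (ha : 0 < a) :
    Integrable ((b7_strip a b).indicator (fun w : ℍ => f w)) := by
  refine ⟨(b7_sm hf a b).aestronglyMeasurable, ?_⟩
  unfold HasFiniteIntegral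
  have h1 : ∀ w : ℍ, ‖(b7_strip a b).indicator (fun w : ℍ => f w) w‖ₑ ≤
      (b7_str a b).indicator (fun _ => ENNReal.ofReal C) (w : ℂ) := by
    intro w
    by_cases hw : w ∈ b7_strip a b
    · rw [Set.indicator_of_mem hw, Set.indicator_of_mem (by exact hw), ← ofReal_norm]
      exact ENNReal.ofReal_le_ofReal (hC _ w.im_pos)
    · rw [Set.indicator_of_notMem hw]
      simp
  refine lt_of_le_of_lt (lintegral_mono h1) ?_
  rw [RSA_lint]
  have h2 : ∀ z : ℂ, (b7_str a b).indicator (fun _ => ENNReal.ofReal C) z *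
      ENNReal.ofReal (1 / z.im ^ 2) ≤
      (b7_str a b).indicator (fun _ => ENNReal.ofReal C * ENNReal.ofReal (1 / a ^ 2)) z := by
    intro z
    by_cases hz : z ∈ b7_str a b
    · rw [Set.indicator_of_mem hz, Set.indicator_of_mem hz]
      gcongr
      exact hz.2.1
    · rw [Set.indicator_of_notMem hz, Set.indicator_of_notMem hz, zero_mul]
  refine lt_of_le_of_lt ((lintegral_mono h2).trans
    (setLIntegral_le_lintegral _ _)) ?_
  rw [lintegral_indicator (b7_str_meas a b), setLIntegral_const]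
  apply ENNReal.mul_lt_top (ENNReal.mul_lt_top ENNReal.ofReal_lt_top ENNReal.ofReal_lt_top)
  apply Bornology.IsBounded.measure_lt_top
  rw [Metric.isBounded_iff_subset_closedBall (0 : ℂ)]
  refine ⟨1 + |b|, fun z hz => ?_⟩
  rw [mem_closedBall_zero_iff]
  refine (Complex.norm_le_abs_re_add_abs_im z).trans ?_
  have e1 : |z.re| ≤ 1 := abs_le.mpr ⟨by linarith [hz.1.1], hz.1.2.le⟩
  have e2 : |z.im| ≤ |b| := by
    rw [abs_of_pos (by linarith [hz.2.1] : 0 < z.im)]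
    exact hz.2.2.le.trans (le_abs_self b)
  linarith

/-- the integral over the strip -/
theorem b7_conv {f : ℂ → ℂ} (hf : ContinuousOn f {z : ℂ | 0 < z.im}) {a b : ℝ} (ha : 0 < a)
    (hab : a ≤ b) : ∫ w : ℍ, (b7_strip a b).indicator (fun w : ℍ => f w) w =
      ∫ y in a..b, (∫ x in (0 : ℝ)..1, f (x + y * Complex.I)) / (y : ℂ) ^ 2 := by
  have h1 : ∀ w : ℍ, (b7_strip a b).indicator (fun w : ℍ => f w) w =
      (b7_str a b).indicator f (w : ℂ) := by
    intro w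
    by_cases hw : w ∈ b7_strip a b
    · rw [Set.indicator_of_mem hw, Set.indicator_of_mem (by exact hw)]
    · rw [Set.indicator_of_notMem hw, Set.indicator_of_notMem (by exact hw)]
  simp_rw [h1]
  rw [b7_int, ← integral_indicator (isOpen_lt continuous_const Complex.continuous_im).measurableSet,
    ← (Complex.volume_preserving_equiv_real_prod.symm).integral_comp'] 
  have h2 : ∀ p : ℝ × ℝ, {z : ℂ | 0 < z.im}.indicator (fun z : ℂ => (((1 / z.im ^ 2 : ℝ)) : ℂ) *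
      (b7_str a b).indicator f z) (Complex.measurableEquivRealProd.symm p) =
      (Set.Ico (0 : ℝ) 1 ×ˢ Set.Ico a b).indicator
        (fun p : ℝ × ℝ => f (p.1 + p.2 * Complex.I) / (p.2 : ℂ) ^ 2) p := by
    rintro ⟨x, y⟩
    have e : Complex.measurableEquivRealProd.symm (x, y) = (⟨x, y⟩ : ℂ) := rfl
    rw [e]
    by_cases hp : ((0 ≤ x ∧ x < 1) ∧ a ≤ y ∧ y < b)
    · have hy : 0 < y := by linarith [hp.2.1]
      rw [Set.indicator_of_mem (by exact hy), Set.indicator_of_mem (by exact hp),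
        Set.indicator_of_mem (by exact hp)]
      simp only
      have e2 : (⟨x, y⟩ : ℂ) = (x : ℂ) + y * Complex.I := by
        apply Complex.ext <;> simp
      rw [e2]
      push_cast
      ring
    · rw [Set.indicator_of_notMem (s := Set.Ico (0 : ℝ) 1 ×ˢ Set.Ico a b) (by exact hp)]
      by_cases hy : 0 < y
      · rw [Set.indicator_of_mem (by exact hy), Set.indicator_of_notMem (by exact hp), mul_zero]
      · rw [Set.indicator_of_notMem (by exact hy)]
  simp_rw [h2]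
  have hmeas : MeasurableSet (Set.Ico (0 : ℝ) 1 ×ˢ Set.Ico a b) :=
    measurableSet_Ico.prod measurableSet_Ico
  rw [integral_indicator hmeas, Measure.volume_eq_prod]
  have hcont : ContinuousOn (fun p : ℝ × ℝ => f (p.1 + p.2 * Complex.I) / (p.2 : ℂ) ^ 2)
      (Set.Icc (0 : ℝ) 1 ×ˢ Set.Icc a b) := by
    apply ContinuousOn.div
    · apply hf.comp (by fun_prop)
      intro p hp
      show 0 < ((p.1 : ℂ) + p.2 * Complex.I).im
      simp
      linarith [hp.2.1]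
    · fun_prop
    · intro p hp
      have : 0 < p.2 := lt_of_lt_of_le ha hp.2.1
      have h3 : (p.2 : ℂ) ≠ 0 := by exact_mod_cast this.ne'
      positivity
  have hint : IntegrableOn (fun p : ℝ × ℝ => f (p.1 + p.2 * Complex.I) / (p.2 : ℂ) ^ 2)
      (Set.Ico (0 : ℝ) 1 ×ˢ Set.Ico a b) (volume.prod volume) := by
    have h4 : IntegrableOn (fun p : ℝ × ℝ => f (p.1 + p.2 * Complex.I) / (p.2 : ℂ) ^ 2)
      (Set.Icc (0 : ℝ) 1 ×ˢ Set.Icc a b) volume :=
      hcont.integrableOn_compact (isCompact_Icc.prod isCompact_Icc)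
    exact h4.mono_set (Set.prod_mono Set.Ico_subset_Icc_self Set.Ico_subset_Icc_self)
  rw [IntegrableOn, ← Measure.prod_restrict] at hint
  rw [← Measure.prod_restrict, integral_prod_symm _ hint,
    intervalIntegral.integral_of_le hab, integral_Ico_eq_integral_Ioc]
  apply integral_congr_ae
  apply Eventually.of_forall
  intro y
  simp only
  rw [integral_div, intervalIntegral.integral_of_le zero_le_one, integral_Ico_eq_integral_Ioc]

/-- block B7 (TWI): the twisted horocycle integral, smoothed in `y`, tends to `0` -/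
theorem twisted_pr {φ : ℂ → ℝ} (hφ : InvData φ) {κ₁ κ₂ : ℝ} (h1 : 0 < κ₁) (h2 : κ₁ < κ₂) :
    Tendsto (fun l : ℕ => (1 / (l : ℂ)) * ∫ y in (κ₁ / l)..(κ₂ / l), (∫ x in (0 : ℝ)..1,
      ((φ (x + y * Complex.I) : ℝ) : ℂ) * cexp (-(2 * Real.pi * Complex.I) * l * x)) / (y : ℂ) ^ 2)
      atTop (𝓝 0) := by
  obtain ⟨C, hC⟩ := hφ.bdd
  set f : ℕ → ℂ → ℂ := fun l z => ((φ z : ℝ) : ℂ) *
    cexp (-(2 * Real.pi * Complex.I) * l * (z.re : ℂ)) with hf
  have hfc : ∀ l, ContinuousOn (f l) {z : ℂ | 0 < z.im} := by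
    intro l
    apply ContinuousOn.mul
    · exact Complex.continuous_ofReal.comp_continuousOn hφ.cont
    · fun_prop
  have hfn : ∀ l, ∀ z : ℂ, 0 < z.im → ‖f l z‖ ≤ C := by
    intro l z hz
    rw [hf]
    simp only
    have e1 : ‖cexp (-(2 * Real.pi * Complex.I) * l * (z.re : ℂ))‖ = 1 := by
      have : -(2 * Real.pi * Complex.I) * l * (z.re : ℂ) =
          ((-(2 * Real.pi) * l * z.re : ℝ) : ℂ) * Complex.I := by
        push_cast
        ring
      rw [this, Complex.norm_exp_ofReal_mul_I]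
    rw [norm_mul, e1, mul_one, Complex.norm_real, Real.norm_eq_abs, abs_of_nonneg (hφ.nonneg z hz)]
    exact hC z hz
  set G : ℕ → ℍ → ℂ := fun l => (b7_strip (κ₁ / l) (κ₂ / l)).indicator (fun w : ℍ => f l w) with hG
  set T : ℕ → ℍ → ℂ := fun l z => (1 / (l : ℂ)) * ∑' g : SL(2, ℤ), G l (g • z) with hT
  have hsum : ∀ l : ℕ, ∀ hl : 0 < κ₁ / l, ∀ z : ℍ, ∑' g : SL(2, ℤ), G l (g • z) =
      ∑ g ∈ b7_S z (κ₂ / l) hl, ((φ ((g • z : ℍ) : ℂ) : ℝ) : ℂ) *
        cexp (-(2 * Real.pi * Complex.I) * l * ((g • z).re : ℂ)) := by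
    intro l hl z
    exact b7_tsum z hl (fun w : ℍ => f l w)
  have hpos : ∀ l : ℕ, 1 ≤ l → 0 < κ₁ / l := by
    intro l hl
    have : (0 : ℝ) < l := by exact_mod_cast hl
    positivity
  have hfinm : IsFiniteMeasure ((volume : Measure ℍ).restrict 𝒟ᵒ) :=
    ⟨by rw [Measure.restrict_apply_univ]; exact b7_vol_fdo⟩
  obtain ⟨K, L₀, hK⟩ := b7_dom (κ₂ := κ₂) hφ h1
  have hmo : MeasurableSet (𝒟ᵒ : Set ℍ) := isOpen_fdo.measurableSet
  have hlim : Tendsto (fun l : ℕ => ∫ z in 𝒟ᵒ, T l z) atTop (𝓝 (∫ z in 𝒟ᵒ, (0 : ℂ))) := by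
    apply tendsto_integral_filter_of_dominated_convergence (fun _ => |K|)
    · filter_upwards [eventually_ge_atTop 1] with l hl
      apply AEStronglyMeasurable.const_mul
      apply aestronglyMeasurable_of_tendsto_ae (atTop : Filter (Finset SL(2, ℤ)))
        (f := fun s z => ∑ g ∈ s, G l (g • z))
      · intro s
        apply Finset.aestronglyMeasurable_fun_sum
        intro g _
        exact ((b7_sm (hfc l) _ _).comp_measurable (RSA_mp g).measurable).aestronglyMeasurable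
      · apply Eventually.of_forall
        intro z
        have hsup : Summable (fun g : SL(2, ℤ) => G l (g • z)) := by
          apply summable_of_hasFiniteSupport
          apply (b7_finite z (b := κ₂ / l) (hpos l hl)).subset
          intro g hg
          by_contra hcon
          apply hg
          show (b7_strip (κ₁ / l) (κ₂ / l)).indicator (fun w : ℍ => f l w) (g • z) = 0
          rw [Set.indicator_of_notMem (by exact hcon)]
        exact hsup.hasSum
    · filter_upwards [eventually_ge_atTop (max L₀ 1)] with l hl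
      have hl1 : 1 ≤ l := (le_max_right _ _).trans hl
      have hlR : (0 : ℝ) < l := by exact_mod_cast hl1
      rw [ae_restrict_iff' hmo]
      apply Eventually.of_forall
      intro z hz
      rw [hT]
      simp only
      rw [hsum l (hpos l hl1), norm_mul]
      have h3 := hK z hz l ((le_max_left _ _).trans hl) (hpos l hl1)
      have h4 : ‖(1 / (l : ℂ))‖ = 1 / l := by simp
      rw [h4]
      calc 1 / (l : ℝ) * _ ≤ 1 / (l : ℝ) * (K * l) := by gcongr
        _ = K := by field_simp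
        _ ≤ |K| := le_abs_self K
    · exact integrable_const _
    · apply Eventually.of_forall
      intro z
      rw [Metric.tendsto_atTop]
      intro η hη
      obtain ⟨L, hL⟩ := b7_ptw hφ z h1 h2 (half_pos hη)
      refine ⟨max L 1, fun l hl => ?_⟩
      have hl1 : 1 ≤ l := (le_max_right _ _).trans hl
      have hlR : (0 : ℝ) < l := by exact_mod_cast hl1
      rw [dist_zero_right, hT]
      simp only
      rw [hsum l (hpos l hl1), norm_mul]
      have h3 := hL l ((le_max_left _ _).trans hl) (hpos l hl1)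
      have h4 : ‖(1 / (l : ℂ))‖ = 1 / l := by simp
      rw [h4]
      calc 1 / (l : ℝ) * _ ≤ 1 / (l : ℝ) * (η / 2 * l) := by gcongr
        _ = η / 2 := by field_simp
        _ < η := by linarith
  rw [integral_zero] at hlim
  have hlim2 := hlim.const_mul (1 / 2 : ℂ)
  rw [mul_zero] at hlim2
  apply hlim2.congr'
  filter_upwards [eventually_ge_atTop 1] with l hl
  have hlR : (0 : ℝ) < l := by exact_mod_cast hl
  have h5 := b7_unfold (G l) (b7_sm (hfc l) _ _) (b7_integrable (hfc l) (hfn l) (hpos l hl))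
  have h6 := b7_conv (hfc l) (hpos l hl) (b := κ₂ / l)
    (div_le_div_of_nonneg_right h2.le hlR.le)
  rw [hT]
  simp only
  rw [integral_const_mul, h5, h6]
  have h7 : ∀ x y : ℝ, f l ((x : ℂ) + y * Complex.I) = ((φ (x + y * Complex.I) : ℝ) : ℂ) *
      cexp (-(2 * Real.pi * Complex.I) * l * x) := by
    intro x y
    rw [hf]
    simp
  simp_rw [h7]
  ring

end Pool.Agent.GL2
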