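import Pool.Agent.Lib_helper68.GL2.Defs

/-! Block TW: functional equation of the twisted densities. -/

namespace Pool.Agent.GL2

open Complex MeasureTheory Filter Topology
open scoped MatrixGroups

theorem tw_abs_le {k : ℕ} {a : ℕ → ℝ} (H : HData k a) : ∃ C : ℝ, 0 ≤ C ∧ ∀ n : ℕ,
    |a n| ≤ C * (n : ℝ) ^ k := by
  obtain ⟨C, hC⟩ := H.growth
  refine ⟨|C|, abs_nonneg _, fun n => ?_⟩
  rcases Nat.eq_zero_or_pos n with hn | hn
  · subst hn
    rw [H.zero]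
    simp only [abs_zero, Nat.cast_zero]
    positivity
  · have h1 : (1 : ℝ) ≤ n := by exact_mod_cast hn
    have h2 : (n : ℝ) ^ ((k : ℝ) / 2) ≤ (n : ℝ) ^ k := by
      rw [← Real.rpow_natCast]
      refine Real.rpow_le_rpow_of_exponent_le h1 ?_
      have : (0 : ℝ) ≤ k := Nat.cast_nonneg k
      linarith
    calc |a n| ≤ C * (n : ℝ) ^ ((k : ℝ) / 2) := hC n
      _ ≤ |C| * (n : ℝ) ^ ((k : ℝ) / 2) :=
          mul_le_mul_of_nonneg_right (le_abs_self C) (by positivity)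
      _ ≤ |C| * (n : ℝ) ^ k := mul_le_mul_of_nonneg_left h2 (abs_nonneg _)

theorem tw_summable {k : ℕ} {a : ℕ → ℝ} (H : HData k a) {y : ℝ} (hy : 0 < y) :
    Summable (fun n : ℕ => |a n| * Real.exp (-y * n)) := by
  obtain ⟨C, hC0, hC⟩ := tw_abs_le H
  refine Summable.of_nonneg_of_le (fun n => by positivity) (fun n => ?_)
    ((Real.summable_pow_mul_exp_neg_nat_mul k hy).mul_left C)
  calc |a n| * Real.exp (-y * n) ≤ (C * (n : ℝ) ^ k) * Real.exp (-y * n) :=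
        mul_le_mul_of_nonneg_right (hC n) (Real.exp_nonneg _)
    _ = C * ((n : ℝ) ^ k * Real.exp (-y * n)) := by ring

theorem tw_norm_exp (n : ℕ) (z : ℂ) :
    ‖cexp (2 * Real.pi * I * n * z)‖ = Real.exp (-(2 * Real.pi * z.im) * n) := by
  rw [Complex.norm_exp]
  congr 1
  simp [mul_re, mul_im]
  ring

theorem tw_summable_c {k : ℕ} {a : ℕ → ℝ} (H : HData k a) {z : ℂ} (hz : 0 < z.im) :
    Summable (fun n : ℕ => (a n : ℂ) * cexp (2 * Real.pi * I * n * z)) := by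
  have h := tw_summable H (y := 2 * Real.pi * z.im) (by positivity)
  refine Summable.of_norm ?_
  refine h.congr fun n => ?_
  rw [norm_mul, tw_norm_exp, Complex.norm_real, Real.norm_eq_abs]

theorem tw_norm_chi_le {q : ℕ} (χ : DirichletCharacter ℂ q) (x : ZMod q) : ‖χ x‖ ≤ 1 :=
  DirichletCharacter.norm_le_one χ x

theorem tw_summable_chi {k : ℕ} {a : ℕ → ℝ} (H : HData k a) {q : ℕ}
    (χ : DirichletCharacter ℂ q) {z : ℂ} (hz : 0 < z.im) :
    Summable (fun n : ℕ => χ n * ((a n : ℂ) * cexp (2 * Real.pi * I * n * z))) := by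
  refine Summable.of_norm_bounded (tw_summable_c H hz).norm fun n => ?_
  rw [norm_mul]
  calc ‖χ n‖ * _ ≤ 1 * _ := mul_le_mul_of_nonneg_right (tw_norm_chi_le χ _) (norm_nonneg _)
    _ = _ := one_mul _

/-- the twisted `q`-series -/
noncomputable def tw_F (a : ℕ → ℝ) {q : ℕ} (χ : DirichletCharacter ℂ q) (z : ℂ) : ℂ :=
  ∑' n : ℕ, χ n * ((a n : ℂ) * cexp (2 * Real.pi * I * n * z))

theorem tw_inv_primitive {q : ℕ} {χ : DirichletCharacter ℂ q} (h : χ.IsPrimitive) :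
    χ⁻¹.IsPrimitive := by
  rw [DirichletCharacter.isPrimitive_def, DirichletCharacter.conductor_inv]; exact h

theorem tw_gauss {q : ℕ} [NeZero q] {χ : DirichletCharacter ℂ q} (hχ : χ.IsPrimitive)
    (n : ZMod q) : ∑ b : ZMod q, χ⁻¹ b * ZMod.stdAddChar (n * b) =
      χ n * gaussSum χ⁻¹ ZMod.stdAddChar := by
  have h := gaussSum_mulShift_of_isPrimitive (ZMod.stdAddChar (N := q)) (tw_inv_primitive hχ) n
  rw [inv_inv] at h
  rw [← h]
  rfl

theorem tw_std {q : ℕ} [NeZero q] (n : ℕ) (b : ZMod q) :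
    ZMod.stdAddChar ((n : ZMod q) * b) = cexp (2 * Real.pi * I * n * ((b.val : ℂ) / q)) := by
  have h1 : ((n : ZMod q) * b) = (((n * b.val : ℕ) : ℤ) : ZMod q) := by
    push_cast
    rw [ZMod.natCast_zmod_val]
  rw [h1, ZMod.stdAddChar_coe]
  congr 1
  push_cast
  ring

theorem tw_sum {k : ℕ} {a : ℕ → ℝ} (H : HData k a) {q : ℕ} [NeZero q]
    {χ : DirichletCharacter ℂ q} (hχ : χ.IsPrimitive) {z : ℂ} (hz : 0 < z.im) :
    tw_F a χ z * gaussSum χ⁻¹ ZMod.stdAddChar =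
      ∑ b : ZMod q, χ⁻¹ b * qs a (z + (b.val : ℂ) / q) := by
  have hz' : ∀ b : ZMod q, 0 < (z + (b.val : ℂ) / q).im := by
    intro b
    have h1 : ((b.val : ℂ) / q).im = 0 := by
      have : ((b.val : ℂ) / q) = (((b.val : ℝ) / q : ℝ) : ℂ) := by push_cast; ring
      rw [this, Complex.ofReal_im]
    rw [Complex.add_im, h1, add_zero]
    exact hz
  have h1 : ∀ b : ZMod q, χ⁻¹ b * qs a (z + (b.val : ℂ) / q) =
      ∑' n : ℕ, χ⁻¹ b * ((a n : ℂ) * cexp (2 * Real.pi * I * n * (z + (b.val : ℂ) / q))) := by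
    intro b
    rw [tsum_mul_left]
    rfl
  simp_rw [h1]
  rw [← Summable.tsum_finsetSum (fun b _ => (tw_summable_c H (hz' b)).mul_left _)]
  unfold tw_F
  rw [← tsum_mul_right]
  refine tsum_congr fun n => ?_
  have h2 : ∀ b : ZMod q, χ⁻¹ b * ((a n : ℂ) * cexp (2 * Real.pi * I * n * (z + (b.val : ℂ) / q)))
      = ((a n : ℂ) * cexp (2 * Real.pi * I * n * z)) *
        (χ⁻¹ b * ZMod.stdAddChar ((n : ZMod q) * b)) := by
    intro b
    rw [tw_std, mul_add, Complex.exp_add]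
    ring
  simp_rw [h2]
  rw [← Finset.mul_sum, tw_gauss hχ]
  ring

theorem tw_gauss_ne {q : ℕ} [NeZero q] {χ : DirichletCharacter ℂ q} (hχ : χ.IsPrimitive) :
    gaussSum χ (ZMod.stdAddChar (N := q)) ≠ 0 := by
  intro h0
  have h1 : ZMod.dft (χ : ZMod q → ℂ) = 0 := by
    ext k
    have := hχ.fourierTransform_eq_inv_mul_gaussSum k
    rw [this, h0, mul_zero]
    rfl
  have h2 : (χ : ZMod q → ℂ) = 0 := by
    have := congrArg ZMod.dft.symm h1
    simpa using this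
  have h3 : χ (1 : ZMod q) = 0 := congrFun h2 1
  rw [map_one] at h3
  exact one_ne_zero h3

theorem tw_gauss_norm {q : ℕ} [NeZero q] {χ : DirichletCharacter ℂ q} (hχ : χ.IsPrimitive) :
    ‖gaussSum χ (ZMod.stdAddChar (N := q))‖ = ‖gaussSum χ⁻¹ (ZMod.stdAddChar (N := q))‖ := by
  have h1 := star_gaussSum_eq χ (ZMod.stdAddChar (N := q))
  have h2 : (ZMod.stdAddChar (N := q))⁻¹ = (ZMod.stdAddChar (N := q)).mulShift (-1) := by
    ext x
    rw [AddChar.inv_apply, AddChar.mulShift_apply]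
    simp
  have h3 := gaussSum_mulShift_of_isPrimitive (ZMod.stdAddChar (N := q)) (tw_inv_primitive hχ)
    (-1)
  rw [inv_inv] at h3
  rw [h2, h3] at h1
  have h4 : ‖χ (-1)‖ = 1 := by
    have h5 : χ (-1) * χ (-1) = 1 := by rw [← map_mul]; simp
    have h6 : ‖χ (-1)‖ * ‖χ (-1)‖ = 1 := by rw [← norm_mul, h5, norm_one]
    nlinarith [norm_nonneg (χ (-1))]
  calc ‖gaussSum χ (ZMod.stdAddChar (N := q))‖
      = ‖star (gaussSum χ (ZMod.stdAddChar (N := q)))‖ := (norm_star _).symm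
    _ = _ := by rw [h1, norm_mul, h4, one_mul]

theorem tw_slash {k : ℕ} {a : ℕ → ℝ} (H : HData k a) {q : ℕ} [NeZero q] (u : (ZMod q)ˣ) {y : ℝ}
    (hy : 0 < y) :
    qs a (I / (q * y) + (((u : ZMod q).val : ℕ) : ℂ) / q) =
      (I * y) ^ k * qs a (I * y / q + (((((-u⁻¹ : (ZMod q)ˣ)) : ZMod q).val : ℕ) : ℂ) / q) := by
  set α : ℕ := (u : ZMod q).val with hα
  set β : ℕ := (((-u⁻¹ : (ZMod q)ˣ)) : ZMod q).val with hβ
  have hq0 : (q : ℂ) ≠ 0 := by exact_mod_cast NeZero.ne q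
  have hqpos : (0 : ℝ) < q := by exact_mod_cast Nat.pos_of_ne_zero (NeZero.ne q)
  have h1 : ((q : ℤ) : ℤ) ∣ 1 + (α : ℤ) * β := by
    rw [← ZMod.intCast_zmod_eq_zero_iff_dvd]
    push_cast
    rw [hα, hβ, ZMod.natCast_zmod_val, ZMod.natCast_zmod_val]
    push_cast
    rw [mul_neg, Units.mul_inv]
    ring
  obtain ⟨γ, hγ⟩ := h1
  have hdet : (α : ℤ) * (-(β : ℤ)) - (-γ) * q = 1 := by linarith
  have hz : 0 < (I * y / q + ((β : ℕ) : ℂ) / q).im := by
    have : (I * y / q + ((β : ℕ) : ℂ) / q) = (((β : ℝ) / q : ℝ) : ℂ) + ((y / q : ℝ) : ℂ) * I := by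
      push_cast; ring
    rw [this]
    simp only [add_im, ofReal_im, mul_im, ofReal_re, I_im, I_re, mul_one, mul_zero, add_zero,
      zero_add]
    positivity
  have h2 := H.slash α (-γ) q (-(β : ℤ)) hdet _ hz
  have hy0 : (y : ℂ) ≠ 0 := by exact_mod_cast hy.ne'
  have hγ' : (1 : ℂ) + α * β = q * γ := by exact_mod_cast hγ
  have hden : ((((q : ℕ) : ℤ) : ℂ) * (I * y / q + ((β : ℕ) : ℂ) / q) + ((-(β : ℤ) : ℤ) : ℂ)) = I * y := by
    push_cast
    field_simp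
    ring
  have hval : ((((α : ℕ) : ℤ) : ℂ) * (I * y / q + ((β : ℕ) : ℂ) / q) + ((-γ : ℤ) : ℂ)) /
      ((((q : ℕ) : ℤ) : ℂ) * (I * y / q + ((β : ℕ) : ℂ) / q) + ((-(β : ℤ) : ℤ) : ℂ)) =
      I / (q * y) + ((α : ℕ) : ℂ) / q := by
    rw [hden]
    push_cast
    have hI : (I : ℂ) ≠ 0 := I_ne_zero
    have hI2 : (I : ℂ) ^ 2 = -1 := I_sq
    field_simp
    linear_combination hγ' - hI2
  rw [hval, hden] at h2
  exact h2

theorem tw_fe {k : ℕ} {a : ℕ → ℝ} (H : HData k a) {q : ℕ} [NeZero q]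
    {χ : DirichletCharacter ℂ q} (hχ : χ.IsPrimitive) {y : ℝ} (hy : 0 < y) :
    tw_F a χ (I / (q * y)) * gaussSum χ⁻¹ ZMod.stdAddChar =
      (I * y) ^ k * χ (-1) * (tw_F a χ⁻¹ (I * y / q) * gaussSum χ ZMod.stdAddChar) := by
  have hq0 : (q : ℂ) ≠ 0 := by exact_mod_cast NeZero.ne q
  have hqpos : (0 : ℝ) < q := by exact_mod_cast Nat.pos_of_ne_zero (NeZero.ne q)
  have hz1 : 0 < (I / (q * y) : ℂ).im := by
    have : (I / (q * y) : ℂ) = ((1 / (q * y) : ℝ) : ℂ) * I := by push_cast; ring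
    rw [this]
    simp only [mul_im, ofReal_re, I_im, mul_one, ofReal_im, I_re, mul_zero, add_zero]
    positivity
  have hz2 : 0 < (I * y / q : ℂ).im := by
    have : (I * y / q : ℂ) = ((y / q : ℝ) : ℂ) * I := by push_cast; ring
    rw [this]
    simp only [mul_im, ofReal_re, I_im, mul_one, ofReal_im, I_re, mul_zero, add_zero]
    positivity
  have h2 := tw_sum H (tw_inv_primitive hχ) hz2
  rw [inv_inv] at h2
  rw [tw_sum H hχ hz1, h2]
  -- sums over units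
  have hu : ∀ f : ZMod q → ℂ, (∀ b, ¬ IsUnit b → f b = 0) →
      ∑ b : ZMod q, f b = ∑ u : (ZMod q)ˣ, f u := by
    intro f hf
    classical
    symm
    refine Finset.sum_bij_ne_zero (fun u _ _ => (u : ZMod q)) (fun _ _ _ => Finset.mem_univ _)
      (fun u _ _ v _ _ h => Units.ext h) (fun b _ hb => ?_) (fun _ _ _ => rfl)
    have hbu : IsUnit b := by
      by_contra h
      exact hb (hf b h)
    exact ⟨hbu.unit, Finset.mem_univ _, by simpa using hb, hbu.unit_spec⟩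
  rw [hu (fun b => χ⁻¹ b * qs a (I / (q * y) + (b.val : ℂ) / q))
      (fun b hb => by rw [MulChar.map_nonunit _ hb, zero_mul]),
    hu (fun b => χ b * qs a (I * y / q + (b.val : ℂ) / q))
      (fun b hb => by rw [MulChar.map_nonunit _ hb, zero_mul]), Finset.mul_sum]
  have hinvol : Function.Involutive (fun u : (ZMod q)ˣ => -u⁻¹) := by
    intro u
    simp
  refine Fintype.sum_bijective (fun u : (ZMod q)ˣ => -u⁻¹) hinvol.bijective _ _ fun u => ?_
  rw [tw_slash H u hy]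
  have h3 : χ⁻¹ (u : ZMod q) = χ (-1) * χ (((-u⁻¹ : (ZMod q)ˣ)) : ZMod q) := by
    rw [← map_mul, MulChar.inv_apply, Ring.inverse_unit, Units.val_neg, neg_mul_neg, one_mul]
  rw [h3]
  ring

theorem tw_conj {a : ℕ → ℝ} {q : ℕ} (χ : DirichletCharacter ℂ q) (y : ℝ) :
    tw_F a χ⁻¹ (I * y) = starRingEnd ℂ (tw_F a χ (I * y)) := by
  unfold tw_F
  rw [Complex.conj_tsum]
  refine tsum_congr fun n => ?_
  rw [map_mul, map_mul, Complex.conj_ofReal, ← Complex.exp_conj]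
  congr 1
  · exact (MulChar.star_apply' χ (n : ZMod q)).symm
  · congr 2
    simp only [map_mul, map_ofNat, Complex.conj_ofReal, Complex.conj_I, map_natCast]
    ring

theorem tw_dens {k : ℕ} {a : ℕ → ℝ} {q : ℕ} (χ : DirichletCharacter ℂ q) (u : ℝ) :
    dens k a χ u = (Real.exp (k * u / 2) : ℂ) * tw_F a χ (I * ((Real.exp u / q : ℝ) : ℂ)) := by
  unfold dens tw_F
  congr 1
  refine tsum_congr fun n => ?_
  congr 1
  push_cast
  congr 2
  have : I * I = -1 := I_mul_I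
  linear_combination (-(2 : ℂ) * Real.pi * n * (cexp u / q)) * this

/-- block TW -/
theorem dens_neg_pr {k : ℕ} {a : ℕ → ℝ} (H : HData k a) {q : ℕ} [NeZero q]
    (χ : DirichletCharacter ℂ q) (hχ : χ.IsPrimitive) :
    ∃ W : ℂ, ‖W‖ = 1 ∧ ∀ u : ℝ, dens k a χ (-u) = W * starRingEnd ℂ (dens k a χ u) := by
  have hq0 : (q : ℂ) ≠ 0 := by exact_mod_cast NeZero.ne q
  set τ1 : ℂ := gaussSum χ⁻¹ (ZMod.stdAddChar (N := q)) with hτ1
  set τ2 : ℂ := gaussSum χ (ZMod.stdAddChar (N := q)) with hτ2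
  have h1 : τ1 ≠ 0 := tw_gauss_ne (tw_inv_primitive hχ)
  have h12 : ‖τ2‖ = ‖τ1‖ := tw_gauss_norm hχ
  have h4 : ‖χ (-1)‖ = 1 := by
    have h5 : χ (-1) * χ (-1) = 1 := by rw [← map_mul]; simp
    have h6 : ‖χ (-1)‖ * ‖χ (-1)‖ = 1 := by rw [← norm_mul, h5, norm_one]
    nlinarith [norm_nonneg (χ (-1))]
  refine ⟨I ^ k * χ (-1) * (τ2 / τ1), ?_, fun u => ?_⟩
  · rw [norm_mul, norm_mul, norm_pow, Complex.norm_I, one_pow, h4, norm_div, h12,
      div_self (by simpa using h1)]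
    norm_num
  · rw [tw_dens, tw_dens, map_mul, Complex.conj_ofReal, ← tw_conj]
    have hfe := tw_fe H hχ (Real.exp_pos u)
    have e1 : (I / (q * ((Real.exp u : ℝ) : ℂ)) : ℂ) = I * ((Real.exp (-u) / q : ℝ) : ℂ) := by
      have h7 : ((Real.exp (-u) : ℝ) : ℂ) = ((Real.exp u : ℝ) : ℂ)⁻¹ := by
        rw [Real.exp_neg]; push_cast; rfl
      have h8 : ((Real.exp u : ℝ) : ℂ) ≠ 0 := by exact_mod_cast (Real.exp_pos u).ne'
      rw [Complex.ofReal_div, h7]
      push_cast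
      push_cast at h8
      field_simp
    have e2 : (I * ((Real.exp u : ℝ) : ℂ) / q : ℂ) = I * ((Real.exp u / q : ℝ) : ℂ) := by
      push_cast; ring
    rw [e1, e2] at hfe
    have e3 : tw_F a χ (I * ((Real.exp (-u) / q : ℝ) : ℂ)) =
        (I * ((Real.exp u : ℝ) : ℂ)) ^ k * χ (-1) *
          (tw_F a χ⁻¹ (I * ((Real.exp u / q : ℝ) : ℂ)) * τ2) / τ1 := by
      rw [eq_div_iff h1]; exact hfe
    rw [e3, mul_pow]
    have e4 : (Real.exp (k * -u / 2) : ℂ) * ((Real.exp u : ℝ) : ℂ) ^ k =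
        (Real.exp (k * u / 2) : ℂ) := by
      rw [← Complex.ofReal_pow, ← Complex.ofReal_mul, ← Real.exp_nat_mul, ← Real.exp_add]
      congr 2
      ring
    calc (Real.exp (k * -u / 2) : ℂ) * (I ^ k * ((Real.exp u : ℝ) : ℂ) ^ k * χ (-1) *
          (tw_F a χ⁻¹ (I * ((Real.exp u / q : ℝ) : ℂ)) * τ2) / τ1)
        = ((Real.exp (k * -u / 2) : ℂ) * ((Real.exp u : ℝ) : ℂ) ^ k) * (I ^ k * χ (-1) *
          (tw_F a χ⁻¹ (I * ((Real.exp u / q : ℝ) : ℂ)) * τ2) / τ1) := by ring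
      _ = _ := by rw [e4]; ring

end Pool.Agent.GL2
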