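import Pool.Agent.Lib_helper68.GL2.Defs
import Pool.Agent.Lib_helper68.GL2.TW

/-! Block LAM1: decay and continuity of the twisted densities. -/

namespace Pool.Agent.GL2

open Complex MeasureTheory Filter Topology
open scoped MatrixGroups

/-- termwise norm bound -/
theorem lam1_term {k : ℕ} {a : ℕ → ℝ} (H : HData k a) : ∃ C : ℝ, 0 ≤ C ∧ ∀ (m : ℕ) (n : ℕ),
    |am a m n| ≤ C * (n : ℝ) ^ k := by
  obtain ⟨C, hC0, hC⟩ := tw_abs_le H
  refine ⟨C, hC0, fun m n => ?_⟩
  unfold am
  split_ifs with h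
  · exact hC n
  · rw [abs_zero]; positivity

theorem lam1_am_zero {k : ℕ} {a : ℕ → ℝ} (H : HData k a) (m : ℕ) : am a m 0 = 0 := by
  unfold am
  split_ifs with h
  · exact H.zero
  · rfl

/-- block LAM1 -/
theorem dens_continuous_pr {k : ℕ} {a : ℕ → ℝ} (H : HData k a) (m : ℕ) {q : ℕ} [NeZero q]
    (χ : DirichletCharacter ℂ q) : Continuous (dens k (am a m) χ) := by
  obtain ⟨C, hC0, hC⟩ := lam1_term H
  have hqpos : (0 : ℝ) < q := by exact_mod_cast Nat.pos_of_ne_zero (NeZero.ne q)
  unfold dens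
  refine Continuous.mul (by fun_prop) ?_
  rw [continuous_iff_continuousAt]
  intro u0
  -- on `Ioi (u0 - 1)`
  have hcont : ContinuousOn (fun u : ℝ => ∑' n : ℕ, χ n *
      ((am a m n * Real.exp (-2 * Real.pi * n * Real.exp u / q) : ℝ) : ℂ)) (Set.Ioi (u0 - 1)) := by
    refine continuousOn_tsum (u := fun n : ℕ => C * ((n : ℝ) ^ k *
      Real.exp (-(2 * Real.pi * Real.exp (u0 - 1) / q) * n))) (fun n => ?_) ?_ ?_
    · fun_prop
    · exact (Real.summable_pow_mul_exp_neg_nat_mul k (by positivity)).mul_left C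
    · intro n u hu
      rw [norm_mul, Complex.norm_real, Real.norm_eq_abs, abs_mul, Real.abs_exp]
      have h1 : Real.exp (u0 - 1) ≤ Real.exp u := Real.exp_le_exp.mpr (le_of_lt hu)
      calc ‖χ n‖ * (|am a m n| * Real.exp (-2 * Real.pi * n * Real.exp u / q))
          ≤ 1 * ((C * (n : ℝ) ^ k) * Real.exp (-(2 * Real.pi * Real.exp (u0 - 1) / q) * n)) := by
            refine mul_le_mul (tw_norm_chi_le χ _) ?_ (by positivity) zero_le_one
            refine mul_le_mul (hC m n) (Real.exp_le_exp.mpr ?_) (Real.exp_nonneg _) (by positivity)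
            have h2 : (2 * Real.pi * n / q) * Real.exp (u0 - 1) ≤ (2 * Real.pi * n / q) * Real.exp u :=
              mul_le_mul_of_nonneg_left h1 (by positivity)
            have e1 : -(2 * Real.pi * Real.exp (u0 - 1) / q) * n =
              - ((2 * Real.pi * n / q) * Real.exp (u0 - 1)) := by ring
            have e2 : -2 * Real.pi * n * Real.exp u / q = - ((2 * Real.pi * n / q) * Real.exp u) := by
              ring
            rw [e1, e2]
            linarith
        _ = _ := by ring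
  exact hcont.continuousAt (Ioi_mem_nhds (by linarith))

/-- bound for `u ≥ 0` -/
theorem lam1_pos {k : ℕ} {a : ℕ → ℝ} (H : HData k a) {q : ℕ} [NeZero q]
    (χ : DirichletCharacter ℂ q) : ∃ D : ℝ, 0 ≤ D ∧ ∀ u : ℝ, 0 ≤ u → ‖dens k a χ u‖ ≤
      Real.exp (k * u / 2) * (D * Real.exp (-(Real.pi / q) * Real.exp u)) := by
  have hqpos : (0 : ℝ) < q := by exact_mod_cast Nat.pos_of_ne_zero (NeZero.ne q)
  have hs := tw_summable H (y := Real.pi / q) (by positivity)
  refine ⟨∑' n : ℕ, |a n| * Real.exp (-(Real.pi / q) * n), tsum_nonneg fun n => by positivity,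
    fun u hu => ?_⟩
  unfold dens
  rw [norm_mul, Complex.norm_real, Real.norm_eq_abs, Real.abs_exp]
  refine mul_le_mul_of_nonneg_left ?_ (Real.exp_nonneg _)
  rw [← tsum_mul_right]
  have hterm : ∀ n : ℕ, ‖χ n * ((a n * Real.exp (-2 * Real.pi * n * Real.exp u / q) : ℝ) : ℂ)‖ ≤
      |a n| * Real.exp (-(Real.pi / q) * n) * Real.exp (-(Real.pi / q) * Real.exp u) := by
    intro n
    rw [norm_mul, Complex.norm_real, Real.norm_eq_abs, abs_mul, Real.abs_exp]
    rcases Nat.eq_zero_or_pos n with hn | hn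
    · subst hn
      rw [H.zero]
      simp
    · have hn1 : (1 : ℝ) ≤ n := by exact_mod_cast hn
      have hu1 : (1 : ℝ) ≤ Real.exp u := Real.one_le_exp hu
      calc ‖χ n‖ * (|a n| * Real.exp (-2 * Real.pi * n * Real.exp u / q))
          ≤ 1 * (|a n| * (Real.exp (-(Real.pi / q) * n) * Real.exp (-(Real.pi / q) * Real.exp u))) := by
            refine mul_le_mul (tw_norm_chi_le χ _) ?_ (by positivity) zero_le_one
            refine mul_le_mul_of_nonneg_left ?_ (abs_nonneg _)
            rw [← Real.exp_add]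
            refine Real.exp_le_exp.mpr ?_
            have h1 : (n : ℝ) + Real.exp u ≤ 2 * (n * Real.exp u) := by nlinarith
            have h2 : (Real.pi / q) * ((n : ℝ) + Real.exp u) ≤ (Real.pi / q) * (2 * (n * Real.exp u)) :=
              mul_le_mul_of_nonneg_left h1 (by positivity)
            have e2 : -2 * Real.pi * n * Real.exp u / q = -((Real.pi / q) * (2 * (n * Real.exp u))) := by
              ring
            rw [e2]
            linarith
        _ = _ := by ring
  have hs2 := hs.mul_right (Real.exp (-(Real.pi / q) * Real.exp u))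
  exact (tsum_of_norm_bounded hs2.hasSum hterm)

/-- block LAM1 -/
theorem dens_decay_pr {k : ℕ} {a : ℕ → ℝ} (H : HData k a) {q : ℕ} [NeZero q]
    (χ : DirichletCharacter ℂ q) (hχ : χ.IsPrimitive) (A : ℝ) :
    ∃ C : ℝ, ∀ u : ℝ, ‖dens k a χ u‖ ≤ C * Real.exp (-A * |u|) := by
  have hqpos : (0 : ℝ) < q := by exact_mod_cast Nat.pos_of_ne_zero (NeZero.ne q)
  obtain ⟨D, hD0, hD⟩ := lam1_pos H χ
  obtain ⟨W, hW, hfe⟩ := dens_neg_pr H χ hχ
  -- the function `x^N exp(-c x)` is bounded
  obtain ⟨N, hN⟩ := exists_nat_ge ((k : ℝ) / 2 + |A|)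
  have hbdd : ∃ M : ℝ, ∀ x : ℝ, 1 ≤ x → x ^ N * Real.exp (-(Real.pi / q) * x) ≤ M := by
    have hc : (0 : ℝ) < Real.pi / q := by positivity
    refine ⟨(N.factorial : ℝ) / (Real.pi / q) ^ N, fun x hx => ?_⟩
    have h1 := Real.pow_div_factorial_le_exp (Real.pi / q * x) (by positivity) N
    rw [div_le_iff₀ (by positivity)] at h1
    rw [le_div_iff₀ (by positivity), neg_mul, Real.exp_neg, ← div_eq_mul_inv, div_mul_eq_mul_div,
      div_le_iff₀ (Real.exp_pos _)]
    calc x ^ N * (Real.pi / q) ^ N = (Real.pi / q * x) ^ N := by rw [mul_pow]; ring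
      _ ≤ _ := by rw [mul_comm (N.factorial : ℝ)]; exact h1
  obtain ⟨M, hM⟩ := hbdd
  have hpos : ∀ u : ℝ, 0 ≤ u → ‖dens k a χ u‖ ≤ (D * M) * Real.exp (-A * |u|) := by
    intro u hu
    refine (hD u hu).trans ?_
    rw [abs_of_nonneg hu]
    have h1 := hM (Real.exp u) (Real.one_le_exp hu)
    rw [← Real.exp_nat_mul] at h1
    have h2 : Real.exp (k * u / 2) ≤ Real.exp (-A * u) * Real.exp (N * u) := by
      rw [← Real.exp_add]
      refine Real.exp_le_exp.mpr ?_
      have h3 : (k : ℝ) / 2 + A ≤ N := le_trans (by linarith [le_abs_self A]) hN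
      nlinarith
    calc Real.exp (k * u / 2) * (D * Real.exp (-(Real.pi / q) * Real.exp u))
        ≤ (Real.exp (-A * u) * Real.exp (N * u)) * (D * Real.exp (-(Real.pi / q) * Real.exp u)) :=
          mul_le_mul_of_nonneg_right h2 (by positivity)
      _ = (D * (Real.exp (N * u) * Real.exp (-(Real.pi / q) * Real.exp u))) * Real.exp (-A * u) := by
          ring
      _ ≤ (D * M) * Real.exp (-A * u) :=
          mul_le_mul_of_nonneg_right (mul_le_mul_of_nonneg_left h1 hD0) (Real.exp_nonneg _)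
  refine ⟨D * M, fun u => ?_⟩
  rcases le_or_gt 0 u with hu | hu
  · exact hpos u hu
  · have h1 := hfe (-u)
    rw [neg_neg] at h1
    rw [h1, norm_mul, hW, one_mul, RCLike.norm_conj, ← abs_neg u]
    exact hpos (-u) (by linarith)

end Pool.Agent.GL2
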