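import Pool.Agent.Lib_helper68.GL2.Defs
import Pool.Agent.Lib_helper68.GL2.LAM1

/-! Block LAM2: existence and uniqueness of the completed twisted `L`-function. -/

namespace Pool.Agent.GL2

open Complex MeasureTheory Filter Topology
open scoped MatrixGroups

/-- block LAM2 -/
theorem completedL_unique_pr {k : ℕ} {a : ℕ → ℂ} {q : ℕ} [NeZero q]
    (χ : DirichletCharacter ℂ q) {Λ₁ Λ₂ : ℂ → ℂ} (h1 : IsCompletedL k a χ Λ₁)
    (h2 : IsCompletedL k a χ Λ₂) : Λ₁ = Λ₂ := by
  refine AnalyticOnNhd.eq_of_eventuallyEq (𝕜 := ℂ) (z₀ := (((k : ℝ) / 2 + 2 : ℝ) : ℂ))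
    (fun z _ => h1.1.analyticAt z) (fun z _ => h2.1.analyticAt z) ?_
  have hopen : IsOpen {s : ℂ | (k : ℝ) / 2 + 1 < s.re} :=
    isOpen_lt continuous_const Complex.continuous_re
  have hmem : (((k : ℝ) / 2 + 2 : ℝ) : ℂ) ∈ {s : ℂ | (k : ℝ) / 2 + 1 < s.re} := by
    rw [Set.mem_ofPred_eq, Complex.ofReal_re]
    linarith
  filter_upwards [hopen.mem_nhds hmem] with s hs
  exact (h1.2 s hs).unique (h2.2 s hs)

theorem lam2_integrable : Integrable (fun u : ℝ => Real.exp (-|u|)) := by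
  refine Integrable.mono' (integrable_inv_one_add_sq.const_mul 2) (by fun_prop)
    (Eventually.of_forall fun u => ?_)
  rw [Real.norm_eq_abs, Real.abs_exp, Real.exp_neg]
  have h1 := Real.quadratic_le_exp_of_nonneg (abs_nonneg u)
  rw [sq_abs] at h1
  have h2 : (1 + u ^ 2) / 2 ≤ Real.exp |u| := by nlinarith [abs_nonneg u]
  calc (Real.exp |u|)⁻¹ ≤ ((1 + u ^ 2) / 2)⁻¹ := inv_anti₀ (by positivity) h2
    _ = 2 * (1 + u ^ 2)⁻¹ := by rw [inv_div]; ring

theorem lam2_dens_cont {k : ℕ} {a : ℕ → ℝ} (H : HData k a) {q : ℕ} [NeZero q]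
    (χ : DirichletCharacter ℂ q) : Continuous (dens k a χ) := by
  have h := dens_continuous_pr H 1 χ
  have e : am a 1 = a := by
    funext n
    simp [am]
  rwa [e] at h

/-- the integrand bound -/
theorem lam2_norm (w : ℂ) (u : ℝ) {R : ℝ} (hw : |w.re| ≤ R) :
    ‖cexp (w * u)‖ ≤ Real.exp (R * |u|) := by
  rw [Complex.norm_exp]
  refine Real.exp_le_exp.mpr ?_
  have h1 : (w * u).re = w.re * u := by simp
  rw [h1]
  calc w.re * u ≤ |w.re * u| := le_abs_self _
    _ = |w.re| * |u| := abs_mul _ _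
    _ ≤ R * |u| := mul_le_mul_of_nonneg_right hw (abs_nonneg u)

/-- the completed `L`-function -/
noncomputable def lam2_L (k : ℕ) (a : ℕ → ℝ) {q : ℕ} (χ : DirichletCharacter ℂ q) (s : ℂ) : ℂ :=
  ∫ u : ℝ, dens k a χ u * cexp ((s - (k : ℂ) / 2) * u)

theorem lam2_diff {k : ℕ} {a : ℕ → ℝ} (H : HData k a) {q : ℕ} [NeZero q]
    (χ : DirichletCharacter ℂ q) (hχ : χ.IsPrimitive) : Differentiable ℂ (lam2_L k a χ) := by
  intro s₀
  set R : ℝ := |(s₀ - (k : ℂ) / 2).re| + 1 with hR
  obtain ⟨C, hC⟩ := dens_decay_pr H χ hχ (R + 2)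
  have hC0 : 0 ≤ C := by
    have := (norm_nonneg _).trans (hC 0)
    simpa using this
  have hcont := lam2_dens_cont H χ
  have hre : ∀ s ∈ Metric.ball s₀ 1, |(s - (k : ℂ) / 2).re| ≤ R := by
    intro s hs
    have h1 : |(s - s₀).re| ≤ 1 := (Complex.abs_re_le_norm _).trans (by
      rw [Metric.mem_ball, dist_eq_norm] at hs
      exact hs.le)
    have h2 : (s - (k : ℂ) / 2).re = (s₀ - (k : ℂ) / 2).re + (s - s₀).re := by
      simp only [Complex.sub_re]
      ring
    rw [h2]
    exact (abs_add_le _ _).trans (by linarith)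
  have hb : ∀ s ∈ Metric.ball s₀ 1, ∀ u : ℝ,
      ‖dens k a χ u * cexp ((s - (k : ℂ) / 2) * u)‖ ≤ C * Real.exp (-2 * |u|) := by
    intro s hs u
    rw [norm_mul]
    calc ‖dens k a χ u‖ * ‖cexp ((s - (k : ℂ) / 2) * u)‖
        ≤ (C * Real.exp (-(R + 2) * |u|)) * Real.exp (R * |u|) :=
          mul_le_mul (hC u) (lam2_norm _ u (hre s hs)) (norm_nonneg _) (by positivity)
      _ = C * Real.exp (-2 * |u|) := by
          rw [mul_assoc, ← Real.exp_add]
          congr 2
          ring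
  have hle : ∀ u : ℝ, Real.exp (-2 * |u|) ≤ Real.exp (-|u|) := fun u =>
    Real.exp_le_exp.mpr (by linarith [abs_nonneg u])
  have hule : ∀ u : ℝ, |u| * Real.exp (-2 * |u|) ≤ Real.exp (-|u|) := by
    intro u
    have h1 : |u| ≤ Real.exp |u| := by linarith [Real.add_one_le_exp |u|]
    calc |u| * Real.exp (-2 * |u|) ≤ Real.exp |u| * Real.exp (-2 * |u|) :=
          mul_le_mul_of_nonneg_right h1 (Real.exp_nonneg _)
      _ = Real.exp (-|u|) := by rw [← Real.exp_add]; congr 1; ring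
  have hs₀ : s₀ ∈ Metric.ball s₀ 1 := Metric.mem_ball_self one_pos
  have hint : Integrable (fun u : ℝ => C * Real.exp (-|u|)) := lam2_integrable.const_mul C
  have hmeas : ∀ s : ℂ, AEStronglyMeasurable
      (fun u : ℝ => dens k a χ u * cexp ((s - (k : ℂ) / 2) * u)) volume := fun s =>
    (hcont.mul (by fun_prop)).aestronglyMeasurable
  have key := hasDerivAt_integral_of_dominated_loc_of_deriv_le (μ := volume) (𝕜 := ℂ)
    (F := fun (s : ℂ) (u : ℝ) => dens k a χ u * cexp ((s - (k : ℂ) / 2) * u))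
    (F' := fun (s : ℂ) (u : ℝ) => dens k a χ u * (cexp ((s - (k : ℂ) / 2) * u) * u))
    (x₀ := s₀) (s := Metric.ball s₀ 1) (bound := fun u : ℝ => C * Real.exp (-|u|))
    (Metric.ball_mem_nhds s₀ one_pos) (Eventually.of_forall fun s => hmeas s)
    (Integrable.mono' hint (hmeas s₀) (Eventually.of_forall fun u =>
      (hb s₀ hs₀ u).trans (mul_le_mul_of_nonneg_left (hle u) hC0)))
    (hcont.mul (by fun_prop)).aestronglyMeasurable
    (Eventually.of_forall fun u s hs => by
      rw [← mul_assoc, norm_mul, Complex.norm_real, Real.norm_eq_abs]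
      calc ‖dens k a χ u * cexp ((s - (k : ℂ) / 2) * u)‖ * |u|
          ≤ (C * Real.exp (-2 * |u|)) * |u| :=
            mul_le_mul_of_nonneg_right (hb s hs u) (abs_nonneg u)
        _ = C * (|u| * Real.exp (-2 * |u|)) := by ring
        _ ≤ C * Real.exp (-|u|) := mul_le_mul_of_nonneg_left (hule u) hC0)
    hint
    (Eventually.of_forall fun u s hs => by
      have h1 : HasDerivAt (fun s : ℂ => (s - (k : ℂ) / 2) * u) (u : ℂ) s := by
        simpa using ((hasDerivAt_id s).sub_const ((k : ℂ) / 2)).mul_const (u : ℂ)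
      exact (h1.cexp).const_mul (dens k a χ u))
  exact key.2.differentiableAt

/-- the twisted series as a function on `(0,∞)` -/
noncomputable def lam2_F (a : ℕ → ℝ) {q : ℕ} (χ : DirichletCharacter ℂ q) (t : ℝ) : ℂ :=
  ∑' n : ℕ, χ n * ((a n * Real.exp (-2 * Real.pi * n * t / q) : ℝ) : ℂ)

theorem lam2_mellin {k : ℕ} {a : ℕ → ℝ} {q : ℕ} (χ : DirichletCharacter ℂ q) (s : ℂ) :
    mellin (lam2_F a χ) s = lam2_L k a χ s := by
  have himg : Real.exp '' Set.univ = Set.Ioi 0 := by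
    rw [Set.image_univ, Real.range_exp]
  rw [mellin, ← himg, integral_image_eq_integral_abs_deriv_smul MeasurableSet.univ
    (fun x _ => (Real.hasDerivAt_exp x).hasDerivWithinAt) Real.exp_injective.injOn,
    setIntegral_univ, lam2_L]
  congr 1
  funext u
  have hne : ((Real.exp u : ℝ) : ℂ) ≠ 0 := by exact_mod_cast (Real.exp_pos u).ne'
  rw [Real.abs_exp, Complex.cpow_sub _ _ hne, Complex.cpow_one, Complex.real_smul, smul_eq_mul]
  have h1 : ((Real.exp u : ℝ) : ℂ) ^ s = cexp (s * u) := by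
    rw [Complex.cpow_def_of_ne_zero hne, ← Complex.ofReal_log (Real.exp_pos u).le, Real.log_exp]
    congr 1
    ring
  rw [h1]
  have h2 : dens k a χ u = (Real.exp (k * u / 2) : ℂ) * lam2_F a χ (Real.exp u) := rfl
  rw [h2]
  have h3 : cexp (s * u) = (Real.exp (k * u / 2) : ℂ) * cexp ((s - (k : ℂ) / 2) * u) := by
    rw [Complex.ofReal_exp, ← Complex.exp_add]
    congr 1
    push_cast
    ring
  rw [h3]
  field_simp

theorem lam2_hasSum {k : ℕ} {a : ℕ → ℝ} (H : HData k a) {q : ℕ} [NeZero q]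
    (χ : DirichletCharacter ℂ q) (s : ℂ) (hs : (k : ℝ) / 2 + 1 < s.re) :
    HasSum (fun n : ℕ => ((q : ℂ) / (2 * Real.pi)) ^ s * Gamma s * ((a n : ℂ) * χ n / (n : ℂ) ^ s))
      (lam2_L k a χ s) := by
  have hqpos : (0 : ℝ) < q := by exact_mod_cast Nat.pos_of_ne_zero (NeZero.ne q)
  have hk0 : (0 : ℝ) ≤ k := Nat.cast_nonneg k
  have hs0 : 0 < s.re := by linarith
  rw [← lam2_mellin]
  obtain ⟨C, hC⟩ := H.growth
  have hsum : Summable fun n : ℕ => ‖(a n : ℂ) * χ n‖ / (2 * Real.pi * n / q) ^ s.re := by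
    have h1 : Summable fun n : ℕ => (|C| * (2 * Real.pi / q) ^ (-s.re)) *
        (1 / (n : ℝ) ^ (s.re - (k : ℝ) / 2)) :=
      (Real.summable_one_div_nat_rpow.mpr (by linarith)).mul_left _
    refine Summable.of_nonneg_of_le (fun n => by positivity) (fun n => ?_) h1
    rcases Nat.eq_zero_or_pos n with hn | hn
    · subst hn
      rw [H.zero]
      simp only [Complex.ofReal_zero, zero_mul, norm_zero, zero_div]
      positivity
    · have hnpos : (0 : ℝ) < n := by exact_mod_cast hn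
      have h2 : ‖(a n : ℂ) * χ n‖ ≤ |C| * (n : ℝ) ^ ((k : ℝ) / 2) := by
        rw [norm_mul, Complex.norm_real, Real.norm_eq_abs]
        calc |a n| * ‖χ n‖ ≤ (|C| * (n : ℝ) ^ ((k : ℝ) / 2)) * 1 := by
              refine mul_le_mul ?_ (tw_norm_chi_le χ _) (norm_nonneg _) (by positivity)
              exact (hC n).trans (mul_le_mul_of_nonneg_right (le_abs_self C) (by positivity))
          _ = _ := mul_one _
      have h3 : (2 * Real.pi * n / q : ℝ) ^ s.re = (2 * Real.pi / q) ^ s.re * (n : ℝ) ^ s.re := by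
        rw [← Real.mul_rpow (by positivity) (by positivity)]
        congr 1
        ring
      rw [h3, div_le_iff₀ (by positivity)]
      refine h2.trans (le_of_eq ?_)
      rw [Real.rpow_neg (by positivity), Real.rpow_sub hnpos]
      have hA : (2 * Real.pi / q : ℝ) ^ s.re ≠ 0 := (Real.rpow_pos_of_pos (by positivity) _).ne'
      have hB : (n : ℝ) ^ s.re ≠ 0 := (Real.rpow_pos_of_pos hnpos _).ne'
      have hD : (n : ℝ) ^ ((k : ℝ) / 2) ≠ 0 := (Real.rpow_pos_of_pos hnpos _).ne'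
      field_simp
  have h := hasSum_mellin (a := fun n : ℕ => (a n : ℂ) * χ n) (p := fun n : ℕ => 2 * Real.pi * n / q)
    (F := lam2_F a χ) (s := s) (fun n => by
      rcases Nat.eq_zero_or_pos n with hn | hn
      · left
        subst hn
        rw [H.zero]
        simp
      · right
        have hnpos : (0 : ℝ) < n := by exact_mod_cast hn
        positivity) hs0 (fun t ht => by
      have ht0 : (0 : ℝ) < t := ht
      have hz : 0 < (I * ((t / q : ℝ) : ℂ)).im := by
        simp only [mul_im, I_re, ofReal_im, mul_zero, I_im, ofReal_re, one_mul, zero_add]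
        positivity
      have h1 := tw_summable_chi H χ hz
      have h2 : ∀ n : ℕ, χ n * ((a n : ℂ) * cexp (2 * Real.pi * I * n * (I * ((t / q : ℝ) : ℂ)))) =
          χ n * ((a n * Real.exp (-2 * Real.pi * n * t / q) : ℝ) : ℂ) := by
        intro n
        congr 1
        push_cast
        congr 2
        have : I * I = -1 := I_mul_I
        linear_combination ((2 : ℂ) * Real.pi * n * (t / q)) * this
      have h3 := (h1.congr fun n => (h2 n)).hasSum
      refine HasSum.congr_fun (show HasSum _ (lam2_F a χ t) from h3) fun n => ?_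
      push_cast
      have e : (-(2 * Real.pi * n / q) * t : ℂ) = -2 * Real.pi * n * t / q := by ring
      rw [e]
      ring) hsum
  convert h using 1
  funext n
  rcases Nat.eq_zero_or_pos n with hn | hn
  · subst hn
    rw [H.zero]
    simp
  · have hnpos : (0 : ℝ) < n := by exact_mod_cast hn
    have h3 : (((2 * Real.pi * n / q : ℝ)) : ℂ) ^ s =
        (((2 * Real.pi / q : ℝ)) : ℂ) ^ s * ((n : ℝ) : ℂ) ^ s := by
      rw [← Complex.mul_cpow_ofReal_nonneg (by positivity) hnpos.le]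
      congr 1
      push_cast
      ring
    have h4 : ((q : ℂ) / (2 * Real.pi)) ^ s = ((((2 * Real.pi / q : ℝ)) : ℂ) ^ s)⁻¹ := by
      have h5 : ((q : ℂ) / (2 * Real.pi)) = (((2 * Real.pi / q : ℝ)) : ℂ)⁻¹ := by
        push_cast
        rw [inv_div]
      rw [h5, Complex.inv_cpow]
      rw [Complex.arg_ofReal_of_nonneg (by positivity)]
      exact Real.pi_pos.ne
    rw [h3, h4, Complex.ofReal_natCast]
    have hA : (((2 * Real.pi / q : ℝ)) : ℂ) ^ s ≠ 0 := by
      rw [Ne, Complex.cpow_eq_zero_iff]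
      rintro ⟨h, -⟩
      have : (2 * Real.pi / q : ℝ) = 0 := by exact_mod_cast h
      have h6 : (0 : ℝ) < 2 * Real.pi / q := by positivity
      exact h6.ne' this
    have hB : (n : ℂ) ^ s ≠ 0 := by
      rw [Ne, Complex.cpow_eq_zero_iff]
      rintro ⟨h, -⟩
      have : (n : ℝ) = 0 := by exact_mod_cast h
      exact hnpos.ne' this
    field_simp

/-- block LAM2 -/
theorem exists_completedL_pr {k : ℕ} {a : ℕ → ℝ} (H : HData k a) {q : ℕ} [NeZero q]
    (χ : DirichletCharacter ℂ q) (hχ : χ.IsPrimitive) :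
    ∃ Λ : ℂ → ℂ, IsCompletedL k (fun n => (a n : ℂ)) χ Λ ∧ ∀ t : ℝ,
      Λ ((k : ℂ) / 2 + t * I) = ∫ u : ℝ, dens k a χ u * cexp (t * u * I) := by
  refine ⟨lam2_L k a χ, ⟨lam2_diff H χ hχ, fun s hs => lam2_hasSum H χ s hs⟩, fun t => ?_⟩
  unfold lam2_L
  congr 1
  funext u
  congr 2
  ring

end Pool.Agent.GL2
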