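import Pool.Agent.Lib_helper68.GL2.Defs

/-! Block BAS (helper80). -/

namespace Pool.Agent.GL2

open Complex MeasureTheory Filter Topology
open scoped MatrixGroups

/-- polynomial growth with an integer exponent -/
theorem bas_growth {k : ℕ} {a : ℕ → ℝ} (H : HData k a) :
    ∃ C : ℝ, 0 ≤ C ∧ ∀ n : ℕ, |a n| ≤ C * (n : ℝ) ^ k := by
  obtain ⟨C, hC⟩ := H.growth
  refine ⟨max C 0, le_max_right _ _, fun n => ?_⟩
  rcases Nat.eq_zero_or_pos n with h | h
  · subst h
    rw [H.zero, abs_zero]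
    positivity
  · have h1 : (1 : ℝ) ≤ n := by exact_mod_cast h
    have h2 : (n : ℝ) ^ ((k : ℝ) / 2) ≤ (n : ℝ) ^ k := by
      rw [← Real.rpow_natCast]
      apply Real.rpow_le_rpow_of_exponent_le h1
      have : (0 : ℝ) ≤ k := Nat.cast_nonneg k
      linarith
    calc |a n| ≤ C * (n : ℝ) ^ ((k : ℝ) / 2) := hC n
      _ ≤ max C 0 * (n : ℝ) ^ ((k : ℝ) / 2) := by
          apply mul_le_mul_of_nonneg_right (le_max_left _ _)
          positivity
      _ ≤ max C 0 * (n : ℝ) ^ k := mul_le_mul_of_nonneg_left h2 (le_max_right _ _)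

/-- block BAS -/
theorem summable_a_pr {k : ℕ} {a : ℕ → ℝ} (H : HData k a) {y : ℝ} (hy : 0 < y) :
    Summable (fun n : ℕ => |a n| * Real.exp (-y * n)) := by
  obtain ⟨C, hC0, hC⟩ := bas_growth H
  have h1 := (Real.summable_pow_mul_exp_neg_nat_mul k hy).mul_left C
  refine Summable.of_nonneg_of_le (fun n => by positivity) (fun n => ?_) h1
  rw [← mul_assoc]
  exact mul_le_mul_of_nonneg_right (hC n) (Real.exp_pos _).le

theorem bas_norm_term (b : ℕ → ℝ) (z : ℂ) (n : ℕ) :
    ‖(b n : ℂ) * cexp (2 * Real.pi * I * n * z)‖ = |b n| * Real.exp (-(2 * Real.pi * z.im) * n) := by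
  rw [norm_mul, Complex.norm_real, Real.norm_eq_abs, Complex.norm_exp]
  congr 2
  simp [Complex.mul_re, Complex.mul_im]
  ring

theorem bas_summable_qs {k : ℕ} {a : ℕ → ℝ} (H : HData k a) {z : ℂ} (hz : 0 < z.im) :
    Summable (fun n : ℕ => ‖(a n : ℂ) * cexp (2 * Real.pi * I * n * z)‖) := by
  refine (summable_a_pr H (y := 2 * Real.pi * z.im) (by positivity)).congr fun n => ?_
  rw [bas_norm_term]

/-- block BAS -/
theorem qs_decay_pr {k : ℕ} {a : ℕ → ℝ} (H : HData k a) :
    ∃ C : ℝ, ∀ z : ℂ, 1 ≤ z.im → ‖qs a z‖ ≤ C * Real.exp (-2 * Real.pi * z.im) := by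
  have hs := summable_a_pr H (y := 2 * Real.pi) (by positivity)
  refine ⟨Real.exp (2 * Real.pi) * ∑' n : ℕ, |a n| * Real.exp (-(2 * Real.pi) * n),
    fun z hz => ?_⟩
  have hz0 : 0 < z.im := by linarith
  have h1 : ‖qs a z‖ ≤ ∑' n : ℕ, ‖(a n : ℂ) * cexp (2 * Real.pi * I * n * z)‖ :=
    norm_tsum_le_tsum_norm (bas_summable_qs H hz0)
  refine h1.trans ?_
  rw [← tsum_mul_left, ← tsum_mul_right]
  refine (bas_summable_qs H hz0).tsum_le_tsum (fun n => ?_)
    ((hs.mul_left _).mul_right _)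
  rw [bas_norm_term]
  rcases Nat.eq_zero_or_pos n with h | h
  · subst h
    rw [H.zero]
    simp
  · have h2 : (1 : ℝ) ≤ n := by exact_mod_cast h
    have h3 : Real.exp (2 * Real.pi) * (|a n| * Real.exp (-(2 * Real.pi) * n)) *
        Real.exp (-2 * Real.pi * z.im) =
        |a n| * Real.exp (2 * Real.pi + -(2 * Real.pi) * n + -2 * Real.pi * z.im) := by
      rw [Real.exp_add, Real.exp_add]
      ring
    rw [h3]
    apply mul_le_mul_of_nonneg_left _ (abs_nonneg _)
    apply Real.exp_le_exp.2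
    have h4 : 0 ≤ (2 * Real.pi) * ((n - 1) * (z.im - 1)) :=
      mul_nonneg (by positivity) (mul_nonneg (by linarith) (by linarith))
    nlinarith [h4]

/-! ### Parseval -/

theorem bas_norm_e (n : ℕ) (θ : ℝ) : ‖cexp (2 * Real.pi * I * n * θ)‖ = 1 := by
  have : (2 * Real.pi * I * n * θ : ℂ) = ((2 * Real.pi * n * θ : ℝ) : ℂ) * I := by
    push_cast; ring
  rw [this, Complex.norm_exp_ofReal_mul_I]

theorem bas_HH_continuous (b : ℕ → ℂ) (hb : Summable (fun n => ‖b n‖)) : Continuous (HH b) := by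
  unfold HH
  refine continuous_tsum (fun n => by fun_prop) hb (fun n θ => ?_)
  rw [norm_mul, bas_norm_e, mul_one]

theorem bas_HH_le (b : ℕ → ℂ) (hb : Summable (fun n => ‖b n‖)) (θ : ℝ) :
    ‖HH b θ‖ ≤ ∑' n, ‖b n‖ := by
  unfold HH
  refine (norm_tsum_le_tsum_norm ?_).trans (le_of_eq ?_)
  · refine hb.congr fun n => ?_
    rw [norm_mul, bas_norm_e, mul_one]
  · refine tsum_congr fun n => ?_
    rw [norm_mul, bas_norm_e, mul_one]

/-- orthogonality of exponentials -/
theorem bas_orth (n m : ℕ) :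
    ∫ θ in (0 : ℝ)..1, cexp (2 * Real.pi * I * n * θ) * cexp (-(2 * Real.pi * I * m * θ)) =
      if n = m then 1 else 0 := by
  by_cases h : n = m
  · subst h
    rw [if_pos rfl]
    have : ∀ θ : ℝ, cexp (2 * Real.pi * I * n * θ) * cexp (-(2 * Real.pi * I * n * θ)) = 1 := by
      intro θ
      rw [← Complex.exp_add, add_neg_cancel, Complex.exp_zero]
    simp [this]
  · rw [if_neg h]
    have h1 : ∀ θ : ℝ, cexp (2 * Real.pi * I * n * θ) * cexp (-(2 * Real.pi * I * m * θ)) =
        cexp ((2 * Real.pi * I * ((n : ℂ) - m)) * θ) := by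
      intro θ
      rw [← Complex.exp_add]
      congr 1
      ring
    simp_rw [h1]
    have hne : (2 * Real.pi * I * ((n : ℂ) - m)) ≠ 0 := by
      have h2 : ((n : ℂ) - m) ≠ 0 := by
        intro h3
        apply h
        exact_mod_cast sub_eq_zero.1 h3
      exact mul_ne_zero Complex.two_pi_I_ne_zero h2
    rw [integral_exp_mul_complex hne]
    have h3 : cexp (2 * Real.pi * I * ((n : ℂ) - m) * (1 : ℝ)) = 1 := by
      rw [Complex.exp_eq_one_iff]
      refine ⟨(n : ℤ) - m, ?_⟩
      push_cast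
      ring
    rw [h3]
    simp

theorem bas_coeff (b : ℕ → ℂ) (hb : Summable (fun n => ‖b n‖)) (m : ℕ) :
    ∫ θ in (0 : ℝ)..1, HH b θ * cexp (-(2 * Real.pi * I * m * θ)) = b m := by
  have hnorm : ∀ (n : ℕ) (θ : ℝ),
      ‖b n * cexp (2 * Real.pi * I * n * θ) * cexp (-(2 * Real.pi * I * m * θ))‖ = ‖b n‖ := by
    intro n θ
    have h1 : ‖cexp (-(2 * Real.pi * I * m * θ))‖ = 1 := by
      rw [Complex.exp_neg, norm_inv, bas_norm_e, inv_one]
    rw [norm_mul, norm_mul, bas_norm_e, h1, mul_one, mul_one]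
  have h1 := intervalIntegral.hasSum_integral_of_dominated_convergence
    (μ := volume) (a := 0) (b := 1)
    (F := fun n θ => b n * cexp (2 * Real.pi * I * n * θ) * cexp (-(2 * Real.pi * I * m * θ)))
    (f := fun θ => HH b θ * cexp (-(2 * Real.pi * I * m * θ)))
    (bound := fun n _ => ‖b n‖)
    (fun n => by
      apply Continuous.aestronglyMeasurable
      fun_prop)
    (fun n => ae_of_all _ fun θ _ => (hnorm n θ).le)
    (ae_of_all _ fun θ _ => hb)
    (by simp)
    (ae_of_all _ fun θ _ => by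
      unfold HH
      refine (Summable.hasSum ?_).mul_right _
      refine Summable.of_norm (hb.congr fun n => ?_)
      rw [norm_mul, bas_norm_e, mul_one])
  have h2 : ∀ n : ℕ, ∫ θ in (0 : ℝ)..1,
      b n * cexp (2 * Real.pi * I * n * θ) * cexp (-(2 * Real.pi * I * m * θ)) =
        if n = m then b n else 0 := by
    intro n
    have h3 : ∀ θ : ℝ, b n * cexp (2 * Real.pi * I * n * θ) * cexp (-(2 * Real.pi * I * m * θ)) =
        b n * (cexp (2 * Real.pi * I * n * θ) * cexp (-(2 * Real.pi * I * m * θ))) := by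
      intro θ; ring
    simp_rw [h3]
    rw [intervalIntegral.integral_const_mul, bas_orth]
    split_ifs <;> simp
  simp only [h2] at h1
  have h4 := h1.tsum_eq
  rw [← h4]
  rw [tsum_eq_single m]
  · rw [if_pos rfl]
  · intro n hn
    rw [if_neg hn]

/-- block BAS: Parseval -/
theorem parseval_pr (b : ℕ → ℂ) (hb : Summable (fun n => ‖b n‖)) :
    ∑' n, ‖b n‖ ^ 2 = ∫ θ in (0 : ℝ)..1, ‖HH b θ‖ ^ 2 := by
  have hM := bas_HH_le b hb
  set M := ∑' n, ‖b n‖ with hMdef
  have hc := bas_HH_continuous b hb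
  have h1 := intervalIntegral.hasSum_integral_of_dominated_convergence
    (μ := volume) (a := 0) (b := 1)
    (F := fun n θ => HH b θ * starRingEnd ℂ (b n * cexp (2 * Real.pi * I * n * θ)))
    (f := fun θ => HH b θ * starRingEnd ℂ (HH b θ))
    (bound := fun n _ => M * ‖b n‖)
    (fun n => by
      apply Continuous.aestronglyMeasurable
      refine hc.mul (Complex.continuous_conj.comp ?_)
      fun_prop)
    (fun n => ae_of_all _ fun θ _ => by
      rw [norm_mul, RCLike.norm_conj, norm_mul, bas_norm_e, mul_one]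
      exact mul_le_mul_of_nonneg_right (hM θ) (norm_nonneg _))
    (ae_of_all _ fun θ _ => hb.mul_left M)
    (by simp)
    (ae_of_all _ fun θ _ => by
      refine HasSum.mul_left _ ?_
      have h2 : HasSum (fun n : ℕ => b n * cexp (2 * Real.pi * I * n * θ)) (HH b θ) := by
        unfold HH
        refine Summable.hasSum ?_
        refine Summable.of_norm (hb.congr fun n => ?_)
        rw [norm_mul, bas_norm_e, mul_one]
      exact h2.map (starRingEnd ℂ) Complex.continuous_conj)
  have h2 : ∀ n : ℕ, ∫ θ in (0 : ℝ)..1,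
      HH b θ * starRingEnd ℂ (b n * cexp (2 * Real.pi * I * n * θ)) = ((‖b n‖ ^ 2 : ℝ) : ℂ) := by
    intro n
    have h3 : ∀ θ : ℝ, HH b θ * starRingEnd ℂ (b n * cexp (2 * Real.pi * I * n * θ)) =
        starRingEnd ℂ (b n) * (HH b θ * cexp (-(2 * Real.pi * I * n * θ))) := by
      intro θ
      rw [map_mul, ← Complex.exp_conj]
      have h4 : starRingEnd ℂ (2 * Real.pi * I * n * θ) = -(2 * Real.pi * I * n * θ) := by
        simp only [map_mul, Complex.conj_I, Complex.conj_ofReal, map_ofNat, map_natCast]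
        ring
      rw [h4]
      ring
    simp_rw [h3]
    rw [intervalIntegral.integral_const_mul, bas_coeff b hb, mul_comm, Complex.mul_conj']
    push_cast
    rfl
  simp only [h2] at h1
  have h5 : ∀ θ : ℝ, HH b θ * starRingEnd ℂ (HH b θ) = ((‖HH b θ‖ ^ 2 : ℝ) : ℂ) := by
    intro θ
    rw [Complex.mul_conj']
    push_cast
    rfl
  simp only [h5] at h1
  rw [intervalIntegral.integral_ofReal] at h1
  have h6 := Complex.hasSum_ofReal.1 h1
  exact h6.tsum_eq

/-- block BAS -/
theorem Dm_le_pr {k : ℕ} {a : ℕ → ℝ} (H : HData k a) :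
    ∃ C : ℝ, ∀ m : ℕ, ∀ y : ℝ, 0 < y → Dm k a m y ≤ C := by
  obtain ⟨C, hC⟩ := H.bound
  refine ⟨C ^ 2, fun m y hy => ?_⟩
  set b : ℕ → ℂ := fun n => ((a n * Real.exp (-(2 * Real.pi * y) * n) : ℝ) : ℂ) with hbdef
  have hbn : ∀ n, ‖b n‖ = |a n| * Real.exp (-(2 * Real.pi * y) * n) := by
    intro n
    rw [hbdef]
    simp only
    rw [Complex.norm_real, Real.norm_eq_abs, abs_mul, Real.abs_exp]
  have hb : Summable (fun n => ‖b n‖) := by
    refine (summable_a_pr H (y := 2 * Real.pi * y) (by positivity)).congr fun n => ?_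
    rw [hbn]
  have hb2 : Summable (fun n => ‖b n‖ ^ 2) := by
    have hM : ∀ n, ‖b n‖ ≤ ∑' n, ‖b n‖ := fun n => hb.le_tsum n (fun _ _ => norm_nonneg _)
    refine Summable.of_nonneg_of_le (fun n => by positivity) (fun n => ?_)
      (hb.mul_left (∑' n, ‖b n‖))
    rw [pow_two]
    exact mul_le_mul_of_nonneg_right (hM n) (norm_nonneg _)
  have h1 : ∑' n : ℕ, (am a m n) ^ 2 * Real.exp (-4 * Real.pi * n * y) ≤ ∑' n, ‖b n‖ ^ 2 := by
    have h2 : ∀ n : ℕ, (am a m n) ^ 2 * Real.exp (-4 * Real.pi * n * y) ≤ ‖b n‖ ^ 2 := by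
      intro n
      rw [hbn, mul_pow, sq_abs, ← Real.exp_nat_mul]
      have h3 : (am a m n) ^ 2 ≤ (a n) ^ 2 := by
        unfold am
        split_ifs
        · exact le_rfl
        · rw [zero_pow two_ne_zero]; positivity
      have h4 : Real.exp (-4 * Real.pi * n * y) =
          Real.exp (((2 : ℕ) : ℝ) * (-(2 * Real.pi * y) * n)) := by
        congr 1
        push_cast
        ring
      rw [h4]
      exact mul_le_mul_of_nonneg_right h3 (Real.exp_pos _).le
    refine Summable.tsum_le_tsum h2 ?_ hb2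
    exact Summable.of_nonneg_of_le (fun n => by positivity) h2 hb2
  have h2 : ∫ θ in (0 : ℝ)..1, ‖HH b θ‖ ^ 2 ≤ C ^ 2 * (y ^ k)⁻¹ := by
    have h3 : ∀ θ : ℝ, ‖HH b θ‖ ^ 2 ≤ C ^ 2 * (y ^ k)⁻¹ := by
      intro θ
      have h4 : HH b θ = qs a (θ + y * I) := by
        unfold HH qs
        refine tsum_congr fun n => ?_
        rw [hbdef]
        simp only
        rw [Complex.ofReal_mul, mul_assoc, Complex.ofReal_exp, ← Complex.exp_add]
        congr 2
        push_cast
        have hI := Complex.I_sq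
        linear_combination (2 * Real.pi * y * n : ℂ) * (-1) * hI
      have h5 := hC (θ + y * I) (by simpa using hy)
      have h6 : ((θ : ℂ) + y * I).im = y := by simp
      rw [h6] at h5
      rw [h4]
      have h7 : 0 ≤ ‖qs a (θ + y * I)‖ := norm_nonneg _
      have h8 : ‖qs a (θ + y * I)‖ ^ 2 ≤ (C * y ^ (-(k : ℝ) / 2)) ^ 2 := by
        exact pow_le_pow_left₀ h7 h5 2
      refine h8.trans (le_of_eq ?_)
      rw [mul_pow, ← Real.rpow_natCast (y ^ (-(k : ℝ) / 2)) 2, ← Real.rpow_mul hy.le,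
        ← Real.rpow_natCast y k, ← Real.rpow_neg hy.le]
      congr 2
      push_cast
      ring
    have h4 := intervalIntegral.integral_mono_on (μ := volume) (zero_le_one' ℝ)
      (((bas_HH_continuous b hb).norm.pow 2).intervalIntegrable 0 1)
      (continuous_const.intervalIntegrable 0 1)
      (fun θ _ => h3 θ)
    simpa using h4
  unfold Dm
  have hyk : 0 < y ^ k := by positivity
  calc y ^ k * ∑' n : ℕ, (am a m n) ^ 2 * Real.exp (-4 * Real.pi * n * y)
      ≤ y ^ k * (C ^ 2 * (y ^ k)⁻¹) := by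
        apply mul_le_mul_of_nonneg_left _ hyk.le
        rw [parseval_pr b hb] at h1
        exact h1.trans h2
    _ = C ^ 2 := by field_simp

end Pool.Agent.GL2
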