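import Pool.Agent.Lib_helper68.GL2.Defs

/-! Block MFD (MP_77948b_nt, GL_2): from Mathlib cusp forms to `HData`. -/

namespace Pool.Agent.GL2

open Complex MeasureTheory Filter Topology
open scoped MatrixGroups

theorem MFD_hasSum {k : ℕ} (f : CuspForm 𝒮ℒ (k : ℤ)) (z : ℂ) (hz : 0 < z.im) :
    HasSum (fun n : ℕ => (UpperHalfPlane.qExpansion 1 f).coeff n *
      cexp (2 * Real.pi * I * n * z)) (f ⟨z, hz⟩) := by
  have h1 : (1 : ℝ) ∈ (𝒮ℒ).strictPeriods := one_mem_strictPeriods_SL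
  have : Fact (IsCusp OnePoint.infty 𝒮ℒ) :=
    ⟨Subgroup.isCusp_of_mem_strictPeriods one_pos h1⟩
  have h2 := UpperHalfPlane.hasSum_qExpansion (f := f) one_pos
    (SlashInvariantFormClass.periodic_comp_ofComplex f h1) (ModularFormClass.holo f)
    (ModularFormClass.bdd_at_infty f) ⟨z, hz⟩
  refine h2.congr_fun ?_
  intro n
  rw [smul_eq_mul, Function.Periodic.qParam, ← Complex.exp_nat_mul]
  congr 2
  push_cast
  ring

theorem MFD_qs {k : ℕ} (f : CuspForm 𝒮ℒ (k : ℤ)) (hf : IsHeckeEigenform f) (z : ℂ)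
    (hz : 0 < z.im) :
    qs (fun n => ((UpperHalfPlane.qExpansion 1 f).coeff n).re) z = f ⟨z, hz⟩ := by
  rw [← (MFD_hasSum f z hz).tsum_eq, qs]
  refine tsum_congr fun n => ?_
  congr 1
  exact Complex.ext (by simp) (by simp [hf.real n])

theorem MFD_slash {k : ℕ} (f : CuspForm 𝒮ℒ (k : ℤ)) (α β γ δ : ℤ) (h : α * δ - β * γ = 1)
    (z : ℂ) (hz : 0 < z.im) :
    ∃ hz' : 0 < ((α * z + β) / (γ * z + δ) : ℂ).im,
      f ⟨(α * z + β) / (γ * z + δ), hz'⟩ = (γ * z + δ) ^ k * f ⟨z, hz⟩ := by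
  set g : SL(2, ℤ) := ⟨!![α, β; γ, δ], by rw [Matrix.det_fin_two_of]; exact h⟩ with hg
  set τ : UpperHalfPlane := ⟨z, hz⟩ with hτ
  have h1 := SlashInvariantForm.slash_action_eqn'' (Γ := 𝒮ℒ) f
    (γ := Matrix.SpecialLinearGroup.mapGL ℝ g) ⟨g, rfl⟩ τ
  have h2 := UpperHalfPlane.coe_specialLinearGroup_apply g τ
  have h3 : ((g • τ : UpperHalfPlane) : ℂ) = (α * z + β) / (γ * z + δ) := by
    rw [h2]
    simp [hg, hτ]
  have h4 : 0 < ((α * z + β) / (γ * z + δ) : ℂ).im := by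
    rw [← h3]
    exact (g • τ).im_pos
  refine ⟨h4, ?_⟩
  have h5 : (⟨(α * z + β) / (γ * z + δ), h4⟩ : UpperHalfPlane) =
      Matrix.SpecialLinearGroup.mapGL ℝ g • τ := by
    apply UpperHalfPlane.ext
    rw [← MulAction.compHom_smul_def (f := Matrix.SpecialLinearGroup.mapGL ℝ)]
    exact h3.symm
  rw [h5, h1]
  congr 1

theorem MFD_growth {k : ℕ} (hk : 0 < k) {c : ℕ → ℂ}
    (h : c =O[atTop] fun n : ℕ => (n : ℝ) ^ ((k : ℝ) / 2)) (h0 : c 0 = 0) :
    ∃ C : ℝ, ∀ n : ℕ, |(c n).re| ≤ C * (n : ℝ) ^ ((k : ℝ) / 2) := by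
  obtain ⟨C, hC, hb⟩ := h.exists_pos
  obtain ⟨N, hN⟩ := Filter.eventually_atTop.mp hb.bound
  refine ⟨C + ∑ i ∈ Finset.range N, ‖c i‖, fun n => ?_⟩
  have hS : 0 ≤ ∑ i ∈ Finset.range N, ‖c i‖ :=
    Finset.sum_nonneg fun _ _ => norm_nonneg _
  have habs : |(c n).re| ≤ ‖c n‖ := Complex.abs_re_le_norm _
  rcases Nat.eq_zero_or_pos n with rfl | hn
  · rw [h0]
    simp only [zero_re, abs_zero]
    positivity
  have hn1 : (1 : ℝ) ≤ (n : ℝ) ^ ((k : ℝ) / 2) :=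
    Real.one_le_rpow (by exact_mod_cast hn) (by positivity)
  rcases le_or_gt N n with h | h
  · have h2 := hN n h
    rw [Real.norm_of_nonneg (by positivity)] at h2
    refine habs.trans ((le_trans h2 ?_))
    exact mul_le_mul_of_nonneg_right (by linarith) (by positivity)
  · have h4 : ‖c n‖ ≤ ∑ i ∈ Finset.range N, ‖c i‖ :=
      Finset.single_le_sum (f := fun i => ‖c i‖)
        (fun _ _ => norm_nonneg _) (Finset.mem_range.mpr h)
    nlinarith

theorem hdata_of_eigenform_pr {k : ℕ} (hk : 0 < k) (f : CuspForm 𝒮ℒ (k : ℤ))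
    (hf : IsHeckeEigenform f) :
    HData k (fun n => ((UpperHalfPlane.qExpansion 1 f).coeff n).re) := by
  have hre : ∀ n, (((UpperHalfPlane.qExpansion 1 f).coeff n).re : ℂ) =
      (UpperHalfPlane.qExpansion 1 f).coeff n := fun n =>
    Complex.ext (by simp) (by simp [hf.real n])
  refine ⟨hk, ?_, ?_, ?_, ?_, ?_, ?_, ?_⟩
  · show ((UpperHalfPlane.qExpansion 1 f).coeff 0).re = 0
    rw [CuspFormClass.qExpansion_coeff_zero f one_pos one_mem_strictPeriods_SL]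
    simp
  · show ((UpperHalfPlane.qExpansion 1 f).coeff 1).re = 1
    rw [hf.one]; simp
  · intro m n hmn
    have h := hf.mul m n hmn
    rw [← hre, ← hre m, ← hre n] at h
    exact_mod_cast h
  · intro p r hp
    have h := hf.hecke p r hp
    rw [← hre, ← hre p, ← hre (p ^ (r + 1)), ← hre (p ^ r)] at h
    exact_mod_cast h
  · have h1 := CuspFormClass.qExpansion_isBigO f
    rw [Subgroup.strictWidthInfty_SL2Z] at h1
    have h2 : (((k : ℤ) : ℝ)) = (k : ℝ) := by simp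
    rw [h2] at h1
    exact MFD_growth hk h1
      (CuspFormClass.qExpansion_coeff_zero f one_pos one_mem_strictPeriods_SL)
  · obtain ⟨C, hC⟩ := CuspFormClass.exists_bound f
    refine ⟨C, fun z hz => ?_⟩
    rw [MFD_qs f hf z hz]
    refine (hC ⟨z, hz⟩).trans (le_of_eq ?_)
    rw [neg_div, Real.rpow_neg hz.le, div_eq_mul_inv]
    simp [UpperHalfPlane.im]
  · intro α β γ δ h z hz
    obtain ⟨hz', h1⟩ := MFD_slash f α β γ δ h z hz
    rw [MFD_qs f hf _ hz', MFD_qs f hf z hz, h1]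

end Pool.Agent.GL2
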