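import Pool.Agent.Lib_helper68.GL2.Defs

/-! Block APX (MP_77948b_nt, GL_2): approximation of the phase of an Euler product by a finite
Dirichlet polynomial. -/

namespace Pool.Agent.GL2

open Complex MeasureTheory Filter Topology

theorem APX_norm_fourier (x : AddCircle (1 : ℝ)) : ‖(fourier 1 x : ℂ)‖ = 1 := by
  rw [fourier_apply]
  exact Circle.norm_coe _

/-- the function to be approximated -/
noncomputable def APX_F (E : ℂ → ℂ) (hE : Continuous E) (hE0 : ∀ w : ℂ, ‖w‖ = 1 → E w ≠ 0) :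
    C(AddCircle (1 : ℝ), ℂ) where
  toFun x := starRingEnd ℂ (E (fourier 1 x)) / (‖E (fourier 1 x)‖ : ℂ)
  continuous_toFun := by
    have hc : Continuous fun x : AddCircle (1 : ℝ) => E (fourier 1 x) :=
      hE.comp (fourier 1).continuous
    refine (Complex.continuous_conj.comp hc).div (Complex.continuous_ofReal.comp hc.norm) ?_
    intro x
    have h5 : ‖E (fourier 1 x)‖ ≠ 0 := norm_ne_zero_iff.mpr (hE0 _ (APX_norm_fourier x))
    exact_mod_cast h5

theorem APX_norm_le (z : ℂ) : ‖starRingEnd ℂ z / (‖z‖ : ℂ)‖ ≤ 1 := by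
  rw [norm_div, RCLike.norm_conj, Complex.norm_real, norm_norm]
  exact div_self_le_one _

theorem APX_F_norm (E : ℂ → ℂ) (hE : Continuous E) (hE0 : ∀ w : ℂ, ‖w‖ = 1 → E w ≠ 0) :
    ‖APX_F E hE hE0‖ ≤ 1 := by
  rw [ContinuousMap.norm_le _ zero_le_one]
  intro x
  exact APX_norm_le _

theorem APX_approx₁ (E : ℂ → ℂ) (hE : Continuous E) (hE0 : ∀ w : ℂ, ‖w‖ = 1 → E w ≠ 0)
    (ε : ℝ) (hε : 0 < ε) :
    ∃ (N M : ℕ) (c : ℕ → ℂ), ∑ j ∈ Finset.range M, ‖c j‖ ^ 2 ≤ (1 + ε) ^ 2 ∧
      ∀ w : ℂ, ‖w‖ = 1 → ‖starRingEnd ℂ w ^ N * ∑ j ∈ Finset.range M, c j * w ^ j -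
          starRingEnd ℂ (E w) / ‖E w‖‖ ≤ ε := by
  have hmem : APX_F E hE hE0 ∈
      (Submodule.span ℂ (Set.range (fourier (T := (1 : ℝ))))).topologicalClosure := by
    rw [span_fourier_closure_eq_top]
    trivial
  have hmem2 : APX_F E hE hE0 ∈ closure
      (Submodule.span ℂ (Set.range (fourier (T := (1 : ℝ)))) : Set C(AddCircle (1 : ℝ), ℂ)) :=
    hmem
  obtain ⟨g, hg, hdist⟩ := Metric.mem_closure_iff.1 hmem2 ε hε
  obtain ⟨c, hc⟩ := Finsupp.mem_span_range_iff_exists_finsupp.1 hg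
  set N : ℕ := c.support.sup Int.natAbs with hN
  set e : ℕ ↪ ℤ := ⟨fun j => (j : ℤ) - N, fun i j h => by
    have : (i : ℤ) - N = (j : ℤ) - N := h
    omega⟩ with he
  set s : Finset ℤ := (Finset.range (2 * N + 1)).map e with hs
  have hsub : c.support ⊆ s := by
    intro i hi
    have h2 : i.natAbs ≤ N := Finset.le_sup (f := Int.natAbs) hi
    rw [hs, Finset.mem_map]
    refine ⟨(i + N).toNat, ?_, ?_⟩
    · rw [Finset.mem_range]
      omega
    · show (((i + N).toNat : ℕ) : ℤ) - N = i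
      omega
  have hg2 : g = ∑ i ∈ s, c i • fourier (T := (1 : ℝ)) i := by
    rw [← hc]
    exact Finsupp.sum_of_support_subset c hsub _ (fun i _ => zero_smul _ _)
  have hgnorm : ‖g‖ ≤ 1 + ε := by
    have h2 : ‖g‖ ≤ ‖APX_F E hE hE0‖ + ‖g - APX_F E hE hE0‖ := by
      have := norm_add_le (APX_F E hE hE0) (g - APX_F E hE hE0)
      rwa [add_sub_cancel] at this
    have h3 : ‖g - APX_F E hE hE0‖ < ε := by
      rw [← dist_eq_norm, dist_comm]
      exact hdist
    have h4 := APX_F_norm E hE hE0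
    linarith
  refine ⟨N, 2 * N + 1, fun j => c ((j : ℤ) - N), ?_, ?_⟩
  · -- Bessel
    set L := ContinuousMap.toLp (E := ℂ) 2 (AddCircle.haarAddCircle (T := (1 : ℝ))) ℂ with hL
    have h2 : L g = ∑ i ∈ s, c i • fourierLp 2 i := by
      rw [hg2, map_sum]
      refine Finset.sum_congr rfl fun i _ => ?_
      rw [map_smul]
    have h3 : ∑ i ∈ s, ‖c i‖ ^ 2 ≤ ‖L g‖ ^ 2 := by
      have h4 := (orthonormal_fourier (T := (1 : ℝ))).sum_inner_products_le (s := s) (L g)
      refine le_trans (le_of_eq ?_) h4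
      refine Finset.sum_congr rfl fun i hi => ?_
      rw [h2, (orthonormal_fourier (T := (1 : ℝ))).inner_right_sum _ hi]
    have h5 : ‖L g‖ ≤ ‖g‖ := by
      have h6 : ‖L‖ ≤ 1 := by
        have h7 := ContinuousMap.toLp_norm_le (E := ℂ) (p := 2)
          (μ := AddCircle.haarAddCircle (T := (1 : ℝ))) (𝕜 := ℂ)
        refine h7.trans (le_of_eq ?_)
        simp [measureUnivNNReal, measure_univ]
      calc ‖L g‖ ≤ ‖L‖ * ‖g‖ := L.le_opNorm g
        _ ≤ 1 * ‖g‖ := mul_le_mul_of_nonneg_right h6 (norm_nonneg _)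
        _ = ‖g‖ := one_mul _
    have h8 : ∑ j ∈ Finset.range (2 * N + 1), ‖c ((j : ℤ) - N)‖ ^ 2 = ∑ i ∈ s, ‖c i‖ ^ 2 := by
      rw [hs, Finset.sum_map]
      rfl
    rw [h8]
    refine h3.trans ?_
    exact pow_le_pow_left₀ (norm_nonneg _) (h5.trans hgnorm) 2
  · intro w hw
    have hw0 : w ≠ 0 := by
      intro h
      rw [h, norm_zero] at hw
      exact zero_ne_one hw
    set x : AddCircle (1 : ℝ) := ((Complex.arg w / (2 * Real.pi) : ℝ) : AddCircle (1 : ℝ)) with hx
    have hfour : ∀ n : ℤ, (fourier n x : ℂ) = w ^ n := by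
      intro n
      rw [hx, fourier_coe_apply]
      have h2 : w = cexp (Complex.arg w * I) := by
        have := Complex.norm_mul_exp_arg_mul_I w
        rw [hw, Complex.ofReal_one, one_mul] at this
        exact this.symm
      conv_rhs => rw [h2]
      rw [← Complex.exp_int_mul]
      congr 1
      have hpi : (Real.pi : ℂ) ≠ 0 := by exact_mod_cast Real.pi_ne_zero
      push_cast
      field_simp
    have hF : APX_F E hE hE0 x = starRingEnd ℂ (E w) / ‖E w‖ := by
      show starRingEnd ℂ (E (fourier 1 x)) / (‖E (fourier 1 x)‖ : ℂ) = _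
      rw [hfour 1, zpow_one]
    have hG : g x = starRingEnd ℂ w ^ N * ∑ j ∈ Finset.range (2 * N + 1), c ((j : ℤ) - N) * w ^ j := by
      have h2 : g x = ∑ i ∈ s, c i * w ^ i := by
        rw [hg2, ContinuousMap.sum_apply]
        refine Finset.sum_congr rfl fun i _ => ?_
        rw [ContinuousMap.smul_apply, hfour i, smul_eq_mul]
      have hconj : starRingEnd ℂ w = w⁻¹ := by
        rw [Complex.inv_def, Complex.normSq_eq_norm_sq, hw]
        simp
      rw [h2, hs, Finset.sum_map, Finset.mul_sum, hconj]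
      refine Finset.sum_congr rfl fun j _ => ?_
      show c ((j : ℤ) - N) * w ^ ((j : ℤ) - N) = w⁻¹ ^ N * (c ((j : ℤ) - N) * w ^ j)
      rw [zpow_sub₀ hw0, zpow_natCast, zpow_natCast, inv_pow, div_eq_mul_inv]
      ring
    rw [← hF, ← hG]
    have h3 : ‖(g - APX_F E hE hE0) x‖ ≤ ‖g - APX_F E hE hE0‖ := ContinuousMap.norm_coe_le_norm _ x
    have h4 : ‖g - APX_F E hE hE0‖ < ε := by
      rw [← dist_eq_norm, dist_comm]
      exact hdist
    rw [ContinuousMap.sub_apply] at h3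
    linarith

/-- The split of `n * p ^ j`. -/
theorem APX_fact {p n j : ℕ} (hp : p.Prime) (hn : 0 < n) (hpn : p ∉ n.primeFactors) :
    (n * p ^ j).factorization p = j ∧ n * p ^ j / p ^ (n * p ^ j).factorization p = n := by
  have h1 : ¬ p ∣ n := by
    intro h
    exact hpn (Nat.mem_primeFactors.2 ⟨hp, h, hn.ne'⟩)
  have h2 : (n * p ^ j).factorization p = j := by
    rw [Nat.factorization_mul hn.ne' (pow_ne_zero _ hp.ne_zero), Finsupp.add_apply,
      Nat.factorization_eq_zero_of_not_dvd h1, Nat.Prime.factorization_pow hp]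
    simp
  refine ⟨h2, ?_⟩
  rw [h2]
  exact Nat.mul_div_cancel _ (pow_pos hp.pos _)

/-- block APX -/
theorem approx_pr (S : Finset ℕ) (hS : ∀ p ∈ S, p.Prime) (E : ℕ → ℂ → ℂ)
    (hE : ∀ p ∈ S, Continuous (E p)) (hE0 : ∀ p ∈ S, ∀ w : ℂ, ‖w‖ = 1 → E p w ≠ 0)
    (ε : ℝ) (hε : 0 < ε) :
    ∃ (B : ℕ) (ι : Finset ℕ) (c : ℕ → ℂ), 0 < B ∧ B.primeFactors ⊆ S ∧
      (∀ n ∈ ι, 0 < n ∧ n.primeFactors ⊆ S) ∧ ∑ n ∈ ι, ‖c n‖ ^ 2 ≤ (1 + ε) ^ 2 ∧
      ∀ x : ℕ →* ℂ, (∀ p ∈ S, ‖x p‖ = 1) →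
        ‖starRingEnd ℂ (x B) * ∑ n ∈ ι, c n * x n -
          ∏ p ∈ S, (starRingEnd ℂ (E p (x p)) / ‖E p (x p)‖)‖ ≤ ε := by
  classical
  induction S using Finset.induction_on generalizing ε with
  | empty =>
    refine ⟨1, {1}, fun _ => 1, one_pos, by simp, by simp, ?_, ?_⟩
    · have : (1 : ℝ) ≤ (1 + ε) ^ 2 := by nlinarith
      simpa using this
    · intro x _
      simp [hε.le]
  | insert p S hpS ih =>
    set ε' : ℝ := min ε 1 / 4 with hε'
    have hm : 0 < min ε 1 := lt_min hε one_pos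
    have hε'0 : 0 < ε' := by positivity
    have hle1 : ε' ≤ 1 / 4 := by
      have := min_le_right ε 1
      simp only [hε']; linarith
    have hle2 : ε' ≤ ε / 4 := by
      have := min_le_left ε 1
      simp only [hε']; linarith
    obtain ⟨B', ι', c', hB'0, hB'S, hι', hc', hx'⟩ := ih
      (fun q hq => hS q (Finset.mem_insert_of_mem hq))
      (fun q hq => hE q (Finset.mem_insert_of_mem hq))
      (fun q hq => hE0 q (Finset.mem_insert_of_mem hq)) ε' hε'0
    have hp : p.Prime := hS p (Finset.mem_insert_self _ _)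
    obtain ⟨N, M, d, hd, hw⟩ := APX_approx₁ (E p) (hE p (Finset.mem_insert_self _ _))
      (hE0 p (Finset.mem_insert_self _ _)) ε' hε'0
    have hpι : ∀ n ∈ ι', p ∉ n.primeFactors := fun n hn hpn => hpS ((hι' n hn).2 hpn)
    have hfac : ∀ n ∈ ι', ∀ j, (n * p ^ j).factorization p = j ∧
        n * p ^ j / p ^ (n * p ^ j).factorization p = n :=
      fun n hn j => APX_fact hp (hι' n hn).1 (hpι n hn)
    set g : ℕ × ℕ → ℕ := fun z => z.1 * p ^ z.2 with hg
    have hinj : Set.InjOn g (ι' ×ˢ Finset.range M : Finset (ℕ × ℕ)) := by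
      rintro ⟨n, j⟩ hnj ⟨n', j'⟩ hnj' heq
      simp only [Finset.coe_product, Set.mem_prod, Finset.mem_coe] at hnj hnj'
      simp only [hg] at heq
      have h1 := hfac n hnj.1 j
      have h2 := hfac n' hnj'.1 j'
      rw [heq] at h1
      have h3 : j = j' := h1.1.symm.trans h2.1
      have h4 : n = n' := h1.2.symm.trans h2.2
      rw [h3, h4]
    set c : ℕ → ℂ := fun m => c' (m / p ^ m.factorization p) * d (m.factorization p) with hc
    have hcg : ∀ n ∈ ι', ∀ j, c (n * p ^ j) = c' n * d j := by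
      intro n hn j
      simp only [hc]
      rw [(hfac n hn j).2, (hfac n hn j).1]
    refine ⟨B' * p ^ N, (ι' ×ˢ Finset.range M).image g, c, ?_, ?_, ?_, ?_, ?_⟩
    · exact mul_pos hB'0 (pow_pos hp.pos _)
    · intro q hq
      rw [Nat.primeFactors_mul hB'0.ne' (pow_ne_zero _ hp.ne_zero), Finset.mem_union] at hq
      rcases hq with hq | hq
      · exact Finset.mem_insert_of_mem (hB'S hq)
      · have h1 := Nat.mem_primeFactors.1 hq
        have h2 : q = p := (Nat.prime_dvd_prime_iff_eq h1.1 hp).1 (h1.1.dvd_of_dvd_pow h1.2.1)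
        rw [h2]
        exact Finset.mem_insert_self _ _
    · intro m hm
      obtain ⟨⟨n, j⟩, hnj, rfl⟩ := Finset.mem_image.1 hm
      rw [Finset.mem_product] at hnj
      have hn := hι' n hnj.1
      refine ⟨mul_pos hn.1 (pow_pos hp.pos _), ?_⟩
      intro q hq
      simp only [hg] at hq
      rw [Nat.primeFactors_mul hn.1.ne' (pow_ne_zero _ hp.ne_zero), Finset.mem_union] at hq
      rcases hq with hq | hq
      · exact Finset.mem_insert_of_mem (hn.2 hq)
      · have h1 := Nat.mem_primeFactors.1 hq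
        have h2 : q = p := (Nat.prime_dvd_prime_iff_eq h1.1 hp).1 (h1.1.dvd_of_dvd_pow h1.2.1)
        rw [h2]
        exact Finset.mem_insert_self _ _
    · rw [Finset.sum_image hinj, Finset.sum_product]
      have h1 : ∑ n ∈ ι', ∑ j ∈ Finset.range M, ‖c (g (n, j))‖ ^ 2 =
          (∑ n ∈ ι', ‖c' n‖ ^ 2) * ∑ j ∈ Finset.range M, ‖d j‖ ^ 2 := by
        rw [Finset.sum_mul_sum]
        refine Finset.sum_congr rfl fun n hn => Finset.sum_congr rfl fun j _ => ?_
        simp only [hg]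
        rw [hcg n hn j, norm_mul, mul_pow]
      rw [h1]
      have h2 : (∑ n ∈ ι', ‖c' n‖ ^ 2) * ∑ j ∈ Finset.range M, ‖d j‖ ^ 2 ≤
          (1 + ε') ^ 2 * (1 + ε') ^ 2 :=
        mul_le_mul hc' hd (Finset.sum_nonneg fun _ _ => by positivity) (by positivity)
      refine h2.trans ?_
      have h3 : (1 + ε') ^ 2 ≤ 1 + ε := by nlinarith
      have h4 : 0 ≤ (1 + ε') ^ 2 := by positivity
      calc (1 + ε') ^ 2 * (1 + ε') ^ 2 ≤ (1 + ε) * (1 + ε) :=
            mul_le_mul h3 h3 h4 (by positivity)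
        _ = (1 + ε) ^ 2 := by ring
    · intro x hx
      have hxp : ‖x p‖ = 1 := hx p (Finset.mem_insert_self _ _)
      have hA := hx' x (fun q hq => hx q (Finset.mem_insert_of_mem hq))
      have hBb := hw (x p) hxp
      set A : ℂ := starRingEnd ℂ (x B') * ∑ n ∈ ι', c' n * x n with hAdef
      set A' : ℂ := ∏ q ∈ S, (starRingEnd ℂ (E q (x q)) / (‖E q (x q)‖ : ℂ)) with hA'def
      set D : ℂ := starRingEnd ℂ (x p) ^ N * ∑ j ∈ Finset.range M, d j * x p ^ j with hDdef
      set D' : ℂ := starRingEnd ℂ (E p (x p)) / (‖E p (x p)‖ : ℂ) with hD'def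
      have hprod : starRingEnd ℂ (x (B' * p ^ N)) *
          ∑ n ∈ (ι' ×ˢ Finset.range M).image g, c n * x n = A * D := by
        rw [Finset.sum_image hinj, Finset.sum_product]
        have h1 : ∑ n ∈ ι', ∑ j ∈ Finset.range M, c (g (n, j)) * x (g (n, j)) =
            (∑ n ∈ ι', c' n * x n) * ∑ j ∈ Finset.range M, d j * x p ^ j := by
          rw [Finset.sum_mul_sum]
          refine Finset.sum_congr rfl fun n hn => Finset.sum_congr rfl fun j _ => ?_
          simp only [hg]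
          rw [hcg n hn j, map_mul, map_pow]
          ring
        rw [h1, map_mul, map_pow, map_mul, map_pow, hAdef, hDdef]
        ring
      rw [hprod, Finset.prod_insert hpS]
      have hD'1 : ‖D'‖ ≤ 1 := APX_norm_le _
      have hA'1 : ‖A'‖ ≤ 1 := by
        rw [hA'def, norm_prod]
        exact Finset.prod_le_one (fun _ _ => norm_nonneg _) (fun q _ => APX_norm_le _)
      have hA1 : ‖A‖ ≤ 1 + ε' := by
        calc ‖A‖ = ‖A' + (A - A')‖ := by rw [add_sub_cancel]
          _ ≤ ‖A'‖ + ‖A - A'‖ := norm_add_le _ _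
          _ ≤ 1 + ε' := add_le_add hA'1 hA
      calc ‖A * D - D' * A'‖ = ‖A * (D - D') + (A - A') * D'‖ := by
            rw [show A * D - D' * A' = A * (D - D') + (A - A') * D' by ring]
        _ ≤ ‖A * (D - D')‖ + ‖(A - A') * D'‖ := norm_add_le _ _
        _ = ‖A‖ * ‖D - D'‖ + ‖A - A'‖ * ‖D'‖ := by
            rw [norm_mul A (D - D'), norm_mul (A - A') D']
        _ ≤ (1 + ε') * ε' + ε' * 1 := by
            refine add_le_add (mul_le_mul hA1 hBb (norm_nonneg _) (by positivity)) ?_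
            exact mul_le_mul hA hD'1 (norm_nonneg _) hε'0.le
        _ ≤ ε := by nlinarith

end Pool.Agent.GL2
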