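import Pool.Agent.Lib_helper68.GL2.BR2

/-! Block B3 (SHF): the average over the shifts `d + N c' j`. -/

namespace Pool.Agent.GL2

open Complex MeasureTheory Filter Topology

/-- the value of the inverse, reduced modulo a divisor -/
theorem b3_val_cast {n m : ℕ} [NeZero n] (hm : m ∣ n) (D : ℤ) (hD : IsCoprime D (n : ℤ)) :
    ((((D : ZMod n)⁻¹).val : ℕ) : ZMod m) = ((D : ZMod m))⁻¹ := by
  have hu : IsUnit (D : ZMod n) := (ZMod.coe_int_isUnit_iff_isCoprime D n).2 hD.symm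
  have hDm : IsCoprime D (m : ℤ) := hD.of_isCoprime_of_dvd_right (by exact_mod_cast hm)
  have hum : IsUnit (D : ZMod m) := (ZMod.coe_int_isUnit_iff_isCoprime D m).2 hDm.symm
  have h1 : (D : ZMod n)⁻¹ * (D : ZMod n) = 1 := ZMod.inv_mul_of_unit _ hu
  have h2 : (((((D : ZMod n)⁻¹).val : ℕ) : ℤ) * D : ZMod n) = 1 := by
    push_cast
    rw [ZMod.natCast_zmod_val]
    exact h1
  have h3 : (n : ℤ) ∣ ((((D : ZMod n)⁻¹).val : ℕ) : ℤ) * D - 1 := by
    rw [← ZMod.intCast_zmod_eq_zero_iff_dvd]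
    push_cast
    push_cast at h2
    rw [h2, sub_self]
  have h4 : (m : ℤ) ∣ ((((D : ZMod n)⁻¹).val : ℕ) : ℤ) * D - 1 :=
    (Int.natCast_dvd_natCast.2 hm).trans h3
  rw [← ZMod.intCast_zmod_eq_zero_iff_dvd] at h4
  push_cast at h4
  have h5 : ((((D : ZMod n)⁻¹).val : ℕ) : ZMod m) * (D : ZMod m) = 1 := by
    linear_combination h4
  calc ((((D : ZMod n)⁻¹).val : ℕ) : ZMod m)
      = ((((D : ZMod n)⁻¹).val : ℕ) : ZMod m) * ((D : ZMod m) * (D : ZMod m)⁻¹) := by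
        rw [ZMod.mul_inv_of_unit _ hum, mul_one]
    _ = (D : ZMod m)⁻¹ := by rw [← mul_assoc, h5, one_mul]

/-- splitting of `ec` by the Chinese remainder theorem -/
theorem b3_ec {p c' : ℕ} [NeZero p] [NeZero c'] (l : ℕ) {r s : ℤ}
    (hrs : r * c' + s * p = 1) (D : ℤ) (hD : IsCoprime D ((p * c' : ℕ) : ℤ)) :
    ec l (p * c') D = (ZMod.stdAddChar (N := p) (-(l : ZMod p) * (r : ZMod p) * (D : ZMod p)⁻¹) : ℂ) *
      (ZMod.stdAddChar (N := c') (-(l : ZMod c') * (s : ZMod c') * (D : ZMod c')⁻¹) : ℂ) := by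
  have hpc : NeZero (p * c') := inferInstance
  rw [← b3_val_cast (dvd_mul_right p c') D hD, ← b3_val_cast (dvd_mul_left c' p) D hD]
  unfold ec
  set V : ℕ := ((D : ZMod (p * c'))⁻¹).val with hV
  have e1 : (-(l : ZMod p) * (r : ZMod p) * ((V : ℕ) : ZMod p)) = ((-(l : ℤ) * r * V : ℤ) : ZMod p) := by
    push_cast; ring
  have e2 : (-(l : ZMod c') * (s : ZMod c') * ((V : ℕ) : ZMod c')) =
      ((-(l : ℤ) * s * V : ℤ) : ZMod c') := by
    push_cast; ring
  rw [e1, e2, ZMod.stdAddChar_coe, ZMod.stdAddChar_coe, ← Complex.exp_add]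
  congr 1
  have hp0 : (p : ℂ) ≠ 0 := by exact_mod_cast NeZero.ne p
  have hc0 : (c' : ℂ) ≠ 0 := by exact_mod_cast NeZero.ne c'
  have hrs' : (r : ℂ) * c' + s * p = 1 := by exact_mod_cast hrs
  push_cast
  have : (1 : ℂ) / (p * c') = r / p + s / c' := by
    field_simp
    linear_combination -hrs'
  calc -(2 * Real.pi * I) * l * V / (p * c') = -(2 * Real.pi * I) * l * V * (1 / (p * c')) := by ring
    _ = -(2 * Real.pi * I) * l * V * (r / p + s / c') := by rw [this]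
    _ = _ := by ring

/-- block B3 (SHF): the average over the shifts `d + N c' j` -/
theorem shift_sum_pr {p c' N l : ℕ} (hp : p.Prime) (hc' : 0 < c') (hpc : p.Coprime c')
    (hpl : ¬ p ∣ l) (hpN : ¬ p ∣ N) (d : ℤ) (hd : IsCoprime d (c' : ℤ)) (J : ℕ) (hJ : J ≤ p) :
    ‖∑ j ∈ (Finset.range J).filter (fun j : ℕ => IsCoprime (d + (N * c' * j : ℕ)) ((p * c' : ℕ) : ℤ)),
      ec l (p * c') (d + (N * c' * j : ℕ))‖ ≤ 2 * (p : ℝ) ^ (3 / 4 : ℝ) * (3 + Real.log p) := by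
  have : Fact p.Prime := ⟨hp⟩
  have : NeZero p := ⟨hp.ne_zero⟩
  have : NeZero c' := ⟨hc'.ne'⟩
  obtain ⟨r, s, hrs⟩ : ∃ r s : ℤ, r * c' + s * p = 1 := by
    obtain ⟨a, b, hab⟩ := (Nat.isCoprime_iff_coprime.2 hpc)
    exact ⟨b, a, by linear_combination hab⟩
  have hNp : (N : ZMod p) ≠ 0 := by
    rwa [Ne, ZMod.natCast_eq_zero_iff]
  have hlp : (l : ZMod p) ≠ 0 := by
    rwa [Ne, ZMod.natCast_eq_zero_iff]
  have hcp : (c' : ZMod p) ≠ 0 := by
    rw [Ne, ZMod.natCast_eq_zero_iff]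
    exact (Nat.Prime.coprime_iff_not_dvd hp).1 hpc
  have hrp : (r : ZMod p) ≠ 0 := by
    intro h
    have := congrArg (Int.cast : ℤ → ZMod p) hrs
    push_cast at this
    rw [h] at this
    simp at this
  set κ : ZMod p := (N : ZMod p) * (c' : ZMod p) with hκ
  have hκ0 : κ ≠ 0 := mul_ne_zero hNp hcp
  set b : ZMod p := (d : ZMod p) * κ⁻¹ with hb
  set α : ZMod p := -(l : ZMod p) * (r : ZMod p) * κ⁻¹ with hα
  have hα0 : α ≠ 0 := mul_ne_zero (mul_ne_zero (neg_ne_zero.2 hlp) hrp) (inv_ne_zero hκ0)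
  have hDp : ∀ j : ℕ, ((d + (N * c' * j : ℕ) : ℤ) : ZMod p) = κ * (b + (j : ZMod p)) := by
    intro j
    push_cast
    rw [hb, mul_add, mul_comm κ ((d : ZMod p) * κ⁻¹), inv_mul_cancel_right₀ hκ0, hκ]
  have hDc : ∀ j : ℕ, ((d + (N * c' * j : ℕ) : ℤ) : ZMod c') = (d : ZMod c') := by
    intro j
    push_cast
    simp
  have hcop : ∀ j : ℕ, IsCoprime (d + (N * c' * j : ℕ)) ((p * c' : ℕ) : ℤ) ↔ b + (j : ZMod p) ≠ 0 := by
    intro j
    have h1 : IsCoprime (d + (N * c' * j : ℕ)) (c' : ℤ) := by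
      obtain ⟨u, v, huv⟩ := hd
      refine ⟨u, v - u * N * j, ?_⟩
      push_cast
      linear_combination huv
    have h2 : IsCoprime (d + (N * c' * j : ℕ)) (p : ℤ) ↔ b + (j : ZMod p) ≠ 0 := by
      rw [isCoprime_comm, ← ZMod.coe_int_isUnit_iff_isCoprime, isUnit_iff_ne_zero, hDp]
      simp [hκ0]
    rw [← h2]
    push_cast
    constructor
    · intro h
      exact h.of_mul_right_left
    · intro h
      refine IsCoprime.mul_right h ?_
      push_cast at h1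
      exact h1
  have hfil : (Finset.range J).filter
      (fun j : ℕ => IsCoprime (d + (N * c' * j : ℕ)) ((p * c' : ℕ) : ℤ)) =
      (Finset.range J).filter (fun j : ℕ => b + (j : ZMod p) ≠ 0) := by
    apply Finset.filter_congr
    intro j _
    exact hcop j
  have hterm : ∀ j ∈ (Finset.range J).filter (fun j : ℕ => b + (j : ZMod p) ≠ 0),
      ec l (p * c') (d + (N * c' * j : ℕ)) =
        (ZMod.stdAddChar (N := p) (α * (b + (j : ZMod p))⁻¹) : ℂ) *
          (ZMod.stdAddChar (N := c') (-(l : ZMod c') * (s : ZMod c') * (d : ZMod c')⁻¹) : ℂ) := by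
    intro j hj
    rw [Finset.mem_filter] at hj
    have hα2 : -(l : ZMod p) * (r : ZMod p) * (κ * (b + (j : ZMod p)))⁻¹ =
        α * (b + (j : ZMod p))⁻¹ := by
      rw [hα, mul_inv]; ring
    rw [b3_ec l hrs _ ((hcop j).2 hj.2), hDp, hDc, hα2]
  rw [hfil, Finset.sum_congr rfl hterm, ← Finset.sum_mul, norm_mul]
  have hn : ‖(ZMod.stdAddChar (N := c') (-(l : ZMod c') * (s : ZMod c') * (d : ZMod c')⁻¹) : ℂ)‖ = 1 := by
    rw [ZMod.stdAddChar_apply]
    exact Circle.norm_coe _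
  rw [hn, mul_one]
  exact incomplete α b hα0 J hJ

end Pool.Agent.GL2
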