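import Pool.Agent.Lib_helper68.GL2.DefsB

/-! Block B4 (GDC): most `c` of size `√l` have a large prime factor `p ∥ c` with `p ∤ l N`. -/

namespace Pool.Agent.GL2

open Complex MeasureTheory Filter Topology

/-- the number of multiples of `m` in `[1, X]` is at most `X / m` -/
theorem b4_mult (X m : ℕ) :
    (((Finset.Icc 1 X).filter (fun c : ℕ => m ∣ c)).card : ℝ) ≤ (X : ℝ) / m := by
  have h : (Finset.Icc 1 X).filter (fun c : ℕ => m ∣ c) =
      (Finset.Ioc 0 X).filter (fun c : ℕ => m ∣ c) := by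
    ext c
    simp only [Finset.mem_filter, Finset.mem_Icc, Finset.mem_Ioc]
    constructor
    · rintro ⟨⟨h1, h2⟩, h3⟩
      exact ⟨⟨by omega, h2⟩, h3⟩
    · rintro ⟨⟨h1, h2⟩, h3⟩
      exact ⟨⟨by omega, h2⟩, h3⟩
  rw [h, Nat.Ioc_filter_dvd_card_eq_div]
  exact Nat.cast_div_le

open Classical in
theorem b4_count (N : ℕ) (hN : 0 < N) (P₁ : ℕ) (l X z : ℕ) (hl : 0 < l) (hz : 0 < z)
    (hP : P₁ ≤ z) :
    (((Finset.Icc 1 X).filter (fun c : ℕ => ¬ ∃ p : ℕ, p.Prime ∧ P₁ ≤ p ∧ p ∣ c ∧ ¬ p ^ 2 ∣ c ∧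
        ¬ p ∣ l ∧ ¬ p ∣ N)).card : ℝ) ≤
      2 ^ (z + 1) * √X + X / z +
        (X : ℝ) * (((l * N).primeFactors.filter (fun p => z < p)).card) / z := by
  set S := (Finset.Icc 1 X).filter (fun c : ℕ => ¬ ∃ p : ℕ, p.Prime ∧ P₁ ≤ p ∧ p ∣ c ∧
    ¬ p ^ 2 ∣ c ∧ ¬ p ∣ l ∧ ¬ p ∣ N) with hS
  set A := Nat.smoothNumbersUpTo X (z + 1) with hA
  set Q := (Finset.Ioc z (max z X)).biUnion
    (fun n => (Finset.Icc 1 X).filter (fun c : ℕ => n ^ 2 ∣ c)) with hQ
  set R := ((l * N).primeFactors.filter (fun p => z < p)).biUnion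
    (fun p => (Finset.Icc 1 X).filter (fun c : ℕ => p ∣ c)) with hR
  have hsub : S ⊆ A ∪ (Q ∪ R) := by
    intro c hc
    rw [hS, Finset.mem_filter, Finset.mem_Icc] at hc
    obtain ⟨⟨h1, h2⟩, h3⟩ := hc
    by_cases hsm : ∀ p : ℕ, p.Prime → p ∣ c → p < z + 1
    · apply Finset.mem_union_left
      rw [hA, Nat.mem_smoothNumbersUpTo]
      exact ⟨h2, Nat.mem_smoothNumbers'.2 hsm⟩
    · push Not at hsm
      obtain ⟨p, hp, hpc, hpz⟩ := hsm
      apply Finset.mem_union_right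
      have hpX : p ≤ X := (Nat.le_of_dvd (by omega) hpc).trans h2
      by_cases hp2 : p ^ 2 ∣ c
      · apply Finset.mem_union_left
        rw [hQ, Finset.mem_biUnion]
        refine ⟨p, Finset.mem_Ioc.2 ⟨by omega, by omega⟩, ?_⟩
        rw [Finset.mem_filter, Finset.mem_Icc]
        exact ⟨⟨h1, h2⟩, hp2⟩
      · apply Finset.mem_union_right
        rw [hR, Finset.mem_biUnion]
        refine ⟨p, ?_, ?_⟩
        · rw [Finset.mem_filter, Nat.mem_primeFactors]
          refine ⟨⟨hp, ?_, by positivity⟩, by omega⟩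
          by_contra hlN
          apply h3
          refine ⟨p, hp, by omega, hpc, hp2, fun h => hlN (dvd_mul_of_dvd_left h _),
            fun h => hlN (dvd_mul_of_dvd_right h _)⟩
        · rw [Finset.mem_filter, Finset.mem_Icc]
          exact ⟨⟨h1, h2⟩, hpc⟩
  have hcard : (S.card : ℝ) ≤ A.card + (Q.card + R.card) := by
    have := (Finset.card_le_card hsub).trans ((Finset.card_union_le _ _).trans
      (Nat.add_le_add_left (Finset.card_union_le _ _) _))
    exact_mod_cast this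
  have hAc : (A.card : ℝ) ≤ 2 ^ (z + 1) * √X := by
    have h1 := Nat.smoothNumbersUpTo_card_le X (z + 1)
    have h2 : (Nat.primesBelow (z + 1)).card ≤ z + 1 := by
      have : Nat.primesBelow (z + 1) ⊆ Finset.range (z + 1) := Finset.filter_subset _ _
      simpa using Finset.card_le_card this
    have h3 : A.card ≤ 2 ^ (z + 1) * Nat.sqrt X :=
      h1.trans (Nat.mul_le_mul_right _ (Nat.pow_le_pow_right (by norm_num) h2))
    calc (A.card : ℝ) ≤ ((2 ^ (z + 1) * Nat.sqrt X : ℕ) : ℝ) := by exact_mod_cast h3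
      _ = 2 ^ (z + 1) * (Nat.sqrt X : ℝ) := by push_cast; ring
      _ ≤ 2 ^ (z + 1) * √X := by
          gcongr
          exact Real.nat_sqrt_le_real_sqrt
  have hQc : (Q.card : ℝ) ≤ X / z := by
    have h1 : (Q.card : ℝ) ≤ ∑ n ∈ Finset.Ioc z (max z X), (X : ℝ) * ((n : ℝ) ^ 2)⁻¹ := by
      have : (Q.card : ℝ) ≤ ((∑ n ∈ Finset.Ioc z (max z X),
          ((Finset.Icc 1 X).filter (fun c : ℕ => n ^ 2 ∣ c)).card : ℕ) : ℝ) := by
        exact_mod_cast Finset.card_biUnion_le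
      refine this.trans ?_
      push_cast
      apply Finset.sum_le_sum
      intro n _
      have := b4_mult X (n ^ 2)
      rw [div_eq_mul_inv] at this
      exact_mod_cast this
    rw [← Finset.mul_sum] at h1
    have h2 : ∑ n ∈ Finset.Ioc z (max z X), ((n : ℝ) ^ 2)⁻¹ ≤ (z : ℝ)⁻¹ - ((max z X : ℕ) : ℝ)⁻¹ :=
      sum_Ioc_inv_sq_le_sub (by omega) (le_max_left _ _)
    have h3 : ∑ n ∈ Finset.Ioc z (max z X), ((n : ℝ) ^ 2)⁻¹ ≤ (z : ℝ)⁻¹ := by
      have : (0 : ℝ) ≤ ((max z X : ℕ) : ℝ)⁻¹ := by positivity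
      linarith
    rw [div_eq_mul_inv]
    exact h1.trans (mul_le_mul_of_nonneg_left h3 (by positivity))
  have hRc : (R.card : ℝ) ≤
      (X : ℝ) * (((l * N).primeFactors.filter (fun p => z < p)).card) / z := by
    have h1 : (R.card : ℝ) ≤ ∑ p ∈ (l * N).primeFactors.filter (fun p => z < p),
        (X : ℝ) / z := by
      have : (R.card : ℝ) ≤ ((∑ p ∈ (l * N).primeFactors.filter (fun p => z < p),
          ((Finset.Icc 1 X).filter (fun c : ℕ => p ∣ c)).card : ℕ) : ℝ) := by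
        exact_mod_cast Finset.card_biUnion_le
      refine this.trans ?_
      push_cast
      apply Finset.sum_le_sum
      intro p hp
      rw [Finset.mem_filter] at hp
      refine (b4_mult X p).trans ?_
      have hz' : (0 : ℝ) < z := by exact_mod_cast hz
      have hzp : (z : ℝ) ≤ p := by exact_mod_cast hp.2.le
      gcongr
    rw [Finset.sum_const, nsmul_eq_mul] at h1
    refine h1.trans (le_of_eq (by ring))
  linarith

/-- the number of prime factors of `M` larger than `z` is at most `log M / log z` -/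
theorem b4_omega (M z : ℕ) (hM : 0 < M) (hz : 2 ≤ z) :
    ((M.primeFactors.filter (fun p => z < p)).card : ℝ) * Real.log z ≤ Real.log M := by
  set T := M.primeFactors.filter (fun p => z < p) with hT
  have h1 : z ^ T.card ≤ ∏ p ∈ T, p := by
    apply Finset.pow_card_le_prod
    intro p hp
    rw [hT, Finset.mem_filter] at hp
    exact hp.2.le
  have h2 : ∏ p ∈ T, p ∣ M :=
    (Finset.prod_dvd_prod_of_subset _ _ _ (Finset.filter_subset _ _)).trans
      (Nat.prod_primeFactors_dvd M)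
  have h3 : z ^ T.card ≤ M := h1.trans (Nat.le_of_dvd hM h2)
  have h4 : Real.log ((z : ℝ) ^ T.card) ≤ Real.log M := by
    apply Real.log_le_log
    · positivity
    · exact_mod_cast h3
  rwa [Real.log_pow] at h4

open Classical in
/-- block B4 (GDC): most `c` of size `√l` have a large prime factor `p ∥ c` with `p ∤ l N` -/
theorem good_density_pr (N : ℕ) (hN : 0 < N) (P₁ : ℕ) (ε : ℝ) (hε : 0 < ε) :
    ∃ L₀ : ℕ, ∀ l : ℕ, L₀ ≤ l → ∀ X : ℕ, (X : ℝ) ≤ √l / ε →
      (((Finset.Icc 1 X).filter (fun c : ℕ => ¬ ∃ p : ℕ, p.Prime ∧ P₁ ≤ p ∧ p ∣ c ∧ ¬ p ^ 2 ∣ c ∧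
        ¬ p ∣ l ∧ ¬ p ∣ N)).card : ℝ) ≤ ε * √l := by
  have e1 : ∀ᶠ z : ℕ in atTop, 6 / (ε * √ε) ≤ (2 : ℝ) ^ z :=
    (tendsto_pow_atTop_atTop_of_one_lt (by norm_num : (1 : ℝ) < 2)).eventually_ge_atTop _
  have e2 : ∀ᶠ z : ℕ in atTop, 3 / ε ^ 2 ≤ (z : ℝ) :=
    tendsto_natCast_atTop_atTop.eventually_ge_atTop _
  have e3 : ∀ᶠ z : ℕ in atTop, (16 + Real.log N) * (3 / ε ^ 2) ≤ Real.log (z : ℝ) :=
    (Real.tendsto_log_atTop.comp tendsto_natCast_atTop_atTop).eventually_ge_atTop _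
  obtain ⟨z₀, hz₀⟩ := (((e1.and e2).and e3).and ((eventually_ge_atTop P₁).and
    (eventually_ge_atTop 2))).exists_forall_of_atTop
  refine ⟨2 ^ (8 * z₀), fun l hl X hX => ?_⟩
  have hl0 : 0 < l := lt_of_lt_of_le (by positivity) hl
  set z := Nat.log 2 l / 8 with hz
  have hlog : 8 * z₀ ≤ Nat.log 2 l := Nat.le_log_of_pow_le (by norm_num) hl
  obtain ⟨⟨⟨h1, h2⟩, h3⟩, h4, h5⟩ := hz₀ z (by omega)
  have hlow : 2 ^ (8 * z) ≤ l :=
    (Nat.pow_le_pow_right (by norm_num) (by omega)).trans (Nat.pow_log_le_self 2 hl0.ne')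
  have hup : l < 2 ^ (8 * z + 8) :=
    (Nat.lt_pow_succ_log_self (by norm_num) l).trans_le
      (Nat.pow_le_pow_right (by norm_num) (by omega))
  refine (b4_count N hN P₁ l X z hl0 (by omega) h4).trans ?_
  set s := √(l : ℝ) with hs
  have hsp : 0 < s := Real.sqrt_pos.2 (by exact_mod_cast hl0)
  have hzr : (2 : ℝ) ≤ z := by exact_mod_cast h5
  -- part A
  have hA : 2 ^ (z + 1) * √(X : ℝ) ≤ ε / 3 * s := by
    have a1 : √(X : ℝ) ≤ √s / √ε := by
      rw [← Real.sqrt_div' _ hε.le]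
      exact Real.sqrt_le_sqrt hX
    have a2 : (2 : ℝ) ^ (2 * z) ≤ √s := by
      apply Real.le_sqrt_of_sq_le
      rw [hs]
      apply Real.le_sqrt_of_sq_le
      have : ((2 : ℝ) ^ (8 * z)) ≤ l := by exact_mod_cast hlow
      calc (((2 : ℝ) ^ (2 * z)) ^ 2) ^ 2 = (2 : ℝ) ^ (8 * z) := by
            rw [← pow_mul, ← pow_mul]; congr 1; ring
        _ ≤ l := this
    have a3 : 6 ≤ (2 : ℝ) ^ z * (ε * √ε) := by
      rwa [div_le_iff₀ (by positivity)] at h1
    have a4 : (√s) ^ 2 = s := Real.sq_sqrt hsp.le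
    have a5 : 0 < √s := Real.sqrt_pos.2 hsp
    have a6 : 0 < √ε := Real.sqrt_pos.2 hε
    calc (2 : ℝ) ^ (z + 1) * √(X : ℝ) ≤ 2 ^ (z + 1) * (√s / √ε) := by gcongr
      _ = (6 * 2 ^ z) * (√s / (3 * √ε)) := by
          rw [pow_succ]; field_simp; ring
      _ ≤ ((2 : ℝ) ^ z * (ε * √ε) * 2 ^ z) * (√s / (3 * √ε)) := by gcongr
      _ = (2 : ℝ) ^ (2 * z) * (ε / 3 * √s) := by
          rw [two_mul, pow_add]; field_simp
      _ ≤ √s * (ε / 3 * √s) := by gcongr
      _ = ε / 3 * (√s) ^ 2 := by ring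
      _ = ε / 3 * s := by rw [a4]
  -- part B
  have hB : (X : ℝ) / z ≤ ε / 3 * s := by
    rw [div_le_iff₀ (by positivity)]
    rw [div_le_iff₀ (by positivity)] at h2
    calc (X : ℝ) ≤ s / ε := hX
      _ = (3 * s) / (3 * ε) := by field_simp
      _ ≤ ((z : ℝ) * ε ^ 2 * s) / (3 * ε) := by gcongr
      _ = ε / 3 * s * z := by field_simp
  -- part C
  have hC : (X : ℝ) * (((l * N).primeFactors.filter (fun p => z < p)).card) / z ≤
      ε / 3 * s := by
    set w : ℝ := (((l * N).primeFactors.filter (fun p => z < p)).card : ℝ) with hw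
    have c0 : w * Real.log z ≤ Real.log ((l * N : ℕ) : ℝ) :=
      b4_omega (l * N) z (Nat.mul_pos hl0 hN) h5
    have hlz : 0 < Real.log z := Real.log_pos (by linarith)
    have hN1 : (1 : ℝ) ≤ N := by exact_mod_cast hN
    have hlN : 0 ≤ Real.log N := Real.log_nonneg hN1
    have c1 : Real.log ((l * N : ℕ) : ℝ) ≤ z * (16 + Real.log N) := by
      push_cast
      rw [Real.log_mul (by positivity) (by positivity)]
      have c2 : Real.log l ≤ (8 * z + 8) * 1 := by
        have : (l : ℝ) ≤ 2 ^ (8 * z + 8) := by exact_mod_cast hup.le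
        calc Real.log l ≤ Real.log ((2 : ℝ) ^ (8 * z + 8)) :=
              Real.log_le_log (by exact_mod_cast hl0) this
          _ = (8 * z + 8) * Real.log 2 := by rw [Real.log_pow]; push_cast; ring
          _ ≤ (8 * z + 8) * 1 := by
              gcongr
              linarith [Real.log_two_lt_d9]
      nlinarith
    have c3 : (16 + Real.log N) ≤ Real.log z * (ε ^ 2 / 3) := by
      rw [mul_div_assoc', div_le_iff₀ (by positivity)] at h3
      linarith
    have c4 : w ≤ z * (ε ^ 2 / 3) := by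
      have : w * Real.log z ≤ z * (ε ^ 2 / 3) * Real.log z := by
        calc w * Real.log z ≤ z * (16 + Real.log N) := c0.trans c1
          _ ≤ z * (Real.log z * (ε ^ 2 / 3)) := by gcongr
          _ = z * (ε ^ 2 / 3) * Real.log z := by ring
      exact le_of_mul_le_mul_right this hlz
    have hw0 : 0 ≤ w := by rw [hw]; positivity
    calc (X : ℝ) * w / z ≤ (s / ε) * (z * (ε ^ 2 / 3)) / z := by gcongr
      _ = ε / 3 * s := by field_simp
  linarith

end Pool.Agent.GL2
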