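import Pool.Agent.Lib_helper68.GL2.BR3

/-!
# Block B5 (ROW)
-/

namespace Pool.Agent.GL2

open Complex MeasureTheory Filter Topology

theorem b5_nsq (z : ℂ) (c d : ℤ) :
    ‖(c : ℂ) * z + d‖ ^ 2 = (c * z.re + d) ^ 2 + (c * z.im) ^ 2 := by
  rw [← Complex.normSq_eq_norm_sq, Complex.normSq_apply]
  simp
  ring

theorem b5_ann_le {z : ℂ} {κ₁ κ₂ : ℝ} (h1 : 0 < κ₁) {l : ℕ} (hl : 1 ≤ l)
    {c d : ℤ} (h : Ann z κ₁ κ₂ l c d) :
    (c * z.re + d) ^ 2 + (c * z.im) ^ 2 ≤ l * z.im / κ₁ := by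
  have hl0 : (0 : ℝ) < l := by exact_mod_cast hl
  have h2 := h.1
  rw [b5_nsq] at h2
  set n : ℝ := (c * z.re + d) ^ 2 + (c * z.im) ^ 2 with hn
  have hn0 : 0 ≤ n := by positivity
  have hk : 0 < κ₁ / l := by positivity
  have hnpos : 0 < n := by
    rcases hn0.eq_or_lt with h0 | h0
    · rw [← h0, div_zero] at h2
      linarith
    · exact h0
  rw [div_le_div_iff₀ hl0 hnpos] at h2
  rw [le_div_iff₀ h1]
  linarith

theorem b5_ann_iff {z : ℂ} (hz : 0 < z.im) {κ₁ κ₂ : ℝ} (h1 : 0 < κ₁) (h2 : 0 < κ₂) {l : ℕ}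
    (hl : 1 ≤ l) {c d : ℤ} : Ann z κ₁ κ₂ l c d ↔
    (c * z.re + d) ^ 2 + (c * z.im) ^ 2 ≤ l * z.im / κ₁ ∧
      l * z.im / κ₂ < (c * z.re + d) ^ 2 + (c * z.im) ^ 2 := by
  have hl0 : (0 : ℝ) < l := by exact_mod_cast hl
  constructor
  · intro h
    refine ⟨b5_ann_le h1 hl h, ?_⟩
    have h3 := h.2
    have h4 := h.1
    rw [b5_nsq] at h3 h4
    set n : ℝ := (c * z.re + d) ^ 2 + (c * z.im) ^ 2 with hn
    have hn0 : 0 ≤ n := by positivity
    have hk : 0 < κ₁ / l := by positivity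
    have hnpos : 0 < n := by
      rcases hn0.eq_or_lt with h0 | h0
      · rw [← h0, div_zero] at h4
        linarith
      · exact h0
    rw [div_lt_div_iff₀ hnpos hl0] at h3
    rw [div_lt_iff₀ h2]
    linarith
  · rintro ⟨h3, h4⟩
    unfold Ann
    rw [b5_nsq]
    set n : ℝ := (c * z.re + d) ^ 2 + (c * z.im) ^ 2 with hn
    have hnpos : 0 < n := lt_of_le_of_lt (by positivity) h4
    rw [le_div_iff₀ h1] at h3
    rw [div_lt_iff₀ h2] at h4
    constructor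
    · rw [div_le_div_iff₀ hl0 hnpos]
      linarith
    · rw [div_lt_div_iff₀ hnpos hl0]
      linarith

/-- the integers with `(cx+d)² + m² ≤ R` form an interval -/
theorem b5_interval (x m R : ℝ) : ∃ a b : ℤ, ∀ d : ℤ, (x + d) ^ 2 + m ^ 2 ≤ R ↔ d ∈ Finset.Icc a b := by
  rcases lt_or_ge (R - m ^ 2) 0 with h | h
  · refine ⟨1, 0, fun d => ?_⟩
    rw [Finset.mem_Icc]
    constructor
    · intro h2
      nlinarith [sq_nonneg (x + d)]
    · rintro ⟨h2, h3⟩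
      omega
  · refine ⟨⌈-√(R - m ^ 2) - x⌉, ⌊√(R - m ^ 2) - x⌋, fun d => ?_⟩
    rw [Finset.mem_Icc, Int.ceil_le, Int.le_floor]
    have h2 := Real.sq_sqrt h
    have h3 := Real.sqrt_nonneg (R - m ^ 2)
    constructor
    · intro h4
      have h5 : |x + d| ≤ √(R - m ^ 2) := Real.abs_le_sqrt (by linarith)
      rw [abs_le] at h5
      constructor <;> linarith [h5.1, h5.2]
    · rintro ⟨h4, h5⟩
      have h6 : |x + d| ≤ √(R - m ^ 2) := by
        rw [abs_le]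
        constructor <;> linarith
      have h7 : |x + d| ^ 2 ≤ √(R - m ^ 2) ^ 2 := by
        apply pow_le_pow_left₀ (abs_nonneg _) h6
      rw [sq_abs, h2] at h7
      linarith

/-- number of integers in a ball of radius `ρ` -/
theorem b5_card (x ρ : ℝ) (hρ : 0 ≤ ρ) (D : Finset ℤ) (hD : ∀ d ∈ D, (x + d) ^ 2 ≤ ρ ^ 2) :
    (D.card : ℝ) ≤ 2 * ρ + 1 := by
  have hsub : D ⊆ Finset.Icc ⌈-ρ - x⌉ ⌊ρ - x⌋ := by
    intro d hd
    rw [Finset.mem_Icc, Int.ceil_le, Int.le_floor]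
    have h5 : |x + d| ≤ ρ := abs_le_of_sq_le_sq (hD d hd) hρ
    rw [abs_le] at h5
    constructor <;> linarith [h5.1, h5.2]
  have h1 := Finset.card_le_card hsub
  rw [Int.card_Icc] at h1
  have h2 : (D.card : ℝ) ≤ ((⌊ρ - x⌋ + 1 - ⌈-ρ - x⌉).toNat : ℝ) := by exact_mod_cast h1
  refine h2.trans ?_
  have h3 : (((⌊ρ - x⌋ + 1 - ⌈-ρ - x⌉).toNat : ℤ) : ℝ) ≤ 2 * ρ + 1 := by
    rw [Int.toNat_eq_max]
    push_cast
    apply max_le
    · have := Int.floor_le (ρ - x)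
      have := Int.le_ceil (-ρ - x)
      linarith
    · linarith
  exact_mod_cast h3

theorem row_card_pr {z : ℂ} (hz : 0 < z.im) {κ₁ κ₂ : ℝ} (h1 : 0 < κ₁) :
    ∃ C : ℝ, ∀ l : ℕ, 1 ≤ l → ∀ c : ℤ, ∀ D : Finset ℤ,
      (∀ d ∈ D, Ann z κ₁ κ₂ l c d) → (D.card : ℝ) ≤ C * √l ∧ (D.Nonempty → |(c : ℝ)| ≤ C * √l) := by
  refine ⟨2 * √(z.im / κ₁) + 1 + √(1 / (κ₁ * z.im)), fun l hl c D hD => ?_⟩
  have hl0 : (1 : ℝ) ≤ l := by exact_mod_cast hl
  have hsl : 1 ≤ √(l : ℝ) := by rw [Real.one_le_sqrt]; exact hl0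
  have hn1 := Real.sqrt_nonneg (z.im / κ₁)
  have hn2 := Real.sqrt_nonneg (1 / (κ₁ * z.im))
  constructor
  · have h3 := b5_card (c * z.re) (√(z.im / κ₁) * √l) (by positivity) D (by
      intro d hd
      have h4 := b5_ann_le h1 hl (hD d hd)
      rw [mul_pow, Real.sq_sqrt (by positivity), Real.sq_sqrt (by positivity)]
      have h5 : z.im / κ₁ * l = l * z.im / κ₁ := by ring
      rw [h5]
      nlinarith [sq_nonneg ((c : ℝ) * z.im)])
    nlinarith
  · rintro ⟨d, hd⟩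
    have h4 := b5_ann_le h1 hl (hD d hd)
    have h5 : (c : ℝ) ^ 2 ≤ (1 / (κ₁ * z.im)) * l := by
      have h6 : ((c : ℝ) * z.im) ^ 2 ≤ l * z.im / κ₁ := by nlinarith [sq_nonneg ((c : ℝ) * z.re + d)]
      have h7 : (c : ℝ) ^ 2 = ((c : ℝ) * z.im) ^ 2 / z.im ^ 2 := by field_simp
      rw [h7, div_le_iff₀ (by positivity)]
      refine h6.trans (le_of_eq ?_)
      field_simp
    have h6 : |(c : ℝ)| ≤ √((1 / (κ₁ * z.im)) * l) := Real.abs_le_sqrt h5
    rw [Real.sqrt_mul (by positivity)] at h6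
    nlinarith

/-- the cut-off function of an interval changes in few places -/
theorem b5_icc (a b s : ℤ) (hs : 0 ≤ s) (d : ℤ) :
    |(if d + s ∈ Finset.Icc a b then (1 : ℝ) else 0) - (if d ∈ Finset.Icc a b then (1 : ℝ) else 0)| ≤
    (if d ∈ Finset.Ico (a - s) a then (1 : ℝ) else 0) +
      (if d ∈ Finset.Ioc (b - s) b then (1 : ℝ) else 0) := by
  simp only [Finset.mem_Icc, Finset.mem_Ico, Finset.mem_Ioc]
  split_ifs <;> first | omega | norm_num

theorem b5_hasSum (T : Finset ℤ) (r : ℝ) :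
    HasSum (fun d : ℤ => r * (if d ∈ T then (1 : ℝ) else 0)) (r * T.card) := by
  apply HasSum.mul_left
  have h : HasSum (fun d : ℤ => if d ∈ T then (1 : ℝ) else 0)
      (∑ d ∈ T, (if d ∈ T then (1 : ℝ) else 0)) :=
    hasSum_sum_of_ne_finset_zero (fun d hd => by simp [hd])
  have h2 : ∑ d ∈ T, (if d ∈ T then (1 : ℝ) else 0) = T.card := by
    rw [Finset.sum_congr rfl (fun d hd => if_pos hd)]
    simp
  rwa [h2] at h

/-- the phase `h(t) = t/(t²+m²)` is Lipschitz outside the ball `t²+m² < R` -/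
theorem b5_lip (m t t' R : ℝ) (hR : 0 < R) (h1 : R ≤ t ^ 2 + m ^ 2) (h2 : R ≤ t' ^ 2 + m ^ 2) :
    |t' / (t' ^ 2 + m ^ 2) - t / (t ^ 2 + m ^ 2)| ≤ |t' - t| / R := by
  set n := t ^ 2 + m ^ 2 with hn
  set n' := t' ^ 2 + m ^ 2 with hn'
  have hnp : 0 < n := lt_of_lt_of_le hR h1
  have hnp' : 0 < n' := lt_of_lt_of_le hR h2
  have e : t' / n' - t / n = (t' - t) * ((m ^ 2 - t * t') / (n * n')) := by
    rw [div_sub_div _ _ hnp'.ne' hnp.ne']
    rw [mul_div_assoc', mul_comm n n']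
    congr 1
    rw [hn, hn']
    ring
  rw [e, abs_mul, div_eq_mul_inv (|t' - t|) R]
  apply mul_le_mul_of_nonneg_left _ (abs_nonneg _)
  rw [abs_div, abs_of_pos (mul_pos hnp hnp'), div_le_iff₀ (mul_pos hnp hnp')]
  have h3 : (m ^ 2 - t * t') ^ 2 ≤ n * n' := by
    rw [hn, hn']
    nlinarith [sq_nonneg (m * (t + t'))]
  have h4 : |m ^ 2 - t * t'| * R ≤ n * n' := by
    have h5 : (|m ^ 2 - t * t'| * R) ^ 2 ≤ (n * n') ^ 2 := by
      rw [mul_pow, sq_abs, sq (n * n')]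
      have h6 : R ^ 2 ≤ n * n' := by
        rw [sq]
        exact mul_le_mul h1 h2 hR.le hnp.le
      exact mul_le_mul h3 h6 (by positivity) (by positivity)
    exact (pow_le_pow_iff_left₀ (by positivity) (by positivity) two_ne_zero).1 h5
  rw [inv_mul_eq_div, le_div_iff₀ hR]
  exact h4

theorem b5_exp (α β : ℝ) : ‖cexp (2 * Real.pi * I * (α : ℂ)) - cexp (2 * Real.pi * I * (β : ℂ))‖ ≤
    2 * Real.pi * |α - β| := by
  have e : cexp (2 * Real.pi * I * (α : ℂ)) - cexp (2 * Real.pi * I * (β : ℂ)) =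
      cexp (I * ((2 * Real.pi * β : ℝ) : ℂ)) * (cexp (I * ((2 * Real.pi * (α - β) : ℝ) : ℂ)) - 1) := by
    rw [mul_sub, ← Complex.exp_add, mul_one]
    congr 2
    · push_cast
      ring
    · push_cast
      ring
  rw [e, norm_mul]
  have h1 : ‖cexp (I * ((2 * Real.pi * β : ℝ) : ℂ))‖ = 1 := by
    rw [mul_comm, Complex.norm_exp_ofReal_mul_I]
  rw [h1, one_mul]
  refine (Real.norm_exp_I_mul_ofReal_sub_one_le).trans ?_
  rw [Real.norm_eq_abs, abs_mul, abs_of_pos (by positivity)]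

/-- averaging over shifts -/
theorem b5_avg (χ g : ℤ → ℂ) (U : Finset ℤ) (hχ : ∀ d, ‖χ d‖ ≤ 1) (hg : ∀ d, ‖g d‖ ≤ 1)
    (s : ℕ → ℤ) (J : ℕ) (B E : ℝ)
    (hB : ∀ d ∈ U, ‖∑ j ∈ Finset.range J, χ (d + s j)‖ ≤ B)
    (hE : ∀ j ∈ Finset.range J, ∑' d : ℤ, ‖(if d + s j ∈ U then g (d + s j) else 0) -
      (if d ∈ U then g d else 0)‖ ≤ E) :
    J * ‖∑ d ∈ U, χ d * g d‖ ≤ U.card * B + J * E := by
  set u : ℤ → ℂ := fun d => if d ∈ U then g d else 0 with hu
  have hu0 : ∀ d, d ∉ U → u d = 0 := fun d hd => by simp [hu, hd]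
  have hS : ∑ d ∈ U, χ d * g d = ∑' d : ℤ, χ d * u d := by
    rw [tsum_eq_sum (s := U) (fun d hd => by rw [hu0 d hd, mul_zero])]
    apply Finset.sum_congr rfl
    intro d hd
    simp [hu, hd]
  have hsh : ∀ j, ∑' d : ℤ, χ (d + s j) * u (d + s j) = ∑' d : ℤ, χ d * u d := fun j =>
    (Equiv.addRight (s j)).tsum_eq (fun d => χ d * u d)
  have hsum1 : ∀ j, Summable (fun d : ℤ => χ (d + s j) * u d) := fun j =>
    summable_of_ne_finset_zero (s := U) (fun d hd => by rw [hu0 d hd, mul_zero])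
  have hsum2 : ∀ j, Summable (fun d : ℤ => ‖u (d + s j) - u d‖) := fun j =>
    summable_of_ne_finset_zero (s := U ∪ U.image (fun d => d - s j)) (fun d hd => by
      rw [Finset.mem_union, not_or, Finset.mem_image, not_exists] at hd
      rw [hu0 d hd.1, hu0 (d + s j) (fun h => hd.2 (d + s j) ⟨h, by ring⟩), sub_zero, norm_zero])
  have hle : ∀ j d, ‖χ (d + s j) * (u (d + s j) - u d)‖ ≤ ‖u (d + s j) - u d‖ := by
    intro j d
    rw [norm_mul]
    exact mul_le_of_le_one_left (norm_nonneg _) (hχ _)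
  have hsum3 : ∀ j, Summable (fun d : ℤ => ‖χ (d + s j) * (u (d + s j) - u d)‖) := fun j =>
    Summable.of_nonneg_of_le (fun d => norm_nonneg _) (hle j) (hsum2 j)
  have hj : ∀ j, ∑' d : ℤ, χ d * u d = ∑ d ∈ U, χ (d + s j) * g d +
      ∑' d : ℤ, χ (d + s j) * (u (d + s j) - u d) := by
    intro j
    rw [← hsh j]
    have h1 : ∑ d ∈ U, χ (d + s j) * g d = ∑' d : ℤ, χ (d + s j) * u d := by
      rw [tsum_eq_sum (s := U) (fun d hd => by rw [hu0 d hd, mul_zero])]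
      apply Finset.sum_congr rfl
      intro d hd
      simp [hu, hd]
    rw [h1, ← (hsum1 j).tsum_add (hsum3 j).of_norm]
    apply tsum_congr
    intro d
    ring
  have hmain : (J : ℂ) * ∑' d : ℤ, χ d * u d =
      ∑ d ∈ U, g d * ∑ j ∈ Finset.range J, χ (d + s j) +
      ∑ j ∈ Finset.range J, ∑' d : ℤ, χ (d + s j) * (u (d + s j) - u d) := by
    have h1 : (J : ℂ) * ∑' d : ℤ, χ d * u d = ∑ j ∈ Finset.range J, ∑' d : ℤ, χ d * u d := by
      rw [Finset.sum_const, Finset.card_range, nsmul_eq_mul]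
    rw [h1, Finset.sum_congr rfl (fun j _ => hj j), Finset.sum_add_distrib]
    congr 1
    rw [Finset.sum_comm]
    apply Finset.sum_congr rfl
    intro d _
    rw [Finset.mul_sum]
    apply Finset.sum_congr rfl
    intro j _
    ring
  have hn : (J : ℝ) * ‖∑' d : ℤ, χ d * u d‖ = ‖(J : ℂ) * ∑' d : ℤ, χ d * u d‖ := by
    rw [norm_mul, Complex.norm_natCast]
  rw [hS, hn, hmain]
  refine (norm_add_le _ _).trans (add_le_add ?_ ?_)
  · refine (norm_sum_le _ _).trans ?_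
    rw [← nsmul_eq_mul, ← Finset.sum_const]
    apply Finset.sum_le_sum
    intro d hd
    rw [norm_mul]
    have h0 := hB d hd
    calc ‖g d‖ * ‖∑ j ∈ Finset.range J, χ (d + s j)‖
        ≤ 1 * ‖∑ j ∈ Finset.range J, χ (d + s j)‖ :=
          mul_le_mul_of_nonneg_right (hg d) (norm_nonneg _)
      _ ≤ B := by rw [one_mul]; exact h0
  · refine (norm_sum_le _ _).trans ?_
    have h3 : (J : ℝ) * E = ∑ j ∈ Finset.range J, E := by
      rw [Finset.sum_const, Finset.card_range, nsmul_eq_mul]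
    rw [h3]
    apply Finset.sum_le_sum
    intro j hj
    refine (norm_tsum_le_tsum_norm (hsum3 j)).trans ?_
    refine le_trans ?_ (hE j hj)
    exact Summable.tsum_le_tsum (hle j) (hsum3 j) (hsum2 j)

theorem b5_ec (l c : ℕ) (d : ℤ) : ‖ec l c d‖ = 1 := by
  unfold ec
  have e : -(2 * Real.pi * I) * l * (((d : ZMod c)⁻¹).val : ℕ) / c =
      ((-(2 * Real.pi) * l * (((d : ZMod c)⁻¹).val : ℕ) / c : ℝ) : ℂ) * I := by
    push_cast
    ring
  rw [e, Complex.norm_exp_ofReal_mul_I]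

theorem b5_nsq_nat (z : ℂ) (c : ℕ) (d : ℤ) :
    ‖(c : ℂ) * z + d‖ ^ 2 = (c * z.re + d) ^ 2 + (c * z.im) ^ 2 := by
  have h := b5_nsq z (c : ℤ) d
  push_cast at h
  exact h

open Classical in
/-- block B5 (ROW) from the statement of block B3 -/
theorem b5_row_of (SH : ∀ {p c' N l : ℕ}, p.Prime → 0 < c' → p.Coprime c' →
    ¬ p ∣ l → ¬ p ∣ N → ∀ d : ℤ, IsCoprime d (c' : ℤ) → ∀ J : ℕ, J ≤ p →
    ‖∑ j ∈ (Finset.range J).filter (fun j : ℕ => IsCoprime (d + (N * c' * j : ℕ)) ((p * c' : ℕ) : ℤ)),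
      ec l (p * c') (d + (N * c' * j : ℕ))‖ ≤ 2 * (p : ℝ) ^ (3 / 4 : ℝ) * (3 + Real.log p))
    {z : ℂ} (hz : 0 < z.im) {N : ℕ} (hN : 0 < N) {κ₁ κ₂ : ℝ} (h1 : 0 < κ₁) (h2 : κ₁ < κ₂) :
    ∃ C : ℝ, ∀ δ : ℝ, 0 < δ → δ ≤ 1 → ∀ l : ℕ, 1 ≤ l → ∀ c : ℕ, 1 ≤ c → ∀ p : ℕ, p.Prime →
      p ∣ c → ¬ p ^ 2 ∣ c → ¬ p ∣ l → ¬ p ∣ N → 1 ≤ δ * p → ∀ d₀ : ℤ, ∀ D : Finset ℤ,
      (∀ d : ℤ, d ∈ D ↔ Ann z κ₁ κ₂ l c d ∧ IsCoprime (c : ℤ) d ∧ (N : ℤ) ∣ d - d₀) →
      ‖∑ d ∈ D, ec l c d * cexp (2 * Real.pi * I *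
          ((l * (c * z.re + d) / (c * ‖(c : ℂ) * z + d‖ ^ 2) : ℝ) : ℂ))‖ ≤
        C * √l * (δ + (3 + Real.log p) / (δ * (p : ℝ) ^ (1 / 4 : ℝ))) := by
  obtain ⟨C₀, hC₀⟩ := row_card_pr (κ₂ := κ₂) hz h1
  have hC0 : 0 ≤ C₀ := by
    have := (hC₀ 1 le_rfl 0 ∅ (by simp)).1
    simpa using this
  have hk2 : 0 < κ₂ := h1.trans h2
  refine ⟨C₀ * (4 + 4 * N + 2 * Real.pi * κ₂ * N / z.im), ?_⟩
  intro δ hδ0 hδ1 l hl c hc p hp hpc hp2 hpl hpN hδp d₀ D hD
  obtain ⟨c', rfl⟩ := hpc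
  have hl0 : (0 : ℝ) < l := by exact_mod_cast hl
  have hp1 : (1 : ℝ) ≤ p := by exact_mod_cast hp.one_lt.le
  have hp0 : (0 : ℝ) < p := by linarith
  have hlog : 0 ≤ Real.log p := Real.log_nonneg hp1
  have hc'0 : 0 < c' := by
    rcases Nat.eq_zero_or_pos c' with h | h
    · subst h
      simp at hc
    · exact h
  have hcop : p.Coprime c' := by
    rw [hp.coprime_iff_not_dvd]
    rintro ⟨e, rfl⟩
    exact hp2 ⟨e, by ring⟩
  have hsl := Real.sqrt_nonneg (l : ℝ)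
  have hpq : 0 < (p : ℝ) ^ (1 / 4 : ℝ) := Real.rpow_pos_of_pos hp0 _
  set RHS0 : ℝ := C₀ * (4 + 4 * N + 2 * Real.pi * κ₂ * N / z.im) * √l *
    (δ + (3 + Real.log p) / (δ * (p : ℝ) ^ (1 / 4 : ℝ))) with hRHS
  rcases D.eq_empty_or_nonempty with hDe | hDne
  · rw [hDe, Finset.sum_empty, norm_zero, hRHS]
    positivity
  set c : ℕ := p * c' with hcdef
  have hc0 : (0 : ℝ) < c := by exact_mod_cast hc
  have hcC : (c : ℝ) ≤ C₀ * √l := by
    have h := (hC₀ l hl (c : ℤ) D (fun d hd => ((hD d).1 hd).1)).2 hDne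
    rw [Int.cast_natCast, abs_of_pos hc0] at h
    exact h
  -- the annulus
  obtain ⟨a₁, b₁, hK₁⟩ := b5_interval (c * z.re) (c * z.im) (l * z.im / κ₁)
  obtain ⟨a₂, b₂, hK₂⟩ := b5_interval (c * z.re) (c * z.im) (l * z.im / κ₂)
  set U : Finset ℤ := (Finset.Icc a₁ b₁).filter (fun d => d ∉ Finset.Icc a₂ b₂) with hU
  have hUiff : ∀ d, d ∈ U ↔ Ann z κ₁ κ₂ l c d := by
    intro d
    rw [hU, Finset.mem_filter, ← hK₁, ← hK₂, b5_ann_iff hz h1 hk2 hl, not_le]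
    push_cast
    rfl
  have hUcard : (U.card : ℝ) ≤ C₀ * √l := (hC₀ l hl (c : ℤ) U (fun d hd => (hUiff d).1 hd)).1
  set χ : ℤ → ℂ := fun d => if IsCoprime (c : ℤ) d ∧ (N : ℤ) ∣ d - d₀ then ec l c d else 0 with hχ
  set g : ℤ → ℂ := fun d => cexp (2 * Real.pi * I *
          ((l * (c * z.re + d) / (c * ‖(c : ℂ) * z + d‖ ^ 2) : ℝ) : ℂ)) with hg
  have hχ1 : ∀ d, ‖χ d‖ ≤ 1 := by
    intro d
    rw [hχ]
    dsimp only
    split_ifs
    · rw [b5_ec]
    · simp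
  have hg1 : ∀ d, ‖g d‖ = 1 := by
    intro d
    rw [hg]
    dsimp only
    have e : ∀ r : ℝ, 2 * Real.pi * I * (r : ℂ) = ((2 * Real.pi * r : ℝ) : ℂ) * I := by
      intro r
      push_cast
      ring
    rw [e, Complex.norm_exp_ofReal_mul_I]
  have hsumD : ∑ d ∈ D, ec l c d * g d = ∑ d ∈ U, χ d * g d := by
    have hsub : D ⊆ U := fun d hd => (hUiff d).2 ((hD d).1 hd).1
    rw [← Finset.sum_subset hsub (f := fun d => χ d * g d)]
    · apply Finset.sum_congr rfl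
      intro d hd
      rw [hχ]
      dsimp only
      rw [if_pos ((hD d).1 hd).2]
    · intro d hdU hdD
      have : ¬ (IsCoprime (c : ℤ) d ∧ (N : ℤ) ∣ d - d₀) := fun h =>
        hdD ((hD d).2 ⟨(hUiff d).1 hdU, h⟩)
      rw [hχ]
      dsimp only
      rw [if_neg this, zero_mul]
  rw [hsumD]
  -- the shifts
  set J : ℕ := ⌊δ * p⌋₊ with hJ
  have hJ1 : 1 ≤ J := by
    rw [hJ]
    exact Nat.le_floor (by simpa using hδp)
  have hJle : (J : ℝ) ≤ δ * p := Nat.floor_le (by positivity)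
  have hJp : J ≤ p := by
    have : (J : ℝ) ≤ p := hJle.trans (by nlinarith)
    exact_mod_cast this
  have hJge : δ * p / 2 ≤ J := by
    have h3 : δ * p < J + 1 := Nat.lt_floor_add_one _
    have h4 : (1 : ℝ) ≤ J := by exact_mod_cast hJ1
    linarith
  set s : ℕ → ℤ := fun j => ((N * c' * j : ℕ) : ℤ) with hs
  have hs0 : ∀ j, 0 ≤ s j := fun j => Int.natCast_nonneg _
  have hsle : ∀ j ∈ Finset.range J, (s j : ℝ) ≤ N * δ * c := by
    intro j hj
    have h3 : j ≤ J := (Finset.mem_range.1 hj).le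
    have h4 : (j : ℝ) ≤ δ * p := le_trans (by exact_mod_cast h3) hJle
    rw [hs, hcdef]
    push_cast
    have h5 : (N : ℝ) * c' * j ≤ N * c' * (δ * p) := mul_le_mul_of_nonneg_left h4 (by positivity)
    linarith
  set B : ℝ := 2 * (p : ℝ) ^ (3 / 4 : ℝ) * (3 + Real.log p) with hBdef
  have hB0 : 0 ≤ B := by rw [hBdef]; positivity
  have hB : ∀ d ∈ U, ‖∑ j ∈ Finset.range J, χ (d + s j)‖ ≤ B := by
    intro d _
    by_cases hd : IsCoprime d (c' : ℤ) ∧ (N : ℤ) ∣ d - d₀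
    · have h3 := SH hp hc'0 hcop hpl hpN d hd.1 J hJp
      rw [Finset.sum_filter] at h3
      refine le_trans (le_of_eq ?_) h3
      congr 1
      apply Finset.sum_congr rfl
      intro j _
      rw [hχ, hs]
      dsimp only
      have h4 : (N : ℤ) ∣ d + ((N * c' * j : ℕ) : ℤ) - d₀ := by
        have h5 : (N : ℤ) ∣ ((N * c' * j : ℕ) : ℤ) := ⟨(c' * j : ℕ), by push_cast; ring⟩
        have h6 := dvd_add hd.2 h5
        have e : d + ((N * c' * j : ℕ) : ℤ) - d₀ = d - d₀ + ((N * c' * j : ℕ) : ℤ) := by ring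
        rw [e]
        exact h6
      by_cases h7 : IsCoprime (c : ℤ) (d + ((N * c' * j : ℕ) : ℤ))
      · rw [if_pos ⟨h7, h4⟩, if_pos h7.symm]
      · rw [if_neg (fun h => h7 h.1), if_neg (fun h => h7 h.symm)]
    · have h3 : ∀ j ∈ Finset.range J, χ (d + s j) = 0 := by
        intro j _
        rw [hχ, hs]
        dsimp only
        rw [if_neg]
        rintro ⟨h4, h5⟩
        apply hd
        constructor
        · have h6 : IsCoprime (c' : ℤ) (d + ((N * c' * j : ℕ) : ℤ)) := by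
            rw [hcdef] at h4
            push_cast at h4 ⊢
            exact h4.of_mul_left_right
          have e : d + ((N * c' * j : ℕ) : ℤ) = d + (c' : ℤ) * (N * j) := by
            push_cast
            ring
          rw [e, IsCoprime.add_mul_left_right_iff] at h6
          exact h6.symm
        · have h5' : (N : ℤ) ∣ ((N * c' * j : ℕ) : ℤ) := ⟨(c' * j : ℕ), by push_cast; ring⟩
          have h6 := dvd_sub h5 h5'
          have e : d + ((N * c' * j : ℕ) : ℤ) - d₀ - ((N * c' * j : ℕ) : ℤ) = d - d₀ := by ring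
          rw [e] at h6
          exact h6
      rw [Finset.sum_eq_zero h3, norm_zero]
      exact hB0
  set E : ℝ := 2 * Real.pi * κ₂ * N / z.im * δ * U.card + 4 * (N * δ * c) with hEdef
  have hE : ∀ j ∈ Finset.range J, ∑' d : ℤ, ‖(if d + s j ∈ U then g (d + s j) else 0) -
      (if d ∈ U then g d else 0)‖ ≤ E := by
    intro j hj
    have hsj := hsle j hj
    have hsj0 : (0 : ℝ) ≤ s j := by exact_mod_cast hs0 j
    set L : ℝ := 2 * Real.pi * κ₂ * N / z.im * δ with hL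
    have hL0 : 0 ≤ L := by rw [hL]; positivity
    have hlip : ∀ d, d ∈ U → d + s j ∈ U → ‖g (d + s j) - g d‖ ≤ L := by
      intro d hd hd'
      rw [hg]
      dsimp only
      refine (b5_exp _ _).trans ?_
      rw [b5_nsq_nat, b5_nsq_nat]
      have hA := ((b5_ann_iff hz h1 hk2 hl).1 ((hUiff d).1 hd)).2
      have hA' := ((b5_ann_iff hz h1 hk2 hl).1 ((hUiff _).1 hd')).2
      push_cast at hA hA' ⊢
      have hR : 0 < l * z.im / κ₂ := by positivity
      have h3 := b5_lip (c * z.im) (c * z.re + d) (c * z.re + (d + s j)) (l * z.im / κ₂) hR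
        hA.le hA'.le
      have e1 : (l : ℝ) * (c * z.re + (d + s j)) / (c * ((c * z.re + (d + s j)) ^ 2 + (c * z.im) ^ 2)) -
          l * (c * z.re + d) / (c * ((c * z.re + d) ^ 2 + (c * z.im) ^ 2)) =
          l / c * ((c * z.re + (d + s j)) / ((c * z.re + (d + s j)) ^ 2 + (c * z.im) ^ 2) -
          (c * z.re + d) / ((c * z.re + d) ^ 2 + (c * z.im) ^ 2)) := by
        rw [mul_sub, div_mul_div_comm, div_mul_div_comm]
      rw [e1, abs_mul, abs_of_pos (by positivity)]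
      have e2 : |c * z.re + (d + s j) - (c * z.re + d)| = (s j : ℝ) := by
        rw [add_sub_add_left_eq_sub, add_sub_cancel_left, abs_of_nonneg hsj0]
      rw [e2] at h3
      calc 2 * Real.pi * (l / c * |(c * z.re + (d + s j)) /
            ((c * z.re + (d + s j)) ^ 2 + (c * z.im) ^ 2) -
            (c * z.re + d) / ((c * z.re + d) ^ 2 + (c * z.im) ^ 2)|)
          ≤ 2 * Real.pi * (l / c * (s j / (l * z.im / κ₂))) := by gcongr
        _ ≤ 2 * Real.pi * (l / c * ((N * δ * c) / (l * z.im / κ₂))) := by gcongr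
        _ = L := by
            rw [hL]
            field_simp
    have hpt : ∀ d : ℤ, ‖(if d + s j ∈ U then g (d + s j) else 0) - (if d ∈ U then g d else 0)‖ ≤
        L * (if d ∈ U then (1 : ℝ) else 0) +
        ((1 * (if d ∈ Finset.Ico (a₁ - s j) a₁ then (1 : ℝ) else 0) +
          1 * (if d ∈ Finset.Ioc (b₁ - s j) b₁ then (1 : ℝ) else 0)) +
        (1 * (if d ∈ Finset.Ico (a₂ - s j) a₂ then (1 : ℝ) else 0) +
          1 * (if d ∈ Finset.Ioc (b₂ - s j) b₂ then (1 : ℝ) else 0))) := by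
      intro d
      have hc1 := b5_icc a₁ b₁ (s j) (hs0 j) d
      have hc2 := b5_icc a₂ b₂ (s j) (hs0 j) d
      have hmem : ∀ e : ℤ, e ∈ U ↔ (e ∈ Finset.Icc a₁ b₁ ∧ e ∉ Finset.Icc a₂ b₂) := by
        intro e
        rw [hU, Finset.mem_filter]
      rw [one_mul, one_mul, one_mul, one_mul]
      refine le_trans ?_ (add_le_add le_rfl (add_le_add hc1 hc2))
      by_cases h3 : d ∈ U
      · by_cases h4 : d + s j ∈ U
        · rw [if_pos h3, if_pos h4, if_pos h3, mul_one]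
          have := hlip d h3 h4
          have h5 := abs_nonneg ((if d + s j ∈ Finset.Icc a₁ b₁ then (1 : ℝ) else 0) -
            (if d ∈ Finset.Icc a₁ b₁ then (1 : ℝ) else 0))
          have h6 := abs_nonneg ((if d + s j ∈ Finset.Icc a₂ b₂ then (1 : ℝ) else 0) -
            (if d ∈ Finset.Icc a₂ b₂ then (1 : ℝ) else 0))
          linarith
        · rw [if_pos h3, if_neg h4, if_pos h3, zero_sub, norm_neg, hg1]
          have h3' := (hmem d).1 h3
          have h4' := fun h => h4 ((hmem _).2 h)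
          by_cases h5 : d + s j ∈ Finset.Icc a₁ b₁
          · have h6 : d + s j ∈ Finset.Icc a₂ b₂ := by
              by_contra h7
              exact h4' ⟨h5, h7⟩
            rw [if_pos h6, if_neg h3'.2, if_pos h5, if_pos h3'.1]
            norm_num
            exact hL0
          · rw [if_neg h5, if_pos h3'.1]
            have h6 := abs_nonneg ((if d + s j ∈ Finset.Icc a₂ b₂ then (1 : ℝ) else 0) -
              (if d ∈ Finset.Icc a₂ b₂ then (1 : ℝ) else 0))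
            have h7 : |(0 : ℝ) - 1| = 1 := by norm_num
            rw [h7]
            linarith
      · by_cases h4 : d + s j ∈ U
        · rw [if_neg h3, if_pos h4, if_neg h3, sub_zero, hg1]
          have h4' := (hmem _).1 h4
          have h3' := fun h => h3 ((hmem _).2 h)
          by_cases h5 : d ∈ Finset.Icc a₁ b₁
          · have h6 : d ∈ Finset.Icc a₂ b₂ := by
              by_contra h7
              exact h3' ⟨h5, h7⟩
            rw [if_pos h6, if_neg h4'.2, if_pos h5, if_pos h4'.1]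
            norm_num
          · rw [if_neg h5, if_pos h4'.1]
            have h6 := abs_nonneg ((if d + s j ∈ Finset.Icc a₂ b₂ then (1 : ℝ) else 0) -
              (if d ∈ Finset.Icc a₂ b₂ then (1 : ℝ) else 0))
            have h7 : |(1 : ℝ) - 0| = 1 := by norm_num
            rw [h7]
            linarith
        · rw [if_neg h3, if_neg h4, if_neg h3, sub_zero, norm_zero]
          positivity
    have hhas := (b5_hasSum U L).add (((b5_hasSum (Finset.Ico (a₁ - s j) a₁) 1).add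
      (b5_hasSum (Finset.Ioc (b₁ - s j) b₁) 1)).add ((b5_hasSum (Finset.Ico (a₂ - s j) a₂) 1).add
      (b5_hasSum (Finset.Ioc (b₂ - s j) b₂) 1)))
    have hsummable : Summable (fun d : ℤ => ‖(if d + s j ∈ U then g (d + s j) else 0) -
        (if d ∈ U then g d else 0)‖) :=
      Summable.of_nonneg_of_le (fun d => norm_nonneg _) hpt hhas.summable
    have h5 := hasSum_le hpt hsummable.hasSum hhas
    refine h5.trans ?_
    have hco : ∀ a : ℤ, ((Finset.Ico (a - s j) a).card : ℝ) = s j := by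
      intro a
      rw [Int.card_Ico, sub_sub_cancel]
      have := Int.toNat_of_nonneg (hs0 j)
      exact_mod_cast this
    have hcc : ∀ a : ℤ, ((Finset.Ioc (a - s j) a).card : ℝ) = s j := by
      intro a
      rw [Int.card_Ioc, sub_sub_cancel]
      have := Int.toNat_of_nonneg (hs0 j)
      exact_mod_cast this
    rw [hco, hco, hcc, hcc, hEdef]
    linarith
  have hfin := b5_avg χ g U hχ1 (fun d => (hg1 d).le) s J B E hB hE
  have hJ0 : (0 : ℝ) < J := by exact_mod_cast hJ1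
  have hmain : ‖∑ d ∈ U, χ d * g d‖ ≤ U.card * B / J + E := by
    rw [div_add' _ _ _ hJ0.ne', le_div_iff₀ hJ0]
    linarith
  refine hmain.trans ?_
  have hp34 : (p : ℝ) ^ (3 / 4 : ℝ) * (p : ℝ) ^ (1 / 4 : ℝ) = p := by
    rw [← Real.rpow_add hp0]
    norm_num
  have hterm1 : U.card * B / J ≤ C₀ * √l * 4 * ((3 + Real.log p) / (δ * (p : ℝ) ^ (1 / 4 : ℝ))) := by
    rw [div_le_iff₀ hJ0]
    have h3 : U.card * B ≤ C₀ * √l * B := mul_le_mul_of_nonneg_right hUcard hB0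
    refine h3.trans ?_
    have h4 : C₀ * √l * B = C₀ * √l * 4 * ((3 + Real.log p) / (δ * (p : ℝ) ^ (1 / 4 : ℝ))) *
        (δ * p / 2) := by
      rw [hBdef]
      have h5 : (p : ℝ) = (p : ℝ) ^ (3 / 4 : ℝ) * (p : ℝ) ^ (1 / 4 : ℝ) := hp34.symm
      have h6 : δ * (p : ℝ) / 2 = δ * (p : ℝ) ^ (1 / 4 : ℝ) * ((p : ℝ) ^ (3 / 4 : ℝ) / 2) := by
        rw [h5.trans rfl]
        rw [hp34]
        rw [mul_assoc, ← mul_div_assoc, mul_comm ((p : ℝ) ^ (1 / 4 : ℝ)), hp34, mul_div_assoc]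
      rw [h6]
      field_simp
      ring
    rw [h4]
    apply mul_le_mul_of_nonneg_left hJge
    positivity
  have hterm2 : E ≤ C₀ * √l * (4 * N + 2 * Real.pi * κ₂ * N / z.im) * δ := by
    rw [hEdef]
    have h3 : 2 * Real.pi * κ₂ * N / z.im * δ * U.card ≤
        2 * Real.pi * κ₂ * N / z.im * δ * (C₀ * √l) :=
      mul_le_mul_of_nonneg_left hUcard (by positivity)
    have h4 : 4 * (N * δ * c) ≤ 4 * (N * δ * (C₀ * √l)) := by gcongr
    linarith
  have hX : 0 ≤ C₀ * √l := by positivity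
  have hY : 0 ≤ (3 + Real.log p) / (δ * (p : ℝ) ^ (1 / 4 : ℝ)) := by positivity
  have hZ : 0 ≤ 4 * (N : ℝ) + 2 * Real.pi * κ₂ * N / z.im := by positivity
  rw [hRHS]
  have e3 : C₀ * (4 + 4 * N + 2 * Real.pi * κ₂ * N / z.im) * √l *
      (δ + (3 + Real.log p) / (δ * (p : ℝ) ^ (1 / 4 : ℝ))) =
      C₀ * √l * 4 * ((3 + Real.log p) / (δ * (p : ℝ) ^ (1 / 4 : ℝ))) +
      C₀ * √l * (4 * N + 2 * Real.pi * κ₂ * N / z.im) * δ + C₀ * √l * 4 * δ +
      C₀ * √l * (4 * N + 2 * Real.pi * κ₂ * N / z.im) *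
        ((3 + Real.log p) / (δ * (p : ℝ) ^ (1 / 4 : ℝ))) := by ring
  rw [e3]
  have h7 : 0 ≤ C₀ * √l * 4 * δ := by positivity
  have h8 : 0 ≤ C₀ * √l * (4 * N + 2 * Real.pi * κ₂ * N / z.im) *
        ((3 + Real.log p) / (δ * (p : ℝ) ^ (1 / 4 : ℝ))) := by positivity
  linarith

/-- block B5 (ROW): the sum over `d` for a good `c` (cites `shift_sum`, block B3) -/
theorem row_pr {z : ℂ} (hz : 0 < z.im) {N : ℕ} (hN : 0 < N) {κ₁ κ₂ : ℝ} (h1 : 0 < κ₁) (h2 : κ₁ < κ₂) :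
    ∃ C : ℝ, ∀ δ : ℝ, 0 < δ → δ ≤ 1 → ∀ l : ℕ, 1 ≤ l → ∀ c : ℕ, 1 ≤ c → ∀ p : ℕ, p.Prime →
      p ∣ c → ¬ p ^ 2 ∣ c → ¬ p ∣ l → ¬ p ∣ N → 1 ≤ δ * p → ∀ d₀ : ℤ, ∀ D : Finset ℤ,
      (∀ d : ℤ, d ∈ D ↔ Ann z κ₁ κ₂ l c d ∧ IsCoprime (c : ℤ) d ∧ (N : ℤ) ∣ d - d₀) →
      ‖∑ d ∈ D, ec l c d * cexp (2 * Real.pi * I *
          ((l * (c * z.re + d) / (c * ‖(c : ℂ) * z + d‖ ^ 2) : ℝ) : ℂ))‖ ≤
        C * √l * (δ + (3 + Real.log p) / (δ * (p : ℝ) ^ (1 / 4 : ℝ))) :=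
  b5_row_of (fun hp hc' hpc hpl hpN d hd J hJ => shift_sum hp hc' hpc hpl hpN d hd J hJ) hz hN h1 h2

end Pool.Agent.GL2
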