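import Pool.Agent.Lib_helper68.GL2.BR5

/-! Block B6: the pointwise limit of the twisted lattice sums. -/

namespace Pool.Agent.GL2

open Complex MeasureTheory Filter Topology

theorem b6_den {z : ℂ} (hz : 0 < z.im) {c : ℕ} (hc : 0 < c) (d : ℤ) : (c : ℂ) * z + d ≠ 0 := by
  intro h
  have h1 := congrArg Complex.im h
  simp only [Complex.add_im, Complex.mul_im, Complex.natCast_re, Complex.natCast_im, zero_mul,
    add_zero, Complex.intCast_im, Complex.zero_im] at h1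
  have h2 : (0 : ℝ) < c := by exact_mod_cast hc
  have h3 : 0 < (c : ℝ) * z.im := by positivity
  linarith

/-- the real part of `γ z` -/
theorem b6_re {z : ℂ} (hz : 0 < z.im) {α β d : ℤ} {c : ℕ} (hc : 0 < c)
    (hdet : Det1 (α, β, (c : ℤ), d)) :
    (mob (α, β, (c : ℤ), d) z).re =
      (α : ℝ) / c - (c * z.re + d) / (c * ‖(c : ℂ) * z + d‖ ^ 2) := by
  have hw := b6_den hz hc d
  have hc0 : (c : ℂ) ≠ 0 := by exact_mod_cast hc.ne'
  have hdet' : (α : ℂ) * d - β * c = 1 := by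
    unfold Det1 at hdet
    exact_mod_cast hdet
  have h1 : mob (α, β, (c : ℤ), d) z = ((α : ℝ) / c : ℝ) - ((1 / (c : ℝ) : ℝ) : ℂ) * ((c : ℂ) * z + d)⁻¹ := by
    unfold mob
    push_cast
    rw [div_eq_iff hw, sub_mul, mul_assoc (1 / (c : ℂ)), inv_mul_cancel₀ hw, mul_one]
    field_simp
    linear_combination (-1 : ℂ) * hdet'
  rw [h1, Complex.sub_re, Complex.ofReal_re, Complex.re_ofReal_mul, Complex.inv_re,
    Complex.normSq_eq_norm_sq]
  have h2 : ((c : ℂ) * z + d).re = c * z.re + d := by simp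
  rw [h2]
  have h3 : (0 : ℝ) < c := by exact_mod_cast hc
  have h4 : (0 : ℝ) < ‖(c : ℂ) * z + d‖ ^ 2 := by positivity
  field_simp

theorem b6_ec {α β d : ℤ} {c : ℕ} (hc : 0 < c) (hdet : Det1 (α, β, (c : ℤ), d)) (l : ℕ) :
    cexp (-(2 * Real.pi * I) * l * (((α : ℝ) / c : ℝ) : ℂ)) = ec l c d := by
  have : NeZero c := ⟨hc.ne'⟩
  have hc0 : (c : ℂ) ≠ 0 := by exact_mod_cast hc.ne'
  have h1 : (d : ZMod c) * (α : ZMod c) = 1 := by
    have h2 : ((α * d - β * c : ℤ) : ZMod c) = 1 := by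
      unfold Det1 at hdet
      rw [hdet]
      simp
    push_cast at h2
    rw [ZMod.natCast_self, mul_zero, sub_zero] at h2
    rw [mul_comm]
    exact h2
  have h3 : (d : ZMod c)⁻¹ = (α : ZMod c) := ZMod.inv_eq_of_mul_eq_one c _ _ h1
  unfold ec
  rw [h3]
  have h4 : (((α : ZMod c).val : ℕ) : ℤ) = α % c := ZMod.val_intCast α
  have h5 : (α : ℂ) = (((α : ZMod c).val : ℕ) : ℂ) + c * ((α / c : ℤ) : ℂ) := by
    have h6 : α = (((α : ZMod c).val : ℕ) : ℤ) + c * (α / c) := by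
      rw [h4]
      exact (Int.emod_add_mul_ediv α c).symm
    exact_mod_cast congrArg (Int.cast : ℤ → ℂ) h6
  rw [Complex.exp_eq_exp_iff_exists_int]
  refine ⟨-(l * (α / c)), ?_⟩
  push_cast
  rw [h5]
  field_simp
  ring

theorem b6_term {z : ℂ} (hz : 0 < z.im) {α β d : ℤ} {c : ℕ} (hc : 0 < c)
    (hdet : Det1 (α, β, (c : ℤ), d)) (l : ℕ) :
    cexp (-(2 * Real.pi * I) * l * ((mob (α, β, (c : ℤ), d) z).re : ℂ)) =
      ec l c d * cexp (2 * Real.pi * I *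
          ((l * (c * z.re + d) / (c * ‖(c : ℂ) * z + d‖ ^ 2) : ℝ) : ℂ)) := by
  rw [b6_re hz hc hdet, ← b6_ec hc hdet, ← Complex.exp_add]
  congr 1
  push_cast
  ring

theorem b6_norm (l : ℕ) (x : ℝ) : ‖cexp (-(2 * Real.pi * I) * l * (x : ℂ))‖ = 1 := by
  rw [Complex.norm_exp]
  simp

/-- `-g` -/
def b6_neg (g : ℤ × ℤ × ℤ × ℤ) : ℤ × ℤ × ℤ × ℤ := (-g.1, -g.2.1, -g.2.2.1, -g.2.2.2)

theorem b6_neg_det {g : ℤ × ℤ × ℤ × ℤ} (h : Det1 g) : Det1 (b6_neg g) := by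
  unfold Det1 b6_neg at *
  linarith

theorem b6_neg_mob (g : ℤ × ℤ × ℤ × ℤ) (z : ℂ) : mob (b6_neg g) z = mob g z := by
  unfold mob b6_neg
  push_cast
  rw [← neg_div_neg_eq]
  congr 1 <;> ring

theorem b6_neg_neg (g : ℤ × ℤ × ℤ × ℤ) : b6_neg (b6_neg g) = g := by
  unfold b6_neg
  simp

theorem b6_ann_neg {z : ℂ} {κ₁ κ₂ : ℝ} {l : ℕ} {c d : ℤ} :
    Ann z κ₁ κ₂ l (-c) (-d) ↔ Ann z κ₁ κ₂ l c d := by
  unfold Ann
  have h : ‖((-c : ℤ) : ℂ) * z + ((-d : ℤ) : ℂ)‖ = ‖(c : ℂ) * z + d‖ := by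
    rw [← norm_neg]
    congr 1
    push_cast
    ring
  rw [h]

/-- the sum over the matrices with given positive `c` -/
theorem b6_row {z : ℂ} (hz : 0 < z.im) {N : ℕ} {κ₁ κ₂ : ℝ} {l : ℕ} {c : ℕ} (hc : 0 < c)
    {d₀ : ℤ} {R : ℝ}
    (hR : ∀ D : Finset ℤ,
      (∀ d : ℤ, d ∈ D ↔ Ann z κ₁ κ₂ l c d ∧ IsCoprime (c : ℤ) d ∧ (N : ℤ) ∣ d - d₀) →
      ‖∑ d ∈ D, ec l c d * cexp (2 * Real.pi * I *
          ((l * (c * z.re + d) / (c * ‖(c : ℂ) * z + d‖ ^ 2) : ℝ) : ℂ))‖ ≤ R)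
    (S : Finset (ℤ × ℤ × ℤ × ℤ)) (hS : ∀ g ∈ S, Det1 g)
    (hinj : ∀ g ∈ S, ∀ g' ∈ S, g.2.2 = g'.2.2 → g = g')
    (hc1 : ∀ g ∈ S, g.2.2.1 = (c : ℤ))
    (hd : ∀ d : ℤ, (∃ g ∈ S, g.2.2.2 = d) ↔
      Ann z κ₁ κ₂ l c d ∧ IsCoprime (c : ℤ) d ∧ (N : ℤ) ∣ d - d₀) :
    ‖∑ g ∈ S, cexp (-(2 * Real.pi * I) * l * ((mob g z).re : ℂ))‖ ≤ R := by
  classical
  have hi : Set.InjOn (fun g : ℤ × ℤ × ℤ × ℤ => g.2.2.2) (S : Set (ℤ × ℤ × ℤ × ℤ)) := by
    intro g hg g' hg' h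
    exact hinj g hg g' hg' (Prod.ext (by rw [hc1 g hg, hc1 g' hg']) h)
  have h1 := hR (S.image (fun g => g.2.2.2)) (by
    intro d
    rw [Finset.mem_image]
    exact hd d)
  rw [Finset.sum_image hi] at h1
  refine le_trans (le_of_eq ?_) h1
  congr 1
  refine Finset.sum_congr rfl fun g hg => ?_
  have hg2 : g = (g.1, g.2.1, (c : ℤ), g.2.2.2) := by
    rw [← hc1 g hg]
  have hdet : Det1 (g.1, g.2.1, (c : ℤ), g.2.2.2) := by
    rw [← hg2]
    exact hS g hg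
  have h2 := b6_term hz hc hdet l
  rw [← hg2] at h2
  exact h2


theorem b6_filter (S : Finset (ℤ × ℤ × ℤ × ℤ)) (f : ℤ × ℤ × ℤ × ℤ → ℂ) (hf : ∀ g, ‖f g‖ = 1) :
    ‖∑ g ∈ S, f g‖ ≤ S.card := by
  refine (norm_sum_le _ _).trans ?_
  rw [Finset.sum_congr rfl fun g _ => hf g]
  simp

/-- choice of `P₁` -/
theorem b6_P {δ : ℝ} (hδ : 0 < δ) : ∃ P₁ : ℕ, ∀ p : ℕ, P₁ ≤ p →
    1 ≤ δ * p ∧ (3 + Real.log p) / (δ * (p : ℝ) ^ (1 / 4 : ℝ)) ≤ δ := by
  have h1 : Tendsto (fun x : ℝ => (3 + Real.log x) / x ^ (1 / 4 : ℝ)) atTop (𝓝 0) := by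
    have h2 := (isLittleO_log_rpow_atTop (r := 1 / 4) (by norm_num)).tendsto_div_nhds_zero
    have h3 : Tendsto (fun x : ℝ => 3 / x ^ (1 / 4 : ℝ)) atTop (𝓝 0) :=
      Tendsto.div_atTop tendsto_const_nhds (tendsto_rpow_atTop (by norm_num))
    have h4 := h3.add h2
    rw [add_zero] at h4
    refine h4.congr fun x => ?_
    rw [add_div]
  have h5 := h1.comp tendsto_natCast_atTop_atTop
  have h6 : ∀ᶠ p : ℕ in atTop, (3 + Real.log p) / (p : ℝ) ^ (1 / 4 : ℝ) < δ * δ :=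
    h5.eventually (gt_mem_nhds (by positivity))
  have h7 : ∀ᶠ p : ℕ in atTop, 1 / δ ≤ (p : ℝ) := tendsto_natCast_atTop_atTop.eventually_ge_atTop _
  obtain ⟨P₁, hP⟩ := eventually_atTop.mp (h6.and (h7.and (eventually_ge_atTop 1)))
  refine ⟨P₁, fun p hp => ?_⟩
  obtain ⟨h8, h9, h10⟩ := hP p hp
  have hp0 : (0 : ℝ) < p := by exact_mod_cast h10
  constructor
  · rw [div_le_iff₀ hδ] at h9
    linarith
  · have h11 : (0 : ℝ) < (p : ℝ) ^ (1 / 4 : ℝ) := Real.rpow_pos_of_pos hp0 _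
    rw [div_lt_iff₀ h11] at h8
    rw [div_le_iff₀ (by positivity)]
    nlinarith

/-- block B6 -/
theorem ptw_pr {z : ℂ} (hz : 0 < z.im) {N : ℕ} (hN : 0 < N) {κ₁ κ₂ : ℝ} (h1 : 0 < κ₁) (h2 : κ₁ < κ₂)
    (c₀ d₀ : ℤ) {η : ℝ} (hη : 0 < η) :
    ∃ L₀ : ℕ, ∀ l : ℕ, L₀ ≤ l → ∀ S : Finset (ℤ × ℤ × ℤ × ℤ), (∀ g ∈ S, Det1 g) →
      (∀ g ∈ S, ∀ g' ∈ S, g.2.2 = g'.2.2 → g = g') →
      (∀ c d : ℤ, (∃ g ∈ S, g.2.2 = (c, d)) ↔
        Ann z κ₁ κ₂ l c d ∧ IsCoprime c d ∧ (N : ℤ) ∣ c - c₀ ∧ (N : ℤ) ∣ d - d₀) →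
      ‖∑ g ∈ S, cexp (-(2 * Real.pi * I) * l * ((mob g z).re : ℂ))‖ ≤ η * l := by
  classical
  obtain ⟨C₁', hC₁'⟩ := row_card hz h1 (κ₂ := κ₂)
  obtain ⟨C₂', hC₂'⟩ := row hz hN h1 h2
  -- positive constants
  set C₁ : ℝ := max C₁' 1 with hC₁
  set C₂ : ℝ := max C₂' 1 with hC₂
  have hC₁1 : 1 ≤ C₁ := le_max_right _ _
  have hC₂1 : 1 ≤ C₂ := le_max_right _ _
  -- δ, P₁, ε
  set δ : ℝ := min 1 (η / (24 * C₁ * C₂)) with hδdef
  have hδ : 0 < δ := lt_min one_pos (by positivity)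
  have hδ1 : δ ≤ 1 := min_le_left _ _
  have hδ2 : δ ≤ η / (24 * C₁ * C₂) := min_le_right _ _
  obtain ⟨P₁, hP₁⟩ := b6_P hδ
  set ε : ℝ := min (1 / C₁) (η / (8 * C₁)) with hεdef
  have hε : 0 < ε := lt_min (by positivity) (by positivity)
  have hε1 : ε ≤ 1 / C₁ := min_le_left _ _
  have hε2 : ε ≤ η / (8 * C₁) := min_le_right _ _
  obtain ⟨L₁, hL₁⟩ := good_density N hN P₁ ε hε
  -- L₀
  obtain ⟨L₂, hL₂⟩ : ∃ L₂ : ℕ, (4 * C₁ / η) ^ 2 ≤ L₂ := exists_nat_ge _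
  refine ⟨max (max L₁ L₂) 1, fun l hl S hS hinj hrow => ?_⟩
  have hl1 : L₁ ≤ l := le_trans (le_trans (le_max_left _ _) (le_max_left _ _)) hl
  have hl2 : L₂ ≤ l := le_trans (le_trans (le_max_right _ _) (le_max_left _ _)) hl
  have hl3 : 1 ≤ l := le_trans (le_max_right _ _) hl
  have hlR : (1 : ℝ) ≤ l := by exact_mod_cast hl3
  have hsq : (1 : ℝ) ≤ √l := by
    rw [Real.one_le_sqrt]; exact hlR
  have hsqsq : √(l : ℝ) * √(l : ℝ) = l := Real.mul_self_sqrt (by positivity)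
  -- `4 C₁ ≤ η √l`
  have hbig : 4 * C₁ ≤ η * √l := by
    have h3 : 4 * C₁ / η ≤ √l := by
      refine Real.le_sqrt_of_sq_le ?_
      exact hL₂.trans (by exact_mod_cast hl2)
    rw [div_le_iff₀ hη] at h3
    linarith
  set f : ℤ × ℤ × ℤ × ℤ → ℂ := fun g => cexp (-(2 * Real.pi * I) * l * ((mob g z).re : ℂ)) with hf
  have hf1 : ∀ g, ‖f g‖ = 1 := fun g => b6_norm l _
  set K : Finset ℤ := S.image (fun g => g.2.2.1) with hK
  -- facts about the annulus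
  have hSann : ∀ g ∈ S, Ann z κ₁ κ₂ l g.2.2.1 g.2.2.2 ∧ IsCoprime g.2.2.1 g.2.2.2 ∧
      (N : ℤ) ∣ g.2.2.1 - c₀ ∧ (N : ℤ) ∣ g.2.2.2 - d₀ := fun g hg =>
    (hrow g.2.2.1 g.2.2.2).mp ⟨g, hg, rfl⟩
  -- trivial bound
  have htriv : ∀ c : ℤ, ((S.filter (fun g => g.2.2.1 = c)).card : ℝ) ≤ C₁ * √l ∧
      ((S.filter (fun g => g.2.2.1 = c)).Nonempty → |(c : ℝ)| ≤ C₁ * √l) := by
    intro c
    have hi : Set.InjOn (fun g : ℤ × ℤ × ℤ × ℤ => g.2.2.2)
        (S.filter (fun g => g.2.2.1 = c) : Set (ℤ × ℤ × ℤ × ℤ)) := by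
      intro g hg g' hg' h
      simp only [Finset.coe_filter] at hg hg'
      exact hinj g hg.1 g' hg'.1 (Prod.ext (by rw [hg.2, hg'.2]) h)
    have h3 := hC₁' l hl3 c ((S.filter (fun g => g.2.2.1 = c)).image (fun g => g.2.2.2)) (by
      intro d hd
      rw [Finset.mem_image] at hd
      obtain ⟨g, hg, rfl⟩ := hd
      rw [Finset.mem_filter] at hg
      rw [← hg.2]
      exact (hSann g hg.1).1)
    rw [Finset.card_image_of_injOn hi] at h3
    have h4 : C₁' * √l ≤ C₁ * √l := mul_le_mul_of_nonneg_right (le_max_left _ _) (Real.sqrt_nonneg _)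
    exact ⟨h3.1.trans h4, fun h => (h3.2 (h.image _)).trans h4⟩
  -- good rows
  have hgood : ∀ c : ℤ, c ≠ 0 → (∃ p : ℕ, p.Prime ∧ P₁ ≤ p ∧ p ∣ c.natAbs ∧ ¬ p ^ 2 ∣ c.natAbs ∧
      ¬ p ∣ l ∧ ¬ p ∣ N) → ‖∑ g ∈ S.filter (fun g => g.2.2.1 = c), f g‖ ≤ 2 * C₂ * δ * √l := by
    rintro c hc0 ⟨p, hp, hpP, hpc, hpc2, hpl, hpN⟩
    have hn : 0 < c.natAbs := Int.natAbs_pos.mpr hc0
    obtain ⟨hp1, hp2⟩ := hP₁ p hpP
    rcases Finset.eq_empty_or_nonempty (S.filter (fun g => g.2.2.1 = c)) with he | ⟨g₁, hg₁⟩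
    · rw [he, Finset.sum_empty, norm_zero]
      positivity
    rw [Finset.mem_filter] at hg₁
    have hcN : (N : ℤ) ∣ c - c₀ := by
      have := (hSann g₁ hg₁.1).2.2.1
      rwa [hg₁.2] at this
    have hbd : ∀ x : ℤ, ∀ D : Finset ℤ,
        (∀ d : ℤ, d ∈ D ↔ Ann z κ₁ κ₂ l (c.natAbs : ℤ) d ∧ IsCoprime ((c.natAbs : ℕ) : ℤ) d ∧
          (N : ℤ) ∣ d - x) →
        ‖∑ d ∈ D, ec l c.natAbs d * cexp (2 * Real.pi * I *
          ((l * ((c.natAbs : ℕ) * z.re + d) / ((c.natAbs : ℕ) *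
            ‖(((c.natAbs : ℕ) : ℕ) : ℂ) * z + d‖ ^ 2) : ℝ) : ℂ))‖ ≤ 2 * C₂ * δ * √l := by
      intro x D hD
      refine (hC₂' δ hδ hδ1 l hl3 c.natAbs hn p hp hpc hpc2 hpl hpN hp1 x D hD).trans ?_
      have h3 : δ + (3 + Real.log p) / (δ * (p : ℝ) ^ (1 / 4 : ℝ)) ≤ 2 * δ := by linarith
      have hlogp : 0 ≤ Real.log p := Real.log_natCast_nonneg p
      have h3' : 0 ≤ δ + (3 + Real.log p) / (δ * (p : ℝ) ^ (1 / 4 : ℝ)) := by positivity
      calc C₂' * √l * (δ + (3 + Real.log p) / (δ * (p : ℝ) ^ (1 / 4 : ℝ)))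
          ≤ C₂ * √l * (δ + (3 + Real.log p) / (δ * (p : ℝ) ^ (1 / 4 : ℝ))) := by
            refine mul_le_mul_of_nonneg_right ?_ h3'
            exact mul_le_mul_of_nonneg_right (le_max_left _ _) (Real.sqrt_nonneg _)
        _ ≤ C₂ * √l * (2 * δ) := mul_le_mul_of_nonneg_left h3 (by positivity)
        _ = 2 * C₂ * δ * √l := by ring
    rcases Int.natAbs_eq c with hpos | hneg
    · -- positive
      refine b6_row hz hn (hbd d₀) _ (fun g hg => hS g (Finset.mem_filter.mp hg).1)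
        (fun g hg g' hg' h => hinj g (Finset.mem_filter.mp hg).1 g' (Finset.mem_filter.mp hg').1 h)
        (fun g hg => by rw [(Finset.mem_filter.mp hg).2]; exact hpos) (fun d => ?_)
      rw [← hpos]
      constructor
      · rintro ⟨g, hg, rfl⟩
        rw [Finset.mem_filter] at hg
        have h5 := hSann g hg.1
        rw [hg.2] at h5
        exact ⟨h5.1, h5.2.1, h5.2.2.2⟩
      · rintro ⟨h5, h6, h7⟩
        obtain ⟨g, hg, hgc⟩ := (hrow c d).mpr ⟨h5, h6, hcN, h7⟩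
        exact ⟨g, Finset.mem_filter.mpr ⟨hg, by rw [hgc]⟩, by rw [hgc]⟩
    · -- negative
      have hneg' : ((c.natAbs : ℕ) : ℤ) = -c := by rw [hneg]; simp
      have hni : Set.InjOn b6_neg (S.filter (fun g => g.2.2.1 = c) : Set (ℤ × ℤ × ℤ × ℤ)) := by
        intro g _ g' _ h
        rw [← b6_neg_neg g, h, b6_neg_neg]
      have hsum : ∑ g ∈ S.filter (fun g => g.2.2.1 = c), f g =
          ∑ g ∈ (S.filter (fun g => g.2.2.1 = c)).image b6_neg, f g := by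
        rw [Finset.sum_image hni]
        refine Finset.sum_congr rfl fun g _ => ?_
        rw [hf]
        simp only
        rw [b6_neg_mob]
      rw [hsum]
      refine b6_row hz hn (hbd (-d₀)) _ (fun g hg => ?_) (fun g hg g' hg' h => ?_)
        (fun g hg => ?_) (fun d => ?_)
      · obtain ⟨g₂, hg₂, rfl⟩ := Finset.mem_image.mp hg
        exact b6_neg_det (hS g₂ (Finset.mem_filter.mp hg₂).1)
      · obtain ⟨g₂, hg₂, rfl⟩ := Finset.mem_image.mp hg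
        obtain ⟨g₃, hg₃, rfl⟩ := Finset.mem_image.mp hg'
        congr 1
        refine hinj g₂ (Finset.mem_filter.mp hg₂).1 g₃ (Finset.mem_filter.mp hg₃).1 ?_
        unfold b6_neg at h
        simp only [Prod.mk.injEq, neg_inj] at h
        exact Prod.ext h.1 h.2
      · obtain ⟨g₂, hg₂, rfl⟩ := Finset.mem_image.mp hg
        rw [hneg', ← (Finset.mem_filter.mp hg₂).2]
        rfl
      · rw [hneg']
        constructor
        · rintro ⟨g, hg, rfl⟩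
          obtain ⟨g₂, hg₂, rfl⟩ := Finset.mem_image.mp hg
          rw [Finset.mem_filter] at hg₂
          have h5 := hSann g₂ hg₂.1
          rw [hg₂.2] at h5
          refine ⟨b6_ann_neg.mpr h5.1, h5.2.1.neg_neg, ?_⟩
          have : (b6_neg g₂).2.2.2 - -d₀ = -(g₂.2.2.2 - d₀) := by
            unfold b6_neg; ring
          rw [this]
          exact h5.2.2.2.neg_right
        · rintro ⟨h5, h6, h7⟩
          have h8 : Ann z κ₁ κ₂ l c (-d) := by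
            rw [← b6_ann_neg, neg_neg]
            exact h5
          have h9 : IsCoprime c (-d) := by
            have := h6.neg_neg
            rwa [neg_neg] at this
          have h10 : (N : ℤ) ∣ -d - d₀ := by
            have : -d - d₀ = -(d - -d₀) := by ring
            rw [this]
            exact h7.neg_right
          obtain ⟨g, hg, hgc⟩ := (hrow c (-d)).mpr ⟨h8, h9, hcN, h10⟩
          refine ⟨b6_neg g, Finset.mem_image.mpr ⟨g, Finset.mem_filter.mpr ⟨hg, by rw [hgc]⟩, rfl⟩, ?_⟩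
          unfold b6_neg
          rw [hgc]
          simp
  -- assembling
  set X : ℕ := ⌊C₁ * √l⌋₊ with hX
  have hXle : (X : ℝ) ≤ C₁ * √l := Nat.floor_le (by positivity)
  have hXε : (X : ℝ) ≤ √l / ε := by
    refine hXle.trans ?_
    rw [le_div_iff₀ hε]
    calc C₁ * √l * ε ≤ C₁ * √l * (1 / C₁) := mul_le_mul_of_nonneg_left hε1 (by positivity)
      _ = √l := by field_simp
  have hbad := hL₁ l hl1 X hXε
  set Bd : Finset ℕ := (Finset.Icc 1 X).filter (fun c : ℕ => ¬ ∃ p : ℕ, p.Prime ∧ P₁ ≤ p ∧ p ∣ c ∧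
    ¬ p ^ 2 ∣ c ∧ ¬ p ∣ l ∧ ¬ p ∣ N) with hBd
  have hKX : ∀ c ∈ K, c.natAbs ≤ X := by
    intro c hc
    rw [hK, Finset.mem_image] at hc
    obtain ⟨g, hg, hgc⟩ := hc
    have h3 := (htriv c).2 ⟨g, Finset.mem_filter.mpr ⟨hg, hgc⟩⟩
    refine Nat.le_floor ?_
    rw [Nat.cast_natAbs]
    exact_mod_cast h3
  have hsum : ∑ g ∈ S, f g = ∑ c ∈ K, ∑ g ∈ S.filter (fun g => g.2.2.1 = c), f g :=
    (Finset.sum_fiberwise_of_maps_to (fun g hg => Finset.mem_image_of_mem _ hg) f).symm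
  rw [hsum]
  refine (norm_sum_le _ _).trans ?_
  -- the bound for each `c`
  have hterm : ∀ c ∈ K, ‖∑ g ∈ S.filter (fun g => g.2.2.1 = c), f g‖ ≤
      (if c = 0 then C₁ * √l else 0) + (if c.natAbs ∈ Bd then C₁ * √l else 0) +
        2 * C₂ * δ * √l := by
    intro c hc
    have h0 : ‖∑ g ∈ S.filter (fun g => g.2.2.1 = c), f g‖ ≤ C₁ * √l :=
      (b6_filter _ f hf1).trans (htriv c).1
    have hpos1 : 0 ≤ C₁ * √l := by positivity
    have hpos2 : 0 ≤ 2 * C₂ * δ * √l := by positivity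
    by_cases hc0 : c = 0
    · rw [if_pos hc0]
      split_ifs <;> linarith
    · rw [if_neg hc0]
      by_cases hcB : c.natAbs ∈ Bd
      · rw [if_pos hcB]
        linarith
      · rw [if_neg hcB]
        rw [hBd, Finset.mem_filter] at hcB
        have hn : 0 < c.natAbs := Int.natAbs_pos.mpr hc0
        have h3 : ∃ p : ℕ, p.Prime ∧ P₁ ≤ p ∧ p ∣ c.natAbs ∧ ¬ p ^ 2 ∣ c.natAbs ∧
            ¬ p ∣ l ∧ ¬ p ∣ N := by
          by_contra h4
          exact hcB ⟨Finset.mem_Icc.mpr ⟨hn, hKX c hc⟩, h4⟩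
        have := hgood c hc0 h3
        linarith
  refine (Finset.sum_le_sum hterm).trans ?_
  rw [Finset.sum_add_distrib, Finset.sum_add_distrib, Finset.sum_const, nsmul_eq_mul]
  have hKcard : (K.card : ℝ) ≤ 2 * C₁ * √l + 1 := by
    have h3 : K ⊆ Finset.Icc (-(X : ℤ)) X := by
      intro c hc
      have := hKX c hc
      rw [Finset.mem_Icc]
      constructor <;> omega
    have h4 := Finset.card_le_card h3
    rw [Int.card_Icc] at h4
    have h5 : ((X : ℤ) + 1 - -(X : ℤ)).toNat = 2 * X + 1 := by omega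
    rw [h5] at h4
    calc (K.card : ℝ) ≤ ((2 * X + 1 : ℕ) : ℝ) := by exact_mod_cast h4
      _ = 2 * X + 1 := by push_cast; ring
      _ ≤ 2 * (C₁ * √l) + 1 := by linarith
      _ = _ := by ring
  have hs1 : ∑ c ∈ K, (if c = 0 then C₁ * √l else 0) ≤ C₁ * √l := by
    rw [← Finset.sum_filter, Finset.sum_const, nsmul_eq_mul]
    have h3 : ((K.filter (fun c => c = 0)).card : ℝ) ≤ 1 := by
      have : K.filter (fun c => c = 0) ⊆ {0} := by
        intro c hc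
        rw [Finset.mem_filter] at hc
        rw [Finset.mem_singleton]
        exact hc.2
      exact_mod_cast (Finset.card_le_card this)
    calc _ ≤ 1 * (C₁ * √l) := mul_le_mul_of_nonneg_right h3 (by positivity)
      _ = _ := one_mul _
  have hs2 : ∑ c ∈ K, (if c.natAbs ∈ Bd then C₁ * √l else 0) ≤ (2 * (ε * √l)) * (C₁ * √l) := by
    rw [← Finset.sum_filter, Finset.sum_const, nsmul_eq_mul]
    refine mul_le_mul_of_nonneg_right ?_ (by positivity)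
    have h3 : K.filter (fun c => c.natAbs ∈ Bd) ⊆
        Bd.image (fun n : ℕ => (n : ℤ)) ∪ Bd.image (fun n : ℕ => -(n : ℤ)) := by
      intro c hc
      rw [Finset.mem_filter] at hc
      rw [Finset.mem_union, Finset.mem_image, Finset.mem_image]
      rcases Int.natAbs_eq c with h | h
      · exact Or.inl ⟨c.natAbs, hc.2, h.symm⟩
      · exact Or.inr ⟨c.natAbs, hc.2, h.symm⟩
    have h4 : (K.filter (fun c => c.natAbs ∈ Bd)).card ≤ 2 * Bd.card := by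
      refine (Finset.card_le_card h3).trans ((Finset.card_union_le _ _).trans ?_)
      have h5 := Finset.card_image_le (s := Bd) (f := fun n : ℕ => (n : ℤ))
      have h6 := Finset.card_image_le (s := Bd) (f := fun n : ℕ => -(n : ℤ))
      omega
    calc ((K.filter (fun c => c.natAbs ∈ Bd)).card : ℝ) ≤ ((2 * Bd.card : ℕ) : ℝ) := by
          exact_mod_cast h4
      _ = 2 * (Bd.card : ℝ) := by push_cast; ring
      _ ≤ 2 * (ε * √l) := mul_le_mul_of_nonneg_left hbad (by norm_num)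
  -- numerical conclusion
  have e1 : C₁ * √l ≤ η * l / 4 := by
    calc C₁ * √l = (4 * C₁) * √l / 4 := by ring
      _ ≤ (η * √l) * √l / 4 := by
          have := mul_le_mul_of_nonneg_right hbig (Real.sqrt_nonneg (l : ℝ))
          linarith
      _ = η * l / 4 := by rw [mul_assoc, hsqsq]
  have e2 : (2 * (ε * √l)) * (C₁ * √l) ≤ η * l / 4 := by
    calc (2 * (ε * √l)) * (C₁ * √l) = 2 * C₁ * ε * (√l * √l) := by ring
      _ = 2 * C₁ * ε * l := by rw [hsqsq]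
      _ ≤ 2 * C₁ * (η / (8 * C₁)) * l := by gcongr
      _ = η * l / 4 := by field_simp; ring
  have e3 : (K.card : ℝ) * (2 * C₂ * δ * √l) ≤ η * l / 4 := by
    have h3 : 2 * C₁ * √l + 1 ≤ 3 * C₁ * √l := by nlinarith
    calc (K.card : ℝ) * (2 * C₂ * δ * √l) ≤ (3 * C₁ * √l) * (2 * C₂ * δ * √l) :=
          mul_le_mul_of_nonneg_right (hKcard.trans h3) (by positivity)
      _ = 6 * C₁ * C₂ * δ * (√l * √l) := by ring
      _ = 6 * C₁ * C₂ * δ * l := by rw [hsqsq]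
      _ ≤ 6 * C₁ * C₂ * (η / (24 * C₁ * C₂)) * l := by gcongr
      _ = η * l / 4 := by field_simp; ring
  have hlpos : 0 ≤ η * l := by positivity
  linarith

end Pool.Agent.GL2
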