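import Pool.Agent.Lib_helper68.GL2.B2

namespace Pool.Agent.GL2

alias incomplete := incomplete_pr

end Pool.Agent.GL2
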