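import Pool.Agent.Lib_helper68.GL2.B4
import Pool.Agent.Lib_helper68.GL2.B5

namespace Pool.Agent.GL2

alias good_density := good_density_pr
alias row := row_pr
alias row_card := row_card_pr

end Pool.Agent.GL2
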