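import Mathlib

/-!
# Critical zeros of almost all twists of a Hecke eigenform: definitions (MP_77948b_nt)
-/

namespace Pool.Agent.GL2

open Complex MeasureTheory Filter Topology
open scoped MatrixGroups

/-- The `q`-series `∑ b(n) e(n z)`. -/
noncomputable def qs (b : ℕ → ℝ) (z : ℂ) : ℂ :=
  ∑' n : ℕ, (b n : ℂ) * cexp (2 * Real.pi * I * n * z)

/-- What is used about a normalised Hecke eigenform of level 1 and weight `k` with (real)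
coefficients `a`. -/
structure HData (k : ℕ) (a : ℕ → ℝ) : Prop where
  kpos : 0 < k
  zero : a 0 = 0
  one : a 1 = 1
  mul : ∀ m n : ℕ, m.Coprime n → a (m * n) = a m * a n
  hecke : ∀ p r : ℕ, p.Prime →
    a (p ^ (r + 2)) = a p * a (p ^ (r + 1)) - (p : ℝ) ^ (k - 1) * a (p ^ r)
  growth : ∃ C : ℝ, ∀ n : ℕ, |a n| ≤ C * (n : ℝ) ^ ((k : ℝ) / 2)
  bound : ∃ C : ℝ, ∀ z : ℂ, 0 < z.im → ‖qs a z‖ ≤ C * z.im ^ (-(k : ℝ) / 2)
  slash : ∀ α β γ δ : ℤ, α * δ - β * γ = 1 → ∀ z : ℂ, 0 < z.im →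
    qs a ((α * z + β) / (γ * z + δ)) = (γ * z + δ) ^ k * qs a z

/-- the coefficients prime to `m` -/
noncomputable def am (a : ℕ → ℝ) (m : ℕ) (n : ℕ) : ℝ := if n.Coprime m then a n else 0

/-- Fourier density: `e^{ku/2} ∑ χ(n) b(n) exp(-2π n e^u / q)`. -/
noncomputable def dens (k : ℕ) (b : ℕ → ℝ) {q : ℕ} (χ : DirichletCharacter ℂ q) (u : ℝ) : ℂ :=
  (Real.exp (k * u / 2) : ℂ) *
    ∑' n : ℕ, χ n * ((b n * Real.exp (-2 * Real.pi * n * Real.exp u / q) : ℝ) : ℂ)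

/-- Fourier transform of the weight. -/
noncomputable def hatw (w : ℝ → ℝ) (u : ℝ) : ℂ := ∫ t : ℝ, (w t : ℂ) * cexp (t * u * I)

/-- `∑ b(n) e(nθ)` -/
noncomputable def HH (b : ℕ → ℂ) (θ : ℝ) : ℂ :=
  ∑' n : ℕ, b n * cexp (2 * Real.pi * I * n * θ)

/-- `D_m(y) = y^k ∑_{(n,m)=1} a(n)² e^{-4π n y}` -/
noncomputable def Dm (k : ℕ) (a : ℕ → ℝ) (m : ℕ) (y : ℝ) : ℝ :=
  y ^ k * ∑' n : ℕ, (am a m n) ^ 2 * Real.exp (-4 * Real.pi * n * y)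

/-- the completely multiplicative function `n ↦ χ(n) n^{-it}` -/
noncomputable def xt {q : ℕ} (χ : DirichletCharacter ℂ q) (t : ℝ) : ℕ →* ℂ where
  toFun n := χ n * (n : ℂ) ^ (-(t * I) : ℂ)
  map_one' := by simp
  map_mul' m n := by
    rw [Nat.cast_mul, map_mul, Nat.cast_mul, Complex.natCast_mul_natCast_cpow]
    ring

/-- the inverse Euler factor at `p` as a polynomial: `1 - a(p) p^{-k/2} w + w²/p`. -/
noncomputable def Ep (k : ℕ) (a : ℕ → ℝ) (p : ℕ) (w : ℂ) : ℂ :=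
  1 - ((a p * (p : ℝ) ^ (-(k : ℝ) / 2) : ℝ) : ℂ) * w + w ^ 2 / p

/-- the mollifier on the critical line -/
noncomputable def Mol (k : ℕ) (a : ℕ → ℝ) (m : ℕ) {q : ℕ} (χ : DirichletCharacter ℂ q)
    (t : ℝ) : ℂ := ∏ p ∈ m.primeFactors, Ep k a p (xt χ t p)

/-- `Λ` is the completed twisted `L`-function: it is entire, and for `Re s > k/2 + 1`,
`Λ(s) = (q/2π)^s Γ(s) ∑ a(n) χ(n) n^{-s}`. -/
def IsCompletedL (k : ℕ) (a : ℕ → ℂ) {q : ℕ} (χ : DirichletCharacter ℂ q) (Λ : ℂ → ℂ) : Prop :=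
  Differentiable ℂ Λ ∧ ∀ s : ℂ, (k : ℝ) / 2 + 1 < s.re →
    HasSum (fun n : ℕ => ((q : ℂ) / (2 * Real.pi)) ^ s * Gamma s * (a n * χ n / (n : ℂ) ^ s)) (Λ s)

/-- `f` is a normalised Hecke eigenform of level 1 and weight `k` (with real coefficients). -/
structure IsHeckeEigenform {k : ℕ} (f : CuspForm 𝒮ℒ (k : ℤ)) : Prop where
  real : ∀ n : ℕ, ((UpperHalfPlane.qExpansion 1 f).coeff n).im = 0
  one : (UpperHalfPlane.qExpansion 1 f).coeff 1 = 1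
  mul : ∀ m n : ℕ, m.Coprime n → (UpperHalfPlane.qExpansion 1 f).coeff (m * n) =
    (UpperHalfPlane.qExpansion 1 f).coeff m * (UpperHalfPlane.qExpansion 1 f).coeff n
  hecke : ∀ p r : ℕ, p.Prime → (UpperHalfPlane.qExpansion 1 f).coeff (p ^ (r + 2)) =
    (UpperHalfPlane.qExpansion 1 f).coeff p * (UpperHalfPlane.qExpansion 1 f).coeff (p ^ (r + 1)) -
      (p : ℂ) ^ (k - 1) * (UpperHalfPlane.qExpansion 1 f).coeff (p ^ r)

/-- a smooth weight in `(α, β)` -/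
structure Wt (k : ℕ) (α β : ℝ) where
  w : ℝ → ℝ
  cont : Continuous w
  cs : HasCompactSupport w
  nonneg : ∀ t, 0 ≤ w t
  supp : ∀ t, t ∉ Set.Ioo α β → w t = 0
  C : ℝ
  decay : ∀ u, ‖hatw w u‖ ≤ C / (1 + u ^ 2)
  J : (∫ u : ℝ, hatw w u * ((Real.exp (k * u / 2) * Real.exp (-2 * Real.pi * Real.exp u) : ℝ) : ℂ)) ≠ 0

/-- the invariant function `|f|² y^k` -/
noncomputable def ph (k : ℕ) (a : ℕ → ℝ) (z : ℂ) : ℝ := ‖qs a z‖ ^ 2 * z.im ^ k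

/-- the number of coprime pairs `(c, d)` with `ε ≤ Im z / |cz+d|² < 2ε` -/
noncomputable def NN (z : ℂ) (ε : ℝ) : ℕ :=
  Nat.card {v : ℤ × ℤ // IsCoprime v.1 v.2 ∧ ε ≤ z.im / ‖v.1 * z + v.2‖ ^ 2 ∧
    z.im / ‖v.1 * z + v.2‖ ^ 2 < 2 * ε}

/-- the standard fundamental domain -/
def FD : Set ℂ := {z : ℂ | 0 < z.im ∧ 1 < ‖z‖ ∧ |z.re| < 1 / 2}

/-- the ordinates of the zeros of odd order on the critical line `Re s = k/2` in `(α, β)` -/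
def oddZ (k : ℕ) (Λ : ℂ → ℂ) (α β : ℝ) : Set ℝ :=
  {t : ℝ | α < t ∧ t < β ∧ Odd (analyticOrderNatAt Λ ((k : ℂ) / 2 + t * I))}

/-- `χ` is bad: primitive, and some interval of length `h` in `[-T, T]` contains fewer than `K`
ordinates of odd-order zeros -/
def Bad (k : ℕ) (a : ℕ → ℝ) (T h : ℝ) (K : ℕ) {q : ℕ} (χ : DirichletCharacter ℂ q) : Prop :=
  χ.IsPrimitive ∧ ∃ Λ : ℂ → ℂ, IsCompletedL k (fun n => (a n : ℂ)) χ Λ ∧
    ∃ x : ℝ, -T ≤ x ∧ x + h ≤ T ∧ (oddZ k Λ x (x + h)).encard < K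

end Pool.Agent.GL2
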