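import Pool.Agent.Lib_helper68.GL2.Defs

/-!
# Upgrade (B): all moduli.  Definitions.
-/

namespace Pool.Agent.GL2

open Complex MeasureTheory Filter Topology

/-- `γ z` for `γ = (α β; γ δ)` -/
noncomputable def mob (g : ℤ × ℤ × ℤ × ℤ) (z : ℂ) : ℂ :=
  (g.1 * z + g.2.1) / (g.2.2.1 * z + g.2.2.2)

/-- determinant one -/
def Det1 (g : ℤ × ℤ × ℤ × ℤ) : Prop := g.1 * g.2.2.2 - g.2.1 * g.2.2.1 = 1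

/-- what is used about the function `φ = |F|² y^k`, `F` a cusp form of some level `N`. -/
structure InvData (φ : ℂ → ℝ) : Prop where
  nonneg : ∀ z : ℂ, 0 < z.im → 0 ≤ φ z
  bdd : ∃ C : ℝ, ∀ z : ℂ, 0 < z.im → φ z ≤ C
  cont : ContinuousOn φ {z : ℂ | 0 < z.im}
  level : ∃ N : ℕ, 0 < N ∧ ∀ g g' : ℤ × ℤ × ℤ × ℤ, Det1 g → Det1 g' →
    (N : ℤ) ∣ g'.2.2.1 - g.2.2.1 → (N : ℤ) ∣ g'.2.2.2 - g.2.2.2 → ∀ z : ℂ, 0 < z.im →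
      φ (mob g z) = φ (mob g' z)
  decay : ∃ C c₀ : ℝ, 0 < c₀ ∧ ∀ g : ℤ × ℤ × ℤ × ℤ, Det1 g → ∀ z : ℂ, 1 / 2 ≤ z.im →
    φ (mob g z) ≤ C * Real.exp (-c₀ * z.im)

/-- the additive character `e(-l d̄ / c)`, `d̄` the inverse of `d` modulo `c` -/
noncomputable def ec (l c : ℕ) (d : ℤ) : ℂ :=
  cexp (-(2 * Real.pi * I) * l * (((d : ZMod c)⁻¹).val : ℕ) / c)

/-- `(c, d)` is in the annulus `κ₁/l ≤ Im z/|cz+d|² < κ₂/l` -/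
def Ann (z : ℂ) (κ₁ κ₂ : ℝ) (l : ℕ) (c d : ℤ) : Prop :=
  κ₁ / l ≤ z.im / ‖c * z + d‖ ^ 2 ∧ z.im / ‖c * z + d‖ ^ 2 < κ₂ / l

/-- the linear form `F(z) = ∑ c_n n^{k/2} g_m(n z)` -/
noncomputable def FF (k : ℕ) (a : ℕ → ℝ) (m : ℕ) (ι : Finset ℕ) (c : ℕ → ℂ) (z : ℂ) : ℂ :=
  ∑ n ∈ ι, c n * ((((n : ℝ) ^ ((k : ℝ) / 2) : ℝ) : ℂ) * qs (am a m) (n * z))

/-- `φ_F = |F|² y^k` -/
noncomputable def phF (k : ℕ) (a : ℕ → ℝ) (m : ℕ) (ι : Finset ℕ) (c : ℕ → ℂ) (z : ℂ) : ℝ :=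
  ‖FF k a m ι c z‖ ^ 2 * z.im ^ k

end Pool.Agent.GL2
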