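import Pool.Agent.Lib_helper68.GL2.Defs

/-! Block KEY (MP_77948b_nt, GL_2): the key inequality. -/

namespace Pool.Agent.GL2

open Complex MeasureTheory Filter Topology

/-- block KEY -/
theorem key_ineq_pr {L M V : ℝ → ℂ} (hL : Continuous L) (hM : Continuous M) (hV : Continuous V)
    {α β : ℝ} {θ : ℂ} (hθ : ‖θ‖ = 1) (hph : ∀ t ∈ Set.Ioo α β, L t = θ * ‖L t‖)
    {w : ℝ → ℝ} (hwc : Continuous w) (hcs : HasCompactSupport w) (hw0 : ∀ t, 0 ≤ w t)
    (hws : ∀ t, t ∉ Set.Ioo α β → w t = 0)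
    (happ : ∀ t, ‖V t - starRingEnd ℂ (M t) / (‖M t‖ : ℂ)‖ ≤ 1 / 2) (A : ℝ) :
    ‖∫ t : ℝ, (w t : ℂ) * (L t * M t * cexp (A * t * I))‖ ≤
      2 * ‖∫ t : ℝ, (w t : ℂ) * (L t * M t * V t)‖ := by
  set F : ℝ → ℂ := fun t => (w t : ℂ) * (L t * M t * V t) with hF
  have hFc : Continuous F := (continuous_ofReal.comp hwc).mul ((hL.mul hM).mul hV)
  have hwc' : HasCompactSupport (fun t => (w t : ℂ)) :=
    hcs.comp_left (g := fun x : ℝ => (x : ℂ)) (by simp)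
  have hFi : Integrable F := hFc.integrable_of_hasCompactSupport (hwc'.mul_right)
  have hYi : Integrable (fun t => w t * (‖L t‖ * ‖M t‖)) :=
    (hwc.mul (hL.norm.mul hM.norm)).integrable_of_hasCompactSupport hcs.mul_right
  set Y : ℝ := ∫ t, w t * (‖L t‖ * ‖M t‖) with hY
  have hYnn : 0 ≤ Y := integral_nonneg fun t => mul_nonneg (hw0 t) (by positivity)
  -- upper bound for the left side
  have c2 : ‖∫ t : ℝ, (w t : ℂ) * (L t * M t * cexp (A * t * I))‖ ≤ Y := by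
    refine (norm_integral_le_integral_norm _).trans (le_of_eq ?_)
    refine integral_congr_ae (Eventually.of_forall fun t => ?_)
    simp only
    rw [norm_mul, norm_mul, norm_mul, show (A : ℂ) * t * I = ((A * t : ℝ) : ℂ) * I by push_cast; ring,
      Complex.norm_exp_ofReal_mul_I, mul_one, Complex.norm_real, Real.norm_eq_abs,
      abs_of_nonneg (hw0 t)]
  have hMM : ∀ t, M t * (starRingEnd ℂ (M t) / (‖M t‖ : ℂ)) = (‖M t‖ : ℂ) := by
    intro t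
    rw [← mul_div_assoc, Complex.mul_conj, Complex.normSq_eq_norm_sq]
    push_cast
    rcases eq_or_ne (‖M t‖) 0 with h0 | h0
    · simp [h0]
    · have h0' : ((‖M t‖ : ℝ) : ℂ) ≠ 0 := by exact_mod_cast h0
      field_simp
  -- the error
  have c4 : ∀ t, ‖F t - θ * ((w t * (‖L t‖ * ‖M t‖) : ℝ) : ℂ)‖ ≤
      1 / 2 * (w t * (‖L t‖ * ‖M t‖)) := by
    intro t
    by_cases ht : t ∈ Set.Ioo α β
    · have e1 : θ * ((w t * (‖L t‖ * ‖M t‖) : ℝ) : ℂ) =
          (w t : ℂ) * (L t * M t * (starRingEnd ℂ (M t) / (‖M t‖ : ℂ))) := by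
        rw [mul_assoc (L t), hMM, hph t ht]
        have h1 : ‖θ * (‖L t‖ : ℂ)‖ = ‖L t‖ := by rw [norm_mul, hθ, one_mul]; simp
        rw [h1]
        push_cast
        ring
      have e4 : F t - (w t : ℂ) * (L t * M t * (starRingEnd ℂ (M t) / (‖M t‖ : ℂ))) =
          (w t : ℂ) * (L t * M t * (V t - starRingEnd ℂ (M t) / (‖M t‖ : ℂ))) := by
        simp only [hF]; ring
      rw [e1, e4, norm_mul, norm_mul, norm_mul]
      have h5 := happ t
      have h6 : ‖((w t : ℝ) : ℂ)‖ = w t := by simp [abs_of_nonneg (hw0 t)]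
      rw [h6]
      have h7 : 0 ≤ w t * (‖L t‖ * ‖M t‖) := mul_nonneg (hw0 t) (by positivity)
      calc w t * (‖L t‖ * ‖M t‖ * ‖V t - starRingEnd ℂ (M t) / (‖M t‖ : ℂ)‖)
          = (w t * (‖L t‖ * ‖M t‖)) * ‖V t - starRingEnd ℂ (M t) / (‖M t‖ : ℂ)‖ := by ring
        _ ≤ (w t * (‖L t‖ * ‖M t‖)) * (1 / 2) := mul_le_mul_of_nonneg_left h5 h7
        _ = _ := by ring
    · simp [hF, hws t ht]
  have c5 : ‖∫ t, F t‖ ≥ 1 / 2 * Y := by
    have h1 : ∫ t, (F t - θ * ((w t * (‖L t‖ * ‖M t‖) : ℝ) : ℂ)) = (∫ t, F t) - θ * Y := by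
      have hθi : Integrable (fun t => θ * ((w t * (‖L t‖ * ‖M t‖) : ℝ) : ℂ)) :=
        (hYi.ofReal (𝕜 := ℂ)).const_mul θ
      rw [integral_sub hFi hθi, integral_const_mul, integral_complex_ofReal]
    have h2 : ‖∫ t, (F t - θ * ((w t * (‖L t‖ * ‖M t‖) : ℝ) : ℂ))‖ ≤ 1 / 2 * Y := by
      rw [hY, ← integral_const_mul]
      exact norm_integral_le_of_norm_le (hYi.const_mul _) (Eventually.of_forall c4)
    rw [h1] at h2
    have h3 : ‖θ * (Y : ℂ)‖ = Y := by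
      rw [norm_mul, hθ, one_mul]; simp [abs_of_nonneg hYnn]
    have h4 : ‖θ * (Y : ℂ)‖ ≤ ‖∫ t, F t‖ + ‖(∫ t, F t) - θ * Y‖ := by
      have := norm_sub_norm_le (θ * (Y : ℂ)) (θ * (Y : ℂ) - ∫ t, F t)
      have h5 : ‖(∫ t, F t) - θ * Y‖ = ‖θ * (Y : ℂ) - ∫ t, F t‖ := norm_sub_rev _ _
      have h6 : θ * (Y : ℂ) - (θ * (Y : ℂ) - ∫ t, F t) = ∫ t, F t := by ring
      rw [h6] at this
      linarith
    linarith
  linarith

end Pool.Agent.GL2
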