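import Pool.Agent.Lib_helper68.GL2.Defs

/-! Block MSB (helper80): mean square over all Dirichlet characters in terms of values of the
exponential sum at the points `j/q`. -/

namespace Pool.Agent.GL2

open Complex MeasureTheory Filter Topology
open scoped MatrixGroups

theorem msb_orth {q : ℕ} [NeZero q] (j k : ZMod q) :
    ∑ χ : DirichletCharacter ℂ q, χ j * starRingEnd ℂ (χ k) =
      if (j = k ∧ IsUnit k) then (q.totient : ℂ) else 0 := by
  by_cases hk : IsUnit k
  · obtain ⟨u, rfl⟩ := hk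
    have h1 : ∀ χ : DirichletCharacter ℂ q, starRingEnd ℂ (χ (u : ZMod q)) =
        χ ((u : ZMod q)⁻¹) := by
      intro χ
      have h2 : starRingEnd ℂ (χ (u : ZMod q)) = χ⁻¹ (u : ZMod q) := MulChar.star_apply' χ _
      rw [h2, MulChar.inv_apply, Ring.inverse_unit, ZMod.inv_coe_unit]
    have h3 := DirichletCharacter.sum_char_inv_mul_char_eq (R := ℂ) (n := q)
      (a := (u : ZMod q)) u.isUnit j
    calc ∑ χ : DirichletCharacter ℂ q, χ j * starRingEnd ℂ (χ (u : ZMod q))
        = ∑ χ : DirichletCharacter ℂ q, χ ((u : ZMod q)⁻¹) * χ j := by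
          refine Finset.sum_congr rfl fun χ _ => ?_
          rw [h1 χ, mul_comm]
      _ = if (u : ZMod q) = j then (q.totient : ℂ) else 0 := h3
      _ = _ := by
          by_cases h : (u : ZMod q) = j
          · rw [if_pos h, if_pos ⟨h.symm, u.isUnit⟩]
          · rw [if_neg h, if_neg]
            rintro ⟨h4, _⟩
            exact h h4.symm
  · rw [if_neg (fun h => hk h.2)]
    refine Finset.sum_eq_zero fun χ _ => ?_
    rw [MulChar.map_nonunit χ hk]
    simp

theorem msb_parseval {q : ℕ} [NeZero q] (A : ZMod q → ℂ) :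
    ∑ χ : DirichletCharacter ℂ q, ‖∑ j, χ j * A j‖ ^ 2 ≤ q.totient * ∑ j, ‖A j‖ ^ 2 := by
  classical
  have h1 : ((∑ χ : DirichletCharacter ℂ q, ‖∑ j, χ j * A j‖ ^ 2 : ℝ) : ℂ) =
      ((q.totient * ∑ j, (if IsUnit j then ‖A j‖ ^ 2 else 0) : ℝ) : ℂ) := by
    push_cast
    have h2 : ∀ χ : DirichletCharacter ℂ q, ((‖∑ j, χ j * A j‖ : ℂ)) ^ 2 =
        ∑ j, ∑ k, (A j * starRingEnd ℂ (A k)) * (χ j * starRingEnd ℂ (χ k)) := by
      intro χ
      rw [← Complex.mul_conj', map_sum, Finset.sum_mul_sum]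
      refine Finset.sum_congr rfl fun j _ => Finset.sum_congr rfl fun k _ => ?_
      rw [map_mul]
      ring
    simp only [h2]
    rw [Finset.sum_comm, Finset.mul_sum]
    refine Finset.sum_congr rfl fun j _ => ?_
    rw [Finset.sum_comm]
    simp only [← Finset.mul_sum, msb_orth]
    rw [Finset.sum_eq_single j]
    · by_cases hj : IsUnit j
      · simp only [hj, and_self, if_true]
        rw [Complex.mul_conj']
        push_cast
        ring
      · simp [hj]
    · intro k _ hk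
      rw [if_neg (fun h => hk h.1.symm), mul_zero]
    · simp
  have h3 : ∑ χ : DirichletCharacter ℂ q, ‖∑ j, χ j * A j‖ ^ 2 =
      q.totient * ∑ j, (if IsUnit j then ‖A j‖ ^ 2 else 0) := Complex.ofReal_injective h1
  rw [h3]
  apply mul_le_mul_of_nonneg_left _ (Nat.cast_nonneg _)
  refine Finset.sum_le_sum fun j _ => ?_
  split_ifs
  · exact le_rfl
  · positivity

/-- the sum of `b` over a residue class -/
noncomputable def msb_A {q : ℕ} (b : ℕ → ℂ) (c : ZMod q) : ℂ :=
  ∑' n : ℕ, if (n : ZMod q) = c then b n else 0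

theorem msb_split {q : ℕ} [NeZero q] (b : ℕ → ℂ) (hb : Summable (fun n => ‖b n‖))
    (g : ZMod q → ℂ) : ∑' n : ℕ, g n * b n = ∑ c, g c * msb_A b c := by
  unfold msb_A
  have hs : ∀ c : ZMod q, Summable (fun n : ℕ => if (n : ZMod q) = c then b n else 0) := by
    intro c
    refine Summable.of_norm_bounded hb fun n => ?_
    split_ifs
    · exact le_rfl
    · rw [norm_zero]; exact norm_nonneg _
  simp_rw [← tsum_mul_left]
  rw [← Summable.tsum_finsetSum (fun c _ => (hs c).mul_left (g c))]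
  refine tsum_congr fun n => ?_
  rw [Finset.sum_eq_single (n : ZMod q)]
  · rw [if_pos rfl]
  · intro c _ hc
    rw [if_neg (fun h => hc h.symm), mul_zero]
  · intro h
    exact absurd (Finset.mem_univ _) h

theorem msb_sum_range {q : ℕ} [NeZero q] (F : ZMod q → ℝ) :
    ∑ j ∈ Finset.range q, F (j : ZMod q) = ∑ j : ZMod q, F j := by
  refine Finset.sum_nbij' (fun j : ℕ => (j : ZMod q)) (fun x => x.val) ?_ ?_ ?_ ?_ ?_
  · intro j _; exact Finset.mem_univ _
  · intro x _; exact Finset.mem_range.2 (ZMod.val_lt x)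
  · intro j hj; exact ZMod.val_cast_of_lt (Finset.mem_range.1 hj)
  · intro x _; exact ZMod.natCast_zmod_val x
  · intro j _; rfl

theorem msb_HH {q : ℕ} [NeZero q] (b : ℕ → ℂ) (hb : Summable (fun n => ‖b n‖)) (j : ℕ) :
    HH b ((j : ℝ) / q) = ∑ c : ZMod q, ZMod.stdAddChar (c * (j : ZMod q)) * msb_A b c := by
  rw [← msb_split b hb (fun c => ZMod.stdAddChar (c * (j : ZMod q)))]
  unfold HH
  refine tsum_congr fun n => ?_
  have h1 : ((n : ZMod q) * (j : ZMod q)) = (((n * j : ℕ) : ℤ) : ZMod q) := by push_cast; ring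
  rw [h1, ZMod.stdAddChar_coe, mul_comm]
  congr 2
  push_cast
  ring

theorem msb_parseval' {q : ℕ} [NeZero q] (A : ZMod q → ℂ) :
    ∑ j : ZMod q, ‖∑ c : ZMod q, ZMod.stdAddChar (c * j) * A c‖ ^ 2 = q * ∑ c, ‖A c‖ ^ 2 := by
  apply Complex.ofReal_injective
  push_cast
  have h2 : ∀ j : ZMod q, ((‖∑ c : ZMod q, ZMod.stdAddChar (c * j) * A c‖ : ℂ)) ^ 2 =
      ∑ c, ∑ d, (A c * starRingEnd ℂ (A d)) * ZMod.stdAddChar (j * (c - d)) := by
    intro j
    rw [← Complex.mul_conj', map_sum, Finset.sum_mul_sum]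
    refine Finset.sum_congr rfl fun c _ => Finset.sum_congr rfl fun d _ => ?_
    rw [map_mul (starRingEnd ℂ)]
    have h3 : starRingEnd ℂ (ZMod.stdAddChar (d * j)) = ZMod.stdAddChar (-(d * j)) := by
      rw [AddChar.map_neg_eq_conj]
    have h4 : (ZMod.stdAddChar (j * (c - d)) : ℂ) =
        ZMod.stdAddChar (c * j) * ZMod.stdAddChar (-(d * j)) := by
      rw [← AddChar.map_add_eq_mul]
      congr 1
      ring
    rw [h3, h4]
    ring
  simp only [h2]
  rw [Finset.sum_comm, Finset.mul_sum]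
  refine Finset.sum_congr rfl fun c _ => ?_
  rw [Finset.sum_comm]
  simp only [← Finset.mul_sum]
  rw [Finset.sum_eq_single c]
  · have h5 : ∑ j : ZMod q, (ZMod.stdAddChar (j * (c - c)) : ℂ) = q := by
      simp
    rw [h5, Complex.mul_conj']
    ring
  · intro d _ hd
    have h6 := AddChar.sum_mulShift (c - d) (ZMod.isPrimitive_stdAddChar q)
    rw [if_neg (sub_ne_zero.2 (Ne.symm hd))] at h6
    have h7 : ∑ j : ZMod q, (ZMod.stdAddChar (j * (c - d)) : ℂ) = 0 := by
      rw [← Nat.cast_zero (R := ℂ), ← h6]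
    rw [h7, mul_zero]
  · intro h
    exact absurd (Finset.mem_univ _) h

/-- block MSB -/
theorem msb_pr {q : ℕ} [NeZero q] (b : ℕ → ℂ) (hb : Summable (fun n => ‖b n‖)) :
    ∑ χ : DirichletCharacter ℂ q, ‖∑' n : ℕ, χ n * b n‖ ^ 2 ≤
      q.totient * ((1 / (q : ℝ)) * ∑ j ∈ Finset.range q, ‖HH b ((j : ℝ) / q)‖ ^ 2) := by
  have hq0 : (q : ℝ) ≠ 0 := Nat.cast_ne_zero.2 (NeZero.ne q)
  have h1 : ∑ j ∈ Finset.range q, ‖HH b ((j : ℝ) / q)‖ ^ 2 = q * ∑ c, ‖msb_A (q := q) b c‖ ^ 2 := by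
    rw [← msb_parseval', ← msb_sum_range (fun j : ZMod q =>
      ‖∑ c : ZMod q, ZMod.stdAddChar (c * j) * msb_A b c‖ ^ 2)]
    refine Finset.sum_congr rfl fun j _ => ?_
    rw [msb_HH b hb]
  rw [h1, ← mul_assoc (1 / (q : ℝ)), one_div_mul_cancel hq0, one_mul]
  refine le_trans (le_of_eq ?_) (msb_parseval (msb_A b))
  refine Finset.sum_congr rfl fun χ _ => ?_
  rw [← msb_split b hb (fun c => χ c)]

end Pool.Agent.GL2
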