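import Pool.Agent.Lib_helper68.GL2.Defs

/-! Block OFF of MP_77948b_nt (m = 2): off-diagonal terms of a whole set of moduli. -/

namespace Pool.Agent.GL2

open Complex MeasureTheory Filter Topology

/-- `e(x)` -/
noncomputable def offe (x : ℝ) : ℂ := cexp (2 * Real.pi * I * x)

theorem offe_norm (x : ℝ) : ‖offe x‖ = 1 := by
  unfold offe
  rw [show (2 * Real.pi * I * x : ℂ) = ((2 * Real.pi * x : ℝ) : ℂ) * I by push_cast; ring]
  exact Complex.norm_exp_ofReal_mul_I _

theorem offe_add (x y : ℝ) : offe (x + y) = offe x * offe y := by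
  unfold offe
  rw [← Complex.exp_add]
  congr 1
  push_cast
  ring

theorem offe_conj (x : ℝ) : starRingEnd ℂ (offe x) = offe (-x) := by
  unfold offe
  rw [← Complex.exp_conj]
  congr 1
  simp only [map_mul, conj_ofReal, conj_I, map_ofNat]
  push_cast
  ring

theorem offe_continuous (c : ℝ) : Continuous fun θ : ℝ => offe (c * θ) := by
  unfold offe
  fun_prop

theorem off_HH (b : ℕ → ℂ) (θ : ℝ) : HH b θ = ∑' n : ℕ, b n * offe (n * θ) := by
  unfold HH offe
  refine tsum_congr fun n => ?_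
  congr 2
  push_cast
  ring

/-- the shifted correlation -/
noncomputable def offs (b : ℕ → ℂ) (l : ℕ) : ℂ := ∑' n : ℕ, b (n + l) * starRingEnd ℂ (b n)

theorem off_G_summable (x : ℕ → ℂ) (hx : Summable fun n => ‖x n‖) :
    Summable (fun z : ℕ × ℕ => x (z.2 + (z.1 + 1)) * starRingEnd ℂ (x z.2)) := by
  have h1 : Summable (fun z : ℕ × ℕ => ‖x z.1‖ * ‖x z.2‖) :=
    hx.mul_of_nonneg hx (fun _ => norm_nonneg _) (fun _ => norm_nonneg _)
  have hinj : Function.Injective (fun z : ℕ × ℕ => (z.2 + (z.1 + 1), z.2)) := by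
    rintro ⟨a, b⟩ ⟨c, d⟩ h
    simp only [Prod.mk.injEq] at h
    obtain ⟨h1, h2⟩ := h
    subst h2
    have : a = c := by omega
    rw [this]
  have h2 := h1.comp_injective hinj
  apply Summable.of_norm
  refine h2.congr fun z => ?_
  simp only [Function.comp]
  rw [norm_mul, RCLike.norm_conj]

theorem off_fin (x : ℕ → ℂ) (N : ℕ) : ‖∑ k ∈ Finset.range N, x k‖ ^ 2 =
    ∑ k ∈ Finset.range N, ‖x k‖ ^ 2 +
      2 * (∑ n ∈ Finset.range N, ∑ k ∈ Finset.range n, x n * starRingEnd ℂ (x k)).re := by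
  induction N with
  | zero => simp
  | succ N ih =>
    rw [Finset.sum_range_succ, Finset.sum_range_succ (fun k => ‖x k‖ ^ 2),
      Finset.sum_range_succ (fun n => ∑ k ∈ Finset.range n, x n * starRingEnd ℂ (x k)), add_re]
    have h1 : ‖∑ k ∈ Finset.range N, x k + x N‖ ^ 2 = ‖∑ k ∈ Finset.range N, x k‖ ^ 2 +
        ‖x N‖ ^ 2 + 2 * (x N * starRingEnd ℂ (∑ k ∈ Finset.range N, x k)).re := by
      rw [← Complex.normSq_eq_norm_sq, Complex.normSq_add, Complex.normSq_eq_norm_sq,
        Complex.normSq_eq_norm_sq]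
      have : ((∑ k ∈ Finset.range N, x k) * starRingEnd ℂ (x N)).re =
          (x N * starRingEnd ℂ (∑ k ∈ Finset.range N, x k)).re := by
        rw [← Complex.conj_re, map_mul, Complex.conj_conj, mul_comm]
      rw [this]
    rw [h1, ih, map_sum, Finset.mul_sum]
    ring

theorem off_star (x : ℕ → ℂ) (hx : Summable fun n => ‖x n‖) :
    ‖∑' k, x k‖ ^ 2 = ∑' k, ‖x k‖ ^ 2 +
      2 * (∑' h : ℕ, ∑' k : ℕ, x (k + (h + 1)) * starRingEnd ℂ (x k)).re := by
  have hG := off_G_summable x hx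
  have hx2 : Summable fun n => ‖x n‖ ^ 2 := by
    have h1 : Summable (fun z : ℕ × ℕ => ‖x z.1‖ * ‖x z.2‖) :=
      hx.mul_of_nonneg hx (fun _ => norm_nonneg _) (fun _ => norm_nonneg _)
    have h2 := h1.comp_injective (i := fun n : ℕ => (n, n)) (fun a b h => (Prod.mk.inj h).1)
    refine h2.congr fun n => ?_
    simp only [Function.comp]
    ring
  set F : ℕ → ℂ := fun n => ∑ k ∈ Finset.range n, x n * starRingEnd ℂ (x k) with hF
  have hF1 : ∀ n, F (n + 1) = ∑ kl ∈ Finset.HasAntidiagonal.antidiagonal n,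
      x (kl.2 + (kl.1 + 1)) * starRingEnd ℂ (x kl.2) := by
    intro n
    rw [Finset.Nat.sum_antidiagonal_eq_sum_range_succ_mk]
    simp only [hF]
    rw [← Finset.sum_range_reflect]
    refine Finset.sum_congr rfl fun k hk => ?_
    have hk' : k ≤ n := Nat.lt_succ_iff.1 (Finset.mem_range.1 hk)
    have e1 : n + 1 - 1 - k = n - k := by omega
    have e2 : n - k + (k + 1) = n + 1 := by omega
    simp only [e1, e2]
  have hS : HasSum (fun n => F (n + 1))
      (∑' z : ℕ × ℕ, x (z.2 + (z.1 + 1)) * starRingEnd ℂ (x z.2)) := by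
    have h1 := hG.hasSum
    have h2 := (Finset.HasAntidiagonal.sigmaAntidiagonalEquivProd (A := ℕ)).hasSum_iff.2 h1
    have h3 := h2.sigma (g := fun n => F (n + 1)) (fun n => by
      rw [hF1 n, ← Finset.sum_finset_coe]
      exact hasSum_fintype _)
    exact h3
  have hS' : HasSum F (∑' z : ℕ × ℕ, x (z.2 + (z.1 + 1)) * starRingEnd ℂ (x z.2)) := by
    rw [← hasSum_nat_add_iff' 1]
    simpa [hF] using hS
  have h1 : Tendsto (fun N => ‖∑ k ∈ Finset.range N, x k‖ ^ 2) atTop (𝓝 (‖∑' k, x k‖ ^ 2)) :=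
    (hx.of_norm.hasSum.tendsto_sum_nat.norm).pow 2
  have h2 : Tendsto (fun N => ∑ k ∈ Finset.range N, ‖x k‖ ^ 2 +
      2 * (∑ n ∈ Finset.range N, F n).re) atTop
      (𝓝 (∑' k, ‖x k‖ ^ 2 +
        2 * (∑' z : ℕ × ℕ, x (z.2 + (z.1 + 1)) * starRingEnd ℂ (x z.2)).re)) := by
    refine (hx2.hasSum.tendsto_sum_nat).add (Tendsto.const_mul 2 ?_)
    exact (Complex.continuous_re.tendsto _).comp hS'.tendsto_sum_nat
  have h3 := tendsto_nhds_unique h1 (h2.congr fun N => (off_fin x N).symm)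
  rw [h3, hG.tsum_prod]

theorem off_s_summable (b : ℕ → ℂ) (hb : Summable fun n => ‖b n‖) :
    Summable (fun h : ℕ => ‖offs b (h + 1)‖) := by
  have hG := (off_G_summable b hb).norm
  have h1 := hG.prod
  refine Summable.of_nonneg_of_le (fun _ => norm_nonneg _) (fun h => ?_) h1
  unfold offs
  exact norm_tsum_le_tsum_norm (hG.prod_factor h)

/-- expansion of `|HH b|^2` -/
theorem off_expand (b : ℕ → ℂ) (hb : Summable fun n => ‖b n‖) (θ : ℝ) :
    ‖HH b θ‖ ^ 2 = ∑' k, ‖b k‖ ^ 2 +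
      2 * (∑' h : ℕ, offe ((h + 1 : ℕ) * θ) * offs b (h + 1)).re := by
  have hx : Summable fun n : ℕ => ‖b n * offe (n * θ)‖ := by
    simpa [norm_mul, offe_norm] using hb
  rw [off_HH, off_star _ hx]
  congr 1
  · refine tsum_congr fun k => ?_
    rw [norm_mul, offe_norm, mul_one]
  · congr 2
    refine tsum_congr fun h => ?_
    unfold offs
    rw [← tsum_mul_left]
    refine tsum_congr fun k => ?_
    rw [map_mul, offe_conj]
    have : offe (((k + (h + 1) : ℕ) : ℝ) * θ) = offe ((h + 1 : ℕ) * θ) * offe (k * θ) := by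
      rw [← offe_add]
      congr 1
      push_cast
      ring
    rw [this]
    have h2 : offe (k * θ) * offe (-(k * θ)) = 1 := by
      rw [← offe_add]
      simp [offe]
    calc b (k + (h + 1)) * (offe ((h + 1 : ℕ) * θ) * offe (k * θ)) *
          (starRingEnd ℂ (b k) * offe (-(k * θ)))
        = offe ((h + 1 : ℕ) * θ) * (b (k + (h + 1)) * starRingEnd ℂ (b k)) *
          (offe (k * θ) * offe (-(k * θ))) := by ring
      _ = _ := by rw [h2, mul_one]

theorem off_root {q : ℕ} (hq : 0 < q) (h : ℕ) :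
    ∑ j ∈ Finset.range q, offe (h * ((j : ℝ) / q)) = if q ∣ h then (q : ℂ) else 0 := by
  have hqR : (q : ℝ) ≠ 0 := by exact_mod_cast hq.ne'
  have hqC : (q : ℂ) ≠ 0 := by exact_mod_cast hq.ne'
  have hpow : ∀ j : ℕ, offe (h * ((j : ℝ) / q)) = offe ((h : ℝ) / q) ^ j := by
    intro j
    unfold offe
    rw [← Complex.exp_nat_mul]
    congr 1
    push_cast
    ring
  simp only [hpow]
  split_ifs with hd
  · obtain ⟨c, rfl⟩ := hd
    have h1 : offe (((q * c : ℕ) : ℝ) / q) = 1 := by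
      unfold offe
      rw [Complex.exp_eq_one_iff]
      refine ⟨c, ?_⟩
      push_cast
      field_simp
    rw [h1]
    simp
  · have h1 : offe ((h : ℝ) / q) ≠ 1 := by
      intro h2
      unfold offe at h2
      rw [Complex.exp_eq_one_iff] at h2
      obtain ⟨n, hn⟩ := h2
      apply hd
      have h3 : (2 * Real.pi * I : ℂ) ≠ 0 := by
        simp [Real.pi_ne_zero]
      have h4 : ((h : ℝ) / q : ℝ) = (n : ℝ) := by
        have h5 : (2 * Real.pi * I : ℂ) * (((h : ℝ) / q : ℝ) : ℂ) = 2 * Real.pi * I * (n : ℂ) := by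
          rw [hn]; ring
        have h6 := mul_left_cancel₀ h3 h5
        exact_mod_cast h6
      have h7 : (h : ℝ) = n * q := by
        field_simp at h4
        linarith
      have h8 : (h : ℤ) = n * q := by exact_mod_cast h7
      exact Int.natCast_dvd_natCast.1 ⟨n, by rw [h8]; ring⟩
    have h2 := mul_geom_sum (offe ((h : ℝ) / q)) q
    have h3 : offe ((h : ℝ) / q) ^ q = 1 := by
      unfold offe
      rw [← Complex.exp_nat_mul, Complex.exp_eq_one_iff]
      refine ⟨h, ?_⟩
      push_cast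
      field_simp
    rw [h3, sub_self] at h2
    rcases mul_eq_zero.1 h2 with h4 | h4
    · exact absurd (sub_eq_zero.1 h4) h1
    · exact h4

theorem off_inj {q : ℕ} (hq : 0 < q) : Function.Injective (fun i : ℕ => q * (i + 1) - 1) := by
  intro i j h
  simp only at h
  have h1 : 0 < q * (i + 1) := Nat.mul_pos hq (Nat.succ_pos i)
  have h2 : 0 < q * (j + 1) := Nat.mul_pos hq (Nat.succ_pos j)
  have h3 : q * (i + 1) = q * (j + 1) := by omega
  have := Nat.eq_of_mul_eq_mul_left hq h3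
  omega

theorem off_s_summable_q (b : ℕ → ℂ) (hb : Summable fun n => ‖b n‖) {q : ℕ} (hq : 0 < q) :
    Summable (fun i : ℕ => ‖offs b (q * (i + 1))‖) := by
  have h1 := (off_s_summable b hb).comp_injective (off_inj hq)
  refine h1.congr fun i => ?_
  have h2 : 0 < q * (i + 1) := Nat.mul_pos hq (Nat.succ_pos i)
  simp only [Function.comp]
  rw [Nat.sub_add_cancel h2]

theorem off_mean (b : ℕ → ℂ) (hb : Summable fun n => ‖b n‖) {q : ℕ} (hq : 0 < q) :
    (1 / (q : ℝ)) * ∑ j ∈ Finset.range q, ‖HH b ((j : ℝ) / q)‖ ^ 2 ≤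
      ∑' k, ‖b k‖ ^ 2 + 2 * ∑' i : ℕ, ‖offs b (q * (i + 1))‖ := by
  have hqR : (0 : ℝ) < q := by exact_mod_cast hq
  have hs := off_s_summable b hb
  have hsθ : ∀ θ : ℝ, Summable fun h : ℕ => offe ((h + 1 : ℕ) * θ) * offs b (h + 1) := by
    intro θ
    apply Summable.of_norm
    simpa [norm_mul, offe_norm] using hs
  have h1 : ∑ j ∈ Finset.range q, ‖HH b ((j : ℝ) / q)‖ ^ 2 =
      q * ∑' k, ‖b k‖ ^ 2 +
        2 * (∑' h : ℕ, (if q ∣ h + 1 then (q : ℂ) else 0) * offs b (h + 1)).re := by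
    calc ∑ j ∈ Finset.range q, ‖HH b ((j : ℝ) / q)‖ ^ 2
        = ∑ j ∈ Finset.range q, (∑' k, ‖b k‖ ^ 2 +
          2 * (∑' h : ℕ, offe ((h + 1 : ℕ) * ((j : ℝ) / q)) * offs b (h + 1)).re) :=
          Finset.sum_congr rfl fun j _ => off_expand b hb _
      _ = q * ∑' k, ‖b k‖ ^ 2 + 2 * (∑ j ∈ Finset.range q,
          ∑' h : ℕ, offe ((h + 1 : ℕ) * ((j : ℝ) / q)) * offs b (h + 1)).re := by
          rw [Finset.sum_add_distrib, ← Finset.mul_sum, Complex.re_sum]
          simp
      _ = _ := by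
          congr 3
          rw [← Summable.tsum_finsetSum (fun j _ => hsθ _)]
          refine tsum_congr fun h => ?_
          rw [← Finset.sum_mul, off_root hq (h + 1)]
  have h2 : (∑' h : ℕ, (if q ∣ h + 1 then (q : ℂ) else 0) * offs b (h + 1)).re ≤
      q * ∑' i : ℕ, ‖offs b (q * (i + 1))‖ := by
    have hs' : Summable fun h : ℕ => ‖(if q ∣ h + 1 then (q : ℂ) else 0) * offs b (h + 1)‖ := by
      refine Summable.of_nonneg_of_le (fun _ => norm_nonneg _) (fun h => ?_) (hs.mul_left (q : ℝ))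
      rw [norm_mul]
      apply mul_le_mul_of_nonneg_right _ (norm_nonneg _)
      split_ifs
      · simp
      · simp
    refine (Complex.re_le_norm _).trans ((norm_tsum_le_tsum_norm hs').trans ?_)
    rw [← tsum_mul_left]
    refine le_of_eq ?_
    have h3 : ∀ i : ℕ, (q : ℝ) * ‖offs b (q * (i + 1))‖ =
        (fun h : ℕ => ‖(if q ∣ h + 1 then (q : ℂ) else 0) * offs b (h + 1)‖)
          (q * (i + 1) - 1) := by
      intro i
      have h4 : 0 < q * (i + 1) := Nat.mul_pos hq (Nat.succ_pos i)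
      simp only
      rw [Nat.sub_add_cancel h4, if_pos (Nat.dvd_mul_right q _), norm_mul, Complex.norm_natCast]
    rw [tsum_congr h3]
    refine ((off_inj hq).tsum_eq
      (f := fun h : ℕ => ‖(if q ∣ h + 1 then (q : ℂ) else 0) * offs b (h + 1)‖) ?_).symm
    intro h hh
    have h5 : q ∣ h + 1 := by
      by_contra hne
      apply hh
      simp [hne]
    obtain ⟨c, hc⟩ := h5
    have hc0 : c ≠ 0 := by rintro rfl; omega
    refine ⟨c - 1, ?_⟩
    simp only
    rw [Nat.sub_add_cancel (Nat.pos_of_ne_zero hc0), ← hc]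
    rfl
  rw [h1]
  calc (1 / (q : ℝ)) * (q * ∑' k, ‖b k‖ ^ 2 +
        2 * (∑' h : ℕ, (if q ∣ h + 1 then (q : ℂ) else 0) * offs b (h + 1)).re)
      ≤ (1 / (q : ℝ)) * (q * ∑' k, ‖b k‖ ^ 2 + 2 * (q * ∑' i : ℕ, ‖offs b (q * (i + 1))‖)) := by
        gcongr
    _ = _ := by
        field_simp

theorem off_int (n : ℤ) : ∫ θ in (0 : ℝ)..1, offe (n * θ) = if n = 0 then 1 else 0 := by
  split_ifs with h
  · subst h
    simp [offe]
  · have hc : (2 * Real.pi * I * n : ℂ) ≠ 0 := by
      simp [Real.pi_ne_zero, h]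
    have h1 : ∀ θ : ℝ, offe (n * θ) = cexp ((2 * Real.pi * I * n : ℂ) * θ) := by
      intro θ
      unfold offe
      congr 1
      push_cast
      ring
    simp only [h1]
    rw [integral_exp_mul_complex hc]
    have h2 : cexp ((2 * Real.pi * I * n : ℂ) * ((1 : ℝ) : ℂ)) = 1 := by
      rw [Complex.exp_eq_one_iff]
      exact ⟨n, by push_cast; ring⟩
    rw [h2]
    simp

theorem off_HH_continuous (b : ℕ → ℂ) (hb : Summable fun n => ‖b n‖) : Continuous (HH b) := by
  have h1 : HH b = fun θ : ℝ => ∑' n : ℕ, b n * offe (n * θ) := funext (off_HH b)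
  rw [h1]
  refine continuous_tsum (u := fun n => ‖b n‖) (fun n => ?_) hb (fun n θ => ?_)
  · exact continuous_const.mul (offe_continuous _)
  · rw [norm_mul, offe_norm, mul_one]

theorem off_HH_le (b : ℕ → ℂ) (hb : Summable fun n => ‖b n‖) (θ : ℝ) :
    ‖HH b θ‖ ≤ ∑' n, ‖b n‖ := by
  rw [off_HH]
  have h1 : Summable fun n : ℕ => ‖b n * offe (n * θ)‖ := by
    simpa [norm_mul, offe_norm] using hb
  refine (norm_tsum_le_tsum_norm h1).trans (le_of_eq ?_)
  refine tsum_congr fun n => ?_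
  rw [norm_mul, offe_norm, mul_one]

/-- termwise integration against a continuous function -/
theorem off_termwise (b : ℕ → ℂ) (hb : Summable fun n => ‖b n‖) (g : ℝ → ℂ) (hg : Continuous g)
    (C : ℝ) (hC : ∀ θ, ‖g θ‖ ≤ C) :
    HasSum (fun n : ℕ => b n * ∫ θ in (0 : ℝ)..1, offe (n * θ) * g θ)
      (∫ θ in (0 : ℝ)..1, HH b θ * g θ) := by
  have hC0 : 0 ≤ C := (norm_nonneg _).trans (hC 0)
  have h1 : HasSum (fun n : ℕ => ∫ θ in (0 : ℝ)..1, b n * (offe (n * θ) * g θ))
      (∫ θ in (0 : ℝ)..1, HH b θ * g θ) := by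
    refine intervalIntegral.hasSum_integral_of_dominated_convergence
      (fun n _ => ‖b n‖ * C) (fun n => ?_) (fun n => ?_) ?_ ?_ ?_
    · exact (continuous_const.mul ((offe_continuous _).mul hg)).aestronglyMeasurable
    · refine Eventually.of_forall fun θ _ => ?_
      rw [norm_mul, norm_mul, offe_norm, one_mul]
      exact mul_le_mul_of_nonneg_left (hC θ) (norm_nonneg _)
    · exact Eventually.of_forall fun θ _ => hb.mul_right C
    · exact intervalIntegrable_const
    · refine Eventually.of_forall fun θ _ => ?_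
      have h2 : Summable fun n : ℕ => b n * offe (n * θ) := by
        apply Summable.of_norm
        simpa [norm_mul, offe_norm] using hb
      have h3 := h2.hasSum.mul_right (g θ)
      rw [← off_HH] at h3
      simpa only [mul_assoc] using h3
  simpa [intervalIntegral.integral_const_mul] using h1

theorem off_coef (c : ℕ → ℂ) (hc : Summable fun n => ‖c n‖) (m : ℕ) :
    ∫ θ in (0 : ℝ)..1, HH c θ * offe (-(m * θ)) = c m := by
  have h1 := off_termwise c hc (fun θ => offe (-(m * θ)))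
    (by
      have := offe_continuous (-(m : ℝ))
      simpa [neg_mul] using this) 1 (fun θ => (offe_norm _).le)
  have h2 : ∀ n : ℕ, ∫ θ in (0 : ℝ)..1, offe (n * θ) * offe (-(m * θ)) =
      if n = m then (1 : ℂ) else 0 := by
    intro n
    have h3 : ∀ θ : ℝ, offe (n * θ) * offe (-(m * θ)) = offe (((n : ℤ) - (m : ℤ) : ℤ) * θ) := by
      intro θ
      rw [← offe_add]
      congr 1
      push_cast
      ring
    simp only [h3]
    rw [off_int]
    by_cases h : n = m
    · subst h; simp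
    · rw [if_neg h, if_neg]
      intro h4
      apply h
      omega
  simp only [h2] at h1
  have h3 : HasSum (fun n : ℕ => c n * if n = m then (1 : ℂ) else 0) (c m) := by
    have := hasSum_single (f := fun n : ℕ => c n * if n = m then (1 : ℂ) else 0) m
      (fun n hn => by simp [hn])
    simpa using this
  exact h1.unique h3

theorem off_conj_int (f : ℝ → ℂ) : starRingEnd ℂ (∫ θ in (0 : ℝ)..1, f θ) =
    ∫ θ in (0 : ℝ)..1, starRingEnd ℂ (f θ) := by
  rw [intervalIntegral.integral_of_le zero_le_one, intervalIntegral.integral_of_le zero_le_one,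
    ← integral_conj]

/-- polarised Parseval -/
theorem off_polar (b c : ℕ → ℂ) (hb : Summable fun n => ‖b n‖) (hc : Summable fun n => ‖c n‖) :
    HasSum (fun n : ℕ => b n * starRingEnd ℂ (c n))
      (∫ θ in (0 : ℝ)..1, HH b θ * starRingEnd ℂ (HH c θ)) := by
  have h1 := off_termwise b hb (fun θ => starRingEnd ℂ (HH c θ))
    (Complex.continuous_conj.comp (off_HH_continuous c hc)) (∑' n, ‖c n‖)
    (fun θ => by rw [RCLike.norm_conj]; exact off_HH_le c hc θ)
  have h2 : ∀ n : ℕ, ∫ θ in (0 : ℝ)..1, offe (n * θ) * starRingEnd ℂ (HH c θ) =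
      starRingEnd ℂ (c n) := by
    intro n
    rw [← off_coef c hc n, off_conj_int]
    refine intervalIntegral.integral_congr fun θ _ => ?_
    show offe (n * θ) * starRingEnd ℂ (HH c θ) = starRingEnd ℂ (HH c θ * offe (-(n * θ)))
    rw [map_mul, offe_conj, neg_neg, mul_comm]
  simp only [h2] at h1
  exact h1

theorem off_shift (b : ℕ → ℂ) (hb : Summable fun n => ‖b n‖) (l : ℕ) :
    ∫ θ in (0 : ℝ)..1, (HH b θ * starRingEnd ℂ (HH b θ)) * offe (-(l * θ)) = offs b l := by
  set c : ℕ → ℂ := fun n => if l ≤ n then b (n - l) else 0 with hc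
  have hinj : Function.Injective (fun n : ℕ => n + l) := add_left_injective l
  have hsupp : ∀ n ∉ Set.range (fun n : ℕ => n + l), c n = 0 := by
    intro n hn
    simp only [hc]
    rw [if_neg]
    intro h
    exact hn ⟨n - l, Nat.sub_add_cancel h⟩
  have hcn : ∀ n : ℕ, c (n + l) = b n := by
    intro n
    simp [hc]
  have hcs : Summable fun n => ‖c n‖ := by
    rw [← hinj.summable_iff]
    · refine hb.congr fun n => ?_
      simp only [Function.comp]
      rw [hcn]
    · intro n hn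
      rw [hsupp n hn, norm_zero]
  have hHc : ∀ θ : ℝ, HH c θ = offe (l * θ) * HH b θ := by
    intro θ
    rw [off_HH, off_HH, ← tsum_mul_left]
    symm
    have h1 : ∀ n : ℕ, offe (l * θ) * (b n * offe (n * θ)) =
        (fun n : ℕ => c n * offe (n * θ)) (n + l) := by
      intro n
      simp only
      rw [hcn]
      have : offe (((n + l : ℕ) : ℝ) * θ) = offe (l * θ) * offe (n * θ) := by
        rw [← offe_add]
        congr 1
        push_cast
        ring
      rw [this]
      ring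
    rw [tsum_congr h1]
    refine hinj.tsum_eq (f := fun n : ℕ => c n * offe (n * θ)) ?_
    intro n hn
    by_contra h
    apply hn
    simp only
    rw [hsupp n h, zero_mul]
  have h2 := off_polar b c hb hcs
  have h3 : ∫ θ in (0 : ℝ)..1, HH b θ * starRingEnd ℂ (HH c θ) =
      ∫ θ in (0 : ℝ)..1, (HH b θ * starRingEnd ℂ (HH b θ)) * offe (-(l * θ)) := by
    refine intervalIntegral.integral_congr fun θ _ => ?_
    show HH b θ * starRingEnd ℂ (HH c θ) = (HH b θ * starRingEnd ℂ (HH b θ)) * offe (-(l * θ))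
    rw [hHc, map_mul, offe_conj]
    ring
  rw [h3] at h2
  rw [← h2.tsum_eq]
  unfold offs
  have h4 : ∀ n : ℕ, b (n + l) * starRingEnd ℂ (b n) =
      (fun n : ℕ => b n * starRingEnd ℂ (c n)) (n + l) := by
    intro n
    simp only
    rw [hcn]
  rw [tsum_congr h4]
  symm
  refine hinj.tsum_eq (f := fun n : ℕ => b n * starRingEnd ℂ (c n)) ?_
  intro n hn
  by_contra h
  apply hn
  simp only
  rw [hsupp n h, map_zero, mul_zero]

/-- Bessel -/
theorem off_bessel (b : ℕ → ℂ) (hb : Summable fun n => ‖b n‖) {B : ℝ}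
    (hB : ∀ θ : ℝ, ‖HH b θ‖ ≤ B) (K : Finset ℕ) : ∑ l ∈ K, ‖offs b l‖ ^ 2 ≤ B ^ 4 := by
  classical
  set d : ℕ → ℂ := fun n => if n ∈ K then offs b n else 0 with hd
  have hds : Summable fun n => ‖d n‖ := by
    apply summable_of_ne_finset_zero (s := K)
    intro n hn
    simp [hd, hn]
  set E : ℝ := ∑ l ∈ K, ‖offs b l‖ ^ 2 with hE
  have hHd : ∀ θ : ℝ, HH d θ = ∑ l ∈ K, offs b l * offe (l * θ) := by
    intro θ
    rw [off_HH, tsum_eq_sum (s := K)]
    · refine Finset.sum_congr rfl fun l hl => ?_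
      simp [hd, hl]
    · intro n hn
      simp [hd, hn]
  -- `∫ |HH d|² = E`
  have h1 : ∫ θ in (0 : ℝ)..1, HH d θ * starRingEnd ℂ (HH d θ) = (E : ℂ) := by
    rw [← (off_polar d d hds hds).tsum_eq, tsum_eq_sum (s := K)]
    · rw [hE]
      push_cast
      refine Finset.sum_congr rfl fun l hl => ?_
      simp only [hd, hl, if_true]
      rw [Complex.mul_conj']
    · intro n hn
      simp [hd, hn]
  have h1' : ∫ θ in (0 : ℝ)..1, ‖HH d θ‖ ^ 2 = E := by
    have : ((∫ θ in (0 : ℝ)..1, ‖HH d θ‖ ^ 2 : ℝ) : ℂ) = (E : ℂ) := by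
      rw [← h1, ← intervalIntegral.integral_ofReal]
      refine intervalIntegral.integral_congr fun θ _ => ?_
      show ((‖HH d θ‖ ^ 2 : ℝ) : ℂ) = HH d θ * starRingEnd ℂ (HH d θ)
      rw [Complex.mul_conj']
      push_cast
      rfl
    exact_mod_cast this
  -- `∫ |HH b|² conj (HH d) = E`
  have hcb : Continuous (HH b) := off_HH_continuous b hb
  have hcd : Continuous (HH d) := off_HH_continuous d hds
  have h2 : ∫ θ in (0 : ℝ)..1, (HH b θ * starRingEnd ℂ (HH b θ)) * starRingEnd ℂ (HH d θ) =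
      (E : ℂ) := by
    have e1 : ∀ θ : ℝ, (HH b θ * starRingEnd ℂ (HH b θ)) * starRingEnd ℂ (HH d θ) =
        ∑ l ∈ K, starRingEnd ℂ (offs b l) *
          ((HH b θ * starRingEnd ℂ (HH b θ)) * offe (-(l * θ))) := by
      intro θ
      rw [hHd, map_sum, Finset.mul_sum]
      refine Finset.sum_congr rfl fun l _ => ?_
      rw [map_mul, offe_conj]
      ring
    simp only [e1]
    rw [intervalIntegral.integral_finsetSum]
    · rw [hE]
      push_cast
      refine Finset.sum_congr rfl fun l _ => ?_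
      rw [intervalIntegral.integral_const_mul, off_shift b hb l, mul_comm, Complex.mul_conj']
    · intro l _
      apply Continuous.intervalIntegrable
      have := offe_continuous (-(l : ℝ))
      simp only [neg_mul] at this
      exact continuous_const.mul ((hcb.mul (Complex.continuous_conj.comp hcb)).mul this)
  have hB0 : 0 ≤ B := (norm_nonneg _).trans (hB 0)
  have h3 : E ≤ ∫ θ in (0 : ℝ)..1, (B ^ 4 + ‖HH d θ‖ ^ 2) / 2 := by
    have e1 : E = ‖∫ θ in (0 : ℝ)..1,
        (HH b θ * starRingEnd ℂ (HH b θ)) * starRingEnd ℂ (HH d θ)‖ := by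
      rw [h2, Complex.norm_real, Real.norm_eq_abs, abs_of_nonneg]
      exact Finset.sum_nonneg fun _ _ => by positivity
    rw [e1]
    refine (intervalIntegral.norm_integral_le_integral_norm zero_le_one).trans ?_
    apply intervalIntegral.integral_mono_on zero_le_one
    · apply Continuous.intervalIntegrable
      exact ((hcb.mul (Complex.continuous_conj.comp hcb)).mul
        (Complex.continuous_conj.comp hcd)).norm
    · apply Continuous.intervalIntegrable
      exact (continuous_const.add (hcd.norm.pow 2)).div_const 2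
    · intro θ _
      rw [norm_mul, norm_mul, RCLike.norm_conj, RCLike.norm_conj]
      have e2 : ‖HH b θ‖ * ‖HH b θ‖ ≤ B ^ 2 := by
        rw [← sq]
        exact pow_le_pow_left₀ (norm_nonneg _) (hB θ) 2
      have e3 : 0 ≤ ‖HH d θ‖ := norm_nonneg _
      calc ‖HH b θ‖ * ‖HH b θ‖ * ‖HH d θ‖ ≤ B ^ 2 * ‖HH d θ‖ := by gcongr
        _ ≤ (B ^ 4 + ‖HH d θ‖ ^ 2) / 2 := by nlinarith [sq_nonneg (B ^ 2 - ‖HH d θ‖)]
  have h4 : ∫ θ in (0 : ℝ)..1, (B ^ 4 + ‖HH d θ‖ ^ 2) / 2 = (B ^ 4 + E) / 2 := by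
    rw [intervalIntegral.integral_div, intervalIntegral.integral_add]
    · rw [h1']; simp
    · exact intervalIntegrable_const
    · exact (hcd.norm.pow 2).intervalIntegrable _ _
  rw [h4] at h3
  linarith

theorem off_s_le (b : ℕ → ℂ) {η : ℝ} (hη : 0 < η)
    (hb : Summable (fun n => ‖b n‖ * Real.exp (Real.pi * n * η))) {B' : ℝ}
    (hB' : ∑' n : ℕ, (‖b n‖ * Real.exp (Real.pi * n * η)) ^ 2 ≤ B' ^ 2) (l : ℕ) :
    ‖offs b l‖ ≤ Real.exp (-Real.pi * l * η) * B' ^ 2 := by
  set b' : ℕ → ℝ := fun n => ‖b n‖ * Real.exp (Real.pi * n * η) with hb'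
  have hb'0 : ∀ n, 0 ≤ b' n := fun n => by simp only [hb']; positivity
  have hb2 : Summable fun n => b' n ^ 2 := by
    have h1 : Summable (fun z : ℕ × ℕ => b' z.1 * b' z.2) := hb.mul_of_nonneg hb hb'0 hb'0
    have h2 := h1.comp_injective (i := fun n : ℕ => (n, n)) (fun a b h => (Prod.mk.inj h).1)
    refine h2.congr fun n => ?_
    simp only [Function.comp]
    ring
  have hinj : Function.Injective (fun n : ℕ => n + l) := add_left_injective l
  have hb2l : Summable fun n => b' (n + l) ^ 2 := hb2.comp_injective hinj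
  have hterm : ∀ n : ℕ, ‖b (n + l) * starRingEnd ℂ (b n)‖ ≤
      Real.exp (-Real.pi * l * η) * ((b' (n + l) ^ 2 + b' n ^ 2) / 2) := by
    intro n
    rw [norm_mul, RCLike.norm_conj]
    have e1 : ‖b (n + l)‖ * ‖b n‖ =
        Real.exp (-Real.pi * l * η) * Real.exp (-(2 * Real.pi * n * η)) * (b' (n + l) * b' n) := by
      simp only [hb']
      have e2 : Real.exp (-Real.pi * l * η) * Real.exp (-(2 * Real.pi * n * η)) *
          (Real.exp (Real.pi * (n + l : ℕ) * η) * Real.exp (Real.pi * n * η)) = 1 := by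
        rw [← Real.exp_add, ← Real.exp_add, ← Real.exp_add, Real.exp_eq_one_iff]
        push_cast
        ring
      calc ‖b (n + l)‖ * ‖b n‖ = ‖b (n + l)‖ * ‖b n‖ *
            (Real.exp (-Real.pi * l * η) * Real.exp (-(2 * Real.pi * n * η)) *
            (Real.exp (Real.pi * (n + l : ℕ) * η) * Real.exp (Real.pi * n * η))) := by
              rw [e2, mul_one]
        _ = _ := by ring
    rw [e1]
    have e3 : Real.exp (-(2 * Real.pi * n * η)) ≤ 1 := by
      rw [Real.exp_le_one_iff]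
      have : 0 ≤ 2 * Real.pi * n * η := by positivity
      linarith
    have e4 : 0 ≤ b' (n + l) * b' n := mul_nonneg (hb'0 _) (hb'0 _)
    have e5 : b' (n + l) * b' n ≤ (b' (n + l) ^ 2 + b' n ^ 2) / 2 := by
      nlinarith [sq_nonneg (b' (n + l) - b' n)]
    calc Real.exp (-Real.pi * l * η) * Real.exp (-(2 * Real.pi * n * η)) * (b' (n + l) * b' n)
        ≤ Real.exp (-Real.pi * l * η) * 1 * ((b' (n + l) ^ 2 + b' n ^ 2) / 2) := by gcongr
      _ = _ := by ring
  have hs1 : Summable fun n => Real.exp (-Real.pi * l * η) * ((b' (n + l) ^ 2 + b' n ^ 2) / 2) :=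
    ((hb2l.add hb2).div_const 2).mul_left _
  have hs2 : Summable fun n => ‖b (n + l) * starRingEnd ℂ (b n)‖ :=
    Summable.of_nonneg_of_le (fun _ => norm_nonneg _) hterm hs1
  unfold offs
  refine (norm_tsum_le_tsum_norm hs2).trans ((hs2.tsum_le_tsum hterm hs1).trans ?_)
  rw [tsum_mul_left, tsum_div_const, hb2l.tsum_add hb2]
  apply mul_le_mul_of_nonneg_left _ (Real.exp_pos _).le
  have e6 : ∑' n, b' (n + l) ^ 2 ≤ ∑' n, b' n ^ 2 := by
    have := hb2.sum_add_tsum_nat_add l
    have h0 : 0 ≤ ∑ i ∈ Finset.range l, b' i ^ 2 := Finset.sum_nonneg fun _ _ => by positivity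
    linarith
  linarith

/-- block OFF -/
theorem off_pr (b : ℕ → ℂ) {η : ℝ} (hη : 0 < η)
    (hb : Summable (fun n => ‖b n‖ * Real.exp (Real.pi * n * η))) {B B' : ℝ}
    (hB : ∀ θ : ℝ, ‖HH b θ‖ ≤ B)
    (hB' : ∑' n : ℕ, (‖b n‖ * Real.exp (Real.pi * n * η)) ^ 2 ≤ B' ^ 2) {Q : ℕ} (hQ : 0 < Q)
    (S : Finset ℕ) (hS : ∀ q ∈ S, Q ≤ q) (h₀ : ℕ) :
    ∑ q ∈ S, (1 / (q : ℝ)) * ∑ j ∈ Finset.range q, ‖HH b ((j : ℝ) / q)‖ ^ 2 ≤
      S.card * ∑' n, ‖b n‖ ^ 2 + 2 * h₀ * √(S.card) * B ^ 2 +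
        2 * S.card * B' ^ 2 * ∑' h : ℕ, Real.exp (-Real.pi * Q * η * (h₀ + 1 + h)) := by
  have hbs : Summable fun n => ‖b n‖ := by
    refine Summable.of_nonneg_of_le (fun _ => norm_nonneg _) (fun n => ?_) hb
    have : 1 ≤ Real.exp (Real.pi * n * η) := Real.one_le_exp (by positivity)
    nlinarith [norm_nonneg (b n)]
  have hQR : (0 : ℝ) < Q := by exact_mod_cast hQ
  set T : ℝ := ∑' h : ℕ, Real.exp (-Real.pi * Q * η * (h₀ + 1 + h)) with hT
  have hTs : Summable fun h : ℕ => Real.exp (-Real.pi * Q * η * (h₀ + 1 + h)) := by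
    have h1 : Summable fun h : ℕ => Real.exp (-Real.pi * Q * η * (h₀ + 1)) *
        Real.exp (-(Real.pi * Q * η)) ^ h := by
      apply Summable.mul_left
      apply summable_geometric_of_lt_one (Real.exp_pos _).le
      rw [Real.exp_lt_one_iff]
      have : 0 < Real.pi * Q * η := by positivity
      linarith
    refine h1.congr fun h => ?_
    rw [← Real.exp_nat_mul, ← Real.exp_add]
    congr 1
    ring
  -- one modulus
  have hone : ∀ q ∈ S, (1 / (q : ℝ)) * ∑ j ∈ Finset.range q, ‖HH b ((j : ℝ) / q)‖ ^ 2 ≤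
      ∑' n, ‖b n‖ ^ 2 + 2 * (∑ i ∈ Finset.range h₀, ‖offs b (q * (i + 1))‖ + B' ^ 2 * T) := by
    intro q hq
    have hqQ := hS q hq
    have hq0 : 0 < q := lt_of_lt_of_le hQ hqQ
    refine (off_mean b hbs hq0).trans ?_
    have hsq := off_s_summable_q b hbs hq0
    rw [← hsq.sum_add_tsum_nat_add h₀]
    have h1 : ∑' i : ℕ, ‖offs b (q * (i + h₀ + 1))‖ ≤ B' ^ 2 * T := by
      rw [hT, ← tsum_mul_left]
      refine ((summable_nat_add_iff h₀).2 hsq).tsum_le_tsum (fun i => ?_) (hTs.mul_left _)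
      refine (off_s_le b hη hb hB' _).trans ?_
      rw [mul_comm]
      apply mul_le_mul_of_nonneg_left _ (sq_nonneg _)
      apply Real.exp_le_exp.2
      have h2 : (Q : ℝ) ≤ q := by exact_mod_cast hqQ
      have h3 : 0 ≤ Real.pi * η * ((i : ℝ) + h₀ + 1) := by positivity
      have h4 := mul_le_mul_of_nonneg_left h2 h3
      push_cast
      nlinarith
    linarith
  refine (Finset.sum_le_sum hone).trans ?_
  rw [Finset.sum_add_distrib, Finset.sum_const, nsmul_eq_mul, ← Finset.mul_sum,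
    Finset.sum_add_distrib, Finset.sum_const, nsmul_eq_mul, Finset.sum_comm]
  have hcs : ∀ i ∈ Finset.range h₀, ∑ q ∈ S, ‖offs b (q * (i + 1))‖ ≤ √(S.card) * B ^ 2 := by
    intro i _
    have h1 : (∑ q ∈ S, ‖offs b (q * (i + 1))‖) ^ 2 ≤
        S.card * ∑ q ∈ S, ‖offs b (q * (i + 1))‖ ^ 2 := sq_sum_le_card_mul_sum_sq
    have h2 : ∑ q ∈ S, ‖offs b (q * (i + 1))‖ ^ 2 ≤ B ^ 4 := by
      have h3 := off_bessel b hbs hB (S.image fun q => q * (i + 1))
      rw [Finset.sum_image] at h3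
      · exact h3
      · intro x _ y _ hxy
        exact Nat.eq_of_mul_eq_mul_right (Nat.succ_pos i) hxy
    have h4 : (∑ q ∈ S, ‖offs b (q * (i + 1))‖) ^ 2 ≤ (√(S.card) * B ^ 2) ^ 2 := by
      rw [mul_pow, Real.sq_sqrt (Nat.cast_nonneg _)]
      refine h1.trans ?_
      have : (B ^ 2) ^ 2 = B ^ 4 := by ring
      rw [this]
      exact mul_le_mul_of_nonneg_left h2 (Nat.cast_nonneg _)
    exact le_of_sq_le_sq h4 (by positivity)
  have h5 := Finset.sum_le_sum hcs
  rw [Finset.sum_const, Finset.card_range, nsmul_eq_mul] at h5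
  linarith

end Pool.Agent.GL2
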