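import Pool.Agent.Lib_helper68.GL2.R1

/-! Block PEEL of MP_77948b_nt (m = 2). -/

namespace Pool.Agent.GL2

open Complex MeasureTheory Filter Topology

theorem peel_am_zero {k : ℕ} {a : ℕ → ℝ} (H : HData k a) (m : ℕ) : am a m 0 = 0 := by
  unfold am
  split_ifs
  · exact H.zero
  · rfl

/-- block PEEL: removing a prime from the coefficients -/
theorem am_peel_pr {k : ℕ} {a : ℕ → ℝ} (H : HData k a) {m p : ℕ} (hp : p.Prime) (hpm : ¬ p ∣ m)
    (n : ℕ) : am a (m * p) n = am a m n - (if p ∣ n then a p * am a m (n / p) else 0) +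
      (if p ^ 2 ∣ n then (p : ℝ) ^ (k - 1) * am a m (n / p ^ 2) else 0) := by
  by_cases hn : n = 0
  · subst hn
    simp [peel_am_zero H]
  have hpmc : p.Coprime m := (Nat.Prime.coprime_iff_not_dvd hp).2 hpm
  obtain ⟨r, n', hpn', rfl⟩ := Nat.exists_eq_pow_mul_and_not_dvd hn p hp.ne_one
  have hn'0 : 0 < n' := Nat.pos_of_ne_zero (by rintro rfl; simp at hpn')
  have hcop : ∀ s : ℕ, (p ^ s * n').Coprime m ↔ n'.Coprime m := by
    intro s
    constructor
    · exact fun h => Nat.Coprime.coprime_mul_left h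
    · exact fun h => Nat.Coprime.mul_left (Nat.Coprime.pow_left s hpmc) h
  have hpc : p.Coprime n' := (Nat.Prime.coprime_iff_not_dvd hp).2 hpn'
  have ham : ∀ s : ℕ, am a m (p ^ s * n') = a (p ^ s) * am a m n' := by
    intro s
    unfold am
    by_cases h : n'.Coprime m
    · rw [if_pos ((hcop s).2 h), if_pos h, H.mul _ _ (Nat.Coprime.pow_left s hpc)]
    · rw [if_neg (fun h' => h ((hcop s).1 h')), if_neg h, mul_zero]
  rcases r with _ | r
  · have h1 : ¬ p ∣ p ^ 0 * n' := by simpa using hpn'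
    have h2 : ¬ p ^ 2 ∣ p ^ 0 * n' := fun h => h1 ((dvd_pow_self p two_ne_zero).trans h)
    rw [if_neg h1, if_neg h2]
    simp only [pow_zero, one_mul, sub_zero, add_zero]
    unfold am
    have h3 : n'.Coprime (m * p) ↔ n'.Coprime m := by
      constructor
      · exact fun h => Nat.Coprime.coprime_mul_right_right h
      · exact fun h => Nat.Coprime.mul_right h hpc.symm
    by_cases h : n'.Coprime m
    · rw [if_pos h, if_pos (h3.2 h)]
    · rw [if_neg h, if_neg (fun h' => h (h3.1 h'))]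
  · have h0 : am a (m * p) (p ^ (r + 1) * n') = 0 := by
      unfold am
      rw [if_neg]
      intro h
      have h1 : (p ^ (r + 1) * n').Coprime p := Nat.Coprime.coprime_mul_left_right h
      have h2 : p.Coprime p := by
        apply Nat.Coprime.coprime_dvd_left _ h1
        exact (dvd_pow_self p (Nat.succ_ne_zero r)).mul_right _
      exact hp.one_lt.ne' ((Nat.coprime_self p).1 h2)
    have h1 : p ∣ p ^ (r + 1) * n' := (dvd_pow_self p (Nat.succ_ne_zero r)).mul_right _
    have h2 : p ^ (r + 1) * n' / p = p ^ r * n' := by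
      rw [pow_succ, mul_assoc, mul_comm p n', ← mul_assoc, Nat.mul_div_cancel _ hp.pos]
    rw [h0, if_pos h1, h2, ham, ham]
    rcases r with _ | r
    · have h3 : ¬ p ^ 2 ∣ p ^ (0 + 1) * n' := by
        intro h
        rw [zero_add, pow_one, sq] at h
        exact hpn' (Nat.dvd_of_mul_dvd_mul_left hp.pos h)
      rw [if_neg h3]
      simp [H.one]
    · have h3 : p ^ 2 ∣ p ^ (r + 1 + 1) * n' := (pow_dvd_pow p (by omega)).mul_right _
      have h4 : p ^ (r + 1 + 1) * n' / p ^ 2 = p ^ r * n' := by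
        have : p ^ (r + 1 + 1) * n' = p ^ r * n' * p ^ 2 := by ring
        rw [this, Nat.mul_div_cancel _ (pow_pos hp.pos 2)]
      rw [if_pos h3, h4, ham]
      have h5 := H.hecke p r hp
      rw [show r + 1 + 1 = r + 2 by ring, h5]
      ring

theorem peel_norm (b : ℕ → ℝ) (z : ℂ) (n : ℕ) :
    ‖(b n : ℂ) * cexp (2 * Real.pi * I * n * z)‖ =
      |b n| * Real.exp (-(2 * Real.pi * z.im) * n) := by
  rw [norm_mul, Complex.norm_real, Real.norm_eq_abs, Complex.norm_exp]
  congr 2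
  simp only [mul_re, mul_im, Complex.re_ofNat, Complex.im_ofNat, ofReal_re, ofReal_im, I_re, I_im,
    natCast_re, natCast_im]
  ring

theorem peel_summable {k : ℕ} {a : ℕ → ℝ} (H : HData k a) (m : ℕ) {z : ℂ} (hz : 0 < z.im) :
    Summable (fun n : ℕ => (am a m n : ℂ) * cexp (2 * Real.pi * I * n * z)) := by
  apply Summable.of_norm
  have h1 := summable_a H (y := 2 * Real.pi * z.im) (by positivity)
  refine Summable.of_nonneg_of_le (fun n => norm_nonneg _) (fun n => ?_) h1
  rw [peel_norm]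
  apply mul_le_mul_of_nonneg_right _ (Real.exp_pos _).le
  unfold am
  split_ifs
  · exact le_rfl
  · rw [abs_zero]; exact abs_nonneg _

/-- the dilated series: the terms divisible by `d` -/
theorem peel_dilate {b : ℕ → ℝ} {d : ℕ} (hd : 0 < d) (z : ℂ)
    (hs : Summable (fun n : ℕ => (b n : ℂ) * cexp (2 * Real.pi * I * n * ((d : ℂ) * z)))) :
    HasSum (fun n : ℕ => ((if d ∣ n then b (n / d) else 0 : ℝ) : ℂ) *
      cexp (2 * Real.pi * I * n * z)) (qs b ((d : ℂ) * z)) := by
  have hinj : Function.Injective (fun n : ℕ => d * n) := fun x y h =>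
    Nat.eq_of_mul_eq_mul_left hd h
  rw [← hinj.hasSum_iff]
  · have h1 : (fun n : ℕ => ((if d ∣ n then b (n / d) else 0 : ℝ) : ℂ) *
        cexp (2 * Real.pi * I * n * z)) ∘ (fun n : ℕ => d * n) =
        fun n : ℕ => (b n : ℂ) * cexp (2 * Real.pi * I * n * ((d : ℂ) * z)) := by
      funext n
      simp only [Function.comp]
      rw [if_pos (Nat.dvd_mul_right d n), Nat.mul_div_cancel_left n hd]
      congr 2
      push_cast
      ring
    rw [h1]
    exact hs.hasSum
  · intro n hn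
    rw [if_neg]
    · simp
    · rintro ⟨c, rfl⟩
      exact hn ⟨c, rfl⟩

theorem peel_qs {k : ℕ} {a : ℕ → ℝ} (H : HData k a) {m p : ℕ} (hp : p.Prime) (hpm : ¬ p ∣ m)
    {z : ℂ} (hz : 0 < z.im) :
    qs (am a (m * p)) z = qs (am a m) z - a p * qs (am a m) ((p : ℂ) * z) +
      (p : ℂ) ^ (k - 1) * qs (am a m) (((p ^ 2 : ℕ) : ℂ) * z) := by
  have him : ∀ d : ℕ, 0 < d → 0 < ((d : ℂ) * z).im := by
    intro d hd
    have : ((d : ℂ) * z).im = d * z.im := by
      simp [mul_im]
    rw [this]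
    positivity
  have h1 := (peel_summable H m hz).hasSum
  have h2 := (peel_dilate hp.pos z (peel_summable H m (him p hp.pos))).mul_left (a p : ℂ)
  have h3 := (peel_dilate (pow_pos hp.pos 2) z
    (peel_summable H m (him (p ^ 2) (pow_pos hp.pos 2)))).mul_left ((p : ℂ) ^ (k - 1))
  have h4 := (h1.sub h2).add h3
  have h5 := (peel_summable H (m * p) hz).hasSum
  refine h5.unique ?_
  have h6 : (fun n : ℕ => (am a (m * p) n : ℂ) * cexp (2 * Real.pi * I * n * z)) =
      fun n : ℕ => (am a m n : ℂ) * cexp (2 * Real.pi * I * n * z) -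
        (a p : ℂ) * (((if p ∣ n then am a m (n / p) else 0 : ℝ) : ℂ) *
          cexp (2 * Real.pi * I * n * z)) +
        (p : ℂ) ^ (k - 1) * (((if p ^ 2 ∣ n then am a m (n / p ^ 2) else 0 : ℝ) : ℂ) *
          cexp (2 * Real.pi * I * n * z)) := by
    funext n
    rw [am_peel_pr H hp hpm n]
    by_cases h1 : p ∣ n
    · by_cases h2 : p ^ 2 ∣ n
      · rw [if_pos h1, if_pos h2, if_pos h1, if_pos h2]
        push_cast
        ring
      · rw [if_pos h1, if_neg h2, if_pos h1, if_neg h2]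
        push_cast
        ring
    · have h2 : ¬ p ^ 2 ∣ n := fun h => h1 ((dvd_pow_self p two_ne_zero).trans h)
      rw [if_neg h1, if_neg h2, if_neg h1, if_neg h2]
      push_cast
      ring
  rw [h6]
  exact h4

theorem peel_bound_prod {k : ℕ} {a : ℕ → ℝ} (H : HData k a) (S : Finset ℕ) :
    (∀ p ∈ S, p.Prime) →
    ∃ C : ℝ, ∀ z : ℂ, 0 < z.im → ‖qs (am a (∏ p ∈ S, p)) z‖ ≤ C * z.im ^ (-(k : ℝ) / 2) := by
  classical
  induction S using Finset.induction_on with
  | empty =>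
    intro _
    obtain ⟨C, hC⟩ := H.bound
    refine ⟨C, fun z hz => ?_⟩
    have h1 : am a (∏ p ∈ (∅ : Finset ℕ), p) = a := by
      funext n
      simp [am]
    rw [h1]
    exact hC z hz
  | insert p S hpS ih =>
    intro hS
    have hp : p.Prime := hS p (Finset.mem_insert_self p S)
    have hS' : ∀ r ∈ S, r.Prime := fun r hr => hS r (Finset.mem_insert_of_mem hr)
    obtain ⟨C, hC⟩ := ih hS'
    have hC0 : 0 ≤ C := by
      have h1 := (norm_nonneg _).trans (hC I (by simp))
      simpa using h1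
    have hpm : ¬ p ∣ ∏ r ∈ S, r := by
      intro h
      obtain ⟨r, hr, hpr⟩ := (Prime.dvd_finset_prod_iff hp.prime _).1 h
      have : p = r := (Nat.prime_dvd_prime_iff_eq hp (hS' r hr)).1 hpr
      exact hpS (this ▸ hr)
    refine ⟨C + |a p| * C + (p : ℝ) ^ (k - 1) * C, fun z hz => ?_⟩
    have him : ∀ d : ℕ, ((d : ℂ) * z).im = d * z.im := by
      intro d
      simp [mul_im]
    have hd : ∀ d : ℕ, 0 < d → ‖qs (am a (∏ r ∈ S, r)) ((d : ℂ) * z)‖ ≤
        C * z.im ^ (-(k : ℝ) / 2) := by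
      intro d hd
      have hdR : (1 : ℝ) ≤ d := by exact_mod_cast hd
      have h1 : 0 < ((d : ℂ) * z).im := by rw [him]; positivity
      refine (hC _ h1).trans (mul_le_mul_of_nonneg_left ?_ hC0)
      rw [him]
      have hk : (0 : ℝ) ≤ k := Nat.cast_nonneg k
      exact Real.rpow_le_rpow_of_nonpos hz (by nlinarith) (by linarith)
    rw [Finset.prod_insert hpS, mul_comm p, peel_qs H hp hpm hz]
    have e1 := hC z hz
    have e2 := hd p hp.pos
    have e3 := hd (p ^ 2) (pow_pos hp.pos 2)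
    have hB : 0 ≤ C * z.im ^ (-(k : ℝ) / 2) := by positivity
    calc ‖qs (am a (∏ r ∈ S, r)) z - a p * qs (am a (∏ r ∈ S, r)) ((p : ℂ) * z) +
          (p : ℂ) ^ (k - 1) * qs (am a (∏ r ∈ S, r)) (((p ^ 2 : ℕ) : ℂ) * z)‖
        ≤ ‖qs (am a (∏ r ∈ S, r)) z‖ + ‖a p * qs (am a (∏ r ∈ S, r)) ((p : ℂ) * z)‖ +
          ‖(p : ℂ) ^ (k - 1) * qs (am a (∏ r ∈ S, r)) (((p ^ 2 : ℕ) : ℂ) * z)‖ :=
          (norm_add_le _ _).trans (add_le_add_left (norm_sub_le _ _) _)
      _ ≤ C * z.im ^ (-(k : ℝ) / 2) + |a p| * (C * z.im ^ (-(k : ℝ) / 2)) +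
          (p : ℝ) ^ (k - 1) * (C * z.im ^ (-(k : ℝ) / 2)) := by
          rw [norm_mul, norm_mul, Complex.norm_real, Real.norm_eq_abs, norm_pow,
            Complex.norm_natCast]
          gcongr
      _ = _ := by ring

theorem peel_am_rad (a : ℕ → ℝ) {m : ℕ} (hm : 0 < m) : am a m = am a (∏ p ∈ m.primeFactors, p) := by
  funext n
  unfold am
  have h : n.Coprime m ↔ n.Coprime (∏ p ∈ m.primeFactors, p) := by
    constructor
    · intro h
      exact Nat.Coprime.coprime_dvd_right (Nat.prod_primeFactors_dvd m) h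
    · intro h
      rw [Nat.coprime_iff_gcd_eq_one]
      by_contra hne
      obtain ⟨p, hp, hpd⟩ := Nat.exists_prime_and_dvd hne
      have h1 : p ∣ m := hpd.trans (Nat.gcd_dvd_right _ _)
      have h2 : p ∣ n := hpd.trans (Nat.gcd_dvd_left _ _)
      have h3 : p ∣ ∏ p ∈ m.primeFactors, p :=
        Finset.dvd_prod_of_mem _ (Nat.mem_primeFactors.2 ⟨hp, h1, hm.ne'⟩)
      exact hp.one_lt.ne' (Nat.eq_one_of_dvd_coprimes h h2 h3)
  by_cases h1 : n.Coprime m
  · rw [if_pos h1, if_pos (h.1 h1)]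
  · rw [if_neg h1, if_neg (fun h' => h1 (h.2 h'))]

/-- block PEEL -/
theorem qs_am_bound_pr {k : ℕ} {a : ℕ → ℝ} (H : HData k a) {m : ℕ} (hm : 0 < m) :
    ∃ C : ℝ, ∀ z : ℂ, 0 < z.im → ‖qs (am a m) z‖ ≤ C * z.im ^ (-(k : ℝ) / 2) := by
  rw [peel_am_rad a hm]
  exact peel_bound_prod H _ fun p hp => Nat.prime_of_mem_primeFactors hp

end Pool.Agent.GL2
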