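import Pool.Agent.Lib_helper68.GL2.Defs

/-! # Block RSB: lattice point counts (coprime pairs in an ellipse) -/

namespace Pool.Agent.GL2

open Complex MeasureTheory Filter Topology

namespace RSB

/-- the quadratic form `|cz+d|²` -/
noncomputable def qz (z : ℂ) (v : ℤ × ℤ) : ℝ := ‖(v.1 : ℂ) * z + v.2‖ ^ 2

theorem qz_eq (z : ℂ) (v : ℤ × ℤ) :
    qz z v = (v.1 * z.re + v.2) ^ 2 + (v.1 * z.im) ^ 2 := by
  unfold qz
  rw [← Complex.normSq_eq_norm_sq, Complex.normSq_apply]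
  simp
  ring

theorem qz_nonneg (z : ℂ) (v : ℤ × ℤ) : 0 ≤ qz z v := by unfold qz; positivity

theorem qz_smul (z : ℂ) (g : ℤ) (v : ℤ × ℤ) : qz z (g * v.1, g * v.2) = (g : ℝ) ^ 2 * qz z v := by
  rw [qz_eq, qz_eq]; push_cast; ring

theorem qz_box {z : ℂ} (hz : 0 < z.im) {X : ℝ} (hX : 0 ≤ X) {v : ℤ × ℤ} (h : qz z v ≤ X) :
    |(v.1 : ℝ)| ≤ √X / z.im ∧ |(v.2 : ℝ)| ≤ √X + |z.re| * (√X / z.im) := by
  rw [qz_eq] at h
  have h1 : |(v.1 : ℝ)| ≤ √X / z.im := by
    rw [le_div_iff₀ hz]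
    apply Real.le_sqrt_of_sq_le
    rw [mul_pow, sq_abs]
    nlinarith [sq_nonneg ((v.1 : ℝ) * z.re + v.2), mul_pow (v.1 : ℝ) z.im 2]
  refine ⟨h1, ?_⟩
  have h2 : |(v.1 : ℝ) * z.re + v.2| ≤ √X := by
    apply Real.le_sqrt_of_sq_le
    rw [sq_abs]
    nlinarith [sq_nonneg ((v.1 : ℝ) * z.im)]
  have h3 : |(v.2 : ℝ)| ≤ |(v.1 : ℝ) * z.re + v.2| + |(v.1 : ℝ) * z.re| := by
    have := abs_sub ((v.1 : ℝ) * z.re + v.2) ((v.1 : ℝ) * z.re)
    simpa using this
  have h4 : |(v.1 : ℝ) * z.re| ≤ |z.re| * (√X / z.im) := by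
    rw [abs_mul, mul_comm]
    exact mul_le_mul_of_nonneg_left h1 (abs_nonneg _)
  linarith

/-- box -/
noncomputable def box (a b : ℝ) : Finset (ℤ × ℤ) :=
  Finset.Icc (-⌊a⌋) ⌊a⌋ ×ˢ Finset.Icc (-⌊b⌋) ⌊b⌋

theorem mem_box {a b : ℝ} {v : ℤ × ℤ} (h1 : |(v.1 : ℝ)| ≤ a) (h2 : |(v.2 : ℝ)| ≤ b) :
    v ∈ box a b := by
  rw [abs_le] at h1 h2
  unfold box
  rw [Finset.mem_product, Finset.mem_Icc, Finset.mem_Icc]
  refine ⟨⟨?_, Int.le_floor.mpr h1.2⟩, ⟨?_, Int.le_floor.mpr h2.2⟩⟩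
  · rw [neg_le]; apply Int.le_floor.mpr; push_cast; linarith
  · rw [neg_le]; apply Int.le_floor.mpr; push_cast; linarith

theorem card_box {a b : ℝ} (ha : 0 ≤ a) (hb : 0 ≤ b) :
    ((box a b).card : ℝ) ≤ (2 * a + 1) * (2 * b + 1) := by
  unfold box
  rw [Finset.card_product, Int.card_Icc, Int.card_Icc]
  have ha' : 0 ≤ ⌊a⌋ := Int.floor_nonneg.mpr ha
  have hb' : 0 ≤ ⌊b⌋ := Int.floor_nonneg.mpr hb
  have e1 : ((⌊a⌋ + 1 - -⌊a⌋).toNat : ℝ) = 2 * ⌊a⌋ + 1 := by
    have : ((⌊a⌋ + 1 - -⌊a⌋).toNat : ℤ) = 2 * ⌊a⌋ + 1 := by omega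
    exact_mod_cast this
  have e2 : ((⌊b⌋ + 1 - -⌊b⌋).toNat : ℝ) = 2 * ⌊b⌋ + 1 := by
    have : ((⌊b⌋ + 1 - -⌊b⌋).toNat : ℤ) = 2 * ⌊b⌋ + 1 := by omega
    exact_mod_cast this
  push_cast
  rw [e1, e2]
  have h1 : (⌊a⌋ : ℝ) ≤ a := Int.floor_le a
  have h2 : (⌊b⌋ : ℝ) ≤ b := Int.floor_le b
  have h3 : (0 : ℝ) ≤ ⌊a⌋ := by exact_mod_cast ha'
  have h4 : (0 : ℝ) ≤ ⌊b⌋ := by exact_mod_cast hb'
  apply mul_le_mul <;> linarith

theorem fin_q {z : ℂ} (hz : 0 < z.im) (X : ℝ) : {v : ℤ × ℤ | qz z v ≤ X}.Finite := by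
  rcases lt_or_ge X 0 with hX | hX
  · convert Set.finite_empty
    ext v
    simp only [Set.mem_ofPred_eq, Set.mem_empty_iff_false, iff_false, not_le]
    exact lt_of_lt_of_le hX (qz_nonneg z v)
  · apply (box (√X / z.im) (√X + |z.re| * (√X / z.im))).finite_toSet.subset
    intro v hv
    obtain ⟨h1, h2⟩ := qz_box hz hX hv
    exact mem_box h1 h2

/-- number of nonzero lattice points -/
noncomputable def cnt (z : ℂ) (X : ℝ) : ℕ := {v : ℤ × ℤ | v ≠ 0 ∧ qz z v ≤ X}.ncard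

/-- number of coprime lattice points -/
noncomputable def pcnt (z : ℂ) (X : ℝ) : ℕ := {v : ℤ × ℤ | IsCoprime v.1 v.2 ∧ qz z v ≤ X}.ncard

theorem fin1 {z : ℂ} (hz : 0 < z.im) (X : ℝ) : {v : ℤ × ℤ | v ≠ 0 ∧ qz z v ≤ X}.Finite :=
  (fin_q hz X).subset fun _ h => h.2

theorem fin2 {z : ℂ} (hz : 0 < z.im) (X : ℝ) :
    {v : ℤ × ℤ | IsCoprime v.1 v.2 ∧ qz z v ≤ X}.Finite :=
  (fin_q hz X).subset fun _ h => h.2

theorem cnt_mono {z : ℂ} (hz : 0 < z.im) {X Y : ℝ} (h : X ≤ Y) : cnt z X ≤ cnt z Y :=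
  Set.ncard_le_ncard (fun _ hv => ⟨hv.1, hv.2.trans h⟩) (fin1 hz Y)

/-- the quadratic form is bounded below -/
theorem qz_ge {z : ℂ} (hz : 0 < z.im) {v : ℤ × ℤ} (hv : v ≠ 0) :
    min (z.im ^ 2) 1 ≤ qz z v := by
  rw [qz_eq]
  by_cases h : v.1 = 0
  · have h2 : v.2 ≠ 0 := by
      intro h2; exact hv (Prod.ext h h2)
    refine (min_le_right _ _).trans ?_
    rw [h]
    have : (1 : ℝ) ≤ (v.2 : ℝ) ^ 2 := by
      have : (1 : ℤ) ≤ v.2 ^ 2 := by
        have := sq_pos_of_ne_zero h2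
        omega
      exact_mod_cast this
    simpa using this
  · refine (min_le_left _ _).trans ?_
    have : (1 : ℝ) ≤ (v.1 : ℝ) ^ 2 := by
      have : (1 : ℤ) ≤ v.1 ^ 2 := by
        have := sq_pos_of_ne_zero h
        omega
      exact_mod_cast this
    have h3 : z.im ^ 2 ≤ (v.1 : ℝ) ^ 2 * z.im ^ 2 := by nlinarith [sq_nonneg z.im]
    nlinarith [sq_nonneg ((v.1 : ℝ) * z.re + v.2)]

theorem cnt_small {z : ℂ} (hz : 0 < z.im) {X : ℝ} (h : X < min (z.im ^ 2) 1) : cnt z X = 0 := by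
  unfold cnt
  rw [Set.ncard_eq_zero (fin1 hz X)]
  ext v
  simp only [Set.mem_ofPred_eq, Set.mem_empty_iff_false, iff_false, not_and, not_le]
  intro hv
  exact lt_of_lt_of_le h (qz_ge hz hv)

/-- the number of lattice points in a large ellipse -/
theorem cnt_tendsto {z : ℂ} (hz : 0 < z.im) : ∃ V : ℝ,
    Tendsto (fun X : ℝ => (cnt z X : ℝ) / X) atTop (𝓝 V) := by
  classical
  set F : (Fin 2 → ℝ) → ℝ := fun x => (x 0 * z.re + x 1) ^ 2 + (x 0 * z.im) ^ 2 with hF
  have hcont : Continuous F := by rw [hF]; fun_prop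
  have hset : {x : Fin 2 → ℝ | x ∈ (Set.univ : Set (Fin 2 → ℝ)) ∧ F x ≤ 1} =
      {x : Fin 2 → ℝ | F x ≤ 1} := by ext; simp
  have hconv : Convex ℝ {x : Fin 2 → ℝ | F x ≤ 1} := by
    intro x hx y hy a b ha hb hab
    simp only [Set.mem_ofPred_eq, hF, Pi.add_apply, Pi.smul_apply, smul_eq_mul] at hx hy ⊢
    have key : ∀ u v : ℝ, (a * u + b * v) ^ 2 ≤ a * u ^ 2 + b * v ^ 2 := by
      intro u v
      have : a * u ^ 2 + b * v ^ 2 - (a * u + b * v) ^ 2 = a * b * (u - v) ^ 2 := by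
        have hb' : b = 1 - a := by linarith
        subst hb'; ring
      nlinarith [mul_nonneg (mul_nonneg ha hb) (sq_nonneg (u - v))]
    have k1 := key (x 0 * z.re + x 1) (y 0 * z.re + y 1)
    have k2 := key (x 0 * z.im) (y 0 * z.im)
    have e1 : (a * x 0 + b * y 0) * z.re + (a * x 1 + b * y 1) =
      a * (x 0 * z.re + x 1) + b * (y 0 * z.re + y 1) := by ring
    have e2 : (a * x 0 + b * y 0) * z.im = a * (x 0 * z.im) + b * (y 0 * z.im) := by ring
    rw [e1, e2]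
    nlinarith
  have hbd : Bornology.IsBounded {x : Fin 2 → ℝ | F x ≤ 1} := by
    rw [isBounded_iff_forall_norm_le]
    refine ⟨1 / z.im + (1 + |z.re| * (1 / z.im)), fun x hx => ?_⟩
    simp only [Set.mem_ofPred_eq, hF] at hx
    have h0 : |x 0| ≤ 1 / z.im := by
      rw [le_div_iff₀ hz]
      rw [← abs_of_pos hz, ← abs_mul]
      apply abs_le_one_iff_mul_self_le_one.mpr
      nlinarith [sq_nonneg (x 0 * z.re + x 1)]
    have h1' : |x 0 * z.re + x 1| ≤ 1 := by
      apply abs_le_one_iff_mul_self_le_one.mpr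
      nlinarith [sq_nonneg (x 0 * z.im)]
    have h1 : |x 1| ≤ 1 + |z.re| * (1 / z.im) := by
      have h3 : |x 1| ≤ |x 0 * z.re + x 1| + |x 0 * z.re| := by
        have := abs_sub (x 0 * z.re + x 1) (x 0 * z.re)
        simpa using this
      have h4 : |x 0 * z.re| ≤ |z.re| * (1 / z.im) := by
        rw [abs_mul, mul_comm]
        exact mul_le_mul_of_nonneg_left h0 (abs_nonneg _)
      linarith
    have hp1 : 0 ≤ 1 / z.im := by positivity
    have hp2 : 0 ≤ 1 + |z.re| * (1 / z.im) := by positivity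
    rw [pi_norm_le_iff_of_nonneg (by positivity)]
    intro i
    fin_cases i
    · simp only [Fin.zero_eta, Real.norm_eq_abs]; linarith
    · simp only [Fin.mk_one, Real.norm_eq_abs]; linarith
  have hmeas : MeasurableSet {x : Fin 2 → ℝ | F x ≤ 1} :=
    (isClosed_le hcont continuous_const).measurableSet
  have hfront : volume (frontier {x : Fin 2 → ℝ | F x ≤ 1}) = 0 := hconv.addHaar_frontier _
  have hF₁ : ∀ (x : Fin 2 → ℝ) ⦃r : ℝ⦄, 0 ≤ r → F (r • x) = r ^ Fintype.card (Fin 2) * (F x) := by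
    intro x r hr
    simp only [hF, Pi.smul_apply, smul_eq_mul, Fintype.card_fin]
    ring
  have key := ZLattice.covolume.tendsto_card_le_div
    (L := Submodule.span ℤ (Set.range (Pi.basisFun ℝ (Fin 2)))) (X := Set.univ)
    (F := F) (by intros; trivial) hF₁ (by rw [hset]; exact hbd) (by rw [hset]; exact hmeas)
    (by rw [hset]; exact hfront)
  have hcard : ∀ c : ℝ, 0 ≤ c →
      Nat.card ({x : Fin 2 → ℝ | x ∈ (Set.univ : Set (Fin 2 → ℝ)) ∧ F x ≤ c} ∩
        (Submodule.span ℤ (Set.range (Pi.basisFun ℝ (Fin 2))) : Set (Fin 2 → ℝ)) :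
          Set (Fin 2 → ℝ)) = cnt z c + 1 := by
    intro c hc
    have e1 : ({x : Fin 2 → ℝ | x ∈ (Set.univ : Set (Fin 2 → ℝ)) ∧ F x ≤ c} ∩
        (Submodule.span ℤ (Set.range (Pi.basisFun ℝ (Fin 2))) : Set (Fin 2 → ℝ)) :
          Set (Fin 2 → ℝ)) = (fun v : ℤ × ℤ => ![(v.1 : ℝ), (v.2 : ℝ)]) ''
        {v : ℤ × ℤ | qz z v ≤ c} := by
      ext x
      simp only [Set.mem_inter_iff, Set.mem_ofPred_eq, Set.mem_univ, true_and, SetLike.mem_coe,
        Set.mem_image]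
      rw [Module.Basis.mem_span_iff_repr_mem]
      constructor
      · rintro ⟨h1, h2⟩
        obtain ⟨a, ha⟩ := h2 0
        obtain ⟨b, hb⟩ := h2 1
        simp only [algebraMap_int_eq, eq_intCast, Pi.basisFun_repr] at ha hb
        refine ⟨(a, b), ?_, ?_⟩
        · rw [qz_eq]
          simp only [hF] at h1
          rw [← ha, ← hb] at h1
          exact h1
        · ext i
          fin_cases i
          · simpa using ha
          · simpa using hb
      · rintro ⟨v, h1, rfl⟩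
        refine ⟨?_, ?_⟩
        · rw [qz_eq] at h1
          simpa [hF] using h1
        · intro i
          simp only [algebraMap_int_eq, Pi.basisFun_repr, Set.mem_range, eq_intCast]
          fin_cases i
          · exact ⟨v.1, by simp⟩
          · exact ⟨v.2, by simp⟩
    rw [e1, Nat.card_coe_set_eq, Set.ncard_image_of_injective]
    · have e2 : {v : ℤ × ℤ | qz z v ≤ c} = insert 0 {v : ℤ × ℤ | v ≠ 0 ∧ qz z v ≤ c} := by
        ext v
        simp only [Set.mem_ofPred_eq, Set.mem_insert_iff]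
        constructor
        · intro h
          by_cases hv : v = 0
          · exact Or.inl hv
          · exact Or.inr ⟨hv, h⟩
        · rintro (rfl | h)
          · rw [qz_eq]; simpa using hc
          · exact h.2
      rw [e2, Set.ncard_insert_of_notMem _ (fin1 hz c)]
      · rfl
      · simp
    · intro v w hvw
      have h0 := congrFun hvw 0
      have h1 := congrFun hvw 1
      simp at h0 h1
      exact Prod.ext h0 h1
  refine ⟨_, Tendsto.congr' ?_ (key.sub (tendsto_inv_atTop_zero))⟩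
  filter_upwards [eventually_gt_atTop 0] with c hc
  rw [hcard c hc.le]
  push_cast
  field_simp
  ring

/-- upper bound for the number of lattice points -/
theorem cnt_le {z : ℂ} (hz : 0 < z.im) : ∃ C : ℝ, ∀ X : ℝ, 0 < X → (cnt z X : ℝ) / X ≤ C := by
  obtain ⟨V, hV⟩ := cnt_tendsto hz
  have h1 : ∀ᶠ X : ℝ in atTop, (cnt z X : ℝ) / X ≤ V + 1 := by
    filter_upwards [hV.eventually (gt_mem_nhds (lt_add_one V))] with X hX
    exact hX.le
  obtain ⟨X₀, hX₀⟩ := eventually_atTop.mp h1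
  set δ := min (z.im ^ 2) 1 with hδ
  have hδ0 : 0 < δ := lt_min (by positivity) one_pos
  refine ⟨max (V + 1) (cnt z X₀ / δ), fun X hX => ?_⟩
  rcases le_or_gt X₀ X with h | h
  · exact (hX₀ X h).trans (le_max_left _ _)
  · refine le_trans ?_ (le_max_right _ _)
    rcases lt_or_ge X δ with h' | h'
    · rw [cnt_small hz h']
      simp only [Nat.cast_zero, zero_div]
      positivity
    · have := cnt_mono hz h.le
      have h3 : (cnt z X : ℝ) ≤ cnt z X₀ := by exact_mod_cast this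
      gcongr

/-- scaling -/
theorem cnt_dvd {z : ℂ} (hz : 0 < z.im) {g : ℕ} (hg : 0 < g) (X : ℝ) :
    {v : ℤ × ℤ | (v ≠ 0 ∧ qz z v ≤ X) ∧ g ∣ Int.gcd v.1 v.2}.ncard = cnt z (X / g ^ 2) := by
  unfold cnt
  have hg' : (g : ℤ) ≠ 0 := by exact_mod_cast hg.ne'
  have e : {v : ℤ × ℤ | (v ≠ 0 ∧ qz z v ≤ X) ∧ g ∣ Int.gcd v.1 v.2} =
      (fun v : ℤ × ℤ => ((g : ℤ) * v.1, (g : ℤ) * v.2)) ''
        {v : ℤ × ℤ | v ≠ 0 ∧ qz z v ≤ X / g ^ 2} := by
    ext v
    simp only [Set.mem_ofPred_eq, Set.mem_image]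
    constructor
    · rintro ⟨⟨h0, h1⟩, h2⟩
      have h3 : (g : ℤ) ∣ v.1 := (Int.natCast_dvd_natCast.mpr h2).trans (Int.gcd_dvd_left _ _)
      have h4 : (g : ℤ) ∣ v.2 := (Int.natCast_dvd_natCast.mpr h2).trans (Int.gcd_dvd_right _ _)
      obtain ⟨a, ha⟩ := h3
      obtain ⟨b, hb⟩ := h4
      refine ⟨(a, b), ⟨?_, ?_⟩, ?_⟩
      · rintro hab
        apply h0
        have : a = 0 := congrArg Prod.fst hab
        have hb0 : b = 0 := congrArg Prod.snd hab
        ext <;> simp [ha, hb, this, hb0]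
      · rw [le_div_iff₀ (by positivity)]
        have := qz_smul z g (a, b)
        simp only at this
        rw [← ha, ← hb] at this
        have hv : qz z v = qz z (v.1, v.2) := rfl
        rw [hv, this] at h1
        push_cast at h1
        linarith
      · simp [← ha, ← hb]
    · rintro ⟨w, ⟨h0, h1⟩, rfl⟩
      refine ⟨⟨?_, ?_⟩, ?_⟩
      · intro h
        apply h0
        have h3 : (g : ℤ) * w.1 = 0 := congrArg Prod.fst h
        have h4 : (g : ℤ) * w.2 = 0 := congrArg Prod.snd h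
        rw [mul_eq_zero] at h3 h4
        exact Prod.ext (h3.resolve_left hg') (h4.resolve_left hg')
      · rw [qz_smul]
        rw [le_div_iff₀ (by positivity)] at h1
        push_cast
        linarith
      · simp only
        rw [Int.gcd_mul_left]
        exact Dvd.dvd.mul_right (by simp) _
  rw [e, Set.ncard_image_of_injective]
  intro v w hvw
  have h3 : (g : ℤ) * v.1 = g * w.1 := congrArg Prod.fst hvw
  have h4 : (g : ℤ) * v.2 = g * w.2 := congrArg Prod.snd hvw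
  exact Prod.ext (mul_left_cancel₀ hg' h3) (mul_left_cancel₀ hg' h4)

theorem sum_moebius {n : ℕ} (hn : n ≠ 0) :
    ∑ d ∈ n.divisors, ArithmeticFunction.moebius d = if n = 1 then 1 else 0 := by
  have := congrArg (fun f : ArithmeticFunction ℤ => f n) ArithmeticFunction.moebius_mul_coe_zeta
  simp only [ArithmeticFunction.coe_mul_zeta_apply] at this
  rw [this, ArithmeticFunction.one_apply]

open Classical in
/-- Möbius inversion -/
theorem pcnt_eq {z : ℂ} (hz : 0 < z.im) (X : ℝ) :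
    (pcnt z X : ℝ) = ∑' g : ℕ, (ArithmeticFunction.moebius g : ℝ) * cnt z (X / g ^ 2) := by
  set S := (fin1 hz X).toFinset with hS
  have hmem : ∀ v, v ∈ S ↔ v ≠ 0 ∧ qz z v ≤ X := by
    intro v; rw [hS, Set.Finite.mem_toFinset]; rfl
  set M := S.sup (fun v => Int.gcd v.1 v.2) with hM
  have hgcd : ∀ v ∈ S, Int.gcd v.1 v.2 ≠ 0 := by
    intro v hv h
    rw [Int.gcd_eq_zero_iff] at h
    exact ((hmem v).mp hv).1 (Prod.ext h.1 h.2)
  have hMle : ∀ v ∈ S, Int.gcd v.1 v.2 ≤ M := fun v hv =>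
    Finset.le_sup (f := fun v : ℤ × ℤ => Int.gcd v.1 v.2) hv
  have hcnt : ∀ g : ℕ, 0 < g →
      cnt z (X / g ^ 2) = (S.filter (fun v => g ∣ Int.gcd v.1 v.2)).card := by
    intro g hg
    rw [← cnt_dvd hz hg X, ← Set.ncard_coe_finset]
    congr 1
    ext v
    simp [hmem]
  have hp : pcnt z X = (S.filter (fun v => Int.gcd v.1 v.2 = 1)).card := by
    unfold pcnt
    rw [← Set.ncard_coe_finset]
    congr 1
    ext v
    simp only [Set.mem_ofPred_eq, Finset.coe_filter, hmem, Int.isCoprime_iff_gcd_eq_one]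
    constructor
    · rintro ⟨h1, h2⟩
      refine ⟨⟨?_, h2⟩, h1⟩
      rintro rfl
      simp at h1
    · rintro ⟨⟨_, h2⟩, h1⟩
      exact ⟨h1, h2⟩
  have hzero : ∀ g ∉ Finset.range (M + 1),
      (ArithmeticFunction.moebius g : ℝ) * cnt z (X / g ^ 2) = 0 := by
    intro g hg
    rw [Finset.mem_range, not_lt] at hg
    rw [hcnt g (by omega)]
    have : S.filter (fun v => g ∣ Int.gcd v.1 v.2) = ∅ := by
      rw [Finset.filter_eq_empty_iff]
      intro v hv hd
      have h1 := Nat.le_of_dvd (Nat.pos_of_ne_zero (hgcd v hv)) hd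
      have h2 := hMle v hv
      omega
    rw [this]; simp
  rw [tsum_eq_sum hzero, hp, Finset.card_filter]
  push_cast
  have h1 : ∀ v ∈ S, (if Int.gcd v.1 v.2 = 1 then (1 : ℝ) else 0) =
      ∑ g ∈ Finset.range (M + 1), (ArithmeticFunction.moebius g : ℝ) *
        (if g ∣ Int.gcd v.1 v.2 then 1 else 0) := by
    intro v hv
    have h2 := sum_moebius (hgcd v hv)
    have h3 : ((∑ d ∈ (Int.gcd v.1 v.2).divisors, ArithmeticFunction.moebius d : ℤ) : ℝ) =
        if Int.gcd v.1 v.2 = 1 then (1 : ℝ) else 0 := by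
      rw [h2]; split_ifs <;> simp
    rw [← h3]
    push_cast
    simp only [mul_ite, mul_one, mul_zero]
    rw [← Finset.sum_filter]
    apply Finset.sum_subset
    · intro d hd
      rw [Nat.mem_divisors] at hd
      rw [Finset.mem_filter, Finset.mem_range]
      refine ⟨?_, hd.1⟩
      have := Nat.le_of_dvd (Nat.pos_of_ne_zero (hgcd v hv)) hd.1
      have := hMle v hv
      omega
    · intro d hd hd'
      rw [Finset.mem_filter] at hd
      rw [Nat.mem_divisors] at hd'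
      exact absurd ⟨hd.2, hgcd v hv⟩ hd'
  rw [Finset.sum_congr rfl h1, Finset.sum_comm]
  apply Finset.sum_congr rfl
  intro g _
  rcases Nat.eq_zero_or_pos g with rfl | hg
  · simp
  · rw [hcnt g hg, ← Finset.mul_sum, Finset.card_filter]
    push_cast
    rfl

theorem pcnt_tendsto {z : ℂ} (hz : 0 < z.im) : ∃ V : ℝ,
    Tendsto (fun X : ℝ => (pcnt z X : ℝ) / X) atTop (𝓝 V) := by
  obtain ⟨V, hV⟩ := cnt_tendsto hz
  obtain ⟨C, hC⟩ := cnt_le hz
  have hC0 : 0 ≤ C := le_trans (by positivity) (hC 1 one_pos)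
  refine ⟨∑' g : ℕ, (ArithmeticFunction.moebius g : ℝ) / g ^ 2 * V, ?_⟩
  have h1 : ∀ᶠ X : ℝ in atTop, (∑' g : ℕ, (ArithmeticFunction.moebius g : ℝ) / g ^ 2 *
      ((cnt z (X / g ^ 2) : ℝ) / (X / g ^ 2))) = (pcnt z X : ℝ) / X := by
    filter_upwards [eventually_gt_atTop 0] with X hX
    rw [pcnt_eq hz X, ← tsum_div_const]
    congr 1
    ext g
    rcases Nat.eq_zero_or_pos g with rfl | hg
    · simp
    · have : (g : ℝ) ≠ 0 := by positivity
      field_simp
  refine Tendsto.congr' h1 ?_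
  refine tendsto_tsum_of_dominated_convergence (bound := fun g : ℕ => C * (1 / (g : ℝ) ^ 2))
    ?_ ?_ ?_
  · exact (Real.summable_one_div_nat_pow.mpr (by norm_num)).mul_left C
  · intro g
    rcases Nat.eq_zero_or_pos g with rfl | hg
    · simp
    · apply Tendsto.const_mul
      exact hV.comp (tendsto_id.atTop_div_const (by positivity))
  · filter_upwards [eventually_gt_atTop 0] with X hX g
    rcases Nat.eq_zero_or_pos g with rfl | hg
    · simp
    · have hμ : |(ArithmeticFunction.moebius g : ℝ)| ≤ 1 := by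
        have := @ArithmeticFunction.abs_moebius_le_one g
        exact_mod_cast this
      have hXg : 0 < X / g ^ 2 := by positivity
      rw [norm_mul, norm_div, Real.norm_eq_abs, Real.norm_eq_abs, Real.norm_eq_abs,
        abs_of_nonneg (by positivity : (0 : ℝ) ≤ (g : ℝ) ^ 2),
        abs_of_nonneg (by positivity : (0 : ℝ) ≤ (cnt z (X / g ^ 2) : ℝ) / (X / g ^ 2)),
        mul_comm C]
      apply mul_le_mul _ (hC _ hXg) (by positivity) (by positivity)
      gcongr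

theorem NN_eq {z : ℂ} (hz : 0 < z.im) {ε : ℝ} (hε : 0 < ε) :
    (NN z ε : ℝ) = pcnt z (z.im / ε) - pcnt z (z.im / ε / 2) := by
  have hpos : ∀ v : ℤ × ℤ, IsCoprime v.1 v.2 → 0 < qz z v := by
    intro v hv
    have hv0 : v ≠ 0 := by
      rintro rfl
      rw [Int.isCoprime_iff_gcd_eq_one] at hv
      simp at hv
    have := qz_ge hz hv0
    exact lt_of_lt_of_le (lt_min (by positivity) one_pos) this
  have h1 : NN z ε = ({v : ℤ × ℤ | IsCoprime v.1 v.2 ∧ qz z v ≤ z.im / ε} \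
      {v : ℤ × ℤ | IsCoprime v.1 v.2 ∧ qz z v ≤ z.im / ε / 2}).ncard := by
    unfold NN
    rw [← Nat.card_coe_set_eq]
    congr 1
    apply congrArg
    ext v
    simp only [Set.mem_sdiff, Set.mem_ofPred_eq, not_and, not_le]
    constructor
    · rintro ⟨h1, h2, h3⟩
      have hq := hpos v h1
      change ε ≤ z.im / qz z v at h2
      change z.im / qz z v < 2 * ε at h3
      refine ⟨⟨h1, ?_⟩, fun _ => ?_⟩
      · rw [le_div_iff₀ hε, mul_comm]
        rwa [le_div_iff₀ hq] at h2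
      · rw [div_div, div_lt_iff₀ (by positivity)]
        rw [div_lt_iff₀ hq] at h3
        linarith
    · rintro ⟨⟨h1, h2⟩, h3⟩
      have hq := hpos v h1
      refine ⟨h1, ?_, ?_⟩
      · change ε ≤ z.im / qz z v
        rw [le_div_iff₀ hq]
        rw [le_div_iff₀ hε] at h2
        linarith
      · change z.im / qz z v < 2 * ε
        have h3 := h3 h1
        rw [div_div, div_lt_iff₀ (by positivity)] at h3
        rw [div_lt_iff₀ hq]
        linarith
  have hsub : {v : ℤ × ℤ | IsCoprime v.1 v.2 ∧ qz z v ≤ z.im / ε / 2} ⊆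
      {v : ℤ × ℤ | IsCoprime v.1 v.2 ∧ qz z v ≤ z.im / ε} := by
    intro v hv
    refine ⟨hv.1, hv.2.trans ?_⟩
    have : 0 < z.im / ε := by positivity
    linarith
  have h2 := Set.ncard_sdiff_add_ncard_of_subset hsub (fin2 hz _)
  rw [h1]
  unfold pcnt
  rw [← h2]
  push_cast
  ring

end RSB

/-- block RSB: lattice point count, pointwise limit -/
theorem NN_tendsto_pr (z : ℂ) (hz : 0 < z.im) : ∃ l : ℝ, 0 ≤ l ∧
    Tendsto (fun ε : ℝ => ε * NN z ε) (𝓝[>] 0) (𝓝 l) := by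
  obtain ⟨V, hV⟩ := RSB.pcnt_tendsto hz
  have h1 : Tendsto (fun ε : ℝ => z.im / ε) (𝓝[>] 0) atTop :=
    (tendsto_inv_nhdsGT_zero.const_mul_atTop hz).congr fun ε => by rw [div_eq_mul_inv]
  have h2 : Tendsto (fun ε : ℝ => z.im / ε / 2) (𝓝[>] 0) atTop :=
    h1.atTop_div_const two_pos
  have h3 := ((hV.comp h1).const_mul z.im).sub ((hV.comp h2).const_mul (z.im / 2))
  have h4 : Tendsto (fun ε : ℝ => ε * NN z ε) (𝓝[>] 0) (𝓝 (z.im * V - z.im / 2 * V)) := by
    refine Tendsto.congr' ?_ h3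
    filter_upwards [self_mem_nhdsWithin] with ε hε
    have hε : 0 < ε := hε
    rw [RSB.NN_eq hz hε]
    simp only [Function.comp]
    field_simp
  refine ⟨_, ?_, h4⟩
  apply ge_of_tendsto h4
  filter_upwards [self_mem_nhdsWithin] with ε hε
  have hε : 0 < ε := hε
  positivity

/-- block RSB: lattice point count, upper bound -/
theorem NN_le_pr : ∃ C : ℝ, ∀ z : ℂ, 1 / 2 ≤ z.im → |z.re| ≤ 1 → ∀ ε : ℝ, 0 < ε → ε ≤ 1 →
    ε * NN z ε ≤ C * z.im := by
  refine ⟨60, fun z hy hx ε hε hε1 => ?_⟩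
  have hz : 0 < z.im := by linarith
  have h1 : (NN z ε : ℝ) ≤ RSB.pcnt z (z.im / ε) := by
    rw [RSB.NN_eq hz hε]
    linarith [(Nat.cast_nonneg (RSB.pcnt z (z.im / ε / 2)) : (0 : ℝ) ≤ _)]
  set X := z.im / ε with hX
  have hX0 : 0 < X := by positivity
  have h2 : RSB.pcnt z X ≤ (RSB.box (√X / z.im) (√X + |z.re| * (√X / z.im))).card := by
    unfold RSB.pcnt
    rw [← Set.ncard_coe_finset]
    apply Set.ncard_le_ncard _ (Finset.finite_toSet _)
    intro v hv
    obtain ⟨h1, h2⟩ := RSB.qz_box hz hX0.le hv.2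
    exact RSB.mem_box h1 h2
  have h3 := RSB.card_box (a := √X / z.im) (b := √X + |z.re| * (√X / z.im)) (by positivity)
    (by positivity)
  have h4 : (NN z ε : ℝ) ≤ (2 * (√X / z.im) + 1) * (2 * (√X + |z.re| * (√X / z.im)) + 1) := by
    refine h1.trans (le_trans ?_ h3)
    exact_mod_cast h2
  set s := √X with hs
  have hs0 : 0 ≤ s := Real.sqrt_nonneg _
  have hs2 : s ^ 2 = z.im / ε := Real.sq_sqrt hX0.le
  have h5 : s / z.im ≤ 2 * s := by
    rw [div_le_iff₀ hz]; nlinarith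
  have h6 : |z.re| * (s / z.im) ≤ 2 * s := by
    have : 0 ≤ s / z.im := by positivity
    nlinarith [abs_nonneg z.re]
  have h7 : (NN z ε : ℝ) ≤ (2 * (s / z.im) + 1) * (6 * s + 1) := by
    refine h4.trans ?_
    apply mul_le_mul_of_nonneg_left _ (by positivity)
    linarith
  -- (2 s/y + 1)(6 s + 1) = 12 s²/y + 2 s / y + 6 s + 1
  have h8 : s ^ 2 * ε = z.im := by rw [hs2]; field_simp
  have h9 : (s * ε) ^ 2 ≤ z.im := by
    have : (s * ε) ^ 2 = s ^ 2 * ε * ε := by ring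
    rw [this, h8]; nlinarith
  have h10 : s * ε ≤ 2 * z.im := by
    have h11 : 0 ≤ s * ε := by positivity
    nlinarith
  have h12 : ε * ((2 * (s / z.im) + 1) * (6 * s + 1)) =
      12 * (s ^ 2 * ε) / z.im + 2 * (s * ε) / z.im + 6 * (s * ε) + ε := by
    field_simp
    ring
  have h13 : ε * NN z ε ≤ ε * ((2 * (s / z.im) + 1) * (6 * s + 1)) :=
    mul_le_mul_of_nonneg_left h7 hε.le
  rw [h12, h8] at h13
  have h14 : 12 * z.im / z.im = 12 := by field_simp
  have h15 : 2 * (s * ε) / z.im ≤ 4 := by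
    rw [div_le_iff₀ hz]; linarith
  rw [h14] at h13
  linarith

end Pool.Agent.GL2
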