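import Pool.Agent.Lib_helper68.GL2.Defs

/-! Block RSF: D_{P!}(y) is small for small y, once P is large. -/

namespace Pool.Agent.GL2

open Complex MeasureTheory Filter Topology
open scoped MatrixGroups

theorem rsf_growth {k : ℕ} {a : ℕ → ℝ} (H : HData k a) :
    ∃ C : ℝ, 0 ≤ C ∧ ∀ m n : ℕ, (am a m n) ^ 2 ≤ C * (n : ℝ) ^ k := by
  obtain ⟨C, hC⟩ := H.growth
  refine ⟨C ^ 2, sq_nonneg C, fun m n => ?_⟩
  have h1 : (a n) ^ 2 ≤ C ^ 2 * (n : ℝ) ^ k := by
    have h2 := hC n
    have h3 : |a n| ^ 2 ≤ (C * (n : ℝ) ^ ((k : ℝ) / 2)) ^ 2 :=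
      pow_le_pow_left₀ (abs_nonneg _) h2 2
    rw [sq_abs, mul_pow, ← Real.rpow_natCast ((n : ℝ) ^ ((k : ℝ) / 2)) 2,
      ← Real.rpow_mul (Nat.cast_nonneg n)] at h3
    have h4 : (k : ℝ) / 2 * ((2 : ℕ) : ℝ) = (k : ℝ) := by push_cast; ring
    rw [h4, Real.rpow_natCast] at h3
    exact h3
  unfold am
  split_ifs
  · exact h1
  · have := sq_nonneg (a n)
    simp only [ne_eq, OfNat.ofNat_ne_zero, not_false_eq_true, zero_pow]
    exact le_trans this h1

theorem rsf_summable {k : ℕ} {a : ℕ → ℝ} (H : HData k a) (m : ℕ) {y : ℝ} (hy : 0 < y) :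
    Summable (fun n : ℕ => (am a m n) ^ 2 * Real.exp (-4 * Real.pi * n * y)) := by
  obtain ⟨C, hC0, hC⟩ := rsf_growth H
  have hc : 0 < 4 * Real.pi * y := by positivity
  have h1 : Summable (fun n : ℕ => C * ((n : ℝ) ^ k * Real.exp (-(4 * Real.pi * y) * n))) :=
    (Real.summable_pow_mul_exp_neg_nat_mul k hc).mul_left C
  refine Summable.of_nonneg_of_le (fun n => by positivity) (fun n => ?_) h1
  have h2 : -(4 * Real.pi * y) * (n : ℝ) = -4 * Real.pi * n * y := by ring
  rw [h2, ← mul_assoc]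
  exact mul_le_mul_of_nonneg_right (hC m n) (Real.exp_pos _).le

/-- multiplication of the argument: reindexing -/
theorem rsf_reindex {k : ℕ} {a : ℕ → ℝ} (H : HData k a) (m : ℕ) {d : ℕ} (hd : 0 < d) {y : ℝ}
    (hy : 0 < y) :
    Summable (fun n : ℕ => (if d ∣ n then (am a m (n / d)) ^ 2 else 0) *
      Real.exp (-4 * Real.pi * n * y)) ∧
    Dm k a m (d * y) = (d : ℝ) ^ k * (y ^ k * ∑' n : ℕ,
      (if d ∣ n then (am a m (n / d)) ^ 2 else 0) * Real.exp (-4 * Real.pi * n * y)) := by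
  have hinj : Function.Injective (fun n : ℕ => d * n) :=
    fun x y h => Nat.eq_of_mul_eq_mul_left hd h
  have hsupp : Function.support (fun n : ℕ => (if d ∣ n then (am a m (n / d)) ^ 2 else 0) *
      Real.exp (-4 * Real.pi * n * y)) ⊆ Set.range (fun n : ℕ => d * n) := by
    intro n hn
    rw [Function.mem_support] at hn
    by_contra hcon
    apply hn
    have : ¬ d ∣ n := fun ⟨c, hc⟩ => hcon ⟨c, hc.symm⟩
    rw [if_neg this, zero_mul]
  have hval : ∀ n : ℕ, (if d ∣ d * n then (am a m (d * n / d)) ^ 2 else 0) *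
      Real.exp (-4 * Real.pi * ((d * n : ℕ) : ℝ) * y) =
      (am a m n) ^ 2 * Real.exp (-4 * Real.pi * n * (d * y)) := by
    intro n
    rw [if_pos (Dvd.intro n rfl), Nat.mul_div_cancel_left n hd]
    congr 2
    push_cast
    ring
  have hdy : 0 < (d : ℝ) * y := by positivity
  constructor
  · rw [← hinj.summable_iff (f := fun n : ℕ => (if d ∣ n then (am a m (n / d)) ^ 2 else 0) *
      Real.exp (-4 * Real.pi * n * y))]
    · refine (rsf_summable H m hdy).congr (fun n => ?_)
      exact (hval n).symm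
    · intro x hx
      by_contra hcon
      exact hx (hsupp hcon)
  · unfold Dm
    rw [mul_pow, mul_assoc]
    congr 2
    rw [← hinj.tsum_eq hsupp]
    exact tsum_congr (fun n => (hval n).symm)


theorem rsf_continuousOn {k : ℕ} {a : ℕ → ℝ} (H : HData k a) (m : ℕ) :
    ContinuousOn (Dm k a m) (Set.Ioi 0) := by
  intro y hy
  have hy' : (0 : ℝ) < y := hy
  obtain ⟨C, hC0, hC⟩ := rsf_growth H
  have hc : 0 < 4 * Real.pi * (y / 2) := by positivity
  have h1 : Summable (fun n : ℕ => C * ((n : ℝ) ^ k * Real.exp (-(4 * Real.pi * (y / 2)) * n))) :=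
    (Real.summable_pow_mul_exp_neg_nat_mul k hc).mul_left C
  have h2 : ContinuousOn (fun y : ℝ => ∑' n : ℕ, (am a m n) ^ 2 *
      Real.exp (-4 * Real.pi * n * y)) (Set.Ioi (y / 2)) := by
    refine continuousOn_tsum (fun n => by fun_prop) h1 (fun n x hx => ?_)
    rw [Real.norm_of_nonneg (by positivity), ← mul_assoc]
    refine mul_le_mul (hC m n) ?_ (Real.exp_pos _).le (by positivity)
    apply Real.exp_le_exp.mpr
    have hx' : y / 2 < x := hx
    have hn : (0 : ℝ) ≤ 4 * Real.pi * n := by positivity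
    have h3 := mul_le_mul_of_nonneg_left hx'.le hn
    linarith
  have h3 : ContinuousOn (Dm k a m) (Set.Ioi (y / 2)) := by
    unfold Dm
    exact (continuousOn_pow k).mul h2
  have h4 : Set.Ioi (y / 2) ∈ 𝓝 y := Ioi_mem_nhds (by linarith)
  exact (h3.continuousAt h4).continuousWithinAt

theorem rsf_intervalIntegrable {k : ℕ} {a : ℕ → ℝ} (H : HData k a) (m : ℕ) {ε : ℝ}
    (hε : 0 < ε) :
    IntervalIntegrable (fun t : ℝ => Dm k a m (ε * t) / t ^ 2) volume 1 2 := by
  apply ContinuousOn.intervalIntegrable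
  rw [Set.uIcc_of_le (by norm_num : (1 : ℝ) ≤ 2)]
  have h1 : ContinuousOn (fun t : ℝ => Dm k a m (ε * t)) (Set.Icc 1 2) := by
    refine (rsf_continuousOn H m).comp (by fun_prop) ?_
    intro t ht
    have : (0 : ℝ) < t := lt_of_lt_of_le one_pos ht.1
    exact Set.mem_Ioi.mpr (mul_pos hε this)
  refine h1.div (by fun_prop) ?_
  intro t ht
  have : (0 : ℝ) < t := lt_of_lt_of_le one_pos ht.1
  positivity

theorem rsf_nonneg {k : ℕ} {a : ℕ → ℝ} (m : ℕ) {y : ℝ} (hy : 0 < y) : 0 ≤ Dm k a m y := by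
  unfold Dm
  exact mul_nonneg (pow_nonneg hy.le k) (tsum_nonneg (fun n => by positivity))

/-- `y^(-k) D(y)` is decreasing -/
theorem rsf_mono {k : ℕ} {a : ℕ → ℝ} (H : HData k a) (m : ℕ) {x y : ℝ} (hx : 0 < x)
    (hxy : x ≤ y) : Dm k a m y ≤ (y / x) ^ k * Dm k a m x := by
  have hy : 0 < y := lt_of_lt_of_le hx hxy
  unfold Dm
  rw [div_pow, ← mul_assoc, div_mul_cancel₀ _ (pow_pos hx k).ne']
  refine mul_le_mul_of_nonneg_left ?_ (pow_nonneg hy.le k)
  refine (rsf_summable H m hy).tsum_le_tsum (fun n => ?_) (rsf_summable H m hx)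
  refine mul_le_mul_of_nonneg_left ?_ (sq_nonneg _)
  apply Real.exp_le_exp.mpr
  have hn : (0 : ℝ) ≤ 4 * Real.pi * n := by positivity
  have := mul_le_mul_of_nonneg_left hxy hn
  linarith

theorem rsf_window {k : ℕ} {a : ℕ → ℝ} (H : HData k a) (m : ℕ) {ε : ℝ} (hε : 0 < ε) :
    Dm k a m (2 * ε) ≤ 2 ^ (k + 1) * ∫ t in (1 : ℝ)..2, Dm k a m (ε * t) / t ^ 2 := by
  have h1 : ∫ t in (1 : ℝ)..2, (Dm k a m (2 * ε) / 2 ^ k) * (1 / t ^ 2) ≤
      ∫ t in (1 : ℝ)..2, Dm k a m (ε * t) / t ^ 2 := by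
    apply intervalIntegral.integral_mono_on (by norm_num)
    · apply ContinuousOn.intervalIntegrable
      rw [Set.uIcc_of_le (by norm_num : (1 : ℝ) ≤ 2)]
      refine continuousOn_const.mul (continuousOn_const.div (by fun_prop) ?_)
      intro t ht
      have : (0 : ℝ) < t := lt_of_lt_of_le one_pos ht.1
      positivity
    · exact rsf_intervalIntegrable H m hε
    · intro t ht
      have ht0 : (0 : ℝ) < t := lt_of_lt_of_le one_pos ht.1
      rw [mul_one_div]
      refine div_le_div_of_nonneg_right ?_ (by positivity)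
      rw [div_le_iff₀ (by positivity)]
      have h2 := rsf_mono H m (mul_pos hε ht0) (y := 2 * ε)
        (by rw [mul_comm 2 ε]; exact mul_le_mul_of_nonneg_left ht.2 hε.le)
      have h3 : (2 * ε / (ε * t)) ^ k ≤ 2 ^ k := by
        refine pow_le_pow_left₀ (by positivity) ?_ k
        rw [div_le_iff₀ (by positivity)]
        nlinarith [ht.1, mul_pos hε ht0]
      calc Dm k a m (2 * ε) ≤ (2 * ε / (ε * t)) ^ k * Dm k a m (ε * t) := h2
        _ ≤ 2 ^ k * Dm k a m (ε * t) :=
          mul_le_mul_of_nonneg_right h3 (rsf_nonneg m (mul_pos hε ht0))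
        _ = Dm k a m (ε * t) * 2 ^ k := mul_comm _ _
  have h2 : ∫ t in (1 : ℝ)..2, (Dm k a m (2 * ε) / 2 ^ k) * (1 / t ^ 2) =
      Dm k a m (2 * ε) / 2 ^ k * (1 / 2) := by
    rw [intervalIntegral.integral_const_mul]
    congr 1
    have h3 : ∀ t ∈ Set.uIcc (1 : ℝ) 2, HasDerivAt (fun t : ℝ => -t⁻¹) (1 / t ^ 2) t := by
      intro t ht
      rw [Set.uIcc_of_le (by norm_num : (1 : ℝ) ≤ 2)] at ht
      have ht0 : t ≠ 0 := by
        have : (0 : ℝ) < t := lt_of_lt_of_le one_pos ht.1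
        exact this.ne'
      have := (hasDerivAt_inv ht0).neg
      simp only [neg_neg] at this
      rw [one_div]
      exact this
    rw [intervalIntegral.integral_eq_sub_of_hasDerivAt h3]
    · norm_num
    · apply ContinuousOn.intervalIntegrable
      rw [Set.uIcc_of_le (by norm_num : (1 : ℝ) ≤ 2)]
      refine continuousOn_const.div (by fun_prop) ?_
      intro t ht
      have : (0 : ℝ) < t := lt_of_lt_of_le one_pos ht.1
      positivity
  rw [h2] at h1
  have h4 : (0 : ℝ) < 2 ^ k := by positivity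
  have h5 : Dm k a m (2 * ε) = 2 ^ (k + 1) * (Dm k a m (2 * ε) / 2 ^ k * (1 / 2)) := by
    rw [pow_succ]
    field_simp
  rw [h5]
  exact mul_le_mul_of_nonneg_left h1 (by positivity)

theorem rsf_am_one (a : ℕ → ℝ) (n : ℕ) : am a 1 n = a n := by
  unfold am
  rw [if_pos (Nat.coprime_one_right n)]

theorem rsf_am_sq_le (a : ℕ → ℝ) (m n : ℕ) : (am a m n) ^ 2 ≤ (a n) ^ 2 := by
  unfold am
  split_ifs
  · exact le_rfl
  · have := sq_nonneg (a n)
    simpa using this

theorem rsf_le_one {k : ℕ} {a : ℕ → ℝ} (H : HData k a) (m : ℕ) {y : ℝ} (hy : 0 < y) :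
    Dm k a m y ≤ Dm k a 1 y := by
  unfold Dm
  refine mul_le_mul_of_nonneg_left ?_ (pow_nonneg hy.le k)
  refine (rsf_summable H m hy).tsum_le_tsum (fun n => ?_) (rsf_summable H 1 hy)
  refine mul_le_mul_of_nonneg_right ?_ (Real.exp_pos _).le
  rw [rsf_am_one]
  exact rsf_am_sq_le a m n

/-- coefficientwise superadditivity -/
theorem rsf_coeff {k : ℕ} {a : ℕ → ℝ} (H : HData k a) (P N : ℕ) :
    ∑ d ∈ Finset.Icc 1 P, (a d) ^ 2 *
      (if d ∣ N then (am a P.factorial (N / d)) ^ 2 else 0) ≤ (a N) ^ 2 := by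
  have ham0 : am a P.factorial 0 = 0 := by
    unfold am
    split_ifs
    · exact H.zero
    · rfl
  rcases Nat.eq_zero_or_pos N with h0 | hN
  · subst h0
    simp [ham0, sq_nonneg]
  by_cases hex : ∃ d ∈ Finset.Icc 1 P, d ∣ N ∧ (N / d).Coprime P.factorial
  · obtain ⟨d, hd, hdN, hcop⟩ := hex
    have hdfac : ∀ e ∈ Finset.Icc 1 P, e ∣ P.factorial := by
      intro e he
      rw [Finset.mem_Icc] at he
      exact Nat.dvd_factorial (by omega) he.2
    rw [Finset.sum_eq_single d]
    · rw [if_pos hdN]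
      have h1 : am a P.factorial (N / d) = a (N / d) := by
        unfold am
        rw [if_pos hcop]
      have h2 : d.Coprime (N / d) := (Nat.Coprime.coprime_dvd_right (hdfac d hd) hcop).symm
      have h3 : a N = a d * a (N / d) := by
        rw [← H.mul d (N / d) h2, Nat.mul_div_cancel' hdN]
      rw [h1, h3]
      exact le_of_eq (by ring)
    · intro e he hne
      by_cases heN : e ∣ N
      · rw [if_pos heN]
        by_cases hcop' : (N / e).Coprime P.factorial
        · exfalso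
          apply hne
          have hde : d ∣ e := by
            have h1 : d ∣ e * (N / e) := by
              rw [Nat.mul_div_cancel' heN]
              exact hdN
            exact Nat.Coprime.dvd_of_dvd_mul_right
              (Nat.Coprime.coprime_dvd_right (hdfac d hd) hcop').symm h1
          have hed : e ∣ d := by
            have h1 : e ∣ d * (N / d) := by
              rw [Nat.mul_div_cancel' hdN]
              exact heN
            exact Nat.Coprime.dvd_of_dvd_mul_right
              (Nat.Coprime.coprime_dvd_right (hdfac e he) hcop).symm h1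
          exact Nat.dvd_antisymm hed hde
        · have h1 : am a P.factorial (N / e) = 0 := by
            unfold am
            rw [if_neg hcop']
          rw [h1]
          ring
      · rw [if_neg heN, mul_zero]
    · intro h
      exact absurd hd h
  · push Not at hex
    rw [Finset.sum_eq_zero]
    · exact sq_nonneg _
    · intro d hd
      by_cases hdN : d ∣ N
      · have h1 : am a P.factorial (N / d) = 0 := by
          unfold am
          rw [if_neg (hex d hd hdN)]
        rw [if_pos hdN, h1]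
        ring
      · rw [if_neg hdN, mul_zero]

theorem rsf_super {k : ℕ} {a : ℕ → ℝ} (H : HData k a) (P : ℕ) {y : ℝ} (hy : 0 < y) :
    ∑ d ∈ Finset.Icc 1 P, (a d) ^ 2 / (d : ℝ) ^ k * Dm k a P.factorial (d * y) ≤
      Dm k a 1 y := by
  have h1 : ∀ d ∈ Finset.Icc 1 P, (a d) ^ 2 / (d : ℝ) ^ k * Dm k a P.factorial (d * y) =
      y ^ k * ∑' n : ℕ, (a d) ^ 2 * ((if d ∣ n then (am a P.factorial (n / d)) ^ 2 else 0) *
        Real.exp (-4 * Real.pi * n * y)) := by
    intro d hd
    rw [Finset.mem_Icc] at hd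
    have hd0 : 0 < d := hd.1
    rw [(rsf_reindex H P.factorial hd0 hy).2, tsum_mul_left]
    have hdR : (0 : ℝ) < (d : ℝ) ^ k := pow_pos (by exact_mod_cast hd0) k
    generalize (∑' n : ℕ, (if d ∣ n then (am a P.factorial (n / d)) ^ 2 else 0) *
        Real.exp (-4 * Real.pi * n * y)) = Z
    field_simp
  rw [Finset.sum_congr rfl h1, ← Finset.mul_sum]
  unfold Dm
  refine mul_le_mul_of_nonneg_left ?_ (pow_nonneg hy.le k)
  have hs : ∀ d ∈ Finset.Icc 1 P, Summable (fun n : ℕ => (a d) ^ 2 *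
      ((if d ∣ n then (am a P.factorial (n / d)) ^ 2 else 0) *
        Real.exp (-4 * Real.pi * n * y))) := by
    intro d hd
    rw [Finset.mem_Icc] at hd
    exact ((rsf_reindex H P.factorial (show 0 < d from hd.1) hy).1).mul_left _
  rw [← Summable.tsum_finsetSum hs]
  refine (summable_sum hs).tsum_le_tsum (fun n => ?_) (rsf_summable H 1 hy)
  rw [rsf_am_one]
  have h2 := mul_le_mul_of_nonneg_right (rsf_coeff H P n)
    (Real.exp_pos (-4 * Real.pi * n * y)).le
  refine le_trans (le_of_eq ?_) h2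
  rw [Finset.sum_mul]
  exact Finset.sum_congr rfl (fun d _ => by ring)

theorem rsf_caseB {k : ℕ} {a : ℕ → ℝ} (H : HData k a)
    (hs : Summable (fun n : ℕ => (a n) ^ 2 / (n : ℝ) ^ k)) :
    Tendsto (Dm k a 1) (𝓝[>] 0) (𝓝 0) := by
  have hk := H.kpos
  have h1 : ∀ y : ℝ, Dm k a 1 y = ∑' n : ℕ, (a n) ^ 2 / (n : ℝ) ^ k *
      ((n * y) ^ k * Real.exp (-4 * Real.pi * n * y)) := by
    intro y
    unfold Dm
    rw [← tsum_mul_left]
    refine tsum_congr (fun n => ?_)
    rw [rsf_am_one]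
    rcases Nat.eq_zero_or_pos n with h0 | hn
    · subst h0
      rw [H.zero]
      simp
    · have hnR : (0 : ℝ) < (n : ℝ) ^ k := pow_pos (by exact_mod_cast hn) k
      rw [mul_pow]
      field_simp
  have h2 : Tendsto (fun y : ℝ => ∑' n : ℕ, (a n) ^ 2 / (n : ℝ) ^ k *
      ((n * y) ^ k * Real.exp (-4 * Real.pi * n * y))) (𝓝[>] 0) (𝓝 (∑' n : ℕ, (0 : ℝ))) := by
    refine tendsto_tsum_of_dominated_convergence
      (bound := fun n : ℕ => (a n) ^ 2 / (n : ℝ) ^ k * (k.factorial : ℝ)) (hs.mul_right _) ?_ ?_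
    · intro n
      have h3 : Tendsto (fun y : ℝ => (a n) ^ 2 / (n : ℝ) ^ k *
          ((n * y) ^ k * Real.exp (-4 * Real.pi * n * y))) (𝓝 0)
          (𝓝 ((a n) ^ 2 / (n : ℝ) ^ k * ((n * 0) ^ k * Real.exp (-4 * Real.pi * n * 0)))) := by
        apply Continuous.tendsto
        fun_prop
      rw [mul_zero, zero_pow hk.ne', zero_mul, mul_zero] at h3
      exact h3.mono_left nhdsWithin_le_nhds
    · filter_upwards [self_mem_nhdsWithin] with y hy n
      have hy' : (0 : ℝ) < y := hy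
      have hn0 : (0 : ℝ) ≤ n * y := by positivity
      rw [Real.norm_of_nonneg (by positivity)]
      refine mul_le_mul_of_nonneg_left ?_ (by positivity)
      have h4 : (n * y : ℝ) ^ k / (k.factorial : ℝ) ≤ Real.exp (n * y) :=
        Real.pow_div_factorial_le_exp (n * y) hn0 k
      have hf : (0 : ℝ) < k.factorial := by exact_mod_cast k.factorial_pos
      rw [div_le_iff₀ hf] at h4
      have h5 : Real.exp (n * y) * Real.exp (-4 * Real.pi * n * y) ≤ 1 := by
        rw [← Real.exp_add, Real.exp_le_one_iff]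
        have hpi : (3 : ℝ) < Real.pi := Real.pi_gt_three
        nlinarith
      calc (n * y : ℝ) ^ k * Real.exp (-4 * Real.pi * n * y) ≤
          (Real.exp (n * y) * k.factorial) * Real.exp (-4 * Real.pi * n * y) :=
            mul_le_mul_of_nonneg_right h4 (Real.exp_pos _).le
        _ = (Real.exp (n * y) * Real.exp (-4 * Real.pi * n * y)) * k.factorial := by ring
        _ ≤ 1 * k.factorial := mul_le_mul_of_nonneg_right h5 hf.le
        _ = k.factorial := one_mul _
  rw [tsum_zero] at h2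
  exact h2.congr (fun y => (h1 y).symm)

/-- block RSF, from the existence of the limits (block RSQ) -/
theorem Dm_small_of {k : ℕ} {a : ℕ → ℝ} (H : HData k a)
    (hW : ∀ P : ℕ, ∃ l : ℝ,
      Tendsto (fun ε : ℝ => ∫ t in (1 : ℝ)..2, Dm k a P.factorial (ε * t) / t ^ 2)
        (𝓝[>] 0) (𝓝 l)) {δ : ℝ} (hδ : 0 < δ) :
    ∃ P₀ : ℕ, ∀ P : ℕ, P₀ ≤ P → ∃ y₀ : ℝ, 0 < y₀ ∧ ∀ y : ℝ, 0 < y → y ≤ y₀ →
      Dm k a P.factorial y ≤ δ := by
  by_cases hs : Summable (fun n : ℕ => (a n) ^ 2 / (n : ℝ) ^ k)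
  · have h1 := rsf_caseB H hs
    have h2 : ∀ᶠ y in 𝓝[>] (0 : ℝ), Dm k a 1 y < δ := h1.eventually_lt_const hδ
    rw [eventually_nhdsWithin_iff, Metric.eventually_nhds_iff] at h2
    obtain ⟨ρ, hρ, h3⟩ := h2
    refine ⟨0, fun P _ => ⟨ρ / 2, by positivity, fun y hy hyρ => ?_⟩⟩
    refine (rsf_le_one H _ hy).trans ?_
    refine (h3 ?_ hy).le
    rw [Real.dist_eq, sub_zero, abs_of_pos hy]
    linarith
  · choose l hl using hW
    have hl0 : ∀ P, 0 ≤ l P := by
      intro P
      refine ge_of_tendsto (hl P) ?_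
      filter_upwards [self_mem_nhdsWithin] with ε hε
      have hε' : (0 : ℝ) < ε := hε
      apply intervalIntegral.integral_nonneg (by norm_num)
      intro t ht
      have ht0 : (0 : ℝ) < t := lt_of_lt_of_le one_pos ht.1
      exact div_nonneg (rsf_nonneg _ (mul_pos hε' ht0)) (by positivity)
    -- the scaled limit
    have hscale : ∀ P d : ℕ, 0 < d → Tendsto (fun ε : ℝ => ∫ t in (1 : ℝ)..2,
        Dm k a P.factorial (d * ε * t) / t ^ 2) (𝓝[>] 0) (𝓝 (l P)) := by
      intro P d hd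
      have hdR : (0 : ℝ) < d := by exact_mod_cast hd
      have h1 : Tendsto (fun ε : ℝ => (d : ℝ) * ε) (𝓝[>] 0) (𝓝[>] 0) := by
        refine tendsto_nhdsWithin_iff.mpr ⟨?_, ?_⟩
        · have h2 : Tendsto (fun ε : ℝ => (d : ℝ) * ε) (𝓝 0) (𝓝 ((d : ℝ) * 0)) :=
            (continuous_const.mul continuous_id).tendsto 0
          rw [mul_zero] at h2
          exact h2.mono_left nhdsWithin_le_nhds
        · filter_upwards [self_mem_nhdsWithin] with ε hε
          exact mul_pos hdR hε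
      exact (hl P).comp h1
    have hmain : ∀ P : ℕ, (∑ d ∈ Finset.Icc 1 P, (a d) ^ 2 / (d : ℝ) ^ k) * l P ≤ l 0 := by
      intro P
      have h1 : Tendsto (fun ε : ℝ => ∑ d ∈ Finset.Icc 1 P, (a d) ^ 2 / (d : ℝ) ^ k *
          ∫ t in (1 : ℝ)..2, Dm k a P.factorial (d * ε * t) / t ^ 2) (𝓝[>] 0)
          (𝓝 (∑ d ∈ Finset.Icc 1 P, (a d) ^ 2 / (d : ℝ) ^ k * l P)) := by
        refine tendsto_finsetSum _ (fun d hd => ?_)
        rw [Finset.mem_Icc] at hd
        exact (hscale P d hd.1).const_mul _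
      rw [Finset.sum_mul]
      refine le_of_tendsto_of_tendsto h1 (hl 0) ?_
      filter_upwards [self_mem_nhdsWithin] with ε hε
      have hε' : (0 : ℝ) < ε := hε
      have hint : ∀ d ∈ Finset.Icc 1 P, IntervalIntegrable
          (fun t : ℝ => (a d) ^ 2 / (d : ℝ) ^ k *
            (Dm k a P.factorial (d * ε * t) / t ^ 2)) volume 1 2 := by
        intro d hd
        rw [Finset.mem_Icc] at hd
        have hdR : (0 : ℝ) < d := by exact_mod_cast hd.1
        exact (rsf_intervalIntegrable H P.factorial (mul_pos hdR hε')).const_mul _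
      have h2 : ∑ d ∈ Finset.Icc 1 P, (a d) ^ 2 / (d : ℝ) ^ k *
          ∫ t in (1 : ℝ)..2, Dm k a P.factorial (d * ε * t) / t ^ 2 =
          ∫ t in (1 : ℝ)..2, ∑ d ∈ Finset.Icc 1 P, (a d) ^ 2 / (d : ℝ) ^ k *
            (Dm k a P.factorial (d * ε * t) / t ^ 2) := by
        rw [intervalIntegral.integral_finsetSum hint]
        refine Finset.sum_congr rfl (fun d _ => ?_)
        rw [intervalIntegral.integral_const_mul]
      rw [h2]
      apply intervalIntegral.integral_mono_on (by norm_num)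
      · have h5 := IntervalIntegrable.sum _ hint
        refine h5.congr (fun t _ => ?_)
        simp only [Finset.sum_apply]
      · exact rsf_intervalIntegrable H _ hε'
      · intro t ht
        have ht0 : (0 : ℝ) < t := lt_of_lt_of_le one_pos ht.1
        have h3 := rsf_super H P (mul_pos hε' ht0)
        have h4 : ∑ d ∈ Finset.Icc 1 P, (a d) ^ 2 / (d : ℝ) ^ k *
            (Dm k a P.factorial (d * ε * t) / t ^ 2) =
            (∑ d ∈ Finset.Icc 1 P, (a d) ^ 2 / (d : ℝ) ^ k *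
              Dm k a P.factorial (d * (ε * t))) / t ^ 2 := by
          rw [Finset.sum_div]
          refine Finset.sum_congr rfl (fun d _ => ?_)
          rw [mul_assoc (d : ℝ) ε t, mul_div_assoc]
        rw [h4]
        exact div_le_div_of_nonneg_right h3 (by positivity)
    -- divergence of the partial sums
    have hdiv : Tendsto (fun P : ℕ => ∑ d ∈ Finset.range P, (a d) ^ 2 / (d : ℝ) ^ k) atTop
        atTop := by
      refine (not_summable_iff_tendsto_nat_atTop_of_nonneg (fun n => by positivity)).mp hs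
    have hδ' : 0 < δ / 2 ^ (k + 1) := by positivity
    obtain ⟨P₁, hP₁⟩ := (hdiv.eventually_gt_atTop
      ((l 0 + 1) / (δ / 2 ^ (k + 1)))).exists_forall_of_atTop
    refine ⟨P₁, fun P hP => ?_⟩
    have h1 : (l 0 + 1) / (δ / 2 ^ (k + 1)) <
        ∑ d ∈ Finset.Icc 1 P, (a d) ^ 2 / (d : ℝ) ^ k := by
      refine lt_of_lt_of_le (hP₁ P hP) ?_
      have h2 : ∑ d ∈ Finset.range P, (a d) ^ 2 / (d : ℝ) ^ k ≤
          ∑ d ∈ insert 0 (Finset.Icc 1 P), (a d) ^ 2 / (d : ℝ) ^ k := by
        refine Finset.sum_le_sum_of_subset_of_nonneg ?_ (fun n _ _ => by positivity)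
        intro d hd
        rw [Finset.mem_range] at hd
        rw [Finset.mem_insert, Finset.mem_Icc]
        omega
      rw [Finset.sum_insert (by simp), H.zero] at h2
      simpa using h2
    have hlt : l P < δ / 2 ^ (k + 1) := by
      by_contra hcon
      push Not at hcon
      rw [div_lt_iff₀ hδ'] at h1
      have h2 := hmain P
      have h3 : 0 ≤ ∑ d ∈ Finset.Icc 1 P, (a d) ^ 2 / (d : ℝ) ^ k :=
        Finset.sum_nonneg (fun d _ => by positivity)
      have h4 := mul_le_mul_of_nonneg_left hcon h3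
      linarith
    have h2 : ∀ᶠ ε in 𝓝[>] (0 : ℝ),
        (∫ t in (1 : ℝ)..2, Dm k a P.factorial (ε * t) / t ^ 2) < δ / 2 ^ (k + 1) :=
      (hl P).eventually_lt_const hlt
    rw [eventually_nhdsWithin_iff, Metric.eventually_nhds_iff] at h2
    obtain ⟨ρ, hρ, h3⟩ := h2
    refine ⟨ρ / 2, by positivity, fun y hy hyρ => ?_⟩
    have hy2 : 0 < y / 2 := by positivity
    have h4 := rsf_window H P.factorial hy2
    have h5 : (∫ t in (1 : ℝ)..2, Dm k a P.factorial (y / 2 * t) / t ^ 2) <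
        δ / 2 ^ (k + 1) := by
      apply h3
      · rw [Real.dist_eq, sub_zero, abs_of_pos hy2]
        linarith
      · exact hy2
    rw [mul_div_cancel₀ y (two_ne_zero)] at h4
    refine h4.trans ?_
    have h6 : (0 : ℝ) < 2 ^ (k + 1) := by positivity
    rw [lt_div_iff₀ h6] at h5
    linarith

/-
At assembly (after block RSQ):
theorem Dm_small_pr {k : ℕ} {a : ℕ → ℝ} (H : HData k a) {δ : ℝ} (hδ : 0 < δ) :
    ∃ P₀ : ℕ, ∀ P : ℕ, P₀ ≤ P → ∃ y₀ : ℝ, 0 < y₀ ∧ ∀ y : ℝ, 0 < y → y ≤ y₀ →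
      Dm k a P.factorial y ≤ δ :=
  Dm_small_of H (Wm_tendsto_pr H) hδ
-/

end Pool.Agent.GL2
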