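import Pool.Agent.Lib_helper68.GL2.Defs

set_option autoImplicit false

namespace Pool.Agent.GL2

open Complex MeasureTheory Filter Topology
open scoped MatrixGroups

/-- `a n ^ 2 ≤ C n ^ k` -/
theorem rsp_sq_le {k : ℕ} {a : ℕ → ℝ} (H : HData k a) :
    ∃ C : ℝ, 0 ≤ C ∧ ∀ n : ℕ, a n ^ 2 ≤ C * (n : ℝ) ^ k := by
  obtain ⟨C, hC⟩ := H.growth
  refine ⟨C ^ 2, sq_nonneg _, fun n => ?_⟩
  have h1 := hC n
  have h2 : a n ^ 2 = |a n| ^ 2 := (sq_abs _).symm
  have h3 : ((n : ℝ) ^ ((k : ℝ) / 2)) ^ 2 = (n : ℝ) ^ k := by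
    rw [← Real.rpow_natCast, ← Real.rpow_mul (Nat.cast_nonneg n)]
    rw [show ((k : ℝ) / 2) * ((2 : ℕ) : ℝ) = (k : ℝ) by push_cast; ring, Real.rpow_natCast]
  calc a n ^ 2 = |a n| ^ 2 := h2
    _ ≤ (C * (n : ℝ) ^ ((k : ℝ) / 2)) ^ 2 := pow_le_pow_left₀ (abs_nonneg _) h1 2
    _ = C ^ 2 * (n : ℝ) ^ k := by rw [mul_pow, h3]

theorem rsp_am_sq_le (a : ℕ → ℝ) (m n : ℕ) : (am a m n) ^ 2 ≤ a n ^ 2 := by
  unfold am
  split_ifs
  · exact le_rfl
  · simpa using sq_nonneg (a n)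

theorem rsp_summable {k : ℕ} {a : ℕ → ℝ} (H : HData k a) (m : ℕ) {y : ℝ} (hy : 0 < y) :
    Summable (fun n : ℕ => (am a m n) ^ 2 * Real.exp (-4 * Real.pi * n * y)) := by
  obtain ⟨C, hC0, hC⟩ := rsp_sq_le H
  have hr : 0 < 4 * Real.pi * y := by positivity
  have h1 := (Real.summable_pow_mul_exp_neg_nat_mul k hr).mul_left C
  refine Summable.of_nonneg_of_le (fun n => by positivity) (fun n => ?_) h1
  have h2 : (am a m n) ^ 2 ≤ C * (n : ℝ) ^ k := (rsp_am_sq_le a m n).trans (hC n)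
  have h3 : Real.exp (-4 * Real.pi * n * y) = Real.exp (-(4 * Real.pi * y) * n) := by ring_nf
  rw [h3]
  calc (am a m n) ^ 2 * Real.exp (-(4 * Real.pi * y) * n)
      ≤ (C * (n : ℝ) ^ k) * Real.exp (-(4 * Real.pi * y) * n) :=
        mul_le_mul_of_nonneg_right h2 (Real.exp_pos _).le
    _ = _ := by ring

/-- the `i`-th term, indexed by `N` -/
noncomputable def rspT (k : ℕ) (a : ℕ → ℝ) (m p i : ℕ) (y : ℝ) (N : ℕ) : ℝ :=
  if p ^ i ∣ N then ((p : ℝ) ^ (k - 1)) ^ i * (am a m (N / p ^ i)) ^ 2 *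
    Real.exp (-4 * Real.pi * N * y) else 0

theorem rspT_mul (k : ℕ) (a : ℕ → ℝ) (m : ℕ) {p : ℕ} (hp : 0 < p) (i : ℕ) (y : ℝ) (n : ℕ) :
    rspT k a m p i y (p ^ i * n) = ((p : ℝ) ^ (k - 1)) ^ i * ((am a m n) ^ 2 *
      Real.exp (-4 * Real.pi * n * (p ^ i * y))) := by
  have h1 : 0 < p ^ i := pow_pos hp i
  unfold rspT
  rw [if_pos (Dvd.intro n rfl), Nat.mul_div_cancel_left n h1]
  push_cast
  rw [mul_assoc]
  congr 3
  ring

theorem rspT_support (k : ℕ) (a : ℕ → ℝ) (m p i : ℕ) (y : ℝ) :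
    Function.support (rspT k a m p i y) ⊆ Set.range (fun n : ℕ => p ^ i * n) := by
  intro N hN
  have : p ^ i ∣ N := by
    by_contra h
    exact hN (by unfold rspT; rw [if_neg h])
  obtain ⟨n, rfl⟩ := this
  exact ⟨n, rfl⟩

theorem rspT_inj {p : ℕ} (hp : 0 < p) (i : ℕ) : Function.Injective (fun n : ℕ => p ^ i * n) :=
  fun _ _ h => Nat.eq_of_mul_eq_mul_left (pow_pos hp i) h

theorem rspT_summable {k : ℕ} {a : ℕ → ℝ} (H : HData k a) (m : ℕ) {p : ℕ} (hp : 0 < p) (i : ℕ)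
    {y : ℝ} (hy : 0 < y) : Summable (rspT k a m p i y) := by
  rw [← (rspT_inj hp i).summable_iff (f := rspT k a m p i y)]
  · have h0 : (0 : ℝ) < (p : ℝ) ^ i * y := by
      have : (0 : ℝ) < p := by exact_mod_cast hp
      positivity
    have h1 := (rsp_summable H m h0).mul_left (((p : ℝ) ^ (k - 1)) ^ i)
    refine h1.congr fun n => ?_
    show _ = rspT k a m p i y (p ^ i * n)
    rw [rspT_mul k a m hp i y n]
  · intro N hN
    by_contra h
    exact hN (rspT_support k a m p i y h)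

theorem rsp_Dm {k : ℕ} (hk : 0 < k) (a : ℕ → ℝ) (m : ℕ) {p : ℕ} (hp : 0 < p) (i : ℕ) (y : ℝ) :
    Dm k a m (p ^ i * y) / p ^ i = y ^ k * ∑' N, rspT k a m p i y N := by
  have hp0 : (p : ℝ) ≠ 0 := by exact_mod_cast hp.ne'
  rw [← (rspT_inj hp i).tsum_eq (rspT_support k a m p i y)]
  have h1 : (fun n : ℕ => rspT k a m p i y (p ^ i * n)) = fun n : ℕ =>
      ((p : ℝ) ^ (k - 1)) ^ i * ((am a m n) ^ 2 * Real.exp (-4 * Real.pi * n * (p ^ i * y))) :=
    funext fun n => rspT_mul k a m hp i y n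
  rw [h1, tsum_mul_left]
  unfold Dm
  have h2 : ((p : ℝ) ^ i * y) ^ k / (p : ℝ) ^ i = y ^ k * ((p : ℝ) ^ (k - 1)) ^ i := by
    obtain ⟨k', rfl⟩ : ∃ k', k = k' + 1 := ⟨k - 1, by omega⟩
    rw [Nat.add_sub_cancel, mul_pow, div_eq_iff (pow_ne_zero i hp0)]
    ring
  calc (((p : ℝ) ^ i * y) ^ k * ∑' n : ℕ, (am a m n) ^ 2 * Real.exp (-4 * Real.pi * n * (p ^ i * y))) /
        (p : ℝ) ^ i = (((p : ℝ) ^ i * y) ^ k / (p : ℝ) ^ i) *
          ∑' n : ℕ, (am a m n) ^ 2 * Real.exp (-4 * Real.pi * n * (p ^ i * y)) := by ring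
    _ = _ := by rw [h2]; ring

theorem rsp_am_pow {k : ℕ} {a : ℕ → ℝ} (H : HData k a) {m p : ℕ} (hp : p.Prime) (hpm : ¬ p ∣ m)
    (r n : ℕ) (hn : ¬ p ∣ n) : am a m (p ^ r * n) = a (p ^ r) * am a m n := by
  unfold am
  have hc : (p ^ r).Coprime m := Nat.Coprime.pow_left r ((Nat.Prime.coprime_iff_not_dvd hp).mpr hpm)
  have h1 : (p ^ r * n).Coprime m ↔ n.Coprime m := by
    rw [Nat.coprime_mul_iff_left]
    exact ⟨fun h => h.2, fun h => ⟨hc, h⟩⟩
  have h2 : (p ^ r).Coprime n := Nat.Coprime.pow_left r ((Nat.Prime.coprime_iff_not_dvd hp).mpr hn)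
  by_cases h : n.Coprime m
  · rw [if_pos (h1.mpr h), if_pos h, H.mul _ _ h2]
  · rw [if_neg (fun h' => h (h1.mp h')), if_neg h, mul_zero]

theorem rsp_am_mul {a : ℕ → ℝ} {m p : ℕ} (hp : p.Prime)
    (r n : ℕ) (hn : ¬ p ∣ n) : am a (m * p) (p ^ r * n) = if r = 0 then am a m n else 0 := by
  unfold am
  by_cases hr : r = 0
  · subst hr
    rw [if_pos rfl, pow_zero, one_mul]
    have : n.Coprime (m * p) ↔ n.Coprime m := by
      rw [Nat.coprime_mul_iff_right]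
      exact ⟨fun h => h.1, fun h => ⟨h, ((Nat.Prime.coprime_iff_not_dvd hp).mpr hn).symm⟩⟩
    simp only [this]
  · rw [if_neg hr, if_neg]
    intro h
    have h1 : p ∣ p ^ r * n := Dvd.dvd.mul_right (dvd_pow_self p hr) n
    have h2 : p ∣ m * p := Dvd.intro_left m rfl
    exact Nat.Prime.one_lt hp |>.ne' (Nat.eq_one_of_dvd_coprimes h h1 h2)

/-- the coefficient identity -/
theorem rsp_coeff {k : ℕ} {a : ℕ → ℝ} (H : HData k a) {m p : ℕ} (hp : p.Prime) (hpm : ¬ p ∣ m)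
    (y : ℝ) (N : ℕ) :
    rspT k a (m * p) p 0 y N + rspT k a (m * p) p 1 y N =
      rspT k a m p 0 y N - ((a p) ^ 2 / (p : ℝ) ^ (k - 1) - 1) * rspT k a m p 1 y N +
        ((a p) ^ 2 / (p : ℝ) ^ (k - 1) - 1) * rspT k a m p 2 y N - rspT k a m p 3 y N := by
  have hp0 : (p : ℝ) ≠ 0 := by exact_mod_cast hp.pos.ne'
  by_cases hN : N = 0
  · subst hN
    have hz : ∀ (m i : ℕ), rspT k a m p i y 0 = 0 := by
      intro m i
      have : am a m 0 = 0 := by
        unfold am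
        split_ifs
        · exact H.zero
        · rfl
      unfold rspT
      simp [this]
    simp [hz]
  · obtain ⟨r, n, hn, rfl⟩ : ∃ r n, ¬ p ∣ n ∧ N = p ^ r * n := by
      obtain ⟨r, n, hn, h⟩ := Nat.exists_eq_pow_mul_and_not_dvd hN p hp.ne_one
      exact ⟨r, n, hn, h⟩
    set X : ℝ := Real.exp (-4 * Real.pi * ((p ^ r * n : ℕ) : ℝ) * y) with hX
    set P : ℝ := (p : ℝ) ^ (k - 1) with hP
    have hP0 : P ≠ 0 := pow_ne_zero _ hp0
    -- value of the terms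
    have hT : ∀ (m' i : ℕ), rspT k a m' p i y (p ^ r * n) =
        if i ≤ r then P ^ i * (am a m' (p ^ (r - i) * n)) ^ 2 * X else 0 := by
      intro m' i
      unfold rspT
      by_cases hi : i ≤ r
      · have h1 : p ^ r * n = p ^ i * (p ^ (r - i) * n) := by
          rw [← mul_assoc, ← pow_add, Nat.add_sub_cancel' hi]
        rw [if_pos hi, if_pos (by rw [h1]; exact Dvd.intro _ rfl)]
        rw [show p ^ r * n / p ^ i = p ^ (r - i) * n by
          conv_lhs => rw [h1]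
          exact Nat.mul_div_cancel_left _ (pow_pos hp.pos i)]
      · rw [if_neg hi, if_neg]
        intro hd
        have h2 : p ^ r * p ∣ p ^ r * n := by
          rw [← pow_succ]
          exact (pow_dvd_pow p (by omega)).trans hd
        exact hn (Nat.dvd_of_mul_dvd_mul_left (pow_pos hp.pos r) h2)
    simp only [hT]
    simp only [rsp_am_pow H hp hpm _ n hn, rsp_am_mul hp _ n hn]
    have hone : a (p ^ 0) = 1 := by rw [pow_zero]; exact H.one
    have ha1 : a (p ^ 1) = a p := by rw [pow_one]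
    rcases r with _ | _ | _ | r
    · simp [hone, H.one]
    · simp only [zero_add, Nat.zero_le, le_refl, if_true, Nat.sub_zero, Nat.sub_self,
        show ¬ (2 : ℕ) ≤ 1 by norm_num, show ¬ (3 : ℕ) ≤ 1 by norm_num, if_false, hone, ha1,
        one_ne_zero, pow_zero, pow_one, H.one]
      field_simp
      ring
    · have h2 := H.hecke p 0 hp
      simp only [zero_add, hone, ha1] at h2
      simp only [zero_add, Nat.zero_le, le_refl, if_true, Nat.sub_zero, Nat.sub_self, Nat.reduceAdd,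
        show (1 : ℕ) ≤ 2 by norm_num, show ¬ (3 : ℕ) ≤ 2 by norm_num, if_false, hone, ha1, h2,
        show (2 : ℕ) - 1 = 1 by norm_num, one_ne_zero, show (2 : ℕ) ≠ 0 by norm_num,
        pow_zero, pow_one, H.one]
      rw [← hP]
      field_simp
      ring
    · have e1 : r + 1 + 1 + 1 = r + 3 := by ring
      rw [e1]
      have h2 := H.hecke p (r + 1) hp
      have h1 := H.hecke p r hp
      rw [show r + 1 + 2 = r + 3 by ring, show r + 1 + 1 = r + 2 by ring] at h2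
      have f0 : (0 : ℕ) ≤ r + 3 := Nat.zero_le _
      have f1 : (1 : ℕ) ≤ r + 3 := by omega
      have f2 : (2 : ℕ) ≤ r + 3 := by omega
      have f3 : (3 : ℕ) ≤ r + 3 := by omega
      have g0 : r + 3 - 0 = r + 3 := by omega
      have g1 : r + 3 - 1 = r + 2 := by omega
      have g2 : r + 3 - 2 = r + 1 := by omega
      have g3 : r + 3 - 3 = r := by omega
      simp only [f0, f1, f2, f3, if_true, g0, g1, g2, g3, show r + 3 ≠ 0 by omega,
        show r + 2 ≠ 0 by omega, if_false, pow_zero, pow_one]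
      rw [h2, h1, ← hP]
      field_simp
      ring

/-- block RSP -/
theorem Dm_peel_pr {k : ℕ} {a : ℕ → ℝ} (H : HData k a) {m p : ℕ} (hp : p.Prime) (hpm : ¬ p ∣ m)
    {y : ℝ} (hy : 0 < y) :
    Dm k a (m * p) y + Dm k a (m * p) (p * y) / p =
      Dm k a m y - ((a p) ^ 2 / (p : ℝ) ^ (k - 1) - 1) * Dm k a m (p * y) / p +
        ((a p) ^ 2 / (p : ℝ) ^ (k - 1) - 1) * Dm k a m (p ^ 2 * y) / p ^ 2 -
        Dm k a m (p ^ 3 * y) / p ^ 3 := by
  have hk := H.kpos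
  have h0 : ∀ m' : ℕ, Dm k a m' y = y ^ k * ∑' N, rspT k a m' p 0 y N := by
    intro m'
    have := rsp_Dm hk a m' hp.pos 0 y
    simpa using this
  have h1 : ∀ m' : ℕ, Dm k a m' (p * y) / p = y ^ k * ∑' N, rspT k a m' p 1 y N := by
    intro m'
    have := rsp_Dm hk a m' hp.pos 1 y
    simpa using this
  have h2 := rsp_Dm hk a m hp.pos 2 y
  have h3 := rsp_Dm hk a m hp.pos 3 y
  have S : ∀ (m' i : ℕ), Summable (rspT k a m' p i y) := fun m' i => rspT_summable H m' hp.pos i hy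
  rw [mul_div_assoc, mul_div_assoc, h0, h0, h1, h1, h2, h3]
  set e : ℝ := (a p) ^ 2 / (p : ℝ) ^ (k - 1) - 1 with he
  have key : (∑' N, rspT k a (m * p) p 0 y N) + (∑' N, rspT k a (m * p) p 1 y N) =
      (∑' N, rspT k a m p 0 y N) - e * (∑' N, rspT k a m p 1 y N) +
        e * (∑' N, rspT k a m p 2 y N) - ∑' N, rspT k a m p 3 y N := by
    rw [← (S _ 0).tsum_add (S _ 1), ← tsum_mul_left, ← tsum_mul_left,
      ← (S m 0).tsum_sub ((S m 1).mul_left e),
      ← ((S m 0).sub ((S m 1).mul_left e)).tsum_add ((S m 2).mul_left e),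
      ← (((S m 0).sub ((S m 1).mul_left e)).add ((S m 2).mul_left e)).tsum_sub (S m 3)]
    exact tsum_congr fun N => rsp_coeff H hp hpm y N
  linear_combination (y ^ k) * key

end Pool.Agent.GL2
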