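import Pool.Agent.Lib_helper68.GL2.Defs

/-! Block WT (helper80): the smooth weight (after helper24's BUMP and FLIP). -/

namespace Pool.Agent.GL2

open Complex MeasureTheory Filter Topology
open scoped MatrixGroups FourierTransform ContDiff

/-- Fubini (helper24) -/
theorem wt_flip (w : ℝ → ℝ) (hw : Continuous w) (hc : HasCompactSupport w) (f : ℝ → ℂ)
    (hf : Integrable f) :
    ∫ t : ℝ, (w t : ℂ) * (∫ u : ℝ, f u * cexp (t * u * I)) = ∫ u : ℝ, f u * hatw w u := by
  have hwi : Integrable (fun t => (w t : ℂ)) :=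
    (hw.integrable_of_hasCompactSupport hc).ofReal
  have hprod : Integrable (fun z : ℝ × ℝ => (w z.1 : ℂ) * f z.2) (volume.prod volume) :=
    hwi.mul_prod hf
  have hcont : Continuous (fun z : ℝ × ℝ => cexp ((z.1 : ℂ) * (z.2 : ℂ) * I)) := by
    fun_prop
  have hint : Integrable (Function.uncurry fun (t u : ℝ) => (w t : ℂ) * (f u * cexp (t * u * I)))
      (volume.prod volume) := by
    refine hprod.mono ?_ ?_
    · have h1 := hprod.1.mul hcont.aestronglyMeasurable
      refine h1.congr (ae_of_all _ ?_)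
      intro z
      simp only [Pi.mul_apply, Function.uncurry]
      ring
    · refine ae_of_all _ ?_
      intro z
      have h2 : ‖cexp ((z.1 : ℂ) * (z.2 : ℂ) * I)‖ = 1 := by
        rw [← ofReal_mul]
        exact norm_exp_ofReal_mul_I _
      simp only [Function.uncurry, norm_mul, h2, mul_one]
      exact le_rfl
  calc ∫ t : ℝ, (w t : ℂ) * (∫ u : ℝ, f u * cexp (t * u * I))
      = ∫ t : ℝ, ∫ u : ℝ, (w t : ℂ) * (f u * cexp (t * u * I)) := by
        congr 1
        ext t
        rw [integral_const_mul]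
    _ = ∫ u : ℝ, ∫ t : ℝ, (w t : ℂ) * (f u * cexp (t * u * I)) :=
        integral_integral_swap hint
    _ = ∫ u : ℝ, f u * hatw w u := by
        congr 1
        ext u
        rw [hatw, ← integral_const_mul]
        congr 1
        ext t
        ring

theorem wt_decay (w : ℝ → ℝ) (hw : ContDiff ℝ ∞ w) (hc : HasCompactSupport w) :
    ∃ C : ℝ, ∀ u : ℝ, ‖hatw w u‖ ≤ C / (1 + u ^ 2) := by
  have h1 : ContDiff ℝ ∞ (fun t => ((w t : ℝ) : ℂ)) := Complex.ofRealCLM.contDiff.comp hw
  have h2 : HasCompactSupport (fun t => ((w t : ℝ) : ℂ)) := by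
    refine hc.comp_left (g := fun x : ℝ => (x : ℂ)) (by simp)
  set g : SchwartzMap ℝ ℂ := h2.toSchwartzMap h1 with hg
  have h4 : hatw w = fun u : ℝ => (𝓕 g : SchwartzMap ℝ ℂ) ((-(1 / (2 * Real.pi))) * u) := by
    funext u
    rw [SchwartzMap.fourier_coe, Real.fourier_real_eq_integral_exp_smul]
    unfold hatw
    refine integral_congr_ae (Eventually.of_forall fun t => ?_)
    simp only [hg, smul_eq_mul]
    rw [mul_comm]
    congr 2
    have : (Real.pi : ℂ) ≠ 0 := by exact_mod_cast Real.pi_ne_zero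
    push_cast
    field_simp
  obtain ⟨C0, hC0⟩ := (𝓕 g : SchwartzMap ℝ ℂ).decay 0 0
  obtain ⟨C2, hC2⟩ := (𝓕 g : SchwartzMap ℝ ℂ).decay 2 0
  refine ⟨C0 + (2 * Real.pi) ^ 2 * C2, fun u => ?_⟩
  rw [le_div_iff₀ (by positivity), h4]
  have e0 := hC0.2 ((-(1 / (2 * Real.pi))) * u)
  have e2 := hC2.2 ((-(1 / (2 * Real.pi))) * u)
  rw [norm_iteratedFDeriv_zero, pow_zero, one_mul] at e0
  rw [norm_iteratedFDeriv_zero] at e2
  have h5 : ‖(-(1 / (2 * Real.pi))) * u‖ ^ 2 = u ^ 2 / (2 * Real.pi) ^ 2 := by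
    rw [Real.norm_eq_abs, sq_abs]
    have := Real.pi_ne_zero
    field_simp
  rw [h5] at e2
  set N := ‖(𝓕 g : SchwartzMap ℝ ℂ) ((-(1 / (2 * Real.pi))) * u)‖
  have hpi : 0 < (2 * Real.pi) ^ 2 := by positivity
  have h6 : u ^ 2 * N ≤ (2 * Real.pi) ^ 2 * C2 := by
    have h7 := mul_le_mul_of_nonneg_left e2 hpi.le
    have h8 : (2 * Real.pi) ^ 2 * (u ^ 2 / (2 * Real.pi) ^ 2 * N) = u ^ 2 * N := by
      field_simp
    rw [h8] at h7
    exact h7
  linarith

/-- the test function `e^{ku/2} exp(-2π e^u)` -/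
noncomputable def wt_F (k : ℕ) (u : ℝ) : ℂ :=
  ((Real.exp (k * u / 2) * Real.exp (-2 * Real.pi * Real.exp u) : ℝ) : ℂ)

theorem wt_gamma (k : ℕ) (hk : 0 < k) (t : ℝ) :
    Integrable (wt_F k) ∧ ∫ u : ℝ, wt_F k u * cexp (t * u * I) =
      (1 / (2 * Real.pi : ℂ)) ^ ((k : ℂ) / 2 + t * I) * Gamma ((k : ℂ) / 2 + t * I) := by
  have hk' : (0 : ℝ) < k := by exact_mod_cast hk
  have himg : Real.exp '' Set.univ = Set.Ioi 0 := by
    rw [Set.image_univ, Real.range_exp]
  have hder : ∀ x ∈ (Set.univ : Set ℝ), HasDerivWithinAt Real.exp (Real.exp x) Set.univ x :=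
    fun x _ => (Real.hasDerivAt_exp x).hasDerivWithinAt
  have hinj : Set.InjOn Real.exp Set.univ := Real.exp_injective.injOn
  have hpow : ∀ (s : ℂ) (u : ℝ), |Real.exp u| • (((Real.exp u : ℝ) : ℂ) ^ (s - 1) *
      cexp (-((2 * Real.pi : ℝ) : ℂ) * ((Real.exp u : ℝ) : ℂ))) =
      cexp (s * u) * cexp (-((2 * Real.pi : ℝ) : ℂ) * ((Real.exp u : ℝ) : ℂ)) := by
    intro s u
    have hne : ((Real.exp u : ℝ) : ℂ) ≠ 0 := by exact_mod_cast (Real.exp_pos u).ne'
    rw [abs_of_pos (Real.exp_pos u), Complex.real_smul, ← mul_assoc, Complex.cpow_sub _ _ hne,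
      Complex.cpow_one, mul_div_cancel₀ _ hne]
    congr 1
    rw [Complex.cpow_def_of_ne_zero hne, ← Complex.ofReal_log (Real.exp_pos u).le, Real.log_exp]
    congr 1
    ring
  have hFe : ∀ (s : ℝ) (u : ℝ), wt_F k u * cexp (s * u * I) =
      cexp (((k : ℂ) / 2 + s * I) * u) *
        cexp (-((2 * Real.pi : ℝ) : ℂ) * ((Real.exp u : ℝ) : ℂ)) := by
    intro s u
    unfold wt_F
    push_cast
    rw [← Complex.exp_add, ← Complex.exp_add, ← Complex.exp_add]
    congr 1
    ring
  have hre : ∀ s : ℝ, ((k : ℂ) / 2 + s * I).re = (k : ℝ) / 2 := by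
    intro s
    simp
  constructor
  · -- integrability
    have h1 : IntegrableOn (fun x : ℝ => (x : ℂ) ^ ((k : ℂ) / 2 + (0 : ℝ) * I - 1) *
        cexp (-((2 * Real.pi : ℝ) : ℂ) * (x : ℂ))) (Set.Ioi 0) := by
      have h2 : IntegrableOn (fun x : ℝ => Real.exp (-(2 * Real.pi) * x) * x ^ ((k : ℝ) / 2 - 1))
          (Set.Ioi 0) := by
        have h3 := integrableOn_rpow_mul_exp_neg_mul_rpow (p := 1) (s := (k : ℝ) / 2 - 1)
          (b := 2 * Real.pi) (by linarith) one_pos (by positivity)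
        refine h3.congr_fun (fun x _ => ?_) measurableSet_Ioi
        simp only [Real.rpow_one]
        ring
      have h3 : IntegrableOn (fun x : ℝ =>
          ((Real.exp (-(2 * Real.pi) * x) * x ^ ((k : ℝ) / 2 - 1) : ℝ) : ℂ)) (Set.Ioi 0) :=
        h2.ofReal
      refine h3.congr_fun (fun x hx => ?_) measurableSet_Ioi
      have hx0 : (0 : ℝ) ≤ x := le_of_lt hx
      change ((Real.exp (-(2 * Real.pi) * x) * x ^ ((k : ℝ) / 2 - 1) : ℝ) : ℂ) = _
      rw [Complex.ofReal_mul, Complex.ofReal_cpow hx0, Complex.ofReal_exp]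
      push_cast
      rw [mul_comm]
      congr 2
      ring
    rw [← himg, integrableOn_image_iff_integrableOn_abs_deriv_smul MeasurableSet.univ hder hinj,
      integrableOn_univ] at h1
    simp only [hpow] at h1
    refine h1.congr (ae_of_all _ fun u => ?_)
    simp only
    rw [← hFe 0 u]
    simp
  · have h1 := Complex.integral_cpow_mul_exp_neg_mul_Ioi (a := (k : ℂ) / 2 + t * I)
      (r := 2 * Real.pi) (by rw [hre]; positivity) (by positivity)
    have h2 : ∫ x : ℝ in Set.Ioi 0, (x : ℂ) ^ ((k : ℂ) / 2 + t * I - 1) *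
        cexp (-((2 * Real.pi : ℝ) : ℂ) * (x : ℂ)) =
        (1 / (2 * Real.pi : ℂ)) ^ ((k : ℂ) / 2 + t * I) * Gamma ((k : ℂ) / 2 + t * I) := by
      rw [show (2 * Real.pi : ℂ) = ((2 * Real.pi : ℝ) : ℂ) by push_cast; rfl, ← h1]
      refine setIntegral_congr_fun measurableSet_Ioi (fun x _ => ?_)
      rw [neg_mul]
    rw [← h2, ← himg, integral_image_eq_integral_abs_deriv_smul MeasurableSet.univ hder hinj,
      setIntegral_univ]
    refine integral_congr_ae (ae_of_all _ fun u => ?_)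
    simp only
    rw [hpow, hFe]

/-- block WT -/
theorem exists_Wt_pr {k : ℕ} (hk : 0 < k) {α β : ℝ} (h : α < β) : Nonempty (Wt k α β) := by
  have hk' : (0 : ℝ) < k := by exact_mod_cast hk
  set γ : ℝ → ℂ := fun t => (1 / (2 * Real.pi : ℂ)) ^ ((k : ℂ) / 2 + t * I) *
    Gamma ((k : ℂ) / 2 + t * I) with hγ
  have hbase : (1 / (2 * Real.pi : ℂ)) ≠ 0 := by
    have : (Real.pi : ℂ) ≠ 0 := by exact_mod_cast Real.pi_ne_zero
    simp [this]
  have hre : ∀ t : ℝ, 0 < ((k : ℂ) / 2 + t * I).re := by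
    intro t
    have : ((k : ℂ) / 2 + t * I).re = (k : ℝ) / 2 := by simp
    rw [this]; positivity
  have hgne : ∀ t : ℝ, Gamma ((k : ℂ) / 2 + t * I) ≠ 0 := fun t => Gamma_ne_zero_of_re_pos (hre t)
  have hne : ∀ t, γ t ≠ 0 := fun t =>
    mul_ne_zero (by rw [Ne, Complex.cpow_eq_zero_iff]; tauto) (hgne t)
  have hcont : Continuous γ := by
    have h1 : Continuous (fun t : ℝ => (Gamma ((k : ℂ) / 2 + t * I))⁻¹) := by
      have := differentiable_one_div_Gamma.continuous
      exact this.comp (by fun_prop)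
    have h2 : Continuous (fun t : ℝ => Gamma ((k : ℂ) / 2 + t * I)) := by
      have h3 : (fun t : ℝ => Gamma ((k : ℂ) / 2 + t * I)) =
          fun t : ℝ => ((Gamma ((k : ℂ) / 2 + t * I))⁻¹)⁻¹ := by
        funext t; simp
      rw [h3]
      exact h1.inv₀ (fun t => inv_ne_zero (hgne t))
    refine Continuous.mul ?_ h2
    refine Continuous.const_cpow (by fun_prop) (Or.inl hbase)
  clear_value γ
  set t₀ : ℝ := (α + β) / 2 with ht₀
  set φ : ℝ → ℝ := fun t => (γ t * starRingEnd ℂ (γ t₀)).re with hφ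
  have hφc : Continuous φ := Complex.continuous_re.comp (hcont.mul continuous_const)
  have hφ0 : 0 < φ t₀ := by
    simp only [hφ]
    rw [Complex.mul_conj, Complex.ofReal_re]
    exact Complex.normSq_pos.2 (hne t₀)
  have hev : ∀ᶠ t in 𝓝 t₀, 0 < φ t := hφc.continuousAt.eventually (lt_mem_nhds hφ0)
  obtain ⟨δ, hδ0, hδ⟩ := Metric.eventually_nhds_iff.1 hev
  set R : ℝ := min (δ / 2) ((β - α) / 4) with hR
  have hR0 : 0 < R := lt_min (by linarith) (by linarith)
  have hRδ : R < δ := by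
    have := min_le_left (δ / 2) ((β - α) / 4)
    simp only [hR]; linarith
  have hRab : R ≤ (β - α) / 4 := min_le_right _ _
  let f : ContDiffBump t₀ := ⟨R / 2, R, by positivity, by linarith⟩
  have hfR : f.rOut = R := rfl
  have hfsupp : ∀ t, t ∉ Metric.ball t₀ R → f t = 0 := by
    intro t ht
    have : Function.support f = Metric.ball t₀ f.rOut := f.support_eq
    by_contra hcon
    have h1 : t ∈ Function.support f := hcon
    rw [this, hfR] at h1
    exact ht h1
  have hfγ : Continuous (fun t => (f t : ℂ) * γ t) :=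
    (Complex.continuous_ofReal.comp f.continuous).mul hcont
  have hfγc : HasCompactSupport (fun t => (f t : ℂ) * γ t) := by
    have h1 : HasCompactSupport (fun t => ((f t : ℝ) : ℂ)) :=
      f.hasCompactSupport.comp_left (g := fun x : ℝ => (x : ℂ)) (by simp)
    exact h1.mul_right
  have hint : Integrable (fun t => (f t : ℂ) * γ t) := hfγ.integrable_of_hasCompactSupport hfγc
  have hJ : (∫ t : ℝ, (f t : ℂ) * γ t) ≠ 0 := by
    intro h0
    have h1 : (∫ t : ℝ, f t * φ t) = 0 := by
      have h2 : (∫ t : ℝ, ((f t : ℂ) * γ t) * starRingEnd ℂ (γ t₀)) = 0 := by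
        rw [integral_mul_const, h0, zero_mul]
      have h3 := congrArg Complex.re h2
      rw [← RCLike.re_eq_complex_re, ← integral_re] at h3
      · simp only [RCLike.re_eq_complex_re] at h3
        rw [Complex.zero_re] at h3
        rw [← h3]
        refine integral_congr_ae (Eventually.of_forall fun t => ?_)
        change f t * (γ t * starRingEnd ℂ (γ t₀)).re = ((f t : ℂ) * γ t * starRingEnd ℂ (γ t₀)).re
        rw [mul_assoc, Complex.re_ofReal_mul]
      · exact hint.mul_const _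
    have hcφ : Continuous (fun t => f t * φ t) := f.continuous.mul hφc
    have hnn : ∀ t, 0 ≤ f t * φ t := by
      intro t
      by_cases ht : t ∈ Metric.ball t₀ R
      · refine mul_nonneg f.nonneg (hδ ?_).le
        rw [Metric.mem_ball] at ht
        linarith
      · rw [hfsupp t ht, zero_mul]
    have hi : Integrable (fun t => f t * φ t) :=
      hcφ.integrable_of_hasCompactSupport (f.hasCompactSupport.mul_right)
    have hpos : 0 < ∫ t : ℝ, f t * φ t := by
      rw [integral_pos_iff_support_of_nonneg hnn hi]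
      have hopen : IsOpen (Function.support (fun t => f t * φ t)) := hcφ.isOpen_support
      refine hopen.measure_pos volume ⟨t₀, ?_⟩
      rw [Function.mem_support]
      refine mul_ne_zero ?_ hφ0.ne'
      have : f t₀ = 1 := f.one_of_mem_closedBall (by simp [f.rIn_pos.le])
      rw [this]; exact one_ne_zero
    rw [h1] at hpos
    exact lt_irrefl _ hpos
  obtain ⟨C, hC⟩ := wt_decay f f.contDiff f.hasCompactSupport
  refine ⟨⟨f, f.continuous, f.hasCompactSupport, fun t => f.nonneg, ?_, C, hC, ?_⟩⟩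
  · intro t ht
    apply hfsupp
    intro hb
    apply ht
    rw [Metric.mem_ball, Real.dist_eq, abs_lt] at hb
    constructor
    · simp only [ht₀] at hb; linarith [hb.1]
    · simp only [ht₀] at hb; linarith [hb.2]
  · have h1 := wt_flip f f.continuous f.hasCompactSupport (wt_F k) (wt_gamma k hk 0).1
    have h2 : (∫ u : ℝ, hatw f u *
        ((Real.exp (k * u / 2) * Real.exp (-2 * Real.pi * Real.exp u) : ℝ) : ℂ)) =
        ∫ t : ℝ, (f t : ℂ) * γ t := by
      have h3 : ∀ t : ℝ, (f t : ℂ) * γ t =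
          (f t : ℂ) * (∫ u : ℝ, wt_F k u * cexp (t * u * I)) := by
        intro t
        rw [(wt_gamma k hk t).2, hγ]
      simp_rw [h3]
      rw [h1]
      refine integral_congr_ae (ae_of_all _ fun u => ?_)
      simp only [wt_F]
      ring
    rw [h2]
    exact hJ

end Pool.Agent.GL2
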