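import Pool.Agent.Lib_helper68.GL2.BAS
import Pool.Agent.Lib_helper68.GL2.MSB
import Pool.Agent.Lib_helper68.GL2.OFF
import Pool.Agent.Lib_helper68.GL2.WT
import Pool.Agent.Lib_helper68.GL2.LAM2
import Pool.Agent.Lib_helper68.GL2.KEY
import Pool.Agent.Lib_helper68.GL2.ODD
import Pool.Agent.Lib_helper68.GL2.APX
import Pool.Agent.Lib_helper68.GL2.RSB
import Pool.Agent.Lib_helper68.GL2.RSP
import Pool.Agent.Lib_helper68.GL2.RSF
import Pool.Agent.Lib_helper68.GL2.MFD

namespace Pool.Agent.GL2

alias summable_a := summable_a_pr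
alias qs_decay := qs_decay_pr
alias parseval := parseval_pr
alias Dm_le := Dm_le_pr
alias msb := msb_pr
alias off := off_pr
alias exists_Wt := exists_Wt_pr
alias dens_neg := dens_neg_pr
alias dens_decay := dens_decay_pr
alias dens_continuous := dens_continuous_pr
alias exists_completedL := exists_completedL_pr
alias completedL_unique := completedL_unique_pr
alias key_ineq := key_ineq_pr
alias phase_odd := phase_odd_pr
alias approx := approx_pr
alias NN_tendsto := NN_tendsto_pr
alias NN_le := NN_le_pr
alias Dm_peel := Dm_peel_pr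
alias hdata_of_eigenform := hdata_of_eigenform_pr

end Pool.Agent.GL2
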